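import Pool.Agent.SchubU.Val

/-!
The positive superharmonic function on the affine permutations.
-/

set_option autoImplicit false

namespace Pool.Agent.Schub.Aff

open MvPolynomial

variable {N : ℕ}

/-- Affine permutations: the letter at every position. -/
structure AP (N : ℕ) where
  v : ℤ → ℤ
  per : ∀ i, v (i + N) = v i + N
  inj : Function.Injective v

theorem AP.ext' {a b : AP N} (h : a.v = b.v) : a = b := by
  cases a; cases b; simp only at h; subst h; rfl

/-- The letters of a row with elbow at `e`: the cells `N - 2, …, 0` of `S` in this order (the head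
of the list acts last), the cell `c` exchanges the positions `e + 1 + c` and `e + 2 + c`. -/
def rowL (N : ℕ) (e : ℤ) (S : Finset ℕ) : List (ZMod N) :=
  ((List.range (N - 1)).filter (fun c => decide (c ∈ S))).map
    (fun c : ℕ => ((e + 1 + c : ℤ) : ZMod N))

/-- All exchanges of the row are exchanges of increasing letters. -/
def RowOK (e : ℤ) (S : Finset ℕ) (v : AP N) : Prop := Asc v.v (rowL N e S)

/-- The affine permutation after the row (for `3 ≤ N`). -/
def rowEnd (hN : 3 ≤ N) (e : ℤ) (S : Finset ℕ) (v : AP N) : AP N where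
  v := run v.v (rowL N e S)
  per := Slope.run v.per (rowL N e S)
  inj := run_inj hN v.inj (rowL N e S)

/-- The step at one letter. -/
def stepAP (hN : 3 ≤ N) (k : ZMod N) (v : AP N) : AP N where
  v := run v.v [k]
  per := Slope.run v.per [k]
  inj := run_inj hN v.inj [k]

theorem exists_rep (hN : 3 ≤ N) [NeZero N] (v : AP N) :
    ∃ p : (ℤ → ℤ) × List (ZMod N), Slope N N p.1 ∧ StrictMono p.1 ∧ Asc p.1 p.2 ∧
      run p.1 p.2 = v.v := by
  obtain ⟨u, w, h1, h2, h3, h4⟩ := exists_sort hN _ v.v v.per v.inj rfl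
  exact ⟨(u, w), h1, h2, h3, h4⟩

open Classical in
/-- The function. -/
noncomputable def ff [NeZero N] (kap : ℝ) (v : AP N) : ℝ :=
  if h : ∃ p : (ℤ → ℤ) × List (ZMod N), Slope N N p.1 ∧ StrictMono p.1 ∧ Asc p.1 p.2 ∧
      run p.1 p.2 = v.v then val kap h.choose.1 h.choose.2 else 0

theorem ff_eq (hN : 3 ≤ N) [NeZero N] (kap : ℝ) (v : AP N) (u : ℤ → ℤ) (w : List (ZMod N))
    (h1 : Slope N N u) (h2 : StrictMono u) (h3 : Asc u w) (h4 : run u w = v.v) :
    ff kap v = val kap u w := by
  have h := exists_rep hN v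
  unfold ff
  rw [dif_pos h]
  obtain ⟨a1, a2, a3, a4⟩ := h.choose_spec
  obtain ⟨b1, b2, b3⟩ := uniq hN a1 a2 h1 h2 _ _ a3 h3 (by rw [a4, h4])
  unfold val EE
  rw [b1, b2, b3]

theorem val_nonneg (hN : 3 ≤ N) [NeZero N] {kap : ℝ} (hk : 0 ≤ kap) {u : ℤ → ℤ}
    (hu : Slope N N u) (hm : StrictMono u) (w : List (ZMod N)) : 0 ≤ val kap u w := by
  unfold val
  have h : (0 : ℝ) ≤ (EE (N : ℤ) u w w.length : ℝ) := by
    exact_mod_cast EE_nonneg hN hu hm.monotone w.length w
  positivity

theorem ff_nonneg (hN : 3 ≤ N) [NeZero N] {kap : ℝ} (hk : 0 ≤ kap) (v : AP N) : 0 ≤ ff kap v := by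
  obtain ⟨p, h1, h2, h3, h4⟩ := exists_rep hN v
  rw [ff_eq hN kap v p.1 p.2 h1 h2 h3 h4]
  exact val_nonneg hN hk h1 h2 _

/-! ### rows -/

/-- The set of letters of a row. -/
def letS (N : ℕ) (e : ℤ) (S : Finset ℕ) : Finset (ZMod N) :=
  S.image (fun c : ℕ => ((e + 1 + c : ℤ) : ZMod N))

theorem cast_inj {a b : ℕ} (ha : a < N) (hb : b < N) (e : ℤ)
    (h : ((e + 1 + a : ℤ) : ZMod N) = ((e + 1 + b : ℤ) : ZMod N)) : a = b := by
  rw [ZMod.intCast_eq_intCast_iff_dvd_sub] at h
  obtain ⟨m, hm⟩ := h
  have h1 : (b : ℤ) - a = N * m := by linarith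
  have hNpos : (0 : ℤ) < N := by omega
  have h2 : m = 0 := by
    by_contra hm0
    rcases lt_or_gt_of_ne hm0 with h | h
    · have : (N : ℤ) * m ≤ -N := by nlinarith
      omega
    · have : (N : ℤ) ≤ N * m := by nlinarith
      omega
  rw [h2, mul_zero] at h1
  omega

theorem mem_letS {e : ℤ} {S : Finset ℕ} (hS : S ⊆ Finset.range (N - 1)) {c : ℕ} (hc : c < N) :
    ((e + 1 + c : ℤ) : ZMod N) ∈ letS N e S ↔ c ∈ S := by
  unfold letS
  rw [Finset.mem_image]
  constructor
  · rintro ⟨d, hd, hdc⟩
    have h1 := Finset.mem_range.1 (hS hd)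
    have := cast_inj (by omega) hc e hdc
    rw [← this]
    exact hd
  · intro h
    exact ⟨c, h, rfl⟩

theorem rowL_eq (hN : 3 ≤ N) (e : ℤ) {S : Finset ℕ} (hS : S ⊆ Finset.range (N - 1)) :
    rowL N e S = rowW ((e : ℤ) : ZMod N) (letS N e S) := by
  unfold rowL rowW
  obtain ⟨M, hM⟩ : ∃ M, N = M + 1 := ⟨N - 1, by omega⟩
  have h1 : (List.range N).map (fun c : ℕ => ((e : ℤ) : ZMod N) + 1 + (c : ZMod N)) =
      (List.range N).map (fun c : ℕ => ((e + 1 + c : ℤ) : ZMod N)) := by
    apply List.map_congr_left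
    intro c _
    push_cast
    ring
  rw [h1, List.filter_map]
  congr 1
  have h2 : List.range N = List.range (N - 1) ++ [N - 1] := by
    have h3 : List.range ((N - 1) + 1) = List.range (N - 1) ++ [N - 1] := List.range_succ
    rw [Nat.sub_add_cancel (by omega : 1 ≤ N)] at h3
    exact h3
  rw [h2, List.filter_append]
  have h4 : List.filter ((fun k => decide (k ∈ letS N e S)) ∘
      fun c : ℕ => ((e + 1 + c : ℤ) : ZMod N)) [N - 1] = [] := by
    rw [List.filter_eq_nil_iff]
    intro a ha
    rw [List.mem_singleton] at ha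
    subst ha
    simp only [Function.comp, decide_eq_true_eq]
    rw [mem_letS hS (by omega)]
    intro h
    have := Finset.mem_range.1 (hS h)
    omega
  rw [h4, List.append_nil]
  apply List.filter_congr
  intro c hc
  rw [List.mem_range] at hc
  simp only [Function.comp]
  rw [decide_eq_decide]
  exact (mem_letS hS (by omega)).symm

theorem seam_not_mem (hN : 3 ≤ N) (e : ℤ) {S : Finset ℕ} (hS : S ⊆ Finset.range (N - 1)) :
    ((e : ℤ) : ZMod N) ∉ letS N e S := by
  have h : ((e : ℤ) : ZMod N) = ((e + 1 + ((N - 1 : ℕ) : ℤ) : ℤ) : ZMod N) := by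
    rw [Nat.cast_sub (by omega)]
    push_cast
    simp
  rw [h, mem_letS hS (by omega)]
  intro h2
  have := Finset.mem_range.1 (hS h2)
  omega

theorem card_letS (e : ℤ) {S : Finset ℕ} (hS : S ⊆ Finset.range (N - 1)) :
    (letS N e S).card = S.card := by
  unfold letS
  apply Finset.card_image_of_injOn
  intro a ha b hb hab
  have h1 := Finset.mem_range.1 (hS ha)
  have h2 := Finset.mem_range.1 (hS hb)
  exact cast_inj (by omega) (by omega) e hab

theorem letS_inj (e : ℤ) {S T : Finset ℕ} (hS : S ⊆ Finset.range (N - 1))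
    (hT : T ⊆ Finset.range (N - 1)) (h : letS N e S = letS N e T) : S = T := by
  ext c
  constructor
  · intro hc
    have h1 := Finset.mem_range.1 (hS hc)
    have h2 := (mem_letS (e := e) hS (by omega)).2 hc
    rw [h] at h2
    exact (mem_letS hT (by omega)).1 h2
  · intro hc
    have h1 := Finset.mem_range.1 (hT hc)
    have h2 := (mem_letS (e := e) hT (by omega)).2 hc
    rw [← h] at h2
    exact (mem_letS hS (by omega)).1 h2

/-- weight of a set of letters -/
noncomputable def gI [NeZero N] (kap : ℝ) (u : ℤ → ℤ) (w : List (ZMod N)) (I : Finset (ZMod N)) : ℝ :=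
  (kap / N) ^ (w.length + I.card) *
    (q0 (Aw (rowW (rowS I) I) (Aw w ((form N u : P N) ^ (w.length + I.card)))) : ℝ) /
    ((w.length + I.card).factorial : ℝ)

theorem gI_nonneg (hN : 3 ≤ N) [NeZero N] {kap : ℝ} (hk : 0 ≤ kap) {u : ℤ → ℤ}
    (hu : Slope N N u) (hm : StrictMono u) (w : List (ZMod N)) (I : Finset (ZMod N)) :
    0 ≤ gI kap u w I := by
  unfold gI
  have h : (0 : ℝ) ≤ (q0 (Aw (rowW (rowS I) I)
      (Aw w ((form N u : P N) ^ (w.length + I.card)))) : ℝ) := by
    have h2 := EE_nonneg hN hu hm.monotone (w.length + I.card) (rowW (rowS I) I ++ w)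
    unfold EE at h2
    rw [Aw_append] at h2
    exact_mod_cast h2
  positivity

theorem sum_gI (hN : 3 ≤ N) [NeZero N] {kap : ℝ} {u : ℤ → ℤ}
    (hu : Slope N N u) (w : List (ZMod N)) (j : ℕ) (hj : j < N) :
    ∑ I ∈ (Finset.univ : Finset (ZMod N)).powersetCard j, gI kap u w I =
      kap ^ j / (j.factorial : ℝ) * val kap u w := by
  have h := Phi_Aw_pow hN hu j hj w w.length
  have h1 : ∑ I ∈ (Finset.univ : Finset (ZMod N)).powersetCard j, gI kap u w I =
      (kap / N) ^ (w.length + j) / ((w.length + j).factorial : ℝ) *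
        ((Phi j (Aw w ((form N u : P N) ^ (w.length + j))) : ℤ) : ℝ) := by
    unfold Phi
    push_cast
    rw [Finset.mul_sum]
    apply Finset.sum_congr rfl
    intro I hI
    rw [Finset.mem_powersetCard] at hI
    unfold gI
    rw [hI.2]
    ring
  rw [h1, h]
  unfold val
  have hNpos : (0 : ℝ) < N := by
    have : 0 < N := by omega
    exact_mod_cast this
  have hch : ((w.length + j).choose j : ℝ) * (w.length.factorial : ℝ) * (j.factorial : ℝ) =
      ((w.length + j).factorial : ℝ) := by
    have := Nat.choose_mul_factorial_mul_factorial (show j ≤ w.length + j by omega)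
    rw [Nat.add_sub_cancel] at this
    have h4 : (((w.length + j).choose j * j.factorial * w.length.factorial : ℕ) : ℝ) =
      (((w.length + j).factorial : ℕ) : ℝ) := by rw [this]
    push_cast at h4
    linarith
  have hl0 : (0 : ℝ) < (w.length.factorial : ℝ) := by exact_mod_cast Nat.factorial_pos _
  have hj0 : (0 : ℝ) < (j.factorial : ℝ) := by exact_mod_cast Nat.factorial_pos _
  have hc0 : (0 : ℝ) < ((w.length + j).choose j : ℝ) := by
    exact_mod_cast Nat.choose_pos (by omega)
  rw [← hch, div_pow, div_pow, pow_add, pow_add]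
  push_cast
  field_simp

theorem row_le (hN : 3 ≤ N) [NeZero N] {kap : ℝ} (hk : 0 ≤ kap) (e : ℤ) (v : AP N) :
    open Classical in
    ∑ S ∈ (Finset.range (N - 1)).powerset.filter (fun S => RowOK e S v), ff kap (rowEnd hN e S v) ≤
      Real.exp kap * ff kap v := by
  classical
  obtain ⟨⟨u, w⟩, h1, h2, h3, h4⟩ := exists_rep hN v
  simp only at h1 h2 h3 h4
  rw [ff_eq hN kap v u w h1 h2 h3 h4]
  have hstep : ∀ S ∈ (Finset.range (N - 1)).powerset.filter (fun S => RowOK e S v),
      ff kap (rowEnd hN e S v) = gI kap u w (letS N e S) := by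
    intro S hS
    rw [Finset.mem_filter, Finset.mem_powerset] at hS
    obtain ⟨hS1, hS2⟩ := hS
    have h5 : run u (rowL N e S ++ w) = (rowEnd hN e S v).v := by
      rw [run_append, h4]
      rfl
    have h6 : Asc u (rowL N e S ++ w) := by
      rw [Asc_append, h4]
      exact ⟨h3, hS2⟩
    rw [ff_eq hN kap _ u _ h1 h2 h6 h5]
    have hlen : (rowL N e S).length = S.card := by
      unfold rowL
      rw [List.length_map]
      have e1 : (List.range (N - 1)).filter (fun c => decide (c ∈ S)) =
          (List.range (N - 1)).filter (fun c => decide (c ∈ S)) := rfl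
      have e2 := List.toFinset_card_of_nodup (List.Nodup.filter (fun c => decide (c ∈ S))
        (List.nodup_range (n := N - 1)))
      rw [← e2]
      congr 1
      ext c
      rw [List.mem_toFinset, List.mem_filter, List.mem_range, decide_eq_true_eq]
      constructor
      · exact fun h => h.2
      · exact fun h => ⟨Finset.mem_range.1 (hS1 h), h⟩
    unfold val gI
    rw [List.length_append, hlen, card_letS e hS1, add_comm S.card w.length]
    congr 2
    unfold EE
    rw [Aw_append, rowL_eq hN e hS1]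
    have h7 := seam_not_mem hN e hS1
    rw [rowW_indep hN h7 (rowS_not ⟨_, h7⟩)]
  rw [Finset.sum_congr rfl hstep]
  have hg := gI_nonneg hN hk h1 h2 w
  calc ∑ S ∈ (Finset.range (N - 1)).powerset.filter (fun S => RowOK e S v),
        gI kap u w (letS N e S)
      ≤ ∑ S ∈ (Finset.range (N - 1)).powerset, gI kap u w (letS N e S) :=
        Finset.sum_le_sum_of_subset_of_nonneg (Finset.filter_subset _ _) (fun S _ _ => hg _)
    _ = ∑ I ∈ (Finset.range (N - 1)).powerset.image (letS N e), gI kap u w I := by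
        rw [Finset.sum_image]
        intro S hS T hT hST
        exact letS_inj e (Finset.mem_powerset.1 hS) (Finset.mem_powerset.1 hT) hST
    _ ≤ ∑ I ∈ (Finset.univ : Finset (Finset (ZMod N))).filter (fun I => I.card ∈ Finset.range N),
          gI kap u w I := by
        apply Finset.sum_le_sum_of_subset_of_nonneg
        · intro I hI
          rw [Finset.mem_image] at hI
          obtain ⟨S, hS, rfl⟩ := hI
          rw [Finset.mem_powerset] at hS
          rw [Finset.mem_filter, card_letS e hS, Finset.mem_range]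
          have := Finset.card_le_card hS
          rw [Finset.card_range] at this
          exact ⟨Finset.mem_univ _, by omega⟩
        · intro I _ _
          exact hg I
    _ = ∑ j ∈ Finset.range N, ∑ I ∈ (Finset.univ : Finset (ZMod N)).powersetCard j,
          gI kap u w I := by
        rw [← Finset.sum_fiberwise_of_maps_to (s := (Finset.univ : Finset (Finset (ZMod N))).filter
          (fun I => I.card ∈ Finset.range N)) (t := Finset.range N) (g := fun I => I.card)
          (fun I hI => (Finset.mem_filter.1 hI).2)]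
        apply Finset.sum_congr rfl
        intro j hj
        apply Finset.sum_congr _ (fun _ _ => rfl)
        ext I
        rw [Finset.mem_filter, Finset.mem_filter, Finset.mem_powersetCard]
        constructor
        · rintro ⟨-, h⟩
          exact ⟨Finset.subset_univ _, h⟩
        · rintro ⟨-, h⟩
          exact ⟨⟨Finset.mem_univ _, by rw [h]; exact hj⟩, h⟩
    _ = ∑ j ∈ Finset.range N, kap ^ j / (j.factorial : ℝ) * val kap u w := by
        apply Finset.sum_congr rfl
        intro j hj
        exact sum_gI hN h1 w j (Finset.mem_range.1 hj)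
    _ = (∑ j ∈ Finset.range N, kap ^ j / (j.factorial : ℝ)) * val kap u w := by
        rw [Finset.sum_mul]
    _ ≤ Real.exp kap * val kap u w := by
        apply mul_le_mul_of_nonneg_right _ (val_nonneg hN hk h1 h2 _)
        exact Real.sum_le_exp_of_nonneg hk N

theorem step_le (hN : 3 ≤ N) [NeZero N] {kap : ℝ} (hk : 0 ≤ kap) (k : ZMod N) (v : AP N)
    (hg : 0 < gap v.v k) : ff kap (stepAP hN k v) ≤ Real.exp kap * ff kap v := by
  classical
  have h := row_le hN hk (rep k - 1) v
  have hrow : rowL N (rep k - 1) {0} = [k] := by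
    unfold rowL
    obtain ⟨M, hM⟩ : ∃ M, N - 1 = M + 1 := ⟨N - 2, by omega⟩
    rw [hM, List.range_succ_eq_map, List.filter_cons]
    have h1 : List.filter (fun c => decide (c ∈ ({0} : Finset ℕ))) (List.map Nat.succ (List.range M))
        = [] := by
      rw [List.filter_eq_nil_iff]
      intro a ha
      rw [List.mem_map] at ha
      obtain ⟨b, -, rfl⟩ := ha
      simp
    rw [h1]
    simp [rep_cast]
  have hok : RowOK (rep k - 1) {0} v := by
    unfold RowOK
    rw [hrow]
    exact ⟨trivial, hg⟩
  have hmem : ({0} : Finset ℕ) ∈ (Finset.range (N - 1)).powerset.filter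
      (fun S => RowOK (rep k - 1) S v) := by
    rw [Finset.mem_filter, Finset.mem_powerset]
    refine ⟨?_, hok⟩
    rw [Finset.singleton_subset_iff, Finset.mem_range]
    omega
  have h2 := Finset.single_le_sum (f := fun S => ff kap (rowEnd hN (rep k - 1) S v))
    (fun S _ => ff_nonneg hN hk _) hmem
  have h3 : rowEnd hN (rep k - 1) {0} v = stepAP hN k v := by
    apply AP.ext'
    simp only [rowEnd, stepAP, hrow]
  rw [h3] at h2
  exact le_trans h2 h

theorem steps_le (hN : 3 ≤ N) [NeZero N] {kap : ℝ} (hk : 0 ≤ kap) (x : List (ZMod N)) (v : AP N)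
    (hx : Asc v.v x) (v' : AP N) (hv' : v'.v = run v.v x) :
    ff kap v' ≤ Real.exp kap ^ x.length * ff kap v := by
  induction x generalizing v' with
  | nil =>
    have : v' = v := AP.ext' hv'
    rw [this]
    simp
  | cons k x ih =>
    let v1 : AP N := ⟨run v.v x, Slope.run v.per x, run_inj hN v.inj x⟩
    have h1 := ih hx.1 v1 rfl
    have h2 := step_le hN hk k v1 hx.2
    have h3 : v' = stepAP hN k v1 := by
      apply AP.ext'
      rw [hv']
      rfl
    rw [h3, List.length_cons, pow_succ]
    calc ff kap (stepAP hN k v1) ≤ Real.exp kap * ff kap v1 := h2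
      _ ≤ Real.exp kap * (Real.exp kap ^ x.length * ff kap v) :=
        mul_le_mul_of_nonneg_left h1 (Real.exp_pos _).le
      _ = _ := by ring

/-- The lower bound on decreasing windows. -/
theorem dec_lower (hN : 3 ≤ N) [NeZero N] {kap : ℝ} (hk : 0 < kap)
    (hD : ∀ r : ℕ, 1 ≤ r → r < N →
      ∏ i ∈ Finset.range r, ∏ j ∈ Finset.range (N - r), ((i : ℝ) + j + 1) ≤ kap ^ (r * (N - r)))
    (n : ℕ) : ∀ (u : ℤ → ℤ) (w : List (ZMod N)) (o : ℤ), w.length = n → Slope N N u →
      StrictMono u → Asc u w → Dec N o (run u w) →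
      (min 1 (kap / N)) ^ (N ^ 5) / ((N ^ 5).factorial : ℝ) ≤ val kap u w := by
  have hNpos : (0 : ℝ) < N := by
    have : 0 < N := by omega
    exact_mod_cast this
  induction n using Nat.strong_induction_on with
  | _ n ih =>
    intro u w o hn hu hm hw hd
    by_cases hg : ∀ i : ℕ, 1 ≤ i → i < N → run u w (o + i) - run u w (o + i + 1) ≤ N
    · have h1 := pot_le hN (hu.run w) o hd hg
      have h2 := length_le_pot hN hu (run u w (o + 1) - (o + 1)) w hw
      have h3 : w.length ≤ N ^ 5 := by
        have : (w.length : ℤ) ≤ (N : ℤ) ^ 5 := by omega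
        exact_mod_cast this
      have h4 : (1 : ℝ) ≤ (EE (N : ℤ) u w w.length : ℝ) := by
        exact_mod_cast EE_pos hN hu hm w hw
      unfold val
      have h5 : 0 < min 1 (kap / N) := lt_min one_pos (by positivity)
      have h6 : (min 1 (kap / N)) ^ (N ^ 5) ≤ (kap / N) ^ w.length := by
        calc (min 1 (kap / N)) ^ (N ^ 5) ≤ (min 1 (kap / N)) ^ w.length :=
              pow_le_pow_of_le_one h5.le (min_le_left _ _) h3
          _ ≤ (kap / N) ^ w.length := pow_le_pow_left₀ h5.le (min_le_right _ _) _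
      have h7 : (w.length.factorial : ℝ) ≤ ((N ^ 5).factorial : ℝ) := by
        exact_mod_cast Nat.factorial_le h3
      have h8 : (0 : ℝ) < (w.length.factorial : ℝ) := by exact_mod_cast Nat.factorial_pos _
      apply div_le_div₀ _ _ h8 h7
      · positivity
      · calc (min 1 (kap / N)) ^ (N ^ 5) ≤ (kap / N) ^ w.length := h6
          _ = (kap / N) ^ w.length * 1 := by ring
          _ ≤ _ := mul_le_mul_of_nonneg_left h4 (by positivity)
    · push Not at hg
      obtain ⟨r, hr1, hr2, hr3⟩ := hg
      have e0 : o - r + N + r - (N : ℤ) = o := by ring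
      obtain ⟨v', a1, a2, a3, a4⟩ := exists_TT_pred hN (hu.run w) (o - r + N) r hr1 hr2
        (by rw [e0]; exact hd) (by rw [e0]; linarith)
      set T := TT (((o - r + N : ℤ)) : ZMod N) (fun _ => N - r) r with hT
      have hinj : Function.Injective v' := by
        have h1 := run_reverse hN T.reverse v'
        rw [List.reverse_reverse, a4] at h1
        rw [← h1]
        exact run_inj hN (run_inj hN hm.injective w) _
      obtain ⟨u', w', b1, b2, b3, b4⟩ := exists_sort hN _ v' a1 hinj rfl
      have h1 : Asc u' (T ++ w') := by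
        rw [Asc_append, b4]
        exact ⟨b3, a3⟩
      have h2 : run u' (T ++ w') = run u w := by
        rw [run_append, b4, a4]
      obtain ⟨c1, c2, c3⟩ := uniq hN b1 b2 hu hm _ _ h1 hw h2
      have hTlen : T.length = r * (N - r) := by
        rw [hT, length_TT, Finset.sum_const, Finset.card_range, smul_eq_mul]
      have hTpos : 1 ≤ T.length := by
        rw [hTlen]
        exact Nat.mul_pos (by omega) (by omega)
      rw [List.length_append] at c1
      have h3 := ih w'.length (by omega) u' w' (o - r + N) rfl b1 b2 b3 (by rw [b4]; exact a2)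
      have h4 := val_TT hN hk hD b1 b2 w' b3 (o - r + N) (by rw [b4]; exact a2) r hr1 hr2
      have h5 : val kap u' (T ++ w') = val kap u w := by
        unfold val EE
        rw [List.length_append, c1, c2, c3]
      rw [← h5]
      exact le_trans h3 h4

/-- The main theorem of the affine part. -/
theorem aff_main (hN : 3 ≤ N) (kap : ℝ) (h1 : 1 ≤ kap)
    (hD : ∀ r : ℕ, 1 ≤ r → r < N →
      ∏ i ∈ Finset.range r, ∏ j ∈ Finset.range (N - r), ((i : ℝ) + j + 1) ≤ kap ^ (r * (N - r))) :
    ∃ (f : AP N → ℝ) (c : ℝ), 0 < c ∧ (∀ v, c ≤ f v) ∧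
      open Classical in
      ∀ (e : ℤ) (v : AP N),
        ∑ S ∈ (Finset.range (N - 1)).powerset.filter (fun S => RowOK e S v), f (rowEnd hN e S v) ≤
          Real.exp kap * f v := by
  have : NeZero N := ⟨by omega⟩
  have hNpos : (0 : ℝ) < N := by
    have : 0 < N := by omega
    exact_mod_cast this
  have hk : 0 < kap := by linarith
  refine ⟨ff kap, (min 1 (kap / N)) ^ (N ^ 5) / ((N ^ 5).factorial : ℝ) /
    Real.exp kap ^ (N * N), ?_, ?_, fun e v => row_le hN hk.le e v⟩
  · have h5 : 0 < min 1 (kap / N) := lt_min one_pos (by positivity)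
    have h6 : (0 : ℝ) < ((N ^ 5).factorial : ℝ) := by exact_mod_cast Nat.factorial_pos _
    positivity
  · intro v
    obtain ⟨x, hx1, hx2, hx3⟩ := exists_window_sort hN 0 _ v.v v.per v.inj rfl
    have hx4 := le_trans hx1 (ncnt_le N 0 v.v)
    let v' : AP N := ⟨run v.v x, Slope.run v.per x, run_inj hN v.inj x⟩
    have h2 := steps_le hN hk.le x v hx2 v' rfl
    obtain ⟨⟨u, w⟩, b1, b2, b3, b4⟩ := exists_rep hN v'
    simp only at b1 b2 b3 b4
    have h3 := dec_lower hN hk hD w.length u w 0 rfl b1 b2 b3 (by rw [b4]; exact hx3)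
    rw [← ff_eq hN kap v' u w b1 b2 b3 b4] at h3
    have h4 : (1 : ℝ) ≤ Real.exp kap := Real.one_le_exp hk.le
    have h5 : Real.exp kap ^ x.length ≤ Real.exp kap ^ (N * N) := pow_le_pow_right₀ h4 hx4
    rw [div_le_iff₀ (by positivity)]
    calc (min 1 (kap / N)) ^ (N ^ 5) / ((N ^ 5).factorial : ℝ) ≤ ff kap v' := h3
      _ ≤ Real.exp kap ^ x.length * ff kap v := h2
      _ ≤ Real.exp kap ^ (N * N) * ff kap v :=
        mul_le_mul_of_nonneg_right h5 (ff_nonneg hN hk.le v)
      _ = _ := by ring

end Pool.Agent.Schub.Aff
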