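import Mathlib

/-!
Numerics for the affine weight (G1): the rectangle products are at most kappa to the area.
-/

open Finset Real Filter Topology

namespace Pool.Agent.Schub.Aff

/-- The product of the hook lengths of a rectangle. -/
noncomputable def rectP (N r : ℕ) : ℝ :=
  ∏ i ∈ range r, ∏ j ∈ range (N - r), ((i : ℝ) + j + 1)

lemma num_shift (n r : ℕ) :
    (∏ i ∈ range r, ((i : ℝ) + n + 1)) * (n.factorial : ℝ) = ((n + r).factorial : ℝ) := by
  induction r with
  | zero => simp
  | succ r ih =>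
    rw [prod_range_succ, mul_right_comm, ih, ← Nat.add_assoc, Nat.factorial_succ]
    push_cast
    ring

lemma rectP_pos (N r : ℕ) : 0 < rectP N r :=
  prod_pos fun i _ => prod_pos fun j _ => by positivity

lemma rectP_zero (N : ℕ) : rectP N 0 = 1 := by simp [rectP]

lemma rectP_succ {N r : ℕ} (hr : r < N) :
    rectP N (r + 1) * (r.factorial : ℝ) = rectP N r * ((N - r - 1).factorial : ℝ) := by
  obtain ⟨n, rfl⟩ : ∃ n, N = r + 1 + n := ⟨N - (r + 1), by omega⟩
  have e1 : r + 1 + n - (r + 1) = n := by omega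
  have e2 : r + 1 + n - r = n + 1 := by omega
  have e3 : n + 1 - 1 = n := by omega
  unfold rectP
  rw [e1, e2, e3, prod_range_succ]
  have h1 : ∏ i ∈ range r, ∏ j ∈ range (n + 1), ((i : ℝ) + j + 1) =
      (∏ i ∈ range r, ∏ j ∈ range n, ((i : ℝ) + j + 1)) * ∏ i ∈ range r, ((i : ℝ) + n + 1) := by
    rw [← prod_mul_distrib]
    exact prod_congr rfl fun i _ => prod_range_succ _ _
  have h2 : (∏ j ∈ range n, ((r : ℝ) + j + 1)) = ∏ j ∈ range n, ((j : ℝ) + r + 1) :=
    prod_congr rfl fun j _ => by ring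
  rw [h1, h2, mul_assoc, mul_assoc, num_shift r n, num_shift n r, Nat.add_comm r n]

lemma rectP_symm {N r : ℕ} (hr : r ≤ N) : rectP N (N - r) = rectP N r := by
  unfold rectP
  rw [Nat.sub_sub_self hr, Finset.prod_comm]
  exact prod_congr rfl fun i _ => prod_congr rfl fun j _ => by ring

/-- The logarithm of the weight ratio. -/
private noncomputable def nL (N : ℕ) (x : ℝ) (r : ℕ) : ℝ :=
  (r : ℝ) * ((N : ℝ) - r) * x - log (rectP N r)

private lemma nL_zero (N : ℕ) (x : ℝ) : nL N x 0 = 0 := by simp [nL, rectP_zero]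

private lemma nL_diff {N r : ℕ} (hr : r < N) (x : ℝ) :
    nL N x (r + 1) - nL N x r = ((N : ℝ) - 2 * r - 1) * x -
      (log ((N - r - 1).factorial : ℝ) - log (r.factorial : ℝ)) := by
  have h1 := congrArg log (rectP_succ hr)
  rw [log_mul (rectP_pos _ _).ne' (by positivity), log_mul (rectP_pos _ _).ne' (by positivity)]
    at h1
  unfold nL
  push_cast
  linarith

private lemma nL_second {N k : ℕ} (hk : 1 ≤ k) (hkN : k < N) (x : ℝ) :
    (nL N x (k + 1) - nL N x k) - (nL N x k - nL N x (k - 1)) =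
      log k + log ((N : ℝ) - k) - 2 * x := by
  obtain ⟨l, rfl⟩ : ∃ l, k = l + 1 := ⟨k - 1, by omega⟩
  have h1 := nL_diff hkN x
  have h2 := nL_diff (show l < N by omega) x
  rw [Nat.add_sub_cancel, h1, h2]
  obtain ⟨n, hn⟩ : ∃ n, N - (l + 1) = n + 1 := ⟨N - (l + 1) - 1, by omega⟩
  have e1 : N - l - 1 = n + 1 := by omega
  have e2 : N - (l + 1) - 1 = n := by omega
  rw [e1, e2, Nat.factorial_succ, Nat.factorial_succ]
  push_cast
  rw [log_mul (by positivity) (by positivity), log_mul (by positivity) (by positivity)]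
  have e3 : (N : ℝ) - (l + 1) = n + 1 := by
    have : N = n + 1 + (l + 1) := by omega
    rw [this]; push_cast; ring
  rw [e3]
  ring

/-- Enough: the central inequality. -/
private lemma nL_nonneg {m : ℕ} (x : ℝ) (hm : 0 ≤ nL (2 * m) x m) {r : ℕ} (hr : r ≤ m) :
    0 ≤ nL (2 * m) x r := by
  by_contra hneg
  push Not at hneg
  have hr0 : r ≠ 0 := by
    rintro rfl
    rw [nL_zero] at hneg
    exact lt_irrefl _ hneg
  have hrm : r ≠ m := by
    rintro rfl
    linarith
  -- a negative difference before r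
  obtain ⟨s, hs, hsneg⟩ : ∃ s < r, nL (2 * m) x (s + 1) - nL (2 * m) x s < 0 := by
    by_contra hcon
    push Not at hcon
    have h1 : ∑ s ∈ range r, (nL (2 * m) x (s + 1) - nL (2 * m) x s) =
        nL (2 * m) x r - nL (2 * m) x 0 := sum_range_sub _ _
    have h2 : 0 ≤ ∑ s ∈ range r, (nL (2 * m) x (s + 1) - nL (2 * m) x s) :=
      sum_nonneg fun s hs => hcon s (mem_range.1 hs)
    rw [h1, nL_zero] at h2
    linarith
  -- a positive difference after r
  obtain ⟨t, hrt, htm, htpos⟩ : ∃ t, r ≤ t ∧ t < m ∧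
      0 < nL (2 * m) x (t + 1) - nL (2 * m) x t := by
    by_contra hcon
    push Not at hcon
    have h1 : ∑ t ∈ Ico r m, (nL (2 * m) x (t + 1) - nL (2 * m) x t) =
        nL (2 * m) x m - nL (2 * m) x r := sum_Ico_sub _ hr
    have h2 : ∑ t ∈ Ico r m, (nL (2 * m) x (t + 1) - nL (2 * m) x t) ≤ 0 :=
      sum_nonpos fun t ht => hcon t (mem_Ico.1 ht).1 (mem_Ico.1 ht).2
    rw [h1] at h2
    linarith
  -- a positive second difference
  obtain ⟨k, hsk, hkt, hkpos⟩ : ∃ k, s < k ∧ k ≤ t ∧
      0 < log k + log (((2 * m : ℕ) : ℝ) - k) - 2 * x := by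
    by_contra hcon
    push Not at hcon
    have h3 : ∀ j, s + j ≤ t → nL (2 * m) x (s + j + 1) - nL (2 * m) x (s + j) < 0 := by
      intro j
      induction j with
      | zero => intro _; simpa using hsneg
      | succ j ih =>
        intro hj
        have h4 := ih (by omega)
        have h5 := hcon (s + (j + 1)) (by omega) hj
        have h6 := nL_second (N := 2 * m) (k := s + (j + 1)) (by omega) (by omega) x
        have e : s + (j + 1) - 1 = s + j := by omega
        rw [e] at h6
        have e' : s + j + 1 = s + (j + 1) := by omega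
        rw [e'] at h4
        linarith
    have h7 := h3 (t - s) (by omega)
    have e : s + (t - s) = t := by omega
    rw [e] at h7
    linarith
  -- from there on all second differences are positive
  have hmono : ∀ j, k ≤ j → j ≤ m → 0 < log j + log (((2 * m : ℕ) : ℝ) - j) - 2 * x := by
    intro j hkj hjm
    have hk0 : (0 : ℝ) < k := by exact_mod_cast (show 0 < k by omega)
    have hkj' : (k : ℝ) ≤ j := by exact_mod_cast hkj
    have hjm' : (j : ℝ) ≤ m := by exact_mod_cast hjm
    have hkm' : (k : ℝ) ≤ m := hkj'.trans hjm'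
    have hm0 : (0 : ℝ) < m := by linarith
    push_cast at hkpos ⊢
    rw [← log_mul (by linarith) (by linarith)] at hkpos ⊢
    have h8 : (k : ℝ) * (2 * m - k) ≤ j * (2 * m - j) := by nlinarith
    have h9 : 0 < (k : ℝ) * (2 * m - k) := mul_pos hk0 (by linarith)
    have := log_le_log h9 h8
    linarith
  have h10 : ∀ j, t + j ≤ m - 1 → 0 < nL (2 * m) x (t + j + 1) - nL (2 * m) x (t + j) := by
    intro j
    induction j with
    | zero => intro _; simpa using htpos
    | succ j ih =>
      intro hj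
      have h4 := ih (by omega)
      have h5 := hmono (t + (j + 1)) (by omega) (by omega)
      have h6 := nL_second (N := 2 * m) (k := t + (j + 1)) (by omega) (by omega) x
      have e : t + (j + 1) - 1 = t + j := by omega
      rw [e] at h6
      have e' : t + j + 1 = t + (j + 1) := by omega
      rw [e'] at h4
      linarith
  have h11 := h10 (m - 1 - t) (by omega)
  have e : t + (m - 1 - t) = m - 1 := by omega
  rw [e] at h11
  have h12 := hmono m (by omega) le_rfl
  obtain ⟨l, rfl⟩ : ∃ l, m = l + 1 := ⟨m - 1, by omega⟩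
  rw [Nat.add_sub_cancel] at h11
  rw [nL_diff (by omega)] at h11
  have e1 : 2 * (l + 1) - l - 1 = l + 1 := by omega
  rw [e1, Nat.factorial_succ] at h11
  push_cast at h11 h12
  rw [log_mul (by positivity) (by positivity)] at h11
  have e2 : (2 : ℝ) * (l + 1) - (l + 1) = l + 1 := by ring
  rw [e2] at h12
  linarith

/-! ### Bounds for factorials -/

lemma num_log_fact_le {n : ℕ} (hn : 1 ≤ n) :
    log (n.factorial : ℝ) ≤ ((n : ℝ) + 1) * log n - n + 1 := by
  induction n, hn using Nat.le_induction with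
  | base => simp
  | succ n hn ih =>
    have hn0 : (0 : ℝ) < n := by exact_mod_cast hn
    rw [Nat.factorial_succ]
    push_cast
    rw [log_mul (by positivity) (by positivity)]
    have h1 : 1 - (((n : ℝ) + 1) / n)⁻¹ ≤ log (((n : ℝ) + 1) / n) :=
      one_sub_inv_le_log_of_pos (by positivity)
    rw [log_div (by positivity) hn0.ne'] at h1
    have h2 : 1 - (((n : ℝ) + 1) / n)⁻¹ = 1 / (n + 1) := by
      field_simp
      ring
    rw [h2] at h1
    have h3 : 1 ≤ ((n : ℝ) + 1) * (log (n + 1) - log n) := by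
      have := mul_le_mul_of_nonneg_left h1 (by positivity : (0 : ℝ) ≤ n + 1)
      rwa [mul_one_div, div_self (by positivity)] at this
    nlinarith

lemma num_le_log_fact (n : ℕ) : (n : ℝ) * log n - n ≤ log (n.factorial : ℝ) := by
  rcases Nat.eq_zero_or_pos n with rfl | hn
  · simp
  have hn0 : (0 : ℝ) < n := by exact_mod_cast hn
  have h1 := pow_div_factorial_le_exp (n : ℝ) hn0.le n
  have h2 := log_le_log (by positivity) h1
  rw [log_exp, log_div (by positivity) (by positivity), log_pow] at h2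
  linarith

/-! ### The central product -/

lemma num_central_succ (m : ℕ) : log (rectP (2 * (m + 1)) (m + 1)) = log (rectP (2 * m) m) +
    2 * (log ((2 * m).factorial : ℝ) - log (m.factorial : ℝ)) + log (2 * (m : ℝ) + 1) := by
  have e1 : 2 * (m + 1) - (m + 1) = m + 1 := by omega
  have e2 : 2 * m - m = m := by omega
  have hA : (∏ i ∈ range m, ((i : ℝ) + m + 1)) * (m.factorial : ℝ) = ((2 * m).factorial : ℝ) := by
    rw [num_shift, two_mul]
  have hA0 : 0 < ∏ i ∈ range m, ((i : ℝ) + m + 1) := prod_pos fun i _ => by positivity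
  have hlog : log (∏ i ∈ range m, ((i : ℝ) + m + 1)) =
      log ((2 * m).factorial : ℝ) - log (m.factorial : ℝ) := by
    rw [← hA, log_mul hA0.ne' (by positivity)]
    ring
  have hP : rectP (2 * (m + 1)) (m + 1) = rectP (2 * m) m *
      ((∏ i ∈ range m, ((i : ℝ) + m + 1)) * (∏ i ∈ range m, ((i : ℝ) + m + 1))) *
        (2 * (m : ℝ) + 1) := by
    unfold rectP
    rw [e1, e2, prod_range_succ]
    have h1 : ∏ i ∈ range m, ∏ j ∈ range (m + 1), ((i : ℝ) + j + 1) =
        (∏ i ∈ range m, ∏ j ∈ range m, ((i : ℝ) + j + 1)) *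
          ∏ i ∈ range m, ((i : ℝ) + m + 1) := by
      rw [← prod_mul_distrib]
      exact prod_congr rfl fun i _ => prod_range_succ _ _
    have h2 : ∏ j ∈ range (m + 1), ((m : ℝ) + j + 1) =
        (∏ i ∈ range m, ((i : ℝ) + m + 1)) * (2 * (m : ℝ) + 1) := by
      rw [prod_range_succ]
      congr 1
      · exact prod_congr rfl fun i _ => by ring
      · ring
    rw [h1, h2]
    ring
  rw [hP, log_mul (mul_pos (rectP_pos _ _) (mul_pos hA0 hA0)).ne' (by positivity),
    log_mul (rectP_pos _ _).ne' (mul_pos hA0 hA0).ne', log_mul hA0.ne' hA0.ne', hlog]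
  ring

lemma num_central_le {m : ℕ} (hm : 1 ≤ m) : log (rectP (2 * m) m) ≤
    (m : ℝ) ^ 2 * log m + (2 * log 2 - 3 / 2) * m ^ 2 +
      m * (2 * log (2 * (m : ℝ) + 1) + 5 / 2) := by
  induction m, hm using Nat.le_induction with
  | base =>
    have h0 : log (rectP (2 * 1) 1) = 0 := by simp [rectP]
    rw [h0]
    have h1 : 0 ≤ log 2 := log_nonneg (by norm_num)
    have h2 : 0 ≤ log (2 * ((1 : ℕ) : ℝ) + 1) := log_nonneg (by norm_num)
    push_cast at h2 ⊢
    rw [log_one]
    have h3 : (1 : ℝ) / 2 ≤ log 2 := by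
      have h4 : 1 - (2 : ℝ)⁻¹ ≤ log 2 := one_sub_inv_le_log_of_pos (by norm_num)
      norm_num at h4 ⊢
      linarith
    norm_num at h2 ⊢
    linarith
  | succ m hm ih =>
    have hm0 : (0 : ℝ) < m := by exact_mod_cast hm
    rw [num_central_succ]
    have h1 := num_log_fact_le (n := 2 * m) (by omega)
    have h2 := num_le_log_fact m
    push_cast at h1 ⊢
    rw [log_mul (by norm_num) hm0.ne'] at h1
    have h3 : log (m : ℝ) ≤ log (2 * (m : ℝ) + 1) := log_le_log hm0 (by linarith)
    have h4 : log (2 * (m : ℝ) + 1) ≤ log (2 * ((m : ℝ) + 1) + 1) :=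
      log_le_log (by positivity) (by linarith)
    have h5 : log (m : ℝ) + 1 / (m + 1) ≤ log ((m : ℝ) + 1) := by
      have h6 : 1 - (((m : ℝ) + 1) / m)⁻¹ ≤ log (((m : ℝ) + 1) / m) :=
        one_sub_inv_le_log_of_pos (by positivity)
      rw [log_div (by positivity) hm0.ne'] at h6
      have h7 : 1 - (((m : ℝ) + 1) / m)⁻¹ = 1 / (m + 1) := by
        field_simp
        ring
      rw [h7] at h6
      linarith
    have h8 : ((m : ℝ) + 1) ^ 2 * log m + (m + 1) ≤ ((m : ℝ) + 1) ^ 2 * log ((m : ℝ) + 1) := by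
      have h9 := mul_le_mul_of_nonneg_left h5 (by positivity : (0 : ℝ) ≤ ((m : ℝ) + 1) ^ 2)
      have h10 : ((m : ℝ) + 1) ^ 2 * (log m + 1 / (m + 1)) =
          ((m : ℝ) + 1) ^ 2 * log m + (m + 1) := by
        field_simp
      rwa [h10] at h9
    have h11 : ((m : ℝ) + 1) * log (2 * (m : ℝ) + 1) ≤
        ((m : ℝ) + 1) * log (2 * ((m : ℝ) + 1) + 1) :=
      mul_le_mul_of_nonneg_left h4 (by positivity)
    nlinarith

/-- The numerical hypothesis of the affine theorem holds for kappa = (2 e^(-3/2) + eps) N. -/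
theorem kap_ok (ε : ℝ) (hε : 0 < ε) : ∃ M : ℕ, ∀ N : ℕ, M ≤ N → Even N →
    1 ≤ (2 * exp (-3 / 2) + ε) * N ∧
    ∀ r, 1 ≤ r → r < N → (∏ i ∈ range r, ∏ j ∈ range (N - r), ((i : ℝ) + j + 1)) ≤
      ((2 * exp (-3 / 2) + ε) * N) ^ (r * (N - r)) := by
  set η : ℝ := ε * exp (3 / 2) / 2 with hη
  have hη0 : 0 < η := by positivity
  set c : ℝ := log (1 + η) with hc
  have hc0 : 0 < c := log_pos (by linarith)
  have hlim : Tendsto (fun m : ℕ => (2 * log (2 * (m : ℝ) + 1) + 5 / 2) / m) atTop (𝓝 0) := by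
    have h1 : Tendsto (fun x : ℝ => log x ^ 1 / (1 / 2 * x + (-(1 / 2)))) atTop (𝓝 0) :=
      tendsto_pow_log_div_mul_add_atTop (1 / 2) (-(1 / 2)) 1 (by norm_num)
    have h2 : Tendsto (fun m : ℕ => 2 * (m : ℝ) + 1) atTop atTop :=
      tendsto_atTop_add_const_right _ _
        (tendsto_natCast_atTop_atTop.const_mul_atTop (by norm_num))
    have h3 := h1.comp h2
    have h4 : Tendsto (fun m : ℕ => (5 / 2 : ℝ) / m) atTop (𝓝 0) :=
      tendsto_const_div_atTop_nhds_zero_nat _
    have h5 := (h3.const_mul 2).add h4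
    rw [mul_zero, add_zero] at h5
    refine h5.congr fun m => ?_
    simp only [Function.comp_apply, pow_one]
    have e : (1 / 2 * (2 * (m : ℝ) + 1) + (-(1 / 2))) = m := by ring
    rw [e]
    ring
  obtain ⟨M₁, hM₁⟩ := eventually_atTop.1 (hlim.eventually (gt_mem_nhds hc0))
  obtain ⟨M₂, hM₂⟩ := exists_nat_gt (1 / ε)
  refine ⟨2 * (M₁ + 1) + M₂, fun N hN hev => ?_⟩
  obtain ⟨m, hm⟩ := hev
  have hNm : N = 2 * m := by omega
  have hm1 : 1 ≤ m := by omega
  have hm0 : (0 : ℝ) < m := by exact_mod_cast hm1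
  have hexp : 0 < exp (-3 / 2 : ℝ) := exp_pos _
  have hNM : (M₂ : ℝ) ≤ N := by exact_mod_cast (show M₂ ≤ N by omega)
  have hκ1 : 1 ≤ (2 * exp (-3 / 2) + ε) * N := by
    have h1 : 1 / ε < N := hM₂.trans_le hNM
    rw [div_lt_iff₀ hε] at h1
    have hN0 : (0 : ℝ) ≤ N := Nat.cast_nonneg _
    nlinarith [mul_nonneg hexp.le hN0]
  have hκ0 : 0 < (2 * exp (-3 / 2) + ε) * N := by linarith
  refine ⟨hκ1, ?_⟩
  set κ : ℝ := (2 * exp (-3 / 2) + ε) * N with hκ
  have hlogκ : log κ = log m + (2 * log 2 - 3 / 2) + c := by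
    have h1 : κ = m * ((2 * 2) * exp (-3 / 2)) * (1 + η) := by
      have h2 : exp (-3 / 2 : ℝ) * exp (3 / 2) = 1 := by
        rw [← exp_add]; norm_num
      rw [hκ, hNm, hη]
      push_cast
      have h3 : (m : ℝ) * (2 * 2 * exp (-3 / 2)) * (1 + ε * exp (3 / 2) / 2) =
          4 * m * exp (-3 / 2) + 2 * m * ε * (exp (-3 / 2) * exp (3 / 2)) := by ring
      rw [h3, h2]
      ring
    rw [h1, log_mul (by positivity) (by positivity), log_mul (by positivity) (by positivity),
      log_mul (by norm_num) (by positivity), log_mul (by norm_num) (by norm_num), log_exp]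
    ring
  have hcen : 0 ≤ nL (2 * m) (log κ) m := by
    unfold nL
    have h1 := num_central_le hm1
    have h2 := hM₁ m (by omega)
    rw [div_lt_iff₀ hm0] at h2
    rw [hlogκ]
    push_cast
    nlinarith
  have hall : ∀ r, r ≤ m → rectP N r ≤ κ ^ (r * (N - r)) := by
    intro r hr
    have h1 := nL_nonneg (log κ) hcen hr
    unfold nL at h1
    rw [← hNm] at h1
    have h2 : ((r : ℝ) * ((N : ℝ) - r)) * log κ = log (κ ^ (r * (N - r))) := by
      rw [log_pow]
      push_cast [Nat.cast_sub (show r ≤ N by omega)]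
      ring
    rw [h2] at h1
    exact (log_le_log_iff (rectP_pos _ _) (by positivity)).1 (by linarith)
  intro r hr1 hrN
  change rectP N r ≤ _
  rcases le_total r m with h | h
  · exact hall r h
  · have h1 := hall (N - r) (by omega)
    rw [rectP_symm hrN.le, Nat.sub_sub_self hrN.le, mul_comm] at h1
    exact h1

end Pool.Agent.Schub.Aff
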