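import Pool.Agent.SchubU.Link
import Pool.Agent.SchubU.AffMain
import Pool.Agent.SchubU.Num23

/-!
The number of histories on the ring, for all large even numbers of sites.
-/

set_option autoImplicit false

namespace Pool.Agent.Schub.Ring

open Pool.Agent.Schub.Aff

open Classical in
/-- The affine theorem in the form used by the ring. -/
theorem affHyp {N : ℕ} (hN : 3 ≤ N) (κ : ℝ) (h1 : 1 ≤ κ)
    (hD : ∀ r : ℕ, 1 ≤ r → r < N →
      ∏ i ∈ Finset.range r, ∏ j ∈ Finset.range (N - r), ((i : ℝ) + j + 1) ≤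
        κ ^ (r * (N - r))) : AffHyp N κ := by
  obtain ⟨f, c, hc, hfc, hf⟩ := aff_main hN κ h1 hD
  let g : (ℤ → ℤ) → ℝ := fun v =>
    if h : Slope N N v ∧ Function.Injective v then f ⟨v, h.1, h.2⟩ else 0
  have hg : ∀ (v : ℤ → ℤ) (h : Slope N N v) (hi : Function.Injective v), g v = f ⟨v, h, hi⟩ :=
    fun v h hi => dif_pos ⟨h, hi⟩
  refine ⟨g, c, hc, fun v h hi => ?_, fun e v h hi => ?_⟩
  · rw [hg v h hi]
    exact hfc _
  · rw [hg v h hi]
    have h2 := hf e ⟨v, h, hi⟩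
    refine le_trans (le_of_eq ?_) h2
    refine Finset.sum_congr rfl fun S _ => ?_
    exact hg _ (Slope.run h (rwd N e S)) (run_inj hN hi (rwd N e S))

/-- The number of histories on the ring with `N` sites, `N` even and large. -/
theorem ring_all : ∀ ε : ℝ, 0 < ε → ∃ N0 : ℕ, ∀ N, N0 ≤ N → Even N →
    RingCount (N - 1) ((2 * Real.exp (-3 / 2) + ε) * N) := by
  intro ε hε
  obtain ⟨M, hM⟩ := kap_ok ε hε
  refine ⟨max M 3, fun N hN he => ?_⟩
  have h3 : 3 ≤ N := (le_max_right _ _).trans hN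
  obtain ⟨h1, h2⟩ := hM N ((le_max_left _ _).trans hN) he
  exact Link.ringCount_of_aff N h3 _ (affHyp h3 _ h1 h2)

end Pool.Agent.Schub.Ring
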