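import Pool.Agent.SchubU.RingDefs

/-!
The heights on the ring against the heights in a box.
-/

set_option autoImplicit false

namespace Pool.Agent.Schub.Ring

open Finset Pool.Agent.Helper78.Lim

/-- `0` or `1` according to whether the letter is `≥ k`. -/
def ind43 (k a : ℕ) : ℤ := if k ≤ a then 1 else 0

theorem sw_last43 (C : ℕ) (D : ℕ → ℕ → Prop) (x0 : ℕ → ℕ) (r : ℕ) :
    SZ C D x0 r C = SW C D x0 r C := by
  unfold SZ
  rw [Nat.sub_self]
  rfl

theorem sw_feed43 (C : ℕ) (D : ℕ → ℕ → Prop) (x0 : ℕ → ℕ) (r : ℕ) :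
    SW C D x0 (r + 1) C = SZ C D x0 r 0 := by
  unfold SZ
  rw [Nat.sub_zero]
  show (if C < C then _ else zr (D r) (SW C D x0 r) C C) = _
  rw [if_neg (lt_irrefl _)]

open Classical in
theorem sw_cell43 (C : ℕ) (D : ℕ → ℕ → Prop) (x0 : ℕ → ℕ) (r c : ℕ) (hc : c < C) :
    SW C D x0 (r + 1) c = (if D r c ∧ SW C D x0 r c < SZ C D x0 r (c + 1) then SW C D x0 r c
      else SZ C D x0 r (c + 1)) ∧
    SZ C D x0 r c = (if D r c ∧ SW C D x0 r c < SZ C D x0 r (c + 1) then SZ C D x0 r (c + 1)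
      else SW C D x0 r c) := by
  constructor
  · show (if c < C then _ else _) = _
    rw [if_pos hc]
    rfl
  · have e : C - c = (C - (c + 1)) + 1 := by omega
    have e2 : C - 1 - (C - (c + 1)) = c := by omega
    have h1 : SZ C D x0 r c = zr (D r) (SW C D x0 r) C ((C - (c + 1)) + 1) := by
      unfold SZ; rw [e]
    rw [h1]
    show (if D r (C - 1 - (C - (c + 1))) ∧ SW C D x0 r (C - 1 - (C - (c + 1)))
        < zr (D r) (SW C D x0 r) C (C - (c + 1)) then zr (D r) (SW C D x0 r) C (C - (c + 1))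
        else SW C D x0 r (C - 1 - (C - (c + 1)))) = _
    rw [e2]
    rfl

/-- The height on the ring. -/
noncomputable def hh43 (C : ℕ) (D : ℕ → ℕ → Prop) (x0 : ℕ → ℕ) (k r c : ℕ) : ℤ :=
  (EE (SZ C D x0) k r : ℤ) + H k (SW C D x0 r) c

theorem hh_zero43 (C : ℕ) (D : ℕ → ℕ → Prop) (x0 : ℕ → ℕ) (k c : ℕ) :
    hh43 C D x0 k 0 c = H k x0 c := by
  unfold hh43 EE
  simp [SW]

theorem hh_col43 (C : ℕ) (D : ℕ → ℕ → Prop) (x0 : ℕ → ℕ) (k r : ℕ) :
    hh43 C D x0 k r 0 = EE (SZ C D x0) k r := by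
  unfold hh43
  rw [H_zero]
  simp

theorem hh_right43 (C : ℕ) (D : ℕ → ℕ → Prop) (x0 : ℕ → ℕ) (k r c : ℕ) :
    hh43 C D x0 k r (c + 1) = hh43 C D x0 k r c + ind43 k (SW C D x0 r c) := by
  unfold hh43 ind43
  rw [H_succ]
  push_cast
  ring

theorem ee_succ43 (Z : ℕ → ℕ → ℕ) (k r : ℕ) :
    (EE Z k (r + 1) : ℤ) = EE Z k r + ind43 k (Z r 0) := by
  unfold EE ind43
  rw [sum_range_succ]
  push_cast
  rfl

theorem hh_down43 (C : ℕ) (D : ℕ → ℕ → Prop) (x0 : ℕ → ℕ) (k r : ℕ) :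
    ∀ c ≤ C, hh43 C D x0 k (r + 1) c = hh43 C D x0 k r c + ind43 k (SZ C D x0 r c) := by
  intro c
  induction c with
  | zero =>
    intro _
    rw [hh_col43, hh_col43, ee_succ43]
  | succ c ih =>
    intro hc
    have ih := ih (by omega)
    rw [hh_right43, hh_right43, ih]
    obtain ⟨h1, h2⟩ := sw_cell43 C D x0 r c (by omega)
    by_cases hx : D r c ∧ SW C D x0 r c < SZ C D x0 r (c + 1)
    · rw [if_pos hx] at h1 h2
      rw [h1, h2]
      ring
    · rw [if_neg hx] at h1 h2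
      rw [h1, h2]

theorem hh_elbow43 (C : ℕ) (D : ℕ → ℕ → Prop) (x0 : ℕ → ℕ) (k r c : ℕ) (hc : c < C)
    (hD : ¬ D r c) : hh43 C D x0 k (r + 1) c = hh43 C D x0 k r (c + 1) := by
  obtain ⟨-, h2⟩ := sw_cell43 C D x0 r c hc
  rw [if_neg (fun h => hD h.1)] at h2
  rw [hh_down43 C D x0 k r c hc.le, hh_right43, h2]

theorem hh_cross43 (C : ℕ) (D : ℕ → ℕ → Prop) (x0 : ℕ → ℕ) (k r c : ℕ) (hc : c < C)
    (hD : D r c) : hh43 C D x0 k (r + 1) c =
      min (hh43 C D x0 k r c + 1) (hh43 C D x0 k (r + 1) (c + 1)) := by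
  obtain ⟨-, h2⟩ := sw_cell43 C D x0 r c hc
  rw [hh_down43 C D x0 k r c hc.le, hh_down43 C D x0 k r (c + 1) hc, hh_right43]
  by_cases hx : D r c ∧ SW C D x0 r c < SZ C D x0 r (c + 1)
  · rw [if_pos hx] at h2
    rw [h2]
    have := hx.2
    unfold ind43
    split_ifs <;> omega
  · rw [if_neg hx] at h2
    rw [h2]
    have : ¬ SW C D x0 r c < SZ C D x0 r (c + 1) := fun h => hx ⟨hD, h⟩
    unfold ind43
    split_ifs <;> omega

theorem hh_total43 (C : ℕ) (D : ℕ → ℕ → Prop) (x0 : ℕ → ℕ) (k r : ℕ) :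
    (H k (SW C D x0 r) (C + 1) : ℤ) = H k x0 (C + 1) := by
  induction r with
  | zero => rfl
  | succ r ih =>
    rw [← ih]
    have h1 := hh_down43 C D x0 k r C le_rfl
    rw [sw_last43] at h1
    have h2 := ee_succ43 (SZ C D x0) k r
    have h3 : SW C D x0 (r + 1) C = SZ C D x0 r 0 := sw_feed43 C D x0 r
    have h4 := hh_right43 C D x0 k (r + 1) C
    have h5 := hh_right43 C D x0 k r C
    rw [h3] at h4
    unfold hh43 at h1 h4 h5
    linarith

theorem hh_wrap43 (C : ℕ) (D : ℕ → ℕ → Prop) (x0 : ℕ → ℕ) (k r : ℕ) :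
    hh43 C D x0 k (r + 1) C = hh43 C D x0 k r 0 + H k x0 (C + 1) := by
  rw [hh_down43 C D x0 k r C le_rfl, sw_last43, ← hh_right43, hh_col43]
  unfold hh43
  rw [hh_total43]

theorem hh_mono43 (C : ℕ) (D : ℕ → ℕ → Prop) (x0 : ℕ → ℕ) (k r c d : ℕ) :
    hh43 C D x0 k r c ≤ hh43 C D x0 k r (c + d) := by
  induction d with
  | zero => simp
  | succ d ih =>
    rw [← add_assoc, hh_right43]
    have : 0 ≤ ind43 k (SW C D x0 r (c + d)) := by unfold ind43; split_ifs <;> norm_num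
    linarith

/-- One box on the ring. -/
theorem ring_box43 (C b δ : ℕ) (hC : C = b + δ) (D : ℕ → ℕ → Prop) (x0 : ℕ → ℕ)
    (k r0 : ℕ) (T Lf Rt : ℕ → ℤ) (δ0 e : ℤ) (hδ : δ0 ≤ δ)
    (hfull : ∀ r c, b ≤ c → c < C → D r c)
    (D' : ℕ → ℕ → Prop) (h' : ℕ → ℕ → ℤ) (R' C' : ℕ) (hF : Fld D' h')
    (hD : ∀ y x, y < b → x < b → (D (r0 + y) x ↔ D' (R' + y) (C' + x)))
    (hT : ∀ x ≤ b, h' R' (C' + x) = T x) (hR : ∀ y ≤ b, h' (R' + y) (C' + b) = Rt y)
    (hL : ∀ y ≤ b, h' (R' + y) C' = Lf y)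
    (h1 : ∀ y ≤ b, |Rt y - Rt 0 - (Lf y - Lf 0)| ≤ δ0)
    (htop : ∀ x ≤ b, T x + e ≤ hh43 C D x0 k r0 x)
    (hn : T b - T 0 + δ + 1 ≤ (H k x0 (C + 1) : ℤ)) :
    ∀ y ≤ b, (∀ x ≤ b, h' (R' + y) (C' + x) + e ≤ hh43 C D x0 k (r0 + y) x) ∧
      (∀ d ≤ δ, Rt y + e ≤ hh43 C D x0 k (r0 + y) (b + d)) := by
  have hL0 : Lf 0 = T 0 := by
    have a := hL 0 (Nat.zero_le _)
    have b' := hT 0 (Nat.zero_le _)
    rw [add_zero] at a b'
    rw [← a, ← b']
  have hR0 : Rt 0 = T b := by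
    have a := hR 0 (Nat.zero_le _)
    have b' := hT b le_rfl
    rw [add_zero] at a
    rw [← a, ← b']
  intro y
  induction y with
  | zero =>
    intro _
    refine ⟨fun x hx => ?_, fun d _ => ?_⟩
    · rw [add_zero, hT x hx, add_zero]
      exact htop x hx
    · rw [hR0, add_zero]
      exact (htop b le_rfl).trans (hh_mono43 C D x0 k r0 b d)
  | succ y ih =>
    intro hy
    obtain ⟨ih1, ih2⟩ := ih (by omega)
    have hLy : Lf (y + 1) ≤ Lf y + 1 := by
      rw [← hL (y + 1) hy, ← hL y (by omega)]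
      exact hF.down_ge (R' + y) C'
    have hRy : Rt (y + 1) ≤ Rt y + 1 := by
      rw [← hR (y + 1) hy, ← hR y (by omega)]
      exact hF.down_ge (R' + y) (C' + b)
    have key1 : ∀ m d, d + m = δ → Rt (y + 1) + e ≤ hh43 C D x0 k (r0 + (y + 1)) (b + d) := by
      intro m
      induction m with
      | zero =>
        intro d hd
        have hd' : b + d = C := by omega
        rw [hd']
        show Rt (y + 1) + e ≤ hh43 C D x0 k (r0 + y + 1) C
        rw [hh_wrap43]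
        have a1 := ih1 0 (Nat.zero_le _)
        rw [add_zero, hL y (by omega)] at a1
        have a2 := (abs_le.1 (h1 (y + 1) hy)).2
        rw [hR0, hL0] at a2
        linarith
      | succ m ihm =>
        intro d hd
        have a1 := ihm (d + 1) (by omega)
        have a2 := ih2 d (by omega)
        show Rt (y + 1) + e ≤ hh43 C D x0 k (r0 + y + 1) (b + d)
        rw [hh_cross43 C D x0 k (r0 + y) (b + d) (by omega) (hfull _ _ (by omega) (by omega))]
        apply le_min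
        · linarith
        · exact a1
    have key2 : ∀ m x, x + m = b →
        h' (R' + (y + 1)) (C' + x) + e ≤ hh43 C D x0 k (r0 + (y + 1)) x := by
      intro m
      induction m with
      | zero =>
        intro x hx
        have hx' : x = b := by omega
        subst hx'
        rw [hR (y + 1) hy]
        exact key1 δ 0 (by omega)
      | succ m ihm =>
        intro x hx
        have a1 := ihm (x + 1) (by omega)
        have hyb : y < b := by omega
        have hxb : x < b := by omega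
        have hiff := hD y x hyb hxb
        by_cases hc : D (r0 + y) x
        · have e1 := hh_cross43 C D x0 k (r0 + y) x (by omega) hc
          have e2 := hF.cross _ _ (hiff.1 hc)
          have i1 := ih1 x hxb.le
          show h' (R' + y + 1) (C' + x) + e ≤ hh43 C D x0 k (r0 + y + 1) x
          rw [e1, e2]
          have a1' : h' (R' + y + 1) (C' + x + 1) + e ≤ hh43 C D x0 k (r0 + y + 1) (x + 1) := a1
          apply le_min
          · have := min_le_left (h' (R' + y) (C' + x) + 1) (h' (R' + y + 1) (C' + x + 1))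
            linarith
          · have := min_le_right (h' (R' + y) (C' + x) + 1) (h' (R' + y + 1) (C' + x + 1))
            linarith
        · have e1 := hh_elbow43 C D x0 k (r0 + y) x (by omega) hc
          have e2 := hF.elbow _ _ (fun hh => hc (hiff.2 hh))
          show h' (R' + y + 1) (C' + x) + e ≤ hh43 C D x0 k (r0 + y + 1) x
          rw [e1, e2]
          exact ih1 (x + 1) hxb
    exact ⟨fun x hx => key2 (b - x) x (by omega), fun d hd => key1 (δ - d) d (by omega)⟩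

theorem ring_ge (C b δ M : ℕ) (hC : C = b + δ) (hb : 0 < b) (D : ℕ → ℕ → Prop) (x0 : ℕ → ℕ)
    (k : ℕ) (T Bo Lf Rt : ℕ → ℤ) (δ0 φ : ℤ) (hδ : δ0 ≤ δ)
    (hfull : ∀ r c, b ≤ c → c < C → D r c)
    (hbox : ∀ j < M, ∃ (D' : ℕ → ℕ → Prop) (h' : ℕ → ℕ → ℤ) (R' C' : ℕ), Fld D' h' ∧
      (∀ y x, y < b → x < b → (D (j * b + y) x ↔ D' (R' + y) (C' + x))) ∧
      (∀ x ≤ b, h' R' (C' + x) = T x) ∧ (∀ y ≤ b, h' (R' + y) (C' + b) = Rt y) ∧
      (∀ y ≤ b, h' (R' + y) C' = Lf y) ∧ (∀ x ≤ b, h' (R' + b) (C' + x) = Bo x))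
    (h1 : ∀ y ≤ b, |Rt y - Rt 0 - (Lf y - Lf 0)| ≤ δ0)
    (h2 : ∀ x ≤ b, T x + φ ≤ Bo x)
    (htop : ∀ x ≤ b, (H k x0 x : ℤ) = T x - T 0)
    (hn : T b - T 0 + δ + 1 ≤ (H k x0 (C + 1) : ℤ)) :
    (M : ℤ) * φ ≤ EE (SZ C D x0) k (M * b) := by
  have main : ∀ j ≤ M, ∀ x ≤ b, T x + ((j : ℤ) * φ - T 0) ≤ hh43 C D x0 k (j * b) x := by
    intro j
    induction j with
    | zero =>
      intro _ x hx
      rw [Nat.zero_mul, hh_zero43, htop x hx]
      push_cast
      linarith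
    | succ j ih =>
      intro hj x hx
      have ih := ih (by omega)
      obtain ⟨D', h', R', C', hF, hD, hT, hR, hL, hB⟩ := hbox j (by omega)
      have key := (ring_box43 C b δ hC D x0 k (j * b) T Lf Rt δ0 ((j : ℤ) * φ - T 0) hδ hfull
        D' h' R' C' hF hD hT hR hL h1 ih hn b le_rfl).1 x hx
      rw [hB x hx] at key
      have e : (j + 1) * b = j * b + b := by ring
      rw [e]
      have h2' := h2 x hx
      push_cast
      linarith
  have h3 := main M le_rfl 0 (Nat.zero_le _)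
  rw [hh_col43] at h3
  linarith

end Pool.Agent.Schub.Ring
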