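import Pool.Agent.SchubU.TileInv

/-!
The number of crossings of letters of different classes in a box.
-/

set_option autoImplicit false

namespace Pool.Agent.Schub.Ring

open Finset Pool.Agent.Helper78.Lim

/-- The number of later letters smaller than `a`. -/
theorem later_small (m : ℕ) (x : ℕ → ℕ) (a p : ℕ) (hp : p < m) :
    (∑ q ∈ Ico (p + 1) m, (if x q < a then (1 : ℤ) else 0)) =
      (m : ℤ) - (p + 1) - ((H a x m : ℤ) - H a x (p + 1)) := by
  have h1 : ∀ q, (if x q < a then (1 : ℤ) else 0) = 1 - (if a ≤ x q then (1 : ℤ) else 0) := by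
    intro q
    by_cases h : x q < a
    · rw [if_pos h, if_neg (not_le.mpr h)]; ring
    · rw [if_neg h, if_pos (not_lt.mp h)]; ring
  simp_rw [h1]
  rw [sum_sub_distrib]
  have h2 : ∑ q ∈ Ico (p + 1) m, (1 : ℤ) = (m : ℤ) - (p + 1) := by
    rw [sum_const, Nat.card_Ico]
    simp only [nsmul_eq_mul, mul_one]
    omega
  have h3 : ∑ q ∈ Ico (p + 1) m, (if a ≤ x q then (1 : ℤ) else 0) =
      (H a x m : ℤ) - H a x (p + 1) := by
    rw [sum_Ico_eq_sub _ (by omega : p + 1 ≤ m)]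
    unfold H
    push_cast
    rfl
  rw [h2, h3]

theorem all_small (m : ℕ) (x : ℕ → ℕ) (a : ℕ) :
    (∑ q ∈ range m, (if x q < a then (1 : ℤ) else 0)) = (m : ℤ) - (H a x m : ℤ) := by
  have h1 : ∀ q, (if x q < a then (1 : ℤ) else 0) = 1 - (if a ≤ x q then (1 : ℤ) else 0) := by
    intro q
    by_cases h : x q < a
    · rw [if_pos h, if_neg (not_le.mpr h)]; ring
    · rw [if_neg h, if_pos (not_lt.mp h)]; ring
  simp_rw [h1]
  rw [sum_sub_distrib]
  unfold H
  push_cast
  simp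

theorem linv_wd (m : ℕ) (x : ℕ → ℕ) :
    (linv (wd m x) : ℤ) = ∑ q ∈ range m, ∑ p ∈ range q, (if x q < x p then (1 : ℤ) else 0) := by
  have h := liv_eq_sum m x
  unfold liv at h
  unfold wd
  rw [h]
  push_cast
  rfl

theorem sum_swap_tri (m : ℕ) (g : ℕ → ℕ → ℤ) :
    ∑ q ∈ range m, ∑ p ∈ range q, g p q = ∑ p ∈ range m, ∑ q ∈ Ico (p + 1) m, g p q := by
  rw [sum_sigma', sum_sigma']
  refine sum_nbij' (fun x => ⟨x.2, x.1⟩) (fun x => ⟨x.2, x.1⟩) ?_ ?_ ?_ ?_ ?_
  · rintro ⟨a, b⟩ h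
    simp only [mem_sigma, mem_range, mem_Ico] at h ⊢
    omega
  · rintro ⟨a, b⟩ h
    simp only [mem_sigma, mem_range, mem_Ico] at h ⊢
    omega
  · rintro ⟨a, b⟩ _; rfl
  · rintro ⟨a, b⟩ _; rfl
  · rintro ⟨a, b⟩ _; rfl

theorem inv_robust (m : ℕ) (x y : ℕ → ℕ) (δ : ℤ)
    (h : ∀ k, ∀ q ≤ m, |(H k x q : ℤ) - H k y q| ≤ δ) :
    (linv (wd m x) : ℤ) ≤ linv (wd m y) + 3 * δ * m := by
  rw [linv_wd, linv_wd]
  have h1 : ∀ q ∈ range m, ∑ p ∈ range q, (if x q < x p then (1 : ℤ) else 0) ≤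
      (∑ p ∈ range q, (if x q < y p then (1 : ℤ) else 0)) + δ := by
    intro q hq
    have hq' := (mem_range.1 hq).le
    have e1 : ∑ p ∈ range q, (if x q < x p then (1 : ℤ) else 0) = (H (x q + 1) x q : ℤ) := by
      unfold H; push_cast; rfl
    have e2 : ∑ p ∈ range q, (if x q < y p then (1 : ℤ) else 0) = (H (x q + 1) y q : ℤ) := by
      unfold H; push_cast; rfl
    rw [e1, e2]
    have := (abs_le.1 (h (x q + 1) q hq')).2
    linarith
  have h2 := sum_le_sum h1
  rw [sum_add_distrib] at h2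
  have h3 : ∑ q ∈ range m, δ = δ * m := by simp [mul_comm]
  rw [h3] at h2
  have h4 : ∑ q ∈ range m, ∑ p ∈ range q, (if x q < y p then (1 : ℤ) else 0) ≤
      (∑ q ∈ range m, ∑ p ∈ range q, (if y q < y p then (1 : ℤ) else 0)) + 2 * δ * m := by
    rw [sum_swap_tri m (fun p q => if x q < y p then (1 : ℤ) else 0),
      sum_swap_tri m (fun p q => if y q < y p then (1 : ℤ) else 0)]
    have h5 : ∀ p ∈ range m, ∑ q ∈ Ico (p + 1) m, (if x q < y p then (1 : ℤ) else 0) ≤
        (∑ q ∈ Ico (p + 1) m, (if y q < y p then (1 : ℤ) else 0)) + 2 * δ := by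
      intro p hp
      have hp' := mem_range.1 hp
      rw [later_small m x (y p) p hp', later_small m y (y p) p hp']
      have a1 := (abs_le.1 (h (y p) m le_rfl)).1
      have a2 := (abs_le.1 (h (y p) (p + 1) hp')).2
      linarith
    have h6 := sum_le_sum h5
    rw [sum_add_distrib] at h6
    have h7 : ∑ q ∈ range m, 2 * δ = 2 * δ * m := by simp [mul_comm]
    rw [h7] at h6
    exact h6
  linarith

theorem crossing_wd (m n : ℕ) (x y : ℕ → ℕ) :
    (crossing (wd m x) (wd n y) : ℤ) =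
      ∑ i ∈ range m, ∑ j ∈ range n, (if y j < x i then (1 : ℤ) else 0) := by
  unfold crossing wd
  rw [List.map_map]
  have h1 : (List.map ((fun x => List.countP (fun y => decide (y < x)) (List.map y (List.range n)))
      ∘ x) (List.range m)).sum = ∑ i ∈ range m, ∑ j ∈ range n, (if y j < x i then 1 else 0) := by
    rw [← Finset.sum_map_toList (range m)]
    have h2 : (List.map (fun i => ∑ j ∈ range n, (if y j < x i then 1 else 0))
        (range m).toList).Perm
        (List.map (fun i => ∑ j ∈ range n, (if y j < x i then 1 else 0)) (List.range m)) := by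
      apply List.Perm.map
      apply (List.perm_ext_iff_of_nodup (Finset.nodup_toList _) List.nodup_range).2
      intro a
      simp
    rw [h2.sum_eq]
    congr 1
    apply List.map_congr_left
    intro i _
    simp only [Function.comp]
    exact countP_range n y (fun z => z < x i)
  rw [h1]
  push_cast
  rfl

open Classical in
theorem cc_le (b : ℕ) (D : ℕ → ℕ → Prop) (Y Z : ℕ → ℕ → ℕ) (hT : Tile b D Y Z) (δ : ℤ)
    (hl : ∀ k, ∀ y ≤ b, |(H k (fun r => Z r b) y : ℤ) - H k (fun r => Z r 0) y| ≤ δ)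
    (hb : ∀ k, ∀ x ≤ b, |(H k (fun c => Y b c) x : ℤ) - H k (fun c => Y 0 c) x| ≤ δ) :
    ((((range b ×ˢ range b).filter (fun p => D p.1 p.2 ∧ Y p.1 p.2 < Z p.1 (p.2 + 1))).card : ℕ)
        : ℤ) + (b : ℤ) ^ 2 ≤
      ∑ u ∈ range b, ((H (Y 0 u + 1) (fun r => Z r 0) b : ℤ) + H (Y 0 u) (fun r => Z r 0) b)
        + 8 * δ * b := by
  have h0 := tile_inv hT b
  rw [linv_append, linv_append] at h0
  have h0' : ((linv (wd b fun r => Z r 0) : ℤ) + linv (wd b fun c => Y b c) +
      crossing (wd b fun r => Z r 0) (wd b fun c => Y b c)) =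
      (linv (wd b fun c => Y 0 c) : ℤ) + linv (wd b fun r => Z r b) +
      crossing (wd b fun c => Y 0 c) (wd b fun r => Z r b) +
      (((range b ×ˢ range b).filter
        (fun p => D p.1 p.2 ∧ Y p.1 p.2 < Z p.1 (p.2 + 1))).card : ℤ) := by
    exact_mod_cast h0
  have h1 := inv_robust b (fun r => Z r 0) (fun r => Z r b) δ
    (fun k q hq => by rw [abs_sub_comm]; exact hl k q hq)
  have h2 := inv_robust b (fun c => Y b c) (fun c => Y 0 c) δ hb
  have h3 : (crossing (wd b fun r => Z r 0) (wd b fun c => Y b c) : ℤ) ≤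
      ∑ u ∈ range b, (H (Y 0 u + 1) (fun r => Z r 0) b : ℤ) + δ * b := by
    rw [crossing_wd]
    have h4 : ∀ i ∈ range b, ∑ j ∈ range b, (if Y b j < Z i 0 then (1 : ℤ) else 0) ≤
        (∑ j ∈ range b, (if Y 0 j < Z i 0 then (1 : ℤ) else 0)) + δ := by
      intro i _
      rw [all_small b (fun j => Y b j) (Z i 0), all_small b (fun j => Y 0 j) (Z i 0)]
      have := (abs_le.1 (hb (Z i 0) b le_rfl)).1
      linarith
    refine (sum_le_sum h4).trans ?_
    rw [sum_add_distrib, sum_comm]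
    have h5 : ∑ i ∈ range b, δ = δ * b := by simp [mul_comm]
    rw [h5]
    apply le_of_eq
    congr 1
    refine sum_congr rfl fun u _ => ?_
    unfold H
    push_cast
    rfl
  have h6 : (b : ℤ) ^ 2 - ∑ u ∈ range b, (H (Y 0 u) (fun r => Z r 0) b : ℤ) - δ * b ≤
      (crossing (wd b fun c => Y 0 c) (wd b fun r => Z r b) : ℤ) := by
    rw [crossing_wd]
    have h7 : ∀ i ∈ range b, (b : ℤ) - (H (Y 0 i) (fun r => Z r 0) b : ℤ) - δ ≤
        ∑ j ∈ range b, (if Z j b < Y 0 i then (1 : ℤ) else 0) := by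
      intro i _
      rw [all_small b (fun j => Z j b) (Y 0 i)]
      have := (abs_le.1 (hl (Y 0 i) b le_rfl)).2
      linarith
    refine le_trans ?_ (sum_le_sum h7)
    rw [sum_sub_distrib, sum_sub_distrib]
    have h8 : ∑ i ∈ range b, δ = δ * b := by simp [mul_comm]
    have h9 : ∑ i ∈ range b, (b : ℤ) = (b : ℤ) ^ 2 := by simp [sq]
    rw [h8, h9]
  rw [sum_add_distrib]
  have h10 : (3 : ℤ) * δ * b = 3 * (δ * b) := by ring
  have h11 : (8 : ℤ) * δ * b = 8 * (δ * b) := by ring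
  rw [h10] at h1 h2
  rw [h11]
  linarith

end Pool.Agent.Schub.Ring
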