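import Pool.Agent.SchubU.Comp

/-!
The ring process: it is a tile model, the letters are permuted, ineffective crossings may be
dropped, and the number of exchanges.
-/

set_option autoImplicit false

namespace Pool.Agent.Schub.Ring

open Finset Pool.Agent.Helper78.Lim

theorem SW_zero (C : ℕ) (D : ℕ → ℕ → Prop) (x0 : ℕ → ℕ) : SW C D x0 0 = x0 := rfl

theorem SZ_last (C : ℕ) (D : ℕ → ℕ → Prop) (x0 : ℕ → ℕ) (r : ℕ) :
    SZ C D x0 r C = SW C D x0 r C := sw_last43 C D x0 r

theorem SW_feed (C : ℕ) (D : ℕ → ℕ → Prop) (x0 : ℕ → ℕ) (r : ℕ) :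
    SW C D x0 (r + 1) C = SZ C D x0 r 0 := sw_feed43 C D x0 r

theorem strip_tile (C : ℕ) (D : ℕ → ℕ → Prop) (x0 : ℕ → ℕ) :
    Tile C D (SW C D x0) (SZ C D x0) := by
  constructor
  · intro r c hc h1 h2
    obtain ⟨a1, a2⟩ := sw_cell43 C D x0 r c hc
    rw [if_pos ⟨h1, h2⟩] at a1 a2
    exact ⟨a1, a2⟩
  · intro r c hc h
    obtain ⟨a1, a2⟩ := sw_cell43 C D x0 r c hc
    rw [if_neg h] at a1 a2
    exact ⟨a1, a2⟩

theorem SW_congr52 (C R : ℕ) (D D' : ℕ → ℕ → Prop) (x0 : ℕ → ℕ)
    (h : ∀ r c, r < R → c < C → (D r c ∧ SW C D x0 r c < SZ C D x0 r (c + 1) ↔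
      D' r c ∧ SW C D x0 r c < SZ C D x0 r (c + 1))) :
    (∀ r ≤ R, ∀ c ≤ C, SW C D x0 r c = SW C D' x0 r c) ∧
    (∀ r < R, ∀ c ≤ C, SZ C D x0 r c = SZ C D' x0 r c) := by
  have row : ∀ r < R, (∀ c ≤ C, SW C D x0 r c = SW C D' x0 r c) →
      ∀ k ≤ C, SZ C D x0 r (C - k) = SZ C D' x0 r (C - k) := by
    intro r hr hw k
    induction k with
    | zero =>
      intro _
      rw [Nat.sub_zero, SZ_last, SZ_last]
      exact hw C le_rfl
    | succ k ih =>
      intro hk
      have ih := ih (by omega)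
      have hc : C - (k + 1) < C := by omega
      have hc1 : C - (k + 1) + 1 = C - k := by omega
      obtain ⟨-, a2⟩ := sw_cell43 C D x0 r (C - (k + 1)) hc
      obtain ⟨-, b2⟩ := sw_cell43 C D' x0 r (C - (k + 1)) hc
      rw [a2, b2, hc1, ← ih, ← hw _ hc.le]
      have hh := h r (C - (k + 1)) hr hc
      rw [hc1] at hh
      by_cases hx : D r (C - (k + 1)) ∧ SW C D x0 r (C - (k + 1)) < SZ C D x0 r (C - k)
      · rw [if_pos hx, if_pos (hh.1 hx)]
      · rw [if_neg hx, if_neg (fun hx' => hx (hh.2 hx'))]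
  have row' : ∀ r < R, (∀ c ≤ C, SW C D x0 r c = SW C D' x0 r c) →
      ∀ c ≤ C, SZ C D x0 r c = SZ C D' x0 r c := by
    intro r hr hw c hc
    have := row r hr hw (C - c) (Nat.sub_le _ _)
    rwa [Nat.sub_sub_self hc] at this
  have main : ∀ r ≤ R, ∀ c ≤ C, SW C D x0 r c = SW C D' x0 r c := by
    intro r
    induction r with
    | zero => intro _ c _; rfl
    | succ r ih =>
      intro hr c hc
      have ih := ih (by omega)
      have hz := row' r (by omega) ih
      rcases Nat.lt_or_ge c C with h1 | h1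
      · obtain ⟨a1, -⟩ := sw_cell43 C D x0 r c h1
        obtain ⟨b1, -⟩ := sw_cell43 C D' x0 r c h1
        rw [a1, b1, ← ih c hc, ← hz (c + 1) h1]
        have hh := h r c (by omega) h1
        by_cases hx : D r c ∧ SW C D x0 r c < SZ C D x0 r (c + 1)
        · rw [if_pos hx, if_pos (hh.1 hx)]
        · rw [if_neg hx, if_neg (fun hx' => hx (hh.2 hx'))]
      · have hcC : c = C := le_antisymm hc h1
        rw [hcC, SW_feed, SW_feed]
        exact hz 0 (Nat.zero_le _)
  exact ⟨main, fun r hr => row' r hr (main r hr.le)⟩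

theorem SW_congr (C R : ℕ) (D D' : ℕ → ℕ → Prop) (x0 : ℕ → ℕ)
    (h : ∀ r c, r < R → c < C → (D r c ↔ D' r c)) :
    (∀ r ≤ R, ∀ c ≤ C, SW C D x0 r c = SW C D' x0 r c) ∧
    (∀ r < R, ∀ c ≤ C, SZ C D x0 r c = SZ C D' x0 r c) :=
  SW_congr52 C R D D' x0 fun r c hr hc => by rw [h r c hr hc]

theorem effR_allEff (C : ℕ) (x0 : ℕ → ℕ) (D : Finset (ℕ × ℕ)) (hD : ∀ p ∈ D, p.2 < C) :
    AllEff C x0 (effR C x0 D) := by
  classical
  intro p hp
  unfold effR at hp
  rw [mem_filter] at hp
  have key := SW_congr52 C (p.1 + 1) (rel D) (rel (effR C x0 D)) x0 (by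
    intro r c _ _
    constructor
    · rintro ⟨h1, h2⟩
      refine ⟨?_, h2⟩
      unfold rel effR
      rw [mem_filter]
      exact ⟨h1, h2⟩
    · rintro ⟨h1, h2⟩
      refine ⟨?_, h2⟩
      unfold rel effR at h1
      rw [mem_filter] at h1
      exact h1.1)
  have hc := hD p hp.1
  rw [← key.1 p.1 (Nat.le_succ _) p.2 hc.le, ← key.2 p.1 (Nat.lt_succ_self _) (p.2 + 1) hc]
  exact hp.2

theorem wd_succ52 (m : ℕ) (x : ℕ → ℕ) : wd (m + 1) x = wd m x ++ [x m] := by
  unfold wd
  rw [List.range_succ, List.map_append, List.map_singleton]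

/-- one row: the letters are permuted -/
theorem row_perm52 (Dr : ℕ → Prop) (y y' z : ℕ → ℕ) (C : ℕ)
    (hex : ∀ c < C, Dr c → y c < z (c + 1) → y' c = y c ∧ z c = z (c + 1))
    (hel : ∀ c < C, ¬ (Dr c ∧ y c < z (c + 1)) → y' c = z (c + 1) ∧ z c = y c) :
    (z 0 :: wd C y').Perm (wd C y ++ [z C]) := by
  induction C with
  | zero => exact List.Perm.refl _
  | succ C ih =>
    have ih := ih (fun c hc => hex c (by omega)) (fun c hc => hel c (by omega))
    rw [wd_succ52, wd_succ52, ← List.cons_append]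
    by_cases hx : Dr C ∧ y C < z (C + 1)
    · obtain ⟨h1, h2⟩ := hex C (Nat.lt_succ_self C) hx.1 hx.2
      rw [h1]
      refine (List.Perm.append_right _ ih).trans ?_
      rw [h2, List.append_assoc, List.append_assoc]
      exact List.Perm.append_left _ (List.Perm.swap _ _ _)
    · obtain ⟨h1, h2⟩ := hel C (Nat.lt_succ_self C) hx
      rw [h1]
      refine (List.Perm.append_right _ ih).trans ?_
      rw [h2]

/-- one row: the inversions -/
theorem row_inv52 (Dr : ℕ → Prop) [DecidablePred Dr] (y y' z : ℕ → ℕ) (C : ℕ)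
    (hex : ∀ c < C, Dr c → y c < z (c + 1) → y' c = y c ∧ z c = z (c + 1))
    (hel : ∀ c < C, ¬ (Dr c ∧ y c < z (c + 1)) → y' c = z (c + 1) ∧ z c = y c) :
    linv (z 0 :: wd C y') =
      linv (wd C y ++ [z C]) + ∑ c ∈ range C, if Dr c ∧ y c < z (c + 1) then 1 else 0 := by
  induction C with
  | zero => simp [wd, linv]
  | succ C ih =>
    have hex' : ∀ c < C, Dr c → y c < z (c + 1) → y' c = y c ∧ z c = z (c + 1) :=
      fun c hc => hex c (by omega)
    have hel' : ∀ c < C, ¬ (Dr c ∧ y c < z (c + 1)) → y' c = z (c + 1) ∧ z c = y c :=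
      fun c hc => hel c (by omega)
    have ih := ih hex' hel'
    have hp := row_perm52 Dr y y' z C hex' hel'
    rw [wd_succ52, wd_succ52, ← List.cons_append, linv_snoc, ih, hp.countP_eq, linv_snoc (wd C y),
      linv_snoc (wd C y ++ [y C]), linv_snoc (wd C y), sum_range_succ, List.countP_append,
      List.countP_append]
    by_cases hx : Dr C ∧ y C < z (C + 1)
    · obtain ⟨h1, h2⟩ := hex C (Nat.lt_succ_self C) hx.1 hx.2
      rw [h1, h2, if_pos hx]
      have e1 : List.countP (fun u => decide (y C < u)) [z (C + 1)] = 1 := by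
        simp [hx.2]
      have e2 : List.countP (fun u => decide (z (C + 1) < u)) [y C] = 0 := by
        have := hx.2
        simp
        omega
      rw [e1, e2]
      omega
    · obtain ⟨h1, h2⟩ := hel C (Nat.lt_succ_self C) hx
      rw [h1, h2, if_neg hx]
      omega

/-- the letters of the ring are permuted -/
theorem ring_perm (C : ℕ) (D : ℕ → ℕ → Prop) (x0 : ℕ → ℕ) (r : ℕ) :
    (wd (C + 1) (SW C D x0 r)).Perm (wd (C + 1) x0) := by
  induction r with
  | zero => exact List.Perm.refl _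
  | succ r ih =>
    refine List.Perm.trans ?_ ih
    have ht := strip_tile C D x0
    have h := row_perm52 (D r) (SW C D x0 r) (SW C D x0 (r + 1)) (SZ C D x0 r) C
      (fun c hc => ht.ex r c hc) (fun c hc => ht.el r c hc)
    rw [wd_succ52, wd_succ52, SW_feed]
    refine List.Perm.trans ?_ (h.trans ?_)
    · exact List.perm_append_comm
    · rw [SZ_last]

theorem countP_wd52 (m : ℕ) (x : ℕ → ℕ) (p : ℕ → Prop) [DecidablePred p] :
    (wd m x).countP (fun u => decide (p u)) = ∑ i ∈ range m, if p (x i) then 1 else 0 := by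
  induction m with
  | zero => simp [wd]
  | succ m ih =>
    rw [wd_succ52, List.countP_append, ih, sum_range_succ]
    congr 1
    by_cases h : p (x m) <;> simp [h]

theorem linv_le52 : ∀ l : List ℕ, linv l ≤ l.length ^ 2 := by
  intro l
  induction l with
  | nil => simp [linv]
  | cons a l ih =>
    have h1 := List.countP_le_length (p := fun y => decide (y < a)) (l := l)
    simp only [linv, List.length_cons]
    nlinarith

theorem wd_length52 (m : ℕ) (x : ℕ → ℕ) : (wd m x).length = m := by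
  unfold wd
  simp

theorem wd_map52 (m : ℕ) (x f : ℕ → ℕ) : wd m (fun i => f (x i)) = (wd m x).map f := by
  unfold wd
  rw [List.map_map]
  rfl

open Classical in
/-- the number of exchanges of letters of different classes (class = `f`) on the ring -/
theorem ring_ex_ge (C R : ℕ) (D : ℕ → ℕ → Prop) (x0 : ℕ → ℕ) (f : ℕ → ℕ) (hf : Monotone f) :
    ∑ i ∈ range (C + 1), (EE (fun r c => f (SZ C D x0 r c)) (f (x0 i) + 1) R
        + EE (fun r c => f (SZ C D x0 r c)) (f (x0 i)) R) ≤
      ((range R ×ˢ range C).filter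
        (fun p => D p.1 p.2 ∧ f (SW C D x0 p.1 p.2) < f (SZ C D x0 p.1 (p.2 + 1)))).card
        + (C + 1) * R + (C + 1) ^ 2 := by
  have ht := strip_tile C D x0
  set Y : ℕ → ℕ → ℕ := fun r c => f (SW C D x0 r c) with hY
  set Z : ℕ → ℕ → ℕ := fun r c => f (SZ C D x0 r c) with hZ
  -- the tile model of the classes
  have hex : ∀ r, ∀ c < C, D r c → Y r c < Z r (c + 1) →
      Y (r + 1) c = Y r c ∧ Z r c = Z r (c + 1) := by
    intro r c hc h1 h2
    have h3 : SW C D x0 r c < SZ C D x0 r (c + 1) := by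
      by_contra h
      exact absurd h2 (not_lt.2 (hf (not_lt.1 h)))
    obtain ⟨a1, a2⟩ := ht.ex r c hc h1 h3
    exact ⟨congrArg f a1, congrArg f a2⟩
  have hel : ∀ r, ∀ c < C, ¬ (D r c ∧ Y r c < Z r (c + 1)) →
      Y (r + 1) c = Z r (c + 1) ∧ Z r c = Y r c := by
    intro r c hc h
    by_cases h1 : D r c ∧ SW C D x0 r c < SZ C D x0 r (c + 1)
    · obtain ⟨a1, a2⟩ := ht.ex r c hc h1.1 h1.2
      have h2 : Y r c ≤ Z r (c + 1) := hf h1.2.le
      have h3 : Y r c = Z r (c + 1) := le_antisymm h2 (not_lt.1 fun h4 => h ⟨h1.1, h4⟩)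
      refine ⟨?_, ?_⟩
      · show f (SW C D x0 (r + 1) c) = Z r (c + 1)
        rw [a1]
        exact h3
      · show f (SZ C D x0 r c) = Y r c
        rw [a2]
        exact h3.symm
    · obtain ⟨a1, a2⟩ := ht.el r c hc h1
      exact ⟨congrArg f a1, congrArg f a2⟩
  set ex : ℕ → ℕ := fun r => ∑ c ∈ range C, if D r c ∧ Y r c < Z r (c + 1) then 1 else 0 with hexd
  have hcard : ((range R ×ˢ range C).filter
      (fun p => D p.1 p.2 ∧ f (SW C D x0 p.1 p.2) < f (SZ C D x0 p.1 (p.2 + 1)))).card =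
      ∑ r ∈ range R, ex r := by
    rw [Finset.card_filter, Finset.sum_product]
  set lo : ℕ → ℕ := fun r => ∑ i ∈ range (C + 1), if f (x0 i) < Z r 0 then 1 else 0 with hlo
  set hi : ℕ → ℕ := fun r => ∑ i ∈ range (C + 1), if Z r 0 < f (x0 i) then 1 else 0 with hhi
  have hstep : ∀ r, linv (wd (C + 1) (Y (r + 1))) + lo r = linv (wd (C + 1) (Y r)) + ex r + hi r := by
    intro r
    have h1 := row_inv52 (D r) (Y r) (Y (r + 1)) (Z r) C (hex r) (hel r)
    have hperm : (wd (C + 1) (Y (r + 1))).Perm (wd (C + 1) (fun i => f (x0 i))) := by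
      have := (ring_perm C D x0 (r + 1)).map f
      rw [← wd_map52, ← wd_map52] at this
      exact this
    have hfeed : Y (r + 1) C = Z r 0 := congrArg f (SW_feed C D x0 r)
    have hlast : Z r C = Y r C := congrArg f (SZ_last C D x0 r)
    have c1 : lo r = (wd C (Y (r + 1))).countP (fun u => decide (u < Z r 0)) := by
      have e1 := hperm.countP_eq (fun u => decide (u < Z r 0))
      rw [countP_wd52 (C + 1) (fun i => f (x0 i)) (fun u => u < Z r 0), wd_succ52,
        List.countP_append, hfeed] at e1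
      have e2 : List.countP (fun u => decide (u < Z r 0)) [Z r 0] = 0 := by simp
      rw [e2] at e1
      rw [hlo]
      simp only
      omega
    have c2 : hi r = (wd C (Y (r + 1))).countP (fun u => decide (Z r 0 < u)) := by
      have e1 := hperm.countP_eq (fun u => decide (Z r 0 < u))
      rw [countP_wd52 (C + 1) (fun i => f (x0 i)) (fun u => Z r 0 < u), wd_succ52,
        List.countP_append, hfeed] at e1
      have e2 : List.countP (fun u => decide (Z r 0 < u)) [Z r 0] = 0 := by simp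
      rw [e2] at e1
      rw [hhi]
      simp only
      omega
    have h2 : linv (Z r 0 :: wd C (Y (r + 1))) =
        (wd C (Y (r + 1))).countP (fun u => decide (u < Z r 0)) + linv (wd C (Y (r + 1))) := rfl
    rw [h2, hlast, ← wd_succ52] at h1
    rw [wd_succ52 C (Y (r + 1)), linv_snoc, hfeed, c1, c2]
    have h3 : ex r = ∑ c ∈ range C, if D r c ∧ Y r c < Z r (c + 1) then 1 else 0 := rfl
    omega
  have hsum : ∀ R, linv (wd (C + 1) (Y R)) + ∑ r ∈ range R, lo r =
      linv (wd (C + 1) (Y 0)) + ∑ r ∈ range R, ex r + ∑ r ∈ range R, hi r := by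
    intro R
    induction R with
    | zero => simp
    | succ R ih =>
      have := hstep R
      rw [sum_range_succ, sum_range_succ, sum_range_succ]
      omega
  have hLHS : ∑ i ∈ range (C + 1), (EE Z (f (x0 i) + 1) R + EE Z (f (x0 i)) R) +
      ∑ r ∈ range R, hi r = ∑ r ∈ range R, lo r + (C + 1) * R := by
    unfold EE
    rw [sum_add_distrib, sum_comm, sum_comm (s := range (C + 1))]
    have e1 : ∑ r ∈ range R, ∑ i ∈ range (C + 1), (if f (x0 i) + 1 ≤ Z r 0 then 1 else 0) =
        ∑ r ∈ range R, lo r := rfl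
    have e2 : ∑ r ∈ range R, ∑ i ∈ range (C + 1), (if f (x0 i) ≤ Z r 0 then 1 else 0) +
        ∑ r ∈ range R, hi r = (C + 1) * R := by
      rw [← sum_add_distrib]
      have e3 : ∀ r ∈ range R, (∑ i ∈ range (C + 1), (if f (x0 i) ≤ Z r 0 then 1 else 0)) + hi r =
          C + 1 := by
        intro r _
        rw [hhi]
        simp only
        rw [← sum_add_distrib]
        have e4 : ∀ i ∈ range (C + 1), ((if f (x0 i) ≤ Z r 0 then 1 else 0) +
            (if Z r 0 < f (x0 i) then 1 else 0)) = 1 := by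
          intro i _
          by_cases h : f (x0 i) ≤ Z r 0
          · rw [if_pos h, if_neg (not_lt.2 h)]
          · rw [if_neg h, if_pos (not_le.1 h)]
        rw [sum_congr rfl e4]
        simp
      rw [sum_congr rfl e3]
      simp [mul_comm]
    rw [e1]
    omega
  have h0 : linv (wd (C + 1) (Y 0)) ≤ (C + 1) ^ 2 := by
    have := linv_le52 (wd (C + 1) (Y 0))
    rwa [wd_length52] at this
  have hR := hsum R
  rw [hcard]
  omega

end Pool.Agent.Schub.Ring
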