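import Pool.Agent.SchubU.TileRun
import Pool.Agent.SchubU.Strip
import Pool.Agent.SchubU.Comp
import Pool.Agent.SchubU.InvIneq

/-!
The number of patterns in a good box.
-/

set_option autoImplicit false

namespace Pool.Agent.Schub.Ring

open Finset Pool.Agent.Helper78.Lim

/-- total version of a stack of patterns -/
def sQ {M : ℕ} (Q : Fin M → Finset (ℕ × ℕ)) (j : ℕ) : Finset (ℕ × ℕ) :=
  if h : j < M then Q ⟨j, h⟩ else ∅

/-- The crossings on the ring: a stack of patterns in the columns `< b`, all crossings in the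
columns from `b` on. -/
def stack (b δ : ℕ) {M : ℕ} (Q : Fin M → Finset (ℕ × ℕ)) : Finset (ℕ × ℕ) :=
  (range (M * b) ×ˢ range (b + δ)).filter
    (fun p => p.2 < b → (p.1 % b, p.2) ∈ sQ Q (p.1 / b))

theorem mem_stack (b δ : ℕ) {M : ℕ} (Q : Fin M → Finset (ℕ × ℕ)) (p : ℕ × ℕ) :
    p ∈ stack b δ Q ↔ (p.1 < M * b ∧ p.2 < b + δ) ∧
      (p.2 < b → (p.1 % b, p.2) ∈ sQ Q (p.1 / b)) := by
  unfold stack
  rw [mem_filter, mem_product, mem_range, mem_range]

theorem mem_stack' (b δ : ℕ) {M : ℕ} (Q : Fin M → Finset (ℕ × ℕ)) (j y x : ℕ) (hj : j < M)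
    (hy : y < b) (hx : x < b) : (j * b + y, x) ∈ stack b δ Q ↔ (y, x) ∈ Q ⟨j, hj⟩ := by
  rw [mem_stack]
  have hb : 0 < b := by omega
  have e1 : (j * b + y) % b = y := by
    rw [add_comm, Nat.add_mul_mod_self_right, Nat.mod_eq_of_lt hy]
  have e2 : (j * b + y) / b = j := by
    rw [add_comm, Nat.add_mul_div_right _ _ hb, Nat.div_eq_of_lt hy, zero_add]
  have e3 : j * b + y < M * b := by
    calc j * b + y < j * b + b := by omega
      _ = (j + 1) * b := by ring
      _ ≤ M * b := Nat.mul_le_mul_right b hj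
  simp only [e1, e2]
  constructor
  · rintro ⟨_, h⟩
    have := h hx
    unfold sQ at this
    rwa [dif_pos hj] at this
  · intro h
    refine ⟨⟨e3, by omega⟩, fun _ => ?_⟩
    unfold sQ
    rwa [dif_pos hj]

theorem stack_full (b δ : ℕ) {M : ℕ} (Q : Fin M → Finset (ℕ × ℕ)) (r c : ℕ) (hr : r < M * b)
    (h1 : b ≤ c) (h2 : c < b + δ) : (r, c) ∈ stack b δ Q := by
  rw [mem_stack]
  exact ⟨⟨hr, h2⟩, fun h => absurd h (by simpa using h1)⟩

theorem stack_inj (b δ : ℕ) {M : ℕ} (Q Q' : Fin M → Finset (ℕ × ℕ))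
    (hQ : ∀ j, ∀ p ∈ Q j, p.1 < b ∧ p.2 < b) (hQ' : ∀ j, ∀ p ∈ Q' j, p.1 < b ∧ p.2 < b)
    (h : stack b δ Q = stack b δ Q') : Q = Q' := by
  funext j
  ext ⟨y, x⟩
  have key : ∀ (Q1 Q2 : Fin M → Finset (ℕ × ℕ)), (∀ j, ∀ p ∈ Q1 j, p.1 < b ∧ p.2 < b) →
      stack b δ Q1 = stack b δ Q2 → (y, x) ∈ Q1 j → (y, x) ∈ Q2 j := by
    intro Q1 Q2 h1 h2 h3
    obtain ⟨hy, hx⟩ := h1 j _ h3
    have h4 := (mem_stack' b δ Q1 j y x j.2 hy hx).2 h3
    rw [h2] at h4
    exact (mem_stack' b δ Q2 j y x j.2 hy hx).1 h4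
  exact ⟨key Q Q' hQ h, key Q' Q hQ' h.symm⟩

theorem card_stack_le (b δ : ℕ) {M : ℕ} (Q : Fin M → Finset (ℕ × ℕ)) (p0 : ℕ)
    (hQ : ∀ j, (Q j).card ≤ p0) : (stack b δ Q).card ≤ M * p0 + M * b * δ := by
  have h1 : stack b δ Q ⊆
      ((range M).biUnion (fun j => (sQ Q j).image (fun q => (j * b + q.1, q.2)))) ∪
        (range (M * b) ×ˢ Ico b (b + δ)) := by
    rintro ⟨r, c⟩ hp
    rw [mem_stack] at hp
    obtain ⟨⟨hr, hc⟩, h⟩ := hp
    simp only at hr hc h
    rw [mem_union]
    by_cases hcb : c < b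
    · left
      have h2 := h hcb
      rw [mem_biUnion]
      refine ⟨r / b, ?_, ?_⟩
      · rw [mem_range]
        exact Nat.div_lt_of_lt_mul (by rwa [mul_comm])
      · rw [mem_image]
        refine ⟨(r % b, c), h2, ?_⟩
        simp only [Prod.mk.injEq, and_true]
        rw [mul_comm]
        exact Nat.div_add_mod r b
    · right
      rw [mem_product, mem_range, mem_Ico]
      exact ⟨hr, by simpa using hcb, hc⟩
  refine (card_le_card h1).trans ((card_union_le _ _).trans ?_)
  apply Nat.add_le_add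
  · refine card_biUnion_le.trans ?_
    have h2 : ∀ j ∈ range M, ((sQ Q j).image (fun q => (j * b + q.1, q.2))).card ≤ p0 := by
      intro j hj
      refine card_image_le.trans ?_
      unfold sQ
      rw [dif_pos (mem_range.1 hj)]
      exact hQ _
    refine (sum_le_sum h2).trans ?_
    simp
  · rw [card_product, card_range, Nat.card_Ico]
    apply le_of_eq
    congr 1
    omega

/-- The heights give the counting functions of the classes. -/
theorem H_div (x : ℕ → ℕ) (t : ℕ) (ht : 0 < t) (k q : ℕ) :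
    H k (fun r => x r / t) q = H (k * t) x q := by
  unfold H
  apply sum_congr rfl
  intro p _
  simp only [Nat.le_div_iff_mul_le ht]

theorem hf_right_sum (D : Finset (ℕ × ℕ)) (n i r c x : ℕ) :
    hf D n i r (c + x) = hf D n i r c + (H i (fun j => Yd D n r (c + j)) x : ℤ) := by
  induction x with
  | zero => simp [H]
  | succ x ih =>
    rw [← add_assoc, hf_right, ih, H_succ]
    push_cast
    ring

theorem hf_down_sum (D : Finset (ℕ × ℕ)) (n i r c y : ℕ) :
    hf D n i (r + y) c = hf D n i r c + (H i (fun j => Zd D n (r + j) c) y : ℤ) := by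
  induction y with
  | zero => simp [H]
  | succ y ih =>
    rw [← add_assoc, hf_down, ih, H_succ]
    push_cast
    ring

theorem H_zero_of_lt (k : ℕ) (x : ℕ → ℕ) (q : ℕ) (h : ∀ p < q, x p < k) : H k x q = 0 := by
  unfold H
  apply sum_eq_zero
  intro p hp
  rw [if_neg]
  have := h p (mem_range.1 hp)
  omega

open Classical in
/-- crossings of letters of the same class in the box `(α, β)` -/
noncomputable def sB (D : Finset (ℕ × ℕ)) (n t b α β : ℕ) : ℕ :=
  (D.filter (fun p => (α * b ≤ p.1 ∧ p.1 < α * b + b) ∧ (β * b ≤ p.2 ∧ p.2 < β * b + b) ∧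
    ¬ Yd D n p.1 p.2 / t < Zd D n p.1 (p.2 + 1) / t)).card

section
variable {S t τ b G δ0 : ℕ} {F : Finset (Finset (ℕ × ℕ))} {D0 : Finset (ℕ × ℕ)}
    {gd : ℕ → ℕ → Prop}

open Classical in
/-- The number of crossings of different classes in the box. -/
noncomputable def ccB (D : Finset (ℕ × ℕ)) (n t b α β : ℕ) : ℕ :=
  ((range b ×ˢ range b).filter (fun p => (α * b + p.1, β * b + p.2) ∈ D ∧
    Yd D n (α * b + p.1) (β * b + p.2) / t < Zd D n (α * b + p.1) (β * b + p.2 + 1) / t)).card

theorem card_loc_eq (D : Finset (ℕ × ℕ)) (n t b α β : ℕ) :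
    (loc b α β D).card = ccB D n t b α β + sB D n t b α β := by
  classical
  unfold ccB sB
  rw [← card_filter_add_card_filter_not (s := loc b α β D) (fun p =>
    Yd D n (α * b + p.1) (β * b + p.2) / t < Zd D n (α * b + p.1) (β * b + p.2 + 1) / t)]
  congr 1
  · congr 1
    ext p
    unfold loc
    simp only [mem_filter, mem_product, mem_range]
    tauto
  · apply card_bij (fun p _ => (α * b + p.1, β * b + p.2))
    · intro p hp
      unfold loc at hp
      simp only [mem_filter, mem_product, mem_range] at hp ⊢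
      refine ⟨hp.1.2, ⟨by omega, by omega⟩, ⟨by omega, by omega⟩, hp.2⟩
    · rintro ⟨p1, p2⟩ _ ⟨q1, q2⟩ _ h
      simp only [Prod.mk.injEq] at h ⊢
      omega
    · rintro ⟨q1, q2⟩ hq
      simp only [mem_filter] at hq
      refine ⟨(q1 - α * b, q2 - β * b), ?_, ?_⟩
      · unfold loc
        simp only [mem_filter, mem_product, mem_range]
        have e1 : α * b + (q1 - α * b) = q1 := by omega
        have e2 : β * b + (q2 - β * b) = q2 := by omega
        rw [e1, e2]
        exact ⟨⟨⟨by omega, by omega⟩, hq.1⟩, hq.2.2.2⟩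
      · simp only [Prod.mk.injEq]
        omega

/-- The start word on the ring. -/
def xS (D : Finset (ℕ × ℕ)) (S t b δ n α β i : ℕ) : ℕ :=
  (b + δ + 1) * (if i < b then Yd D n (α * b) (β * b + i) / t else S - 1) + i

theorem xS_div (D : Finset (ℕ × ℕ)) (S t b δ n α β i : ℕ) (hi : i < b + δ + 1) :
    xS D S t b δ n α β i / (b + δ + 1) =
      if i < b then Yd D n (α * b) (β * b + i) / t else S - 1 := by
  unfold xS
  rw [Nat.mul_add_div (by omega), Nat.div_eq_of_lt hi, add_zero]

theorem xS_inj (D : Finset (ℕ × ℕ)) (S t b δ n α β : ℕ) :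
    Set.InjOn (xS D S t b δ n α β) (Set.Iio (b + δ + 1)) := by
  intro i hi j hj h
  rw [Set.mem_Iio] at hi hj
  have h1 : xS D S t b δ n α β i % (b + δ + 1) = i := by
    unfold xS
    rw [Nat.mul_add_mod, Nat.mod_eq_of_lt hi]
  have h2 : xS D S t b δ n α β j % (b + δ + 1) = j := by
    unfold xS
    rw [Nat.mul_add_mod, Nat.mod_eq_of_lt hj]
  rw [← h1, h, h2]

theorem xS_le (D : Finset (ℕ × ℕ)) (S t b δ n α β k i : ℕ) (hi : i < b + δ + 1) :
    k * (b + δ + 1) ≤ xS D S t b δ n α β i ↔
      k ≤ if i < b then Yd D n (α * b) (β * b + i) / t else S - 1 := by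
  rw [← xS_div D S t b δ n α β i hi, Nat.le_div_iff_mul_le (by omega)]

theorem EE_div (Z : ℕ → ℕ → ℕ) (N : ℕ) (hN : 0 < N) (k R : ℕ) :
    EE (fun r c => Z r c / N) k R = EE Z (k * N) R := by
  unfold EE
  apply sum_congr rfl
  intro p _
  simp only [Nat.le_div_iff_mul_le hN]

/-- Lower bound for the letters of large class which leave the ring to the left. -/
theorem EE_ge (hF : Fam S t τ b G δ0 F D0 gd) (α β : ℕ) (hg : gd α β)
    (δ : ℕ) (hδ : δ0 ≤ δ) {M : ℕ} (Q : Fin M → Finset (ℕ × ℕ))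
    (hQ : ∀ j, Q j ∈ F.image (loc b α β)) (k : ℕ) (hk : k < S) :
    (M : ℤ) * ((H (k * t) (fun r => Zd D0 (G * b) (α * b + r) (β * b)) b : ℤ) - δ0) ≤
      EE (SZ (b + δ) (rel (stack b δ Q)) (xS D0 S t b δ (G * b) α β)) (k * (b + δ + 1))
        (M * b) := by
  have hb := hF.hb
  have ht : 0 < t := by rw [hF.ht]; exact Nat.mul_pos hF.hτ hb
  have hαβ := hF.gd_le α β hg
  have hα1 : α * b + b = (α + 1) * b := by ring
  have hβ1 : β * b + b = (β + 1) * b := by ring
  have hα2 : (α + 1) * b ≤ G * b := Nat.mul_le_mul_right b (by omega)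
  have hβ2 : (β + 1) * b ≤ G * b := Nat.mul_le_mul_right b (by omega)
  set D := rel (stack b δ Q) with hD
  -- replace `D` by a set which is full to the right in every row
  set D1 : ℕ → ℕ → Prop := fun r c => D r c ∨ b ≤ c with hD1
  have hcongr := SW_congr (b + δ) (M * b) D D1 (xS D0 S t b δ (G * b) α β) (by
    intro r c hr hc
    constructor
    · intro h; exact Or.inl h
    · rintro (h | h)
      · exact h
      · exact stack_full b δ Q r c hr h hc)
  have hEE : EE (SZ (b + δ) D (xS D0 S t b δ (G * b) α β)) (k * (b + δ + 1)) (M * b) =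
      EE (SZ (b + δ) D1 (xS D0 S t b δ (G * b) α β)) (k * (b + δ + 1)) (M * b) := by
    unfold EE
    apply sum_congr rfl
    intro r hr
    rw [hcongr.2 r (mem_range.1 hr) 0 (Nat.zero_le _)]
  rw [hEE]
  have key := ring_ge (b + δ) b δ M rfl hb D1 (xS D0 S t b δ (G * b) α β) (k * (b + δ + 1))
    (fun x => hf D0 (G * b) (k * t) (α * b) (β * b + x))
    (fun x => hf D0 (G * b) (k * t) (α * b + b) (β * b + x))
    (fun y => hf D0 (G * b) (k * t) (α * b + y) (β * b))
    (fun y => hf D0 (G * b) (k * t) (α * b + y) (β * b + b))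
    δ0 (hf D0 (G * b) (k * t) (α * b + b) (β * b) - hf D0 (G * b) (k * t) (α * b) (β * b) - δ0)
    (by exact_mod_cast hδ) (fun r c h _ => Or.inr h)
    (by
      intro j hj
      obtain ⟨Dj, hDj, hloc⟩ := mem_image.1 (hQ ⟨j, hj⟩)
      have hcells := (mem_Red _ _).1 (hF.red Dj hDj)
      refine ⟨fun r c => (r, c) ∈ Dj, hf Dj (G * b) (k * t), α * b, β * b,
        fld_hf Dj (G * b) (k * t) hcells.1, ?_, ?_, ?_, ?_, ?_⟩
      · intro y x hy hx
        have h1 := mem_stack' b δ Q j y x hj hy hx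
        have h2 := mem_loc b α β Dj y x
        rw [hloc] at h2
        constructor
        · rintro (h | h)
          · exact (h2.1 (h1.1 h)).2
          · omega
        · intro h
          exact Or.inl (h1.2 (h2.2 ⟨⟨hy, hx⟩, h⟩))
      · intro x hx
        exact hF.hrow Dj hDj k hk α (by omega) (β * b + x) (by omega)
      · intro y hy
        simp only [hβ1]
        exact hF.hcol Dj hDj k hk (α * b + y) (by omega) (β + 1) (by omega)
      · intro y hy
        exact hF.hcol Dj hDj k hk (α * b + y) (by omega) β (by omega)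
      · intro x hx
        simp only [hα1]
        exact hF.hrow Dj hDj k hk (α + 1) (by omega) (β * b + x) (by omega))
    (by
      intro y hy
      have := hF.gd1 α β hg k hk y hy
      simpa using this)
    (by
      intro x hx
      have := (abs_le.1 (hF.gd2 α β hg k hk x hx)).1
      linarith)
    (by
      intro x hx
      have h1 := hf_right_sum D0 (G * b) (k * t) (α * b) (β * b) x
      simp only [add_zero]
      rw [h1]
      have h2 : H (k * (b + δ + 1)) (xS D0 S t b δ (G * b) α β) x =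
          H (k * t) (fun j => Yd D0 (G * b) (α * b) (β * b + j)) x := by
        unfold H
        apply sum_congr rfl
        intro i hi
        have hi' := mem_range.1 hi
        simp only [xS_le D0 S t b δ (G * b) α β k i (by omega), if_pos (by omega : i < b),
          Nat.le_div_iff_mul_le ht]
      rw [h2]
      ring)
    (by
      have h1 := hf_right_sum D0 (G * b) (k * t) (α * b) (β * b) b
      simp only [add_zero]
      rw [h1]
      have h2 : H (k * (b + δ + 1)) (xS D0 S t b δ (G * b) α β) (b + δ + 1) =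
          H (k * t) (fun j => Yd D0 (G * b) (α * b) (β * b + j)) b + (δ + 1) := by
        unfold H
        rw [add_assoc b δ 1, sum_range_add]
        congr 1
        · apply sum_congr rfl
          intro i hi
          have hi' := mem_range.1 hi
          rw [← add_assoc b δ 1]
          simp only [xS_le D0 S t b δ (G * b) α β k i (by omega), if_pos (by omega : i < b),
            Nat.le_div_iff_mul_le ht]
        · rw [← add_assoc b δ 1]
          have h3 : ∀ i ∈ range (δ + 1),
              (if k * (b + δ + 1) ≤ xS D0 S t b δ (G * b) α β (b + i) then 1 else 0) = 1 := by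
            intro i hi
            have hi' := mem_range.1 hi
            rw [if_pos]
            rw [xS_le D0 S t b δ (G * b) α β k (b + i) (by omega), if_neg (by omega)]
            omega
          rw [sum_congr rfl h3]
          simp
      rw [h2]
      push_cast
      linarith)
  refine le_trans (le_of_eq ?_) key
  have h1 := hf_down_sum D0 (G * b) (k * t) (α * b) (β * b) b
  rw [h1]
  ring

/-- The number of effective crossings of a stack. -/
theorem eff_stack_ge (hF : Fam S t τ b G δ0 F D0 gd) (hS : 0 < S) (α β : ℕ) (hg : gd α β)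
    (δ : ℕ) (hδ : δ0 ≤ δ) {M : ℕ} (Q : Fin M → Finset (ℕ × ℕ))
    (hQ : ∀ j, Q j ∈ F.image (loc b α β)) :
    (M : ℤ) * ((ccB D0 (G * b) t b α β : ℤ) - 10 * δ0 * b - (δ + 1) * b) - (b + δ + 1) ^ 2 ≤
      ((effR (b + δ) (xS D0 S t b δ (G * b) α β) (stack b δ Q)).card : ℤ) := by
  classical
  have hb := hF.hb
  have ht : 0 < t := by rw [hF.ht]; exact Nat.mul_pos hF.hτ hb
  have hαβ := hF.gd_le α β hg
  have hD0 := (mem_Red _ _).1 (hF.red D0 hF.mem)
  have hbox : α * b + b + (β * b + b) ≤ G * b := by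
    calc α * b + b + (β * b + b) = (α + β + 2) * b := by ring
      _ ≤ G * b := Nat.mul_le_mul_right b hαβ
  set n := G * b with hn
  set x0 := xS D0 S t b δ n α β with hx0
  set N := b + δ + 1 with hN
  have hNpos : 0 < N := by omega
  -- the classes in the box
  set Yc : ℕ → ℕ → ℕ := fun r c => Yd D0 n (α * b + r) (β * b + c) / t with hYc
  set Zc : ℕ → ℕ → ℕ := fun r c => Zd D0 n (α * b + r) (β * b + c) / t with hZc
  have hlt : ∀ z, z < n → z / t < S := by
    intro z hz
    rw [Nat.div_lt_iff_lt_mul ht, ← hF.hn]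
    exact hz
  have hYlt : ∀ r ≤ b, ∀ c < b, Yc r c < S := fun r hr c hc => hlt _ (Yd_lt D0 n _ _ (by omega))
  have hZlt : ∀ r < b, ∀ c ≤ b, Zc r c < S := fun r hr c hc => hlt _ (Zd_lt D0 n _ _ (by omega))
  set D := rel D0 with hD
  have hT : Tile b (fun r c => rel D0 (α * b + r) (β * b + c)) Yc Zc := by
    have h1 := (tile_run D0 n hD0.1 (β * b + b)).shift (α * b)
    exact h1.map (fun z => z / t) (fun a b h => Nat.div_le_div_right h)
  have hl : ∀ k, ∀ y ≤ b, |(H k (fun r => Zc r b) y : ℤ) - H k (fun r => Zc r 0) y| ≤ δ0 := by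
    intro k y hy
    by_cases hk : k < S
    · have h1 : H k (fun r => Zc r b) y = H (k * t) (fun j => Zd D0 n (α * b + j) (β * b + b)) y :=
        H_div _ t ht k y
      have h2 : H k (fun r => Zc r 0) y = H (k * t) (fun j => Zd D0 n (α * b + j) (β * b)) y :=
        H_div _ t ht k y
      rw [h1, h2]
      have h3 := hf_down_sum D0 n (k * t) (α * b) (β * b + b) y
      have h4 := hf_down_sum D0 n (k * t) (α * b) (β * b) y
      have h5 := hF.gd1 α β hg k hk y hy
      rw [h3, h4] at h5
      convert h5 using 2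
      ring
    · rw [H_zero_of_lt k _ y (fun p hp => lt_of_lt_of_le (hZlt p (by omega) b le_rfl) (by omega)),
        H_zero_of_lt k _ y (fun p hp => lt_of_lt_of_le (hZlt p (by omega) 0 (by omega))
          (by omega))]
      simp
  have hbb : ∀ k, ∀ x ≤ b, |(H k (fun c => Yc b c) x : ℤ) - H k (fun c => Yc 0 c) x| ≤ δ0 := by
    intro k x hx
    by_cases hk : k < S
    · have h1 : H k (fun c => Yc b c) x = H (k * t) (fun j => Yd D0 n (α * b + b) (β * b + j)) x :=
        H_div _ t ht k x
      have h2 : H k (fun c => Yc 0 c) x = H (k * t) (fun j => Yd D0 n (α * b) (β * b + j)) x :=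
        H_div _ t ht k x
      rw [h1, h2]
      have h3 := hf_right_sum D0 n (k * t) (α * b + b) (β * b) x
      have h4 := hf_right_sum D0 n (k * t) (α * b) (β * b) x
      have h5 := hF.gd2 α β hg k hk x hx
      rw [h3, h4] at h5
      convert h5 using 2
      ring
    · rw [H_zero_of_lt k _ x (fun p hp => lt_of_lt_of_le (hYlt b le_rfl p (by omega)) (by omega)),
        H_zero_of_lt k _ x (fun p hp => lt_of_lt_of_le (hYlt 0 (by omega) p (by omega))
          (by omega))]
      simp
  have hcc := cc_le b _ Yc Zc hT δ0 hl hbb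
  have hccB : (((range b ×ˢ range b).filter (fun p => rel D0 (α * b + p.1) (β * b + p.2) ∧
      Yc p.1 p.2 < Zc p.1 (p.2 + 1))).card) = ccB D0 n t b α β := by
    unfold ccB
    congr 1
    ext p
    simp only [mem_filter, rel, hYc, hZc, add_assoc]
  rw [hccB] at hcc
  -- the letters leaving to the left
  set cn : ℕ → ℤ := fun k => (H k (fun r => Zc r 0) b : ℤ) with hcn
  set SZ0 := SZ (b + δ) (rel (stack b δ Q)) x0 with hSZ0
  have hE : ∀ k ≤ S, (M : ℤ) * (cn k - δ0) ≤ EE (fun r c => SZ0 r c / N) k (M * b) := by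
    intro k hk
    rcases hk.lt_or_eq with hlt' | heq
    · have h1 := EE_ge hF α β hg δ hδ Q hQ k hlt'
      rw [EE_div SZ0 N hNpos k (M * b)]
      refine le_trans (le_of_eq ?_) h1
      have h2 : H k (fun r => Zc r 0) b = H (k * t) (fun r => Zd D0 n (α * b + r) (β * b)) b :=
        H_div _ t ht k b
      simp only [hcn, h2]
      rfl
    · have h1 : cn k = 0 := by
        simp only [hcn]
        rw [H_zero_of_lt k _ b (fun p hp => by rw [heq]; exact hZlt p hp 0 (by omega))]
        rfl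
      rw [h1]
      have h2 : (0 : ℤ) ≤ EE (fun r c => SZ0 r c / N) k (M * b) := by positivity
      have h3 : (0 : ℤ) ≤ (M : ℤ) * δ0 := by positivity
      linarith
  have hex := ring_ex_ge (b + δ) (M * b) (rel (stack b δ Q)) x0 (fun z => z / N)
    (fun a b h => Nat.div_le_div_right h)
  set ex := ((range (M * b) ×ˢ range (b + δ)).filter (fun p => rel (stack b δ Q) p.1 p.2 ∧
    (SW (b + δ) (rel (stack b δ Q)) x0 p.1 p.2) / N <
      (SZ (b + δ) (rel (stack b δ Q)) x0 p.1 (p.2 + 1)) / N)).card with hexdef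
  have hsum : ∑ u ∈ range b, ((M : ℤ) * (cn (Yc 0 u + 1) - δ0) + (M : ℤ) * (cn (Yc 0 u) - δ0)) ≤
      ((∑ i ∈ range (b + δ + 1), (EE (fun r c => SZ0 r c / N) (x0 i / N + 1) (M * b)
        + EE (fun r c => SZ0 r c / N) (x0 i / N) (M * b)) : ℕ) : ℤ) := by
    push_cast
    rw [add_assoc b δ 1, sum_range_add]
    have h1 : (0 : ℤ) ≤ ∑ x ∈ range (δ + 1),
        ((EE (fun r c => SZ0 r c / N) (x0 (b + x) / N + 1) (M * b) : ℤ)
        + EE (fun r c => SZ0 r c / N) (x0 (b + x) / N) (M * b)) :=
      sum_nonneg fun i _ => by positivity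
    refine le_trans ?_ (le_add_of_nonneg_right h1)
    apply sum_le_sum
    intro u hu
    have hu' := mem_range.1 hu
    have h2 : x0 u / N = Yc 0 u := by
      rw [hx0, hN, xS_div D0 S t b δ n α β u (by omega), if_pos hu']
      simp only [hYc, add_zero]
    rw [h2]
    exact add_le_add (hE _ (hYlt 0 (by omega) u hu')) (hE _ (hYlt 0 (by omega) u hu').le)
  have hex' : ((∑ i ∈ range (b + δ + 1), (EE (fun r c => SZ0 r c / N) (x0 i / N + 1) (M * b)
        + EE (fun r c => SZ0 r c / N) (x0 i / N) (M * b)) : ℕ) : ℤ) ≤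
      (ex : ℤ) + (b + δ + 1) * (M * b) + (b + δ + 1) ^ 2 := by
    exact_mod_cast hex
  have heff : ex ≤ (effR (b + δ) x0 (stack b δ Q)).card := by
    apply card_le_card
    intro p hp
    simp only [mem_filter] at hp
    unfold effR
    rw [mem_filter]
    refine ⟨hp.2.1, ?_⟩
    by_contra hcon
    exact absurd hp.2.2 (not_lt.mpr (Nat.div_le_div_right (not_lt.mp hcon)))
  have heff' : (ex : ℤ) ≤ ((effR (b + δ) x0 (stack b δ Q)).card : ℤ) := by exact_mod_cast heff
  have hsum2 : ∑ u ∈ range b, ((M : ℤ) * (cn (Yc 0 u + 1) - δ0) + (M : ℤ) * (cn (Yc 0 u) - δ0)) =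
      (M : ℤ) * ((∑ u ∈ range b, (cn (Yc 0 u + 1) + cn (Yc 0 u))) - 2 * δ0 * b) := by
    rw [mul_sub, mul_sum]
    have h1 : (M : ℤ) * (2 * δ0 * b) = ∑ u ∈ range b, (M : ℤ) * (2 * δ0) := by
      rw [sum_const, card_range]
      simp only [nsmul_eq_mul]
      ring
    rw [h1, ← sum_sub_distrib]
    apply sum_congr rfl
    intro u _
    ring
  rw [hsum2] at hsum
  have hM : (0 : ℤ) ≤ M := by positivity
  have h9 : (M : ℤ) * ((ccB D0 n t b α β : ℤ) + (b : ℤ) ^ 2 - 8 * δ0 * b - 2 * δ0 * b) ≤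
      (M : ℤ) * ((∑ u ∈ range b, (cn (Yc 0 u + 1) + cn (Yc 0 u))) - 2 * δ0 * b) := by
    apply mul_le_mul_of_nonneg_left _ hM
    simp only [hcn]
    linarith
  push_cast
  nlinarith

theorem effR_subset (C : ℕ) (x0 : ℕ → ℕ) (D : Finset (ℕ × ℕ)) : effR C x0 D ⊆ D := by
  classical
  unfold effR
  exact filter_subset _ _

open Classical in
/-- The counting inequality for stacks of height `M`. -/
theorem count_stack (hF : Fam S t τ b G δ0 F D0 gd) (hS : 0 < S) (α β : ℕ) (hg : gd α β)
    (δ : ℕ) (hδ : δ0 ≤ δ) (M d : ℕ)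
    (hd : M * (sB D0 (G * b) t b α β + 12 * b * (δ + 1)) + (b + δ + 1) ^ 2 ≤ d) :
    (F.image (loc b α β)).card ^ M ≤
      (((range (M * b) ×ˢ range (b + δ)).powerset.filter
        (AllEff (b + δ) (xS D0 S t b δ (G * b) α β))).card) *
      (((range (M * b) ×ˢ range (b + δ)).powerset.filter (fun X => X.card ≤ d)).card) := by
  classical
  set x0 := xS D0 S t b δ (G * b) α β with hx0
  have hb := hF.hb
  have hαβ := hF.gd_le α β hg
  have h1 : (F.image (loc b α β)).card ^ M =
      (Fintype.piFinset (fun _ : Fin M => F.image (loc b α β))).card := by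
    rw [Fintype.card_piFinset]
    simp
  rw [h1, ← card_product]
  apply card_le_card_of_injOn
    (fun Q => (effR (b + δ) x0 (stack b δ Q), stack b δ Q \ effR (b + δ) x0 (stack b δ Q)))
  · intro Q hQ
    have hQ1 : ∀ j, Q j ∈ F.image (loc b α β) := Fintype.mem_piFinset.1 hQ
    have hsub : stack b δ Q ⊆ range (M * b) ×ˢ range (b + δ) := by
      unfold stack
      exact filter_subset _ _
    have hcol : ∀ p ∈ stack b δ Q, p.2 < b + δ := fun p hp => ((mem_stack b δ Q p).1 hp).1.2
    rw [mem_coe, mem_product]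
    constructor
    · rw [mem_filter, mem_powerset]
      exact ⟨(effR_subset _ _ _).trans hsub, effR_allEff _ _ _ hcol⟩
    · rw [mem_filter, mem_powerset]
      refine ⟨sdiff_subset.trans hsub, ?_⟩
      have h2 := eff_stack_ge hF hS α β hg δ hδ Q hQ1
      have h3 := card_stack_le b δ Q (ccB D0 (G * b) t b α β + sB D0 (G * b) t b α β) (by
        intro j
        obtain ⟨Dj, hDj, hloc⟩ := mem_image.1 (hQ1 j)
        rw [← hloc, hF.hcard Dj hDj α (by omega) β (by omega), card_loc_eq])
      rw [card_sdiff_of_subset (effR_subset _ _ _)]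
      have h4 := card_le_card (effR_subset (b + δ) x0 (stack b δ Q))
      zify [h4]
      zify at h3 hd
      have h5 : (0 : ℤ) ≤ M := by positivity
      have h6 : (δ0 : ℤ) ≤ δ := by exact_mod_cast hδ
      have h7 : (0 : ℤ) ≤ b := by positivity
      have h8 : (10 : ℤ) * δ0 * b + (δ + 1) * b + b * δ ≤ 12 * b * (δ + 1) := by nlinarith
      have h9 := mul_le_mul_of_nonneg_left h8 h5
      nlinarith
  · intro Q hQ Q' hQ' h
    simp only [Prod.mk.injEq] at h
    obtain ⟨ha, hb2⟩ := h
    have hQ1 : ∀ j, Q j ∈ F.image (loc b α β) := Fintype.mem_piFinset.1 (mem_coe.1 hQ)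
    have hQ1' : ∀ j, Q' j ∈ F.image (loc b α β) := Fintype.mem_piFinset.1 (mem_coe.1 hQ')
    have hin : ∀ P ∈ F.image (loc b α β), ∀ p ∈ P, p.1 < b ∧ p.2 < b := by
      intro P hP p hp
      obtain ⟨Dj, _, hloc⟩ := mem_image.1 hP
      rw [← hloc] at hp
      exact ((mem_loc b α β Dj p.1 p.2).1 hp).1
    apply stack_inj b δ Q Q' (fun j => hin _ (hQ1 j)) (fun j => hin _ (hQ1' j))
    rw [← union_sdiff_of_subset (effR_subset (b + δ) x0 (stack b δ Q)),
      ← union_sdiff_of_subset (effR_subset (b + δ) x0 (stack b δ Q')), hb2, ha]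

theorem box_count (hF : Fam S t τ b G δ0 F D0 gd) (hS : 0 < S) (α β : ℕ) (hg : gd α β)
    (δ : ℕ) (hδ : δ0 ≤ δ) (κ : ℝ) (hring : RingCount (b + δ) κ) (s : ℕ) (hs : 0 < s) :
    Real.log ((F.image (loc b α β)).card : ℝ) ≤
      κ * b + s * ((sB D0 (G * b) t b α β : ℝ) + 12 * b * (δ + 1)) + (b : ℝ) * (b + δ) / s := by
  classical
  have hb := hF.hb
  obtain ⟨K, hK, hcount⟩ := hring (xS D0 S t b δ (G * b) α β) (xS_inj D0 S t b δ (G * b) α β)
  set P := (F.image (loc b α β)).card with hP
  have hPpos : 0 < P := by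
    rw [hP, card_pos]
    exact ⟨_, mem_image_of_mem _ hF.mem⟩
  have hPr : (0 : ℝ) < P := by exact_mod_cast hPpos
  set q : ℕ := sB D0 (G * b) t b α β + 12 * b * (δ + 1) with hq
  have main : ∀ M : ℕ, 0 < M → (M : ℝ) * Real.log P ≤
      Real.log K + κ * (M * b) + ((M * q + (b + δ + 1) ^ 2) * s + (M * b) * (b + δ) / s) := by
    intro M hM
    have h1 := count_stack hF hS α β hg δ hδ M (M * q + (b + δ + 1) ^ 2) le_rfl
    have h2 := hcount (M * b)
    have h1' : (P : ℝ) ^ M ≤
      (((range (M * b) ×ˢ range (b + δ)).powerset.filter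
        (AllEff (b + δ) (xS D0 S t b δ (G * b) α β))).card : ℝ) *
      (((range (M * b) ×ˢ range (b + δ)).powerset.filter
        (fun X => X.card ≤ M * q + (b + δ + 1) ^ 2)).card : ℝ) := by exact_mod_cast h1
    have h3 := log_binom (range (M * b) ×ˢ range (b + δ)) s (M * q + (b + δ + 1) ^ 2) hs
    have hXpos : (0 : ℝ) < (((range (M * b) ×ˢ range (b + δ)).powerset.filter
        (fun X => X.card ≤ M * q + (b + δ + 1) ^ 2)).card : ℝ) := by
      have : 0 < (((range (M * b) ×ˢ range (b + δ)).powerset.filter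
        (fun X => X.card ≤ M * q + (b + δ + 1) ^ 2)).card) := by
        rw [card_pos]
        exact ⟨∅, by simp⟩
      exact_mod_cast this
    have h4 : (P : ℝ) ^ M ≤ (K * Real.exp (κ * (M * b : ℕ))) *
      (((range (M * b) ×ˢ range (b + δ)).powerset.filter
        (fun X => X.card ≤ M * q + (b + δ + 1) ^ 2)).card : ℝ) :=
      h1'.trans (mul_le_mul_of_nonneg_right h2 hXpos.le)
    have h5 := Real.log_le_log (pow_pos hPr M) h4
    rw [Real.log_pow, Real.log_mul (by positivity) hXpos.ne',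
      Real.log_mul hK.ne' (Real.exp_pos _).ne', Real.log_exp] at h5
    rw [card_product, card_range, card_range] at h3
    push_cast at h3 h5 ⊢
    linarith
  -- let `M → ∞`
  have hlim : ∀ ε : ℝ, 0 < ε → Real.log P ≤ κ * b + s * (q : ℝ) + (b : ℝ) * (b + δ) / s + ε := by
    intro ε hε
    set A : ℝ := Real.log K + (b + δ + 1) ^ 2 * s with hA
    obtain ⟨M0, hM0⟩ := exists_nat_gt (A / ε)
    set M := M0 + 1 with hMdef
    have hMpos : (0 : ℝ) < M := by positivity
    have h1 := main M (by omega)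
    have h2 : A ≤ ε * M := by
      have h3 : A / ε < M := by
        rw [hMdef]; push_cast; linarith
      rw [div_lt_iff₀ hε] at h3
      linarith
    have h4 : (M : ℝ) * Real.log P ≤
        (M : ℝ) * (κ * b + s * (q : ℝ) + (b : ℝ) * (b + δ) / s + ε) := by
      calc (M : ℝ) * Real.log P ≤ Real.log K + κ * (M * b) +
            ((M * q + (b + δ + 1) ^ 2) * s + (M * b) * (b + δ) / s) := h1
        _ = A + (M : ℝ) * (κ * b + s * (q : ℝ) + (b : ℝ) * (b + δ) / s) := by
            rw [hA]; ring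
        _ ≤ ε * M + (M : ℝ) * (κ * b + s * (q : ℝ) + (b : ℝ) * (b + δ) / s) := by linarith
        _ = _ := by ring
    exact le_of_mul_le_mul_left h4 hMpos
  have hfin := le_of_forall_pos_le_add hlim
  rw [hq] at hfin
  push_cast at hfin
  exact hfin

end

end Pool.Agent.Schub.Ring
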