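import Pool.Agent.SchubU.Word

/-! Definitions for the affine part. -/

set_option autoImplicit false

namespace Pool.Agent.Schub.Aff

open MvPolynomial

variable {N : ℕ}

/-- constant term -/
noncomputable def q0 (f : P N) : ℤ := constantCoeff f

/-- Every step of the word (started at `u`) is allowed. -/
def Asc (u : ℤ → ℤ) : List (ZMod N) → Prop
  | [] => True
  | k :: w => Asc u w ∧ 0 < gap (run u w) k

/-- `E u c w m` = constant term of `A_w (form c u)^m`. -/
noncomputable def EE [NeZero N] (c : ℤ) (u : ℤ → ℤ) (w : List (ZMod N)) (m : ℕ) : ℤ :=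
  q0 (Aw w ((form c u : P N) ^ m))

/-- the word of a row with seam `e`: the letters of `I` in the order `e+1, e+2, .. , e+N-1, e`
(head acts last, so `e + N - 1` acts first) -/
def rowW (e : ZMod N) (I : Finset (ZMod N)) : List (ZMod N) :=
  ((List.range N).map (fun c : ℕ => e + 1 + (c : ZMod N))).filter (fun k => decide (k ∈ I))

/-- move the letter at position `p` to the left by `n` places: letters `p-n, .., p-1` -/
def blk (p : ZMod N) (n : ℕ) : List (ZMod N) :=
  (List.range n).map (fun t : ℕ => p - (n : ZMod N) + (t : ZMod N))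

/-- the first `r` letters right of the offset `o` move left, letter `i+1` by `mu i` places -/
def TT (o : ZMod N) (mu : ℕ → ℕ) : ℕ → List (ZMod N)
  | 0 => []
  | r + 1 => blk (o + (r : ZMod N) + 1) (mu r) ++ TT o mu r

/-- decreasing window at offset `o` -/
def Dec (N : ℕ) (o : ℤ) (v : ℤ → ℤ) : Prop := ∀ i : ℕ, 1 ≤ i → i < N → v (o + i + 1) < v (o + i)

/-- level one function -/
def u0 (N : ℕ) (i : ℤ) : ℤ := (i - 1) / (N : ℤ)

end Pool.Agent.Schub.Aff
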