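import Pool.Agent.SchubU.RingDefs

/-!
Inversions in the tile model.
-/

set_option autoImplicit false

namespace Pool.Agent.Schub.Ring

open Finset Pool.Agent.Helper78.Lim

theorem Tile.map {C : ℕ} {D : ℕ → ℕ → Prop} {Y Z : ℕ → ℕ → ℕ} (h : Tile C D Y Z) (f : ℕ → ℕ)
    (hf : Monotone f) : Tile C D (fun r c => f (Y r c)) (fun r c => f (Z r c)) := by
  refine ⟨?_, ?_⟩
  · intro r c hc hD hlt
    have hlt' : Y r c < Z r (c + 1) := by
      by_contra hn
      exact absurd (hf (not_lt.mp hn)) (not_le.mpr hlt)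
    obtain ⟨h1, h2⟩ := h.ex r c hc hD hlt'
    exact ⟨by rw [h1], by rw [h2]⟩
  · intro r c hc hn
    by_cases hx : D r c ∧ Y r c < Z r (c + 1)
    · obtain ⟨h1, h2⟩ := h.ex r c hc hx.1 hx.2
      have h3 : f (Y r c) ≤ f (Z r (c + 1)) := hf hx.2.le
      have h4 : ¬ f (Y r c) < f (Z r (c + 1)) := fun h5 => hn ⟨hx.1, h5⟩
      have h5 : f (Y r c) = f (Z r (c + 1)) := le_antisymm h3 (not_lt.mp h4)
      exact ⟨by rw [h1, h5], by rw [h2, h5]⟩
    · obtain ⟨h1, h2⟩ := h.el r c hc hx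
      exact ⟨by rw [h1], by rw [h2]⟩

theorem Tile.shift {C c0 : ℕ} {D : ℕ → ℕ → Prop} {Y Z : ℕ → ℕ → ℕ} (h : Tile (c0 + C) D Y Z)
    (r0 : ℕ) : Tile C (fun r c => D (r0 + r) (c0 + c)) (fun r c => Y (r0 + r) (c0 + c))
      (fun r c => Z (r0 + r) (c0 + c)) := by
  refine ⟨?_, ?_⟩
  · intro r c hc hD hlt
    exact h.ex (r0 + r) (c0 + c) (by omega) hD hlt
  · intro r c hc hn
    exact h.el (r0 + r) (c0 + c) (by omega) hn

theorem Tile.mono {C C' : ℕ} (hC : C' ≤ C) {D : ℕ → ℕ → Prop} {Y Z : ℕ → ℕ → ℕ}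
    (h : Tile C D Y Z) : Tile C' D Y Z :=
  ⟨fun r c hc => h.ex r c (by omega), fun r c hc => h.el r c (by omega)⟩

theorem wd_succ (m : ℕ) (x : ℕ → ℕ) : wd (m + 1) x = wd m x ++ [x m] := by
  simp [wd, List.range_succ]

/-- One row, in any context. -/
theorem row_perm (C : ℕ) {D : ℕ → ℕ → Prop} {Y Z : ℕ → ℕ → ℕ} (r : ℕ) (h : Tile C D Y Z) :
    ([Z r 0] ++ wd C (fun c => Y (r + 1) c)).Perm (wd C (fun c => Y r c) ++ [Z r C]) := by
  induction C with
  | zero => simp [wd]
  | succ C ih =>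
    have ih' := ih (h.mono (Nat.le_succ C))
    rw [wd_succ, wd_succ, ← List.append_assoc]
    refine (ih'.append_right _).trans ?_
    rw [List.append_assoc, List.append_assoc]
    refine List.Perm.append_left _ ?_
    by_cases hx : D r C ∧ Y r C < Z r (C + 1)
    · obtain ⟨h1, h2⟩ := h.ex r C (Nat.lt_succ_self C) hx.1 hx.2
      rw [h1, h2]
      exact List.Perm.swap _ _ _
    · obtain ⟨h1, h2⟩ := h.el r C (Nat.lt_succ_self C) hx
      rw [h1, h2]

theorem tile_perm {C : ℕ} {D : ℕ → ℕ → Prop} {Y Z : ℕ → ℕ → ℕ} (h : Tile C D Y Z) (R : ℕ) :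
    (wd R (fun r => Z r 0) ++ wd C (fun c => Y R c)).Perm
      (wd C (fun c => Y 0 c) ++ wd R (fun r => Z r C)) := by
  induction R with
  | zero => simp [wd]
  | succ R ih =>
    rw [wd_succ, wd_succ, List.append_assoc]
    refine (List.Perm.append_left _ (row_perm C R h)).trans ?_
    rw [← List.append_assoc, ← List.append_assoc]
    exact ih.append_right _

open Classical in
/-- One row, in any context. -/
theorem row_inv (C : ℕ) {D : ℕ → ℕ → Prop} {Y Z : ℕ → ℕ → ℕ} (r : ℕ) (h : Tile C D Y Z)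
    (A : List ℕ) (B : List ℕ) :
    linv (A ++ ([Z r 0] ++ (wd C (fun c => Y (r + 1) c) ++ B))) =
      linv (A ++ (wd C (fun c => Y r c) ++ ([Z r C] ++ B))) +
        ((range C).filter (fun c => D r c ∧ Y r c < Z r (c + 1))).card := by
  induction C generalizing B with
  | zero => simp [wd]
  | succ C ih =>
    have ih' := ih (h.mono (Nat.le_succ C)) ([Y (r + 1) C] ++ B)
    rw [wd_succ, wd_succ, List.append_assoc, ih', List.append_assoc, range_add_one, filter_insert]
    by_cases hx : D r C ∧ Y r C < Z r (C + 1)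
    · obtain ⟨h1, h2⟩ := h.ex r C (Nat.lt_succ_self C) hx.1 hx.2
      rw [if_pos hx, card_insert_of_notMem (by simp), h1, h2]
      have := linv_swap (A ++ wd C (fun c => Y r c)) B (Z r (C + 1)) (Y r C) hx.2
      simp only [List.append_assoc, List.singleton_append] at this ⊢
      rw [this]
      ring
    · obtain ⟨h1, h2⟩ := h.el r C (Nat.lt_succ_self C) hx
      rw [if_neg hx, h1, h2]

open Classical in
theorem tile_inv' {C : ℕ} {D : ℕ → ℕ → Prop} {Y Z : ℕ → ℕ → ℕ} (h : Tile C D Y Z) (R : ℕ)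
    (B : List ℕ) :
    linv (wd R (fun r => Z r 0) ++ (wd C (fun c => Y R c) ++ B)) =
      linv (wd C (fun c => Y 0 c) ++ (wd R (fun r => Z r C) ++ B)) +
        ∑ r ∈ range R, ((range C).filter (fun c => D r c ∧ Y r c < Z r (c + 1))).card := by
  induction R generalizing B with
  | zero => simp [wd]
  | succ R ih =>
    rw [wd_succ, wd_succ, List.append_assoc, row_inv C R h, ih ([Z R C] ++ B), List.append_assoc,
      sum_range_succ, add_assoc]

open Classical in
theorem tile_inv {C : ℕ} {D : ℕ → ℕ → Prop} {Y Z : ℕ → ℕ → ℕ} (h : Tile C D Y Z) (R : ℕ) :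
    linv (wd R (fun r => Z r 0) ++ wd C (fun c => Y R c)) =
      linv (wd C (fun c => Y 0 c) ++ wd R (fun r => Z r C)) +
        ((range R ×ˢ range C).filter (fun p => D p.1 p.2 ∧ Y p.1 p.2 < Z p.1 (p.2 + 1))).card := by
  have h1 := tile_inv' h R []
  simp only [List.append_nil] at h1
  rw [h1]
  congr 1
  simp only [card_filter, sum_product]

end Pool.Agent.Schub.Ring
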