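import Pool.Agent.SchubU.TileRun
import Pool.Agent.SchubU.TileInv

/-!
Crossings of letters of different classes in the staircase.
-/

set_option autoImplicit false

namespace Pool.Agent.Schub.Ring

open Finset Pool.Agent.Helper78.Lim

theorem st_left (D : Finset (ℕ × ℕ)) (n r k : ℕ) : st D n (r + 1 + k) r = st D n (r + 1) r := by
  induction k with
  | zero => rfl
  | succ k ih =>
    have e : r + 1 + (k + 1) = (r + 1 + k) + 1 := by ring
    rw [e, st_succ, run_rseg_ne D _ _ _ _ 0 (Or.inl (by omega)), ih]

theorem Zd_left (D : Finset (ℕ × ℕ)) (n r : ℕ) (hr : r < n) : Zd D n r 0 = st D n n r := by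
  obtain ⟨k, rfl⟩ := Nat.exists_eq_add_of_lt hr
  have e : r + k + 1 = r + 1 + k := by ring
  have h : st D (r + k + 1) (r + k + 1) r = st D (r + k + 1) (r + 1) r := by
    have := st_left D (r + k + 1) r k
    rwa [← e] at this
  rw [h, st_succ]
  rfl

open Classical in
theorem class_inv (D : Finset (ℕ × ℕ)) (n : ℕ) (hD : ∀ p ∈ D, p.1 + p.2 + 2 ≤ n) (f : ℕ → ℕ)
    (hf : Monotone f) : liv n (fun p => f (st D n n p)) =
      (D.filter (fun p => f (Yd D n p.1 p.2) < f (Zd D n p.1 (p.2 + 1)))).card := by
  have h1 := tile_inv ((tile_run D n hD n).map f hf) n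
  have e1 : wd n (fun r => f (Zd D n r 0)) = wd n (fun p => f (st D n n p)) := by
    unfold wd
    apply List.map_congr_left
    intro r hr
    rw [List.mem_range] at hr
    show f (Zd D n r 0) = f (st D n n r)
    rw [Zd_left D n r hr]
  have e2 : wd n (fun c => f (Yd D n n c)) = wd n (fun c => f (n + c)) := by
    unfold wd
    apply List.map_congr_left
    intro c _
    show f (Yd D n n c) = f (n + c)
    unfold Yd
    rw [st_ge D n n _ (by omega)]
  have e3 : wd n (fun c => f (Yd D n 0 c)) ++ wd n (fun r => f (Zd D n r n))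
      = wd (n + n) f := by
    unfold wd
    rw [List.range_add, List.map_append, List.map_map]
    congr 1
    · apply List.map_congr_left
      intro c _
      show f (Yd D n 0 c) = f c
      unfold Yd
      rw [zero_add]
      rfl
    · apply List.map_congr_left
      intro r _
      show f (Zd D n r n) = f (n + r)
      rw [Zd_out D n r n (by omega), st_ge D n r _ (by omega), add_comm]
  have hsorted : ∀ (m : ℕ) (g : ℕ → ℕ), Monotone g → linv (wd m g) = 0 := by
    intro m g hg
    apply linv_sorted
    unfold wd
    rw [List.pairwise_map]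
    refine List.Pairwise.imp ?_ List.pairwise_lt_range
    intro a b hab
    exact hg hab.le
  have hcross : crossing (wd n (fun p => f (st D n n p))) (wd n (fun c => f (n + c))) = 0 := by
    unfold crossing
    apply List.sum_eq_zero
    intro y hy
    rw [List.mem_map] at hy
    obtain ⟨x, hx, rfl⟩ := hy
    rw [List.countP_eq_zero]
    intro z hz
    unfold wd at hx hz
    rw [List.mem_map] at hx hz
    obtain ⟨p, hp, rfl⟩ := hx
    obtain ⟨c, _, rfl⟩ := hz
    rw [List.mem_range] at hp
    have h2 := st_lt D n n p hp
    have h3 : f (st D n n p) ≤ f (n + c) := hf (by omega)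
    simp only [decide_eq_true_eq]
    omega
  rw [e1, e2, e3, linv_append, hcross, hsorted _ f hf,
    hsorted n (fun c => f (n + c)) (fun a b hab => hf (by omega))] at h1
  have e4 : ((range n ×ˢ range n).filter (fun p => rel D p.1 p.2 ∧
      f (Yd D n p.1 p.2) < f (Zd D n p.1 (p.2 + 1))))
      = D.filter (fun p => f (Yd D n p.1 p.2) < f (Zd D n p.1 (p.2 + 1))) := by
    ext ⟨r, c⟩
    rw [mem_filter, mem_filter, mem_product, mem_range, mem_range]
    constructor
    · rintro ⟨-, h⟩; exact h
    · intro h
      have h5 : r + c + 2 ≤ n := hD _ h.1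
      exact ⟨⟨by show r < n; omega, by show c < n; omega⟩, h⟩
  rw [← e4]
  unfold liv
  unfold wd at h1
  simpa using h1

open Classical in
/-- at most `n t` crossings of letters of the same class -/
theorem same_class_le (D : Finset (ℕ × ℕ)) (n t : ℕ) (ht : 0 < t) (hD : D ∈ Red n) :
    (D.filter (fun p => ¬ Yd D n p.1 p.2 / t < Zd D n p.1 (p.2 + 1) / t)).card ≤ n * t := by
  have hcells := ((mem_Red _ _).1 hD).1
  have h1 := class_inv D n hcells (fun l => l / t) (fun a b hab => Nat.div_le_div_right hab)
  have h2 := card_Red_eq D n hD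
  have h3 := liv_le_class n t ht (st D n n) (run_inj _ _ _ Function.injective_id)
  have h4 := card_filter_add_card_filter_not (s := D)
    (fun p => Yd D n p.1 p.2 / t < Zd D n p.1 (p.2 + 1) / t)
  omega

end Pool.Agent.Schub.Ring
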