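import Pool.Agent.SchubU.BoxCount
import Pool.Agent.SchubU.SameClass
import Pool.Agent.Helper78.LimLimit

/-!
The upper bound for the limit.
-/

set_option autoImplicit false

namespace Pool.Agent.Schub.Ring

open Finset Pool.Agent.Helper78.Lim Filter Topology

/-- The existence of a large family with common data (`exists_fam` with the extra bound
`B ≤ b`). -/
theorem exists_fam43 (S B : ℕ) (hS : 0 < S) (hB : 0 < B) :
    ∃ (τ b G W : ℕ) (F : Finset (Finset (ℕ × ℕ))) (D0 : Finset (ℕ × ℕ)) (gd : ℕ → ℕ → Prop)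
      (δ : ℕ), Fam S (S ^ (S ^ 5) * B) τ b G δ F D0 gd ∧ W = WW G gd ∧
      G * b = S ^ (S ^ 5 + 1) * B ∧ S * δ = 6 * b ∧ S ≤ G ∧ S * W ≤ G ^ 2 + S * G ∧ B ≤ b ∧
      (Red (S ^ (S ^ 5 + 1) * B)).card ≤
        Fintype.card (Data (S ^ 5) S (S ^ (S ^ 5 + 1) * B) (S ^ (S ^ 5))) * F.card := by
  classical
  set J := S ^ 5 with hJ
  set N := S ^ (J + 1) * B with hN
  set t := S ^ J * B with ht
  have hJ0 : 0 < J := by positivity
  have hnon : (Red N).Nonempty := by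
    refine ⟨∅, ?_⟩
    rw [mem_Red]
    exact ⟨fun p hp => absurd hp (notMem_empty p), Rd_none _ _ _ (fun p _ => notMem_empty p)⟩
  -- choice of the scale
  have hscale : ∀ D : Finset (ℕ × ℕ), ∃ l : Fin J, (∀ p ∈ D, p.1 + p.2 + 2 ≤ N) →
      J * ((range (S ^ (J - 1 - l) * S) ×ˢ range (S ^ (J - 1 - l) * S)).filter
      (fun p : ℕ × ℕ => ¬ ∀ k < S, Mixed (hf D N (k * t)) S (S ^ (l : ℕ) * B) p.1 p.2)).card
        ≤ S ^ 3 * S * (S ^ (J - 1 - l) * S) ^ 2 := by
    intro D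
    by_cases hD : ∀ p ∈ D, p.1 + p.2 + 2 ≤ N
    · obtain ⟨l, hl, h⟩ := exists_scale (D := fun r c => (r, c) ∈ D) S J S B S hS hJ0 hS hB
        (fun k => hf D N (k * t)) (fun k => fld_hf D N (k * t) hD)
      exact ⟨⟨l, hl⟩, fun _ => h⟩
    · exact ⟨⟨0, hJ0⟩, fun h => absurd h hD⟩
  choose l hl using hscale
  set bl : ℕ → ℕ := fun l => S * (S ^ l * B) with hbl
  obtain ⟨D0, hD0, hcard⟩ := pigeon (Red N) hnon (dat J S N (S ^ J) t bl l)
  set l0 : ℕ := (l D0 : ℕ) with hl0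
  have hl0J : l0 < J := (l D0).2
  set G := S ^ (J - 1 - l0) * S with hG
  set b := S * (S ^ l0 * B) with hb
  have hGb : G * b = N := by
    simp only [hG, hb, hN]
    have : J + 1 = (J - 1 - l0) + 1 + (l0 + 1) := by omega
    rw [this, pow_add, pow_add, pow_add]
    ring
  have hG0 : 0 < G := by positivity
  have hb0 : 0 < b := by positivity
  have hGm : G ≤ S ^ J := by
    simp only [hG]
    rw [← pow_succ]
    exact Nat.pow_le_pow_right hS (by omega)
  set gd : ℕ → ℕ → Prop := fun α β => α + β + 2 ≤ G ∧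
    ∀ k < S, Mixed (hf D0 N (k * t)) S (S ^ l0 * B) α β with hgd
  have hcells : ∀ D ∈ Red N, ∀ p ∈ D, p.1 + p.2 + 2 ≤ N := fun D hD => ((mem_Red _ _).1 hD).1
  refine ⟨S ^ (J - 1 - l0), b, G, WW G gd,
    (Red N).filter (fun D => dat J S N (S ^ J) t bl l D = dat J S N (S ^ J) t bl l D0), D0, gd,
    6 * (S ^ l0 * B), ?_, rfl, hGb, ?_, ?_, ?_, ?_, hcard⟩
  · -- the family
    have hdat : ∀ D, dat J S N (S ^ J) t bl l D = dat J S N (S ^ J) t bl l D0 →
        l D = l D0 ∧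
        (∀ k < S, ∀ α ≤ G, ∀ c ≤ N, H (k * t) (st D N (α * b)) (α * b + c)
          = H (k * t) (st D0 N (α * b)) (α * b + c)) ∧
        (∀ k < S, ∀ r ≤ N, ∀ β ≤ G, H (k * t) (st D N r) (r + β * b)
          = H (k * t) (st D0 N r) (r + β * b)) ∧
        (∀ α < G, ∀ β < G, (loc b α β D).card = (loc b α β D0).card) := by
      intro D hD
      unfold dat at hD
      simp only [Prod.mk.injEq] at hD
      obtain ⟨e0, e1, e2, e3⟩ := hD
      rw [e0] at e1 e2 e3
      refine ⟨e0, ?_, ?_, ?_⟩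
      · intro k hk α hα c hc
        have h1 := congrFun (congrFun (congrFun e1 ⟨k, hk⟩) ⟨α, by omega⟩) ⟨c, by omega⟩
        have hαb : α * b ≤ N := by rw [← hGb]; exact Nat.mul_le_mul_right _ hα
        apply fin_ofNat_inj (2 * N) _ _ ((H_le _ _ _).trans (by omega))
          ((H_le _ _ _).trans (by omega))
        exact h1
      · intro k hk r hr β hβ
        have h1 := congrFun (congrFun (congrFun e2 ⟨k, hk⟩) ⟨r, by omega⟩) ⟨β, by omega⟩
        have hβb : β * b ≤ N := by rw [← hGb]; exact Nat.mul_le_mul_right _ hβ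
        apply fin_ofNat_inj (2 * N) _ _ ((H_le _ _ _).trans (by omega))
          ((H_le _ _ _).trans (by omega))
        exact h1
      · intro α hα β hβ
        have h1 := congrFun (congrFun e3 ⟨α, by omega⟩) ⟨β, by omega⟩
        have hbN : b ≤ N := by rw [← hGb]; exact Nat.le_mul_of_pos_left _ hG0
        have hle : ∀ D, (loc b α β D).card ≤ N ^ 2 := by
          intro D
          unfold loc
          refine (card_filter_le _ _).trans ?_
          rw [card_product, card_range, sq]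
          exact Nat.mul_le_mul hbN hbN
        exact fin_ofNat_inj (N ^ 2) _ _ (hle D) (hle D0) h1
    refine ⟨hb0, by positivity, ?_, ?_, ?_, ?_, ?_, ?_, ?_, fun α β h => h.1, ?_, ?_⟩
    · simp only [ht, hb]
      have : J = (J - 1 - l0) + (l0 + 1) := by omega
      conv_lhs => rw [this, pow_add, pow_add]
      ring
    · rw [hGb]
      simp only [hN, ht]
      ring
    · exact mem_filter.2 ⟨hD0, rfl⟩
    · intro D hD
      rw [hGb]
      exact (mem_filter.1 hD).1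
    · intro D hD k hk α hα c hc
      obtain ⟨-, h1, -, -⟩ := hdat D (mem_filter.1 hD).2
      unfold hf
      rw [hGb] at hc ⊢
      rw [h1 k hk α hα c hc]
    · intro D hD k hk r hr β hβ
      obtain ⟨-, -, h1, -⟩ := hdat D (mem_filter.1 hD).2
      unfold hf
      rw [hGb] at hr ⊢
      rw [h1 k hk r hr β hβ]
    · intro D hD α hα β hβ
      obtain ⟨-, -, -, h1⟩ := hdat D (mem_filter.1 hD).2
      exact h1 α hα β hβ
    · intro α β h k hk y hy
      have h1 := h.2 k hk y hy b le_rfl 0 (Nat.zero_le _)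
      rw [hGb]
      simp only [add_zero] at h1
      push_cast at h1 ⊢
      exact h1
    · intro α β h k hk x hx
      have h1 := h.2 k hk b le_rfl x hx 0 (Nat.zero_le _)
      rw [hGb]
      simp only [add_zero] at h1
      push_cast at h1 ⊢
      exact h1
  · simp only [hb]; ring
  · simp only [hG]
    exact Nat.le_mul_of_pos_left _ (by positivity)
  · have h1 := hl D0 (hcells D0 hD0)
    set bad := ((range (S ^ (J - 1 - (l D0 : ℕ)) * S) ×ˢ range (S ^ (J - 1 - (l D0 : ℕ)) * S)).filter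
      (fun p : ℕ × ℕ => ¬ ∀ k < S, Mixed (hf D0 N (k * t)) S (S ^ (l D0 : ℕ) * B) p.1 p.2))
      with hbad
    have h2 : S * bad.card ≤ G ^ 2 := by
      have h3 : S ^ 4 * (S * bad.card) ≤ S ^ 4 * G ^ 2 := by
        calc S ^ 4 * (S * bad.card) = J * bad.card := by rw [hJ]; ring
          _ ≤ _ := h1
          _ = S ^ 4 * G ^ 2 := by simp only [hG]; ring
      exact Nat.le_of_mul_le_mul_left h3 (by positivity)
    have h4 : WW G gd ≤ bad.card + G := by
      refine (WW_le G gd (bad ∪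
        ((range G ×ˢ range G).filter (fun p => p.1 + p.2 + 1 = G))) ?_).trans
        ((card_union_le _ _).trans ?_)
      · intro p hp1 hp2 hp3
        rw [mem_union]
        by_cases h5 : p.1 + p.2 + 1 = G
        · right
          exact mem_filter.2 ⟨hp1, h5⟩
        · left
          rw [hbad, mem_filter]
          refine ⟨hp1, fun h6 => hp3 ⟨by omega, h6⟩⟩
      apply Nat.add_le_add_left
      calc ((range G ×ˢ range G).filter (fun p => p.1 + p.2 + 1 = G)).card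
          ≤ (range G).card := by
            apply card_le_card_of_injOn (fun p => p.1)
            · intro p hp
              have hp := (mem_filter.1 (mem_coe.1 hp)).1
              exact mem_coe.2 (mem_product.1 hp).1
            · intro p hp q hq h
              have hp := (mem_filter.1 (mem_coe.1 hp)).2
              have hq := (mem_filter.1 (mem_coe.1 hq)).2
              simp only at h
              apply Prod.ext
              · exact h
              · omega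
        _ = G := card_range _
    calc S * WW G gd ≤ S * (bad.card + G) := Nat.mul_le_mul_left _ h4
      _ = S * bad.card + S * G := by ring
      _ ≤ G ^ 2 + S * G := Nat.add_le_add_right h2 _
  · simp only [hb]
    have h5 : 0 < S ^ l0 := by positivity
    calc B ≤ S ^ l0 * B := Nat.le_mul_of_pos_left _ h5
      _ ≤ S * (S ^ l0 * B) := Nat.le_mul_of_pos_left _ hS

theorem good_card43 (G : ℕ) :
    2 * ((range G ×ˢ range G).filter (fun p : ℕ × ℕ => p.1 + p.2 + 2 ≤ G)).card ≤ G ^ 2 := by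
  classical
  set A := (range G ×ˢ range G).filter (fun p : ℕ × ℕ => p.1 + p.2 + 2 ≤ G) with hA
  set A' := A.image (fun p : ℕ × ℕ => (G - 1 - p.1, G - 1 - p.2)) with hA'
  have hmem : ∀ p, p ∈ A ↔ (p.1 < G ∧ p.2 < G) ∧ p.1 + p.2 + 2 ≤ G := by
    intro p
    rw [hA, mem_filter, mem_product, mem_range, mem_range]
  have hc : A'.card = A.card := by
    apply card_image_of_injOn
    intro p hp q hq h
    have hp := (hmem p).1 (mem_coe.1 hp)
    have hq := (hmem q).1 (mem_coe.1 hq)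
    simp only [Prod.mk.injEq] at h
    apply Prod.ext <;> omega
  have hd : Disjoint A A' := by
    rw [disjoint_left]
    intro p hp hp'
    obtain ⟨q, hq, rfl⟩ := mem_image.1 hp'
    have hq := (hmem q).1 hq
    have hp := (hmem _).1 hp
    simp only at hp
    omega
  have hs : A ∪ A' ⊆ range G ×ˢ range G := by
    intro p hp
    rw [mem_product, mem_range, mem_range]
    rcases mem_union.1 hp with hp | hp
    · exact ((hmem p).1 hp).1
    · obtain ⟨q, hq, rfl⟩ := mem_image.1 hp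
      have hq := (hmem q).1 hq
      simp only
      omega
  have h1 := card_le_card hs
  rw [card_union_of_disjoint hd, hc, card_product, card_range] at h1
  rw [sq]
  omega

theorem sum_sB_le43 (D : Finset (ℕ × ℕ)) (n t b : ℕ) (T : Finset (ℕ × ℕ)) (ht : 0 < t)
    (hD : D ∈ Red n) : ∑ p ∈ T, sB D n t b p.1 p.2 ≤ n * t := by
  classical
  refine le_trans ?_ (same_class_le D n t ht hD)
  rcases Nat.eq_zero_or_pos b with rfl | hb
  · have : ∑ p ∈ T, sB D n t 0 p.1 p.2 = 0 := by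
      apply sum_eq_zero
      intro p _
      unfold sB
      rw [card_eq_zero, filter_eq_empty_iff]
      intro q _ h
      omega
    rw [this]
    exact Nat.zero_le _
  · have h1 : ∑ p ∈ T, sB D n t b p.1 p.2 = (T.biUnion (fun p => D.filter (fun q =>
        (p.1 * b ≤ q.1 ∧ q.1 < p.1 * b + b) ∧ (p.2 * b ≤ q.2 ∧ q.2 < p.2 * b + b) ∧
        ¬ Yd D n q.1 q.2 / t < Zd D n q.1 (q.2 + 1) / t))).card := by
      rw [card_biUnion]
      · apply sum_congr rfl
        intro p _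
        unfold sB
        congr 1
      · intro p _ q _ hpq
        show Disjoint _ _
        rw [disjoint_left]
        intro x hx hx'
        have hx := (mem_filter.1 hx).2
        have hx' := (mem_filter.1 hx').2
        apply hpq
        have key : ∀ a c x : ℕ, a * b ≤ x → x < a * b + b → c * b ≤ x → x < c * b + b →
            a = c := by
          intro a c x h1 h2 h3 h4
          have e1 : x / b = a := by
            apply Nat.div_eq_of_lt_le
            · exact h1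
            · rw [Nat.succ_mul]; exact h2
          have e2 : x / b = c := by
            apply Nat.div_eq_of_lt_le
            · exact h3
            · rw [Nat.succ_mul]; exact h4
          rw [← e1, e2]
        apply Prod.ext
        · exact key _ _ _ hx.1.1 hx.1.2 hx'.1.1 hx'.1.2
        · exact key _ _ _ hx.2.1.1 hx.2.1.2 hx'.2.1.1 hx'.2.1.2
    rw [h1]
    apply card_le_card
    intro x hx
    obtain ⟨p, _, hx⟩ := mem_biUnion.1 hx
    have hx := mem_filter.1 hx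
    exact mem_filter.2 ⟨hx.1, hx.2.2.2⟩

/-- The size of a family in terms of the growth on the ring. -/
theorem log_F_le43 {S t τ b G δ0 : ℕ} {F : Finset (Finset (ℕ × ℕ))} {D0 : Finset (ℕ × ℕ)}
    {gd : ℕ → ℕ → Prop} (hF : Fam S t τ b G δ0 F D0 gd) (hS : 0 < S) (ht : 0 < t) (δ : ℕ)
    (hδ : δ0 ≤ δ) (κ : ℝ) (hκ : 0 ≤ κ) (hring : RingCount (b + δ) κ) (s : ℕ) (hs : 0 < s) :
    Real.log (F.card : ℝ) ≤ (G : ℝ) ^ 2 / 2 *
        (κ * b + s * (12 * b * (δ + 1)) + (b : ℝ) * (b + δ) / s)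
      + s * ((G : ℝ) * b * t) + (b : ℝ) ^ 2 * WW G gd := by
  classical
  set T := range G ×ˢ range G with hT
  have hFpos : 0 < F.card := card_pos.2 ⟨D0, hF.mem⟩
  have h1 := hF.card_F
  rw [← hT] at h1
  have hne : ∏ p ∈ T, (RR b G F gd p.1 p.2).card ≠ 0 := by omega
  rw [prod_ne_zero_iff] at hne
  have h2 : Real.log (F.card : ℝ) ≤ ∑ p ∈ T, Real.log ((RR b G F gd p.1 p.2).card : ℝ) := by
    rw [← Real.log_prod (fun p hp => by exact_mod_cast hne p hp)]
    apply Real.log_le_log (by exact_mod_cast hFpos)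
    exact_mod_cast h1
  refine h2.trans ?_
  set K1 : ℝ := κ * b + s * (12 * b * (δ + 1)) + (b : ℝ) * (b + δ) / s with hK1
  have hK10 : 0 ≤ K1 := by positivity
  have h3 : ∀ p ∈ T, Real.log ((RR b G F gd p.1 p.2).card : ℝ) ≤
      (if gd p.1 p.2 then K1 else 0) + s * (sB D0 (G * b) t b p.1 p.2 : ℝ)
        + (if p.1 + p.2 + 1 ≤ G ∧ ¬ gd p.1 p.2 then (b : ℝ) ^ 2 else 0) := by
    intro p _
    have h0 : (0 : ℝ) ≤ s * (sB D0 (G * b) t b p.1 p.2 : ℝ) := by positivity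
    unfold RR
    by_cases c1 : gd p.1 p.2
    · rw [if_pos c1, if_pos c1, if_neg (fun h => h.2 c1)]
      have h4 := box_count hF hS p.1 p.2 c1 δ hδ κ hring s hs
      rw [hK1]
      refine h4.trans (le_of_eq ?_)
      ring
    · rw [if_neg c1, if_neg c1]
      by_cases c2 : p.1 + p.2 + 1 ≤ G
      · rw [if_pos c2, if_pos ⟨c2, c1⟩, card_powerset, card_product, card_range]
        push_cast
        rw [Real.log_pow]
        have h5 : Real.log 2 ≤ 1 := by
          have := Real.log_le_sub_one_of_pos (show (0 : ℝ) < 2 by norm_num)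
          linarith
        have h6 : ((b * b : ℕ) : ℝ) * Real.log 2 ≤ ((b * b : ℕ) : ℝ) * 1 :=
          mul_le_mul_of_nonneg_left h5 (Nat.cast_nonneg _)
        push_cast at h6 ⊢
        nlinarith
      · rw [if_neg c2, if_neg (fun h => c2 h.1), card_singleton, Nat.cast_one, Real.log_one]
        linarith
  refine (sum_le_sum h3).trans ?_
  rw [sum_add_distrib, sum_add_distrib, ← sum_filter, ← sum_filter, sum_const, sum_const,
    nsmul_eq_mul, nsmul_eq_mul, ← mul_sum]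
  have h4 : ((T.filter (fun p : ℕ × ℕ => gd p.1 p.2)).card : ℝ) ≤ (G : ℝ) ^ 2 / 2 := by
    have h5 : (T.filter (fun p : ℕ × ℕ => gd p.1 p.2)).card
        ≤ (T.filter (fun p : ℕ × ℕ => p.1 + p.2 + 2 ≤ G)).card := by
      apply card_le_card
      intro p hp
      rw [mem_filter] at hp ⊢
      exact ⟨hp.1, hF.gd_le _ _ hp.2⟩
    have h6 := good_card43 G
    have h7 : 2 * (T.filter (fun p : ℕ × ℕ => gd p.1 p.2)).card ≤ G ^ 2 := by
      rw [hT] at h5 ⊢
      omega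
    have h8 : (2 : ℝ) * ((T.filter (fun p : ℕ × ℕ => gd p.1 p.2)).card : ℝ) ≤ (G : ℝ) ^ 2 := by
      exact_mod_cast h7
    linarith
  have h5 := mul_le_mul_of_nonneg_right h4 hK10
  have h6 : (∑ p ∈ T, (sB D0 (G * b) t b p.1 p.2 : ℝ)) ≤ (G : ℝ) * b * t := by
    have := sum_sB_le43 D0 (G * b) t b T ht (hF.red D0 hF.mem)
    exact_mod_cast this
  have h7 := mul_le_mul_of_nonneg_left h6 (Nat.cast_nonneg (α := ℝ) s)
  have h8 : ((T.filter (fun p : ℕ × ℕ => p.1 + p.2 + 1 ≤ G ∧ ¬ gd p.1 p.2)).card : ℝ)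
      = WW G gd := by
    unfold WW
    rw [hT]
  rw [h8]
  linarith

/-- The inequality between the numbers of reduced sets and the growth on the ring. -/
theorem V_le43 (s B : ℕ) (hs : 0 < s) (hB : 0 < B) (c0 : ℝ) (hc0 : 0 ≤ c0)
    (hring : ∀ C : ℕ, B ≤ C + 1 → Even (C + 1) → RingCount C (c0 * ((C + 1 : ℕ) : ℝ))) :
    V ((s ^ 2) ^ ((s ^ 2) ^ 5 + 1) * B) ≤
      (c0 / 2 * (1 + 6 / (s : ℝ) ^ 2) + 83 / s + (c0 + 24 * s) / B)
          * (((s ^ 2) ^ ((s ^ 2) ^ 5 + 1) * B : ℕ) : ℝ) ^ 2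
        + ((((s ^ 2) ^ 5 : ℕ) : ℝ) + 16 * ((s ^ 2 : ℕ) * (((s ^ 2) ^ ((s ^ 2) ^ 5) : ℕ) + 1))
          + 8 * (((s ^ 2) ^ ((s ^ 2) ^ 5) : ℕ) : ℝ) ^ 2)
        * (((s ^ 2) ^ ((s ^ 2) ^ 5 + 1) * B : ℕ)
          * Real.sqrt ((s ^ 2) ^ ((s ^ 2) ^ 5 + 1) * B : ℕ)) := by
  obtain ⟨τ, b, G, W, F, D0, gd, δ0, hF, hW, hN, hδ, hSG, hSW, hBb, hcard⟩ :=
    exists_fam43 (s ^ 2) B (by positivity) hB
  set S := s ^ 2 with hS
  set N := S ^ (S ^ 5 + 1) * B with hNdef
  have hS0 : 0 < S := by positivity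
  have hN0 : 0 < N := by positivity
  have hFpos : 0 < F.card := card_pos.2 ⟨D0, hF.mem⟩
  have hs' : (0 : ℝ) < s := by exact_mod_cast hs
  have hs1 : (1 : ℝ) ≤ s := by exact_mod_cast hs
  have hFr : (0 : ℝ) < F.card := by exact_mod_cast hFpos
  have ht0 : 0 < S ^ S ^ 5 * B := by positivity
  -- the number of data
  have l4 : V N ≤ ((((S ^ 5 : ℕ)) : ℝ) + 16 * (S * (((S ^ S ^ 5 : ℕ)) + 1))
      + 8 * (((S ^ S ^ 5 : ℕ))) ^ 2) * (N * Real.sqrt N) + Real.log F.card := by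
    have h1 := log_card_data (S ^ 5) S N (S ^ S ^ 5) (by positivity) hN0
    have hDpos : (0 : ℝ) < (Fintype.card (Data (S ^ 5) S N (S ^ S ^ 5)) : ℝ) := by
      have h2 := Red_pos N
      have h3 : 0 < Fintype.card (Data (S ^ 5) S N (S ^ S ^ 5)) * F.card :=
        lt_of_lt_of_le h2 hcard
      have h4 : 0 < Fintype.card (Data (S ^ 5) S N (S ^ S ^ 5)) := Nat.pos_of_mul_pos_right h3
      exact_mod_cast h4
    have h2 : ((Red N).card : ℝ) ≤ (Fintype.card (Data (S ^ 5) S N (S ^ S ^ 5)) : ℝ) * F.card := by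
      exact_mod_cast hcard
    have h3 := Real.log_le_log (by exact_mod_cast Red_pos N) h2
    rw [Real.log_mul hDpos.ne' hFr.ne'] at h3
    unfold V
    linarith
  -- the parity
  obtain ⟨δ, hδ0, hδ1, hev⟩ : ∃ δ, δ0 ≤ δ ∧ δ ≤ δ0 + 1 ∧ Even (b + δ + 1) := by
    rcases Nat.even_or_odd (b + δ0 + 1) with h | h
    · exact ⟨δ0, le_rfl, by omega, h⟩
    · refine ⟨δ0 + 1, by omega, le_rfl, ?_⟩
      have e : b + (δ0 + 1) + 1 = (b + δ0 + 1) + 1 := by ring
      rw [e]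
      exact Odd.add_one h
  have hr := hring (b + δ) (by omega) hev
  have hκ : 0 ≤ c0 * ((b + δ + 1 : ℕ) : ℝ) := by positivity
  have l5 := log_F_le43 hF hS0 ht0 δ hδ0 _ hκ hr s hs
  rw [← hW] at l5
  -- numerical data as real numbers
  have hb0 : 0 < b := hF.hb
  have hbr : (0 : ℝ) < b := by exact_mod_cast hb0
  have hb1 : (1 : ℝ) ≤ b := by exact_mod_cast hb0
  have hBr : (0 : ℝ) < B := by exact_mod_cast hB
  have hBbr : (B : ℝ) ≤ b := by exact_mod_cast hBb
  set g : ℝ := (G : ℝ) ^ 2 * b with hg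
  have hg0 : 0 ≤ g := by positivity
  have hNr : (G : ℝ) * b = N := by exact_mod_cast hN
  have hgb : g * b = (N : ℝ) ^ 2 := by rw [hg, ← hNr]; ring
  have hSr : (S : ℝ) = (s : ℝ) ^ 2 := by rw [hS]; push_cast; ring
  have hNr0 : (0 : ℝ) ≤ (N : ℝ) ^ 2 := by positivity
  have hgN : g ≤ (N : ℝ) ^ 2 := by rw [← hgb]; nlinarith
  have hgB : g ≤ (N : ℝ) ^ 2 / B := by
    rw [le_div_iff₀ hBr, ← hgb]
    exact mul_le_mul_of_nonneg_left hBbr hg0
  have hδr : (s : ℝ) ^ 2 * δ0 = 6 * b := by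
    rw [← hSr]; exact_mod_cast hδ
  have hδ1r : (δ : ℝ) ≤ δ0 + 1 := by exact_mod_cast hδ1
  -- `g δ0 s ^ 2 = 6 N ^ 2`
  have hgδ : g * δ0 = 6 * (N : ℝ) ^ 2 / (s : ℝ) ^ 2 := by
    rw [eq_div_iff (by positivity), ← hgb]
    calc g * δ0 * (s : ℝ) ^ 2 = g * ((s : ℝ) ^ 2 * δ0) := by ring
      _ = g * (6 * b) := by rw [hδr]
      _ = _ := by ring
  have hgδ1 : g * δ ≤ 6 * (N : ℝ) ^ 2 / (s : ℝ) ^ 2 + g := by
    rw [← hgδ]
    nlinarith
  have hss : 6 * (N : ℝ) ^ 2 / (s : ℝ) ^ 2 ≤ 6 * (N : ℝ) ^ 2 := by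
    rw [div_le_iff₀ (by positivity)]
    nlinarith [sq_nonneg ((s : ℝ) - 1), mul_nonneg hNr0 (sub_nonneg.2 hs1)]
  have ht : (N : ℝ) = (s : ℝ) ^ 2 * ((S ^ S ^ 5 * B : ℕ) : ℝ) := by
    rw [← hSr]
    have := hF.hn
    rw [hN] at this
    exact_mod_cast this
  set tt : ℝ := ((S ^ S ^ 5 * B : ℕ) : ℝ) with htt
  have p1 : (G : ℝ) ^ 2 / 2 * (c0 * ((b + δ + 1 : ℕ) : ℝ) * b) ≤
      c0 / 2 * (1 + 6 / (s : ℝ) ^ 2) * (N : ℝ) ^ 2 + c0 * g := by
    have e1 : (G : ℝ) ^ 2 / 2 * (c0 * ((b + δ + 1 : ℕ) : ℝ) * b)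
        = c0 / 2 * (g * b + g * δ + g) := by
      rw [hg]; push_cast; ring
    rw [e1, hgb]
    have e2 : c0 / 2 * (1 + 6 / (s : ℝ) ^ 2) * (N : ℝ) ^ 2 + c0 * g
        = c0 / 2 * ((N : ℝ) ^ 2 + (6 * (N : ℝ) ^ 2 / (s : ℝ) ^ 2 + g) + g) := by ring
    rw [e2]
    apply mul_le_mul_of_nonneg_left _ (by positivity)
    linarith
  have p2 : (G : ℝ) ^ 2 / 2 * (s * (12 * b * (δ + 1))) ≤ 36 / s * (N : ℝ) ^ 2 + 12 * s * g := by
    have e1 : (G : ℝ) ^ 2 / 2 * (s * (12 * b * (δ + 1))) = 6 * s * (g * δ + g) := by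
      rw [hg]; ring
    rw [e1]
    have e2 : 36 / s * (N : ℝ) ^ 2 + 12 * s * g
        = 6 * s * (6 * (N : ℝ) ^ 2 / (s : ℝ) ^ 2 + g + g) := by
      field_simp
      ring
    rw [e2]
    apply mul_le_mul_of_nonneg_left _ (by positivity)
    linarith
  have p3 : (G : ℝ) ^ 2 / 2 * ((b : ℝ) * (b + δ) / s) ≤ 8 / s * (N : ℝ) ^ 2 := by
    have e1 : (G : ℝ) ^ 2 / 2 * ((b : ℝ) * (b + δ) / s) = (g * b + g * δ) / 2 / s := by
      rw [hg]; ring
    rw [e1, hgb, div_mul_eq_mul_div]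
    apply div_le_div_of_nonneg_right _ hs'.le
    linarith
  have p4 : (s : ℝ) * ((G : ℝ) * b * tt) = 1 / s * (N : ℝ) ^ 2 := by
    rw [hNr]
    have : (N : ℝ) ^ 2 = N * ((s : ℝ) ^ 2 * tt) := by rw [← ht]; ring
    rw [this]
    field_simp
  have p5 : (b : ℝ) ^ 2 * W ≤ 2 / s * (N : ℝ) ^ 2 := by
    have q1 : S * (b ^ 2 * W) ≤ 2 * N ^ 2 := by
      calc S * (b ^ 2 * W) = b ^ 2 * (S * W) := by ring
        _ ≤ b ^ 2 * (G ^ 2 + S * G) := Nat.mul_le_mul_left _ hSW
        _ ≤ b ^ 2 * (G ^ 2 + G * G) := by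
            apply Nat.mul_le_mul_left
            apply Nat.add_le_add_left
            exact Nat.mul_le_mul_right _ hSG
        _ = 2 * (G * b) ^ 2 := by ring
        _ = 2 * N ^ 2 := by rw [hN]
    have q2 : (s : ℝ) ^ 2 * ((b : ℝ) ^ 2 * W) ≤ 2 * (N : ℝ) ^ 2 := by
      rw [← hSr]; exact_mod_cast q1
    have q3 : (0 : ℝ) ≤ (b : ℝ) ^ 2 * W := by positivity
    rw [div_mul_eq_mul_div, le_div_iff₀ hs']
    nlinarith [mul_nonneg (mul_nonneg hs'.le q3) (sub_nonneg.2 hs1)]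
  have p6 : (c0 + 24 * s) * g ≤ (c0 + 24 * s) / B * (N : ℝ) ^ 2 := by
    rw [div_mul_eq_mul_div, mul_div_assoc]
    exact mul_le_mul_of_nonneg_left hgB (by positivity)
  have p7 : 12 * (s : ℝ) * g ≤ 24 * s * g := by nlinarith [mul_nonneg hs'.le hg0]
  have p8 : (0 : ℝ) ≤ 36 / s * (N : ℝ) ^ 2 := by positivity
  have e1 : (c0 / 2 * (1 + 6 / (s : ℝ) ^ 2) + 83 / s + (c0 + 24 * s) / B) * (N : ℝ) ^ 2
      = c0 / 2 * (1 + 6 / (s : ℝ) ^ 2) * (N : ℝ) ^ 2
        + (36 / s * (N : ℝ) ^ 2 + 36 / s * (N : ℝ) ^ 2 + 8 / s * (N : ℝ) ^ 2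
          + 1 / s * (N : ℝ) ^ 2 + 2 / s * (N : ℝ) ^ 2)
        + (c0 + 24 * s) / B * (N : ℝ) ^ 2 := by ring
  rw [e1]
  have e2 : (G : ℝ) ^ 2 / 2 * (c0 * ((b + δ + 1 : ℕ) : ℝ) * b + s * (12 * b * (δ + 1))
        + (b : ℝ) * (b + δ) / s)
      = (G : ℝ) ^ 2 / 2 * (c0 * ((b + δ + 1 : ℕ) : ℝ) * b)
        + (G : ℝ) ^ 2 / 2 * (s * (12 * b * (δ + 1)))
        + (G : ℝ) ^ 2 / 2 * ((b : ℝ) * (b + δ) / s) := by ring
  rw [e2, p4] at l5
  linarith

theorem limit_le (hring : ∀ ε : ℝ, 0 < ε → ∃ N0 : ℕ, ∀ N, N0 ≤ N → Even N →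
      RingCount (N - 1) ((2 * Real.exp (-3 / 2) + ε) * N)) (L : ℝ)
    (hL : Tendsto (fun n : ℕ => V n / (n : ℝ) ^ 2) atTop (𝓝 L)) : L ≤ Real.exp (-3 / 2) := by
  have key : ∀ ε : ℝ, 0 < ε → ∀ s : ℕ, 0 < s →
      L ≤ (2 * Real.exp (-3 / 2) + ε) / 2 * (1 + 6 / (s : ℝ) ^ 2) + 83 / s := by
    intro ε hε s hs
    obtain ⟨N0, hN0⟩ := hring ε hε
    set c0 : ℝ := 2 * Real.exp (-3 / 2) + ε with hc0
    have hc00 : 0 ≤ c0 := by positivity
    have hs' : (0 : ℝ) < s := by exact_mod_cast hs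
    set K := (s ^ 2) ^ ((s ^ 2) ^ 5 + 1) with hK
    have hKpos : 0 < K := by positivity
    set Cs : ℝ := ((((s ^ 2) ^ 5 : ℕ) : ℝ)
          + 16 * ((s ^ 2 : ℕ) * (((s ^ 2) ^ ((s ^ 2) ^ 5) : ℕ) + 1))
          + 8 * (((s ^ 2) ^ ((s ^ 2) ^ 5) : ℕ) : ℝ) ^ 2) with hCs
    have hCs0 : 0 ≤ Cs := by positivity
    have t1 : Tendsto (fun B : ℕ => V (K * B) / ((K * B : ℕ) : ℝ) ^ 2) atTop (𝓝 L) :=
      hL.comp (tendsto_atTop_mono (fun B => Nat.le_mul_of_pos_left B hKpos) tendsto_id)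
    have t2 : Tendsto (fun B : ℕ => c0 / 2 * (1 + 6 / (s : ℝ) ^ 2) + 83 / s
        + (c0 + 24 * s) / (B : ℝ) + Cs / Real.sqrt (B : ℝ)) atTop
        (𝓝 (c0 / 2 * (1 + 6 / (s : ℝ) ^ 2) + 83 / s + 0 + 0)) := by
      apply Tendsto.add
      · apply Tendsto.add tendsto_const_nhds
        exact Tendsto.div_atTop tendsto_const_nhds tendsto_natCast_atTop_atTop
      · apply Tendsto.div_atTop tendsto_const_nhds
        exact Real.tendsto_sqrt_atTop.comp tendsto_natCast_atTop_atTop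
    have h := le_of_tendsto_of_tendsto t1 t2 (by
      filter_upwards [eventually_ge_atTop (N0 + 1)] with B hB
      have hBpos : 0 < B := by omega
      have hBr : (0 : ℝ) < B := by exact_mod_cast hBpos
      have h1 := V_le43 s B hs hBpos c0 hc00 (fun C hC hev => by
        have := hN0 (C + 1) (by omega) hev
        rw [Nat.add_sub_cancel] at this
        exact this)
      rw [← hK, ← hCs] at h1
      have hNpos : (0 : ℝ) < ((K * B : ℕ) : ℝ) := by
        have : 0 < K * B := Nat.mul_pos hKpos hBpos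
        exact_mod_cast this
      have hNB : (B : ℝ) ≤ ((K * B : ℕ) : ℝ) := by
        exact_mod_cast Nat.le_mul_of_pos_left B hKpos
      rw [div_le_iff₀ (by positivity)]
      refine h1.trans ?_
      rw [add_mul (c0 / 2 * (1 + 6 / (s : ℝ) ^ 2) + 83 / s + (c0 + 24 * s) / (B : ℝ))]
      apply add_le_add le_rfl
      have h2 : Real.sqrt (B : ℝ) ≤ Real.sqrt ((K * B : ℕ) : ℝ) := Real.sqrt_le_sqrt hNB
      have h3 : 0 < Real.sqrt (B : ℝ) := Real.sqrt_pos.2 hBr
      have h4 : 0 < Real.sqrt ((K * B : ℕ) : ℝ) := Real.sqrt_pos.2 hNpos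
      have h5 : Real.sqrt ((K * B : ℕ) : ℝ) * Real.sqrt ((K * B : ℕ) : ℝ) = ((K * B : ℕ) : ℝ) :=
        Real.mul_self_sqrt hNpos.le
      have h6 : Cs * (((K * B : ℕ) : ℝ) * Real.sqrt ((K * B : ℕ) : ℝ))
          = Cs / Real.sqrt ((K * B : ℕ) : ℝ) * ((K * B : ℕ) : ℝ) ^ 2 := by
        rw [div_mul_eq_mul_div, eq_div_iff h4.ne']
        calc Cs * (((K * B : ℕ) : ℝ) * Real.sqrt ((K * B : ℕ) : ℝ)) * Real.sqrt ((K * B : ℕ) : ℝ)
            = Cs * (((K * B : ℕ) : ℝ)
              * (Real.sqrt ((K * B : ℕ) : ℝ) * Real.sqrt ((K * B : ℕ) : ℝ))) := by ring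
          _ = _ := by rw [h5]; ring
      rw [h6]
      apply mul_le_mul_of_nonneg_right _ (by positivity)
      exact div_le_div_of_nonneg_left hCs0 h3 h2)
    simpa using h
  have key2 : ∀ ε : ℝ, 0 < ε → L ≤ Real.exp (-3 / 2) + ε := by
    intro ε hε
    have t1 : Tendsto (fun s : ℕ => (2 * Real.exp (-3 / 2) + ε) / 2 * (1 + 6 / (s : ℝ) ^ 2)
        + 83 / (s : ℝ)) atTop (𝓝 ((2 * Real.exp (-3 / 2) + ε) / 2 * (1 + 0) + 0)) := by
      apply Tendsto.add
      · apply Tendsto.const_mul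
        apply Tendsto.add tendsto_const_nhds
        apply Tendsto.div_atTop tendsto_const_nhds
        exact (tendsto_pow_atTop (by norm_num)).comp tendsto_natCast_atTop_atTop
      · exact Tendsto.div_atTop tendsto_const_nhds tendsto_natCast_atTop_atTop
    have h := ge_of_tendsto t1 (by
      filter_upwards [eventually_gt_atTop 0] with s hs
      exact key ε hε s hs)
    linarith
  exact le_of_forall_pos_le_add key2

end Pool.Agent.Schub.Ring
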