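import Pool.Agent.Helper78.LimMain
import Pool.Agent.SchubU.RingFinal

/-!
The upper bound `e^(-3/2) / ln 2` for the growth rate of the principal evaluations.
-/

set_option autoImplicit false

namespace Pool.Agent.Schub.Ring

open Finset Pool.Agent.Helper78.Lim Filter Topology Pool.Agent.Helper78.Schub

/-- `e^(-3/2) / ln 2 < 0.32191` -/
theorem const_lt : Real.exp (-3 / 2) / Real.log 2 < 0.32191 := by
  have h1 := Real.log_two_gt_d9
  have h2 := Real.exp_one_gt_d9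
  have h0 : (0 : ℝ) < Real.log 2 := by linarith
  rw [div_lt_iff₀ h0]
  have h3 : Real.exp (-3 / 2) < 0.223131 := by
    have h4 : Real.exp (-3 / 2) ^ 2 * Real.exp 1 ^ 3 = 1 := by
      rw [← Real.exp_nat_mul, ← Real.exp_nat_mul, ← Real.exp_add]
      norm_num
    have h5 : 0 < Real.exp (-3 / 2) := Real.exp_pos _
    have h6 : (2.7182818283 : ℝ) ^ 3 < Real.exp 1 ^ 3 :=
      pow_lt_pow_left₀ h2 (by norm_num) (by norm_num)
    by_contra hcon
    push Not at hcon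
    have h7 : (0.223131 : ℝ) ^ 2 ≤ Real.exp (-3 / 2) ^ 2 :=
      pow_le_pow_left₀ (by norm_num) hcon 2
    have h8 : (0.223131 : ℝ) ^ 2 * 2.7182818283 ^ 3
        < Real.exp (-3 / 2) ^ 2 * Real.exp 1 ^ 3 := by
      calc (0.223131 : ℝ) ^ 2 * 2.7182818283 ^ 3 < 0.223131 ^ 2 * Real.exp 1 ^ 3 :=
            mul_lt_mul_of_pos_left h6 (by norm_num)
        _ ≤ _ := mul_le_mul_of_nonneg_right h7 (by positivity)
    rw [h4] at h8
    norm_num at h8
  nlinarith

/-- The upper bound for the growth rate. -/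
theorem rate_le (hring : ∀ ε : ℝ, 0 < ε → ∃ N0 : ℕ, ∀ N, N0 ≤ N → Even N →
      RingCount (N - 1) ((2 * Real.exp (-3 / 2) + ε) * N)) :
    (∀ n : ℕ, ∃! S : Equiv.Perm (Fin n) → MvPolynomial (Fin n) ℤ, IsSchubertFamily n S) ∧
    ∃ α : ℝ, 1 / 4 ≤ α ∧ α ≤ Real.exp (-3 / 2) / Real.log 2 ∧
      Real.exp (-3 / 2) / Real.log 2 < 0.32191 ∧
      ∀ S : (n : ℕ) → Equiv.Perm (Fin n) → MvPolynomial (Fin n) ℤ,
        (∀ n, IsSchubertFamily n (S n)) →
        Tendsto (fun n : ℕ => Real.logb 2 (maxEval n (S n)) / (n : ℝ) ^ 2) atTop (𝓝 α) ∧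
        (∃ ε : ℕ → ℝ, Tendsto ε atTop (𝓝 0) ∧
          ∀ n : ℕ, (maxEval n (S n) : ℝ) = (2 : ℝ) ^ (α * (n : ℝ) ^ 2 * (1 + ε n))) ∧
        (∀ n : ℕ, Real.logb 2 (maxEval n (S n)) ≤ 0.3555 * (n : ℝ) ^ 2 + 104 * n + 76) := by
  obtain ⟨huniq, α, h1, -, h3⟩ := limit_main
  refine ⟨huniq, α, h1, ?_, const_lt, h3⟩
  obtain ⟨L, hL⟩ := V_conv
  have hLe := limit_le hring L hL
  have hlog2 : 0 < Real.log 2 := Real.log_pos (by norm_num)
  have hT := (h3 _ (fun n => isSchubertFamily_FF n)).1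
  rw [le_div_iff₀ hlog2]
  refine le_trans ?_ hLe
  have h4 := hT.mul_const (Real.log 2)
  refine le_of_tendsto_of_tendsto h4 hL ?_
  filter_upwards with n
  have h5 := log_le_V n _ (isSchubertFamily_FF n)
  have h6 : ∀ y z : ℝ, Real.logb 2 y / z * Real.log 2 = Real.log y / z := by
    intro y z
    unfold Real.logb
    field_simp
  rw [h6]
  exact div_le_div_of_nonneg_right h5 (by positivity)

end Pool.Agent.Schub.Ring
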