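import Pool.Agent.SchubU.Num23

/-!
Numerics of the affine weight, in the form used by the affine theorem.
-/

namespace Pool.Agent.Schub.Aff

theorem hook_bound (ε : ℝ) (hε : 0 < ε) : ∃ N0 : ℕ, ∀ N : ℕ, N0 ≤ N → Even N →
    ∀ r : ℕ, 1 ≤ r → r < N →
      ∏ i ∈ Finset.range r, ∏ j ∈ Finset.range (N - r), ((i : ℝ) + j + 1) ≤
        ((2 * Real.exp (-(3 / 2)) + ε) * N) ^ (r * (N - r)) := by
  obtain ⟨M, hM⟩ := kap_ok ε hε
  refine ⟨M, fun N hN he r h1 h2 => ?_⟩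
  rw [← neg_div]
  exact (hM N hN he).2 r h1 h2

end Pool.Agent.Schub.Aff
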