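import Pool.Agent.SchubU.Defs

/-!
The interface between the affine weight and the ring process.
-/

set_option autoImplicit false

namespace Pool.Agent.Schub.Aff

/-- The word of a row whose position `e` is never crossed: the cells `c` of `S` at the positions
`e + 1 + c`; the head acts last, so the cell `N - 2` acts first. -/
def rwd (N : ℕ) (e : ℤ) (S : Finset ℕ) : List (ZMod N) :=
  ((List.range (N - 1)).filter (fun c => decide (c ∈ S))).map
    (fun c : ℕ => ((e + 1 + (c : ℤ) : ℤ) : ZMod N))

open Classical in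
/-- The affine theorem. -/
def AffHyp (N : ℕ) (κ : ℝ) : Prop :=
  ∃ f : (ℤ → ℤ) → ℝ, ∃ c : ℝ, 0 < c ∧
    (∀ v : ℤ → ℤ, Slope N N v → Function.Injective v → c ≤ f v) ∧
    ∀ (e : ℤ) (v : ℤ → ℤ), Slope N N v → Function.Injective v →
      ∑ S ∈ (Finset.range (N - 1)).powerset.filter (fun S => Asc v (rwd N e S)),
        f (run v (rwd N e S)) ≤ Real.exp κ * f v

end Pool.Agent.Schub.Aff
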