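import Pool.Agent.SchubU.RingDefs
import Pool.Agent.SchubU.LinkDefs

/-!
The affine theorem bounds the number of histories on the ring.
-/

set_option autoImplicit false

namespace Pool.Agent.Schub.Link

open Finset Pool.Agent.Schub.Aff Pool.Agent.Schub.Ring

/-! ### The word of a row -/

/-- The word of the last `k` cells of a row. -/
def lk (N : ℕ) (e : ℤ) (S : Finset ℕ) (k : ℕ) : List (ZMod N) :=
  ((List.range' (N - 1 - k) k).filter (fun c => decide (c ∈ S))).map
    (fun c : ℕ => ((e + 1 + (c : ℤ) : ℤ) : ZMod N))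

theorem lk_zero (N : ℕ) (e : ℤ) (S : Finset ℕ) : lk N e S 0 = [] := by simp [lk]

theorem lk_full (N : ℕ) (e : ℤ) (S : Finset ℕ) : lk N e S (N - 1) = rwd N e S := by
  unfold lk rwd
  rw [Nat.sub_self, List.range_eq_range']

theorem lk_succ_mem (N : ℕ) (e : ℤ) (S : Finset ℕ) {k : ℕ} (hk : k + 1 ≤ N - 1)
    (h : N - 1 - (k + 1) ∈ S) :
    lk N e S (k + 1) = ((e + 1 + ((N - 1 - (k + 1) : ℕ) : ℤ) : ℤ) : ZMod N) :: lk N e S k := by
  unfold lk
  rw [List.range'_succ, List.filter_cons_of_pos (by simpa using h), List.map_cons]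
  have : N - 1 - (k + 1) + 1 = N - 1 - k := by omega
  rw [this]

theorem lk_succ_not_mem (N : ℕ) (e : ℤ) (S : Finset ℕ) {k : ℕ} (hk : k + 1 ≤ N - 1)
    (h : N - 1 - (k + 1) ∉ S) : lk N e S (k + 1) = lk N e S k := by
  unfold lk
  rw [List.range'_succ, List.filter_cons_of_neg (by simpa using h)]
  have : N - 1 - (k + 1) + 1 = N - 1 - k := by omega
  rw [this]

/-! ### Injective states -/

theorem aff_injective {N : ℕ} (hN : 3 ≤ N) (k : ZMod N) : Function.Injective (aff k) := by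
  intro i j h
  rw [← aff_aff hN k i, h, aff_aff hN]

theorem run_injective {N : ℕ} (hN : 3 ≤ N) {v : ℤ → ℤ} (hv : Function.Injective v)
    (w : List (ZMod N)) : Function.Injective (run v w) := by
  induction w with
  | nil => exact hv
  | cons k w ih => exact ih.comp (aff_injective hN k)

/-! ### The comparison of two states -/

/-- Every increasing pair of `x` is increasing in `v`. -/
def Inv (x v : ℤ → ℤ) : Prop := ∀ p q : ℤ, p < q → x p < x q → v p < v q

theorem aff_le {N : ℕ} (k : ZMod N) (i : ℤ) : aff k i ≤ i + 1 := by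
  unfold aff
  split_ifs <;> omega

theorem le_aff {N : ℕ} (k : ZMod N) (i : ℤ) : i - 1 ≤ aff k i := by
  unfold aff
  split_ifs <;> omega

theorem Inv.step {N : ℕ} (hN : 3 ≤ N) [NeZero N] {x v : ℤ → ℤ} (h : Inv x v) {c : ℤ}
    (hx : Slope N c x) {k : ZMod N} (hk : 0 < gap x k) :
    Inv (fun i => x (aff k i)) (fun i => v (aff k i)) := by
  intro p q hpq hlt
  rcases lt_trichotomy (aff k p) (aff k q) with h1 | h1 | h1
  · exact h _ _ h1 hlt
  · exact absurd (aff_injective hN k h1) hpq.ne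
  · exfalso
    have h2 := aff_le k p
    have h3 := le_aff k q
    have h4 : q = p + 1 := by omega
    have h5 : aff k q = p := by omega
    have h6 : aff k p = p + 1 := by omega
    have h7 : (p : ZMod N) = k := by
      by_contra h8
      unfold aff at h6
      rw [if_neg h8] at h6
      split_ifs at h6 <;> omega
    rw [← h7, gap_eq hx] at hk
    have h8 : x (aff k p) < x (aff k q) := hlt
    rw [h5, h6] at h8
    omega

theorem Inv.run {N : ℕ} (hN : 3 ≤ N) [NeZero N] {x v : ℤ → ℤ} (h : Inv x v) {c d : ℤ}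
    (hx : Slope N c x) (hv : Slope N d v) (w : List (ZMod N)) (hw : Asc x w) :
    Asc v w ∧ Inv (run x w) (run v w) := by
  induction w with
  | nil => exact ⟨trivial, h⟩
  | cons k w ih =>
    obtain ⟨h1, h2⟩ := ih hw.1
    refine ⟨⟨h1, ?_⟩, h2.step hN (hx.run w) hw.2⟩
    have h3 := rep_cast k
    have h4 : 0 < gap (Pool.Agent.Schub.Aff.run x w) k := hw.2
    rw [← h3, gap_eq (hx.run w)] at h4
    rw [← h3, gap_eq (hv.run w)]
    have h5 := h2 (rep k) (rep k + 1) (by omega) (by omega)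
    omega

/-! ### The periodic letters of the ring -/

/-- The letters of the ring before row `r`, placed at the positions `r, r + 1, …, r + C`. -/
noncomputable def xs (N : ℕ) (D : ℕ → ℕ → Prop) (x0 : ℕ → ℕ) (r : ℕ) (p : ℤ) : ℤ :=
  (SW (N - 1) D x0 r ((p - r) % (N : ℤ)).toNat : ℤ)

theorem xs_slope (N : ℕ) (D : ℕ → ℕ → Prop) (x0 : ℕ → ℕ) (r : ℕ) : Slope N 0 (xs N D x0 r) := by
  intro i
  unfold xs
  have : (i + (N : ℤ) - r) % (N : ℤ) = (i - r) % (N : ℤ) := by
    rw [show i + (N : ℤ) - r = (i - r) + N by ring, Int.add_emod_right]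
  rw [this, add_zero]

theorem xs_at {N : ℕ} (D : ℕ → ℕ → Prop) (x0 : ℕ → ℕ) (r : ℕ) {c : ℕ} (hc : c < N) :
    xs N D x0 r (r + c) = (SW (N - 1) D x0 r c : ℤ) := by
  unfold xs
  have h1 : ((r : ℤ) + c - r) % (N : ℤ) = c := by
    rw [show (r : ℤ) + c - r = c by ring]
    exact Int.emod_eq_of_lt (by omega) (by omega)
  rw [h1, Int.toNat_natCast]

theorem eq_of_window {N : ℕ} [NeZero N] {x y : ℤ → ℤ} (hx : Slope N 0 x) (hy : Slope N 0 y)
    (a : ℤ) (h : ∀ c : ℕ, c < N → x (a + c) = y (a + c)) : x = y := by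
  funext p
  have hN : (0 : ℤ) < N := by
    have := NeZero.ne N
    omega
  have h1 : p = (a + (((p - a) % (N : ℤ)).toNat : ℤ)) + N * ((p - a) / N) := by
    rw [Int.toNat_of_nonneg (Int.emod_nonneg _ hN.ne')]
    have := Int.emod_add_mul_ediv (p - a) N
    linarith
  have h2 : ((p - a) % (N : ℤ)).toNat < N := by
    have := Int.emod_lt_of_pos (p - a) hN
    omega
  rw [h1, hx.mul, hy.mul, h _ h2]

theorem cast_ne {N : ℕ} (a : ℤ) {c d : ℕ} (hc : c < N) (hd : d < N) (h : c ≠ d) :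
    ((a + c : ℤ) : ZMod N) ≠ ((a + d : ℤ) : ZMod N) := by
  intro h1
  rw [ZMod.intCast_eq_intCast_iff_dvd_sub] at h1
  have h2 : (a + (d : ℤ) - (a + c)) = (d : ℤ) - c := by ring
  rw [h2] at h1
  obtain ⟨m, hm⟩ := h1
  rcases lt_trichotomy m 0 with h3 | h3 | h3
  · have : (N : ℤ) * m ≤ -N := by nlinarith
    omega
  · rw [h3, mul_zero] at hm
    omega
  · have : (N : ℤ) ≤ N * m := by nlinarith
    omega

theorem zr_succ (Dr : ℕ → Prop) (w : ℕ → ℕ) (C k : ℕ) :
    (Dr (C - 1 - k) ∧ w (C - 1 - k) < zr Dr w C k → zr Dr w C (k + 1) = zr Dr w C k) ∧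
    (¬ (Dr (C - 1 - k) ∧ w (C - 1 - k) < zr Dr w C k) → zr Dr w C (k + 1) = w (C - 1 - k)) := by
  constructor
  · intro h
    rw [zr, if_pos h]
  · intro h
    rw [zr, if_neg h]

theorem SW_succ_lt (C : ℕ) (D : ℕ → ℕ → Prop) (x0 : ℕ → ℕ) (r c : ℕ) (hc : c < C) :
    (D r c ∧ SW C D x0 r c < zr (D r) (SW C D x0 r) C (C - (c + 1)) →
      SW C D x0 (r + 1) c = SW C D x0 r c) ∧
    (¬ (D r c ∧ SW C D x0 r c < zr (D r) (SW C D x0 r) C (C - (c + 1))) →
      SW C D x0 (r + 1) c = zr (D r) (SW C D x0 r) C (C - (c + 1))) := by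
  constructor
  · intro h
    rw [SW]
    dsimp only
    rw [if_pos hc, if_pos h]
  · intro h
    rw [SW]
    dsimp only
    rw [if_pos hc, if_neg h]

theorem SW_succ_last (C : ℕ) (D : ℕ → ℕ → Prop) (x0 : ℕ → ℕ) (r : ℕ) :
    SW C D x0 (r + 1) C = zr (D r) (SW C D x0 r) C C := by
  rw [SW]
  dsimp only
  rw [if_neg (lt_irrefl C)]

/-- One row of the ring in the affine picture. -/
theorem row_state {N : ℕ} (hN : 3 ≤ N) [NeZero N] (D : ℕ → ℕ → Prop) (x0 : ℕ → ℕ) (r : ℕ)
    (S : Finset ℕ) (hS : ∀ c, c < N - 1 → (c ∈ S ↔ D r c))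
    (heff : ∀ c, c < N - 1 → D r c →
      SW (N - 1) D x0 r c < zr (D r) (SW (N - 1) D x0 r) (N - 1) (N - 1 - (c + 1)))
    (k : ℕ) (hk : k ≤ N - 1) :
    Asc (xs N D x0 r) (lk N ((r : ℤ) - 1) S k) ∧
    (∀ c, c < N - 1 - k → run (xs N D x0 r) (lk N ((r : ℤ) - 1) S k) (r + c) =
      (SW (N - 1) D x0 r c : ℤ)) ∧
    run (xs N D x0 r) (lk N ((r : ℤ) - 1) S k) (r + (N - 1 - k : ℕ)) =
      (zr (D r) (SW (N - 1) D x0 r) (N - 1) k : ℤ) ∧
    (∀ c, N - 1 - k ≤ c → c < N - 1 → run (xs N D x0 r) (lk N ((r : ℤ) - 1) S k) (r + (c + 1 : ℕ)) =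
      (SW (N - 1) D x0 (r + 1) c : ℤ)) := by
  induction k with
  | zero =>
    rw [lk_zero]
    refine ⟨trivial, fun c hc => xs_at D x0 r (by omega), ?_, fun c h1 h2 => by omega⟩
    show xs N D x0 r (r + (N - 1 - 0 : ℕ)) = _
    rw [Nat.sub_zero, xs_at D x0 r (by omega)]
    rfl
  | succ k ih =>
    obtain ⟨i1, i2, i3, i4⟩ := ih (by omega)
    set c0 := N - 1 - (k + 1) with hc0
    have hc0' : N - 1 - k = c0 + 1 := by omega
    have hc0'' : N - 1 - 1 - k = c0 := by omega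
    have hkc : N - 1 - (c0 + 1) = k := by omega
    have hsl : Slope N 0 (run (xs N D x0 r) (lk N ((r : ℤ) - 1) S k)) := (xs_slope N D x0 r).run _
    by_cases hmem : c0 ∈ S
    · have hD : D r c0 := (hS c0 (by omega)).1 hmem
      have he := heff c0 (by omega) hD
      rw [hkc] at he
      have hzr : zr (D r) (SW (N - 1) D x0 r) (N - 1) (k + 1) =
          zr (D r) (SW (N - 1) D x0 r) (N - 1) k :=
        (zr_succ _ _ _ _).1 (by rw [hc0'']; exact ⟨hD, he⟩)
      have hsw : SW (N - 1) D x0 (r + 1) c0 = SW (N - 1) D x0 r c0 :=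
        (SW_succ_lt _ _ _ _ _ (by omega)).1 (by rw [hkc]; exact ⟨hD, he⟩)
      have hpos : ((r : ℤ) - 1 + 1 + (c0 : ℤ)) = r + c0 := by ring
      rw [lk_succ_mem N _ S hk hmem, ← hc0, hpos]
      have v1 : run (xs N D x0 r) (lk N ((r : ℤ) - 1) S k) (r + c0) =
          (SW (N - 1) D x0 r c0 : ℤ) := i2 c0 (by omega)
      have v2 : run (xs N D x0 r) (lk N ((r : ℤ) - 1) S k) (r + (c0 + 1 : ℕ)) =
          (zr (D r) (SW (N - 1) D x0 r) (N - 1) k : ℤ) := by
        rw [hc0'] at i3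
        exact i3
      have e1 : (r : ℤ) + (c0 + 1 : ℕ) = (r + c0) + 1 := by push_cast; ring
      have a1 : aff (((r : ℤ) + c0 : ℤ) : ZMod N) (r + c0) = (r + c0) + 1 := aff_self _
      have a2 : aff (((r : ℤ) + c0 : ℤ) : ZMod N) (r + (c0 + 1 : ℕ)) = r + c0 := by
        rw [aff_of_succ hN (by push_cast; ring)]
        push_cast
        ring
      have a3 : ∀ c : ℕ, c < N → c ≠ c0 → c ≠ c0 + 1 →
          aff (((r : ℤ) + c0 : ℤ) : ZMod N) (r + c) = r + c := by
        intro c hc h1 h2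
        apply aff_ne
        · exact cast_ne r hc (by omega) h1
        · have h3 := cast_ne (N := N) r hc (d := c0 + 1) (by omega) h2
          intro h4
          apply h3
          rw [h4]
          push_cast
          ring
      refine ⟨⟨i1, ?_⟩, ?_, ?_, ?_⟩
      · rw [gap_eq hsl, ← e1, v1, v2]
        have : (SW (N - 1) D x0 r c0 : ℤ) <
            (zr (D r) (SW (N - 1) D x0 r) (N - 1) k : ℤ) := by exact_mod_cast he
        omega
      · intro c hc
        show run (xs N D x0 r) (lk N ((r : ℤ) - 1) S k) (aff _ _) = _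
        rw [a3 c (by omega) (by omega) (by omega)]
        exact i2 c (by omega)
      · show run (xs N D x0 r) (lk N ((r : ℤ) - 1) S k) (aff _ _) = _
        rw [a1, ← e1, v2, hzr]
      · intro c h1 h2
        show run (xs N D x0 r) (lk N ((r : ℤ) - 1) S k) (aff _ _) = _
        rcases h1.eq_or_lt with h3 | h3
        · rw [← h3, a2, v1, hsw]
        · rw [a3 (c + 1) (by omega) (by omega) (by omega)]
          exact i4 c (by omega) h2
    · have hD : ¬ D r c0 := fun h => hmem ((hS c0 (by omega)).2 h)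
      have hzr : zr (D r) (SW (N - 1) D x0 r) (N - 1) (k + 1) = SW (N - 1) D x0 r c0 := by
        have := (zr_succ (D r) (SW (N - 1) D x0 r) (N - 1) k).2
          (by rw [hc0'']; exact fun h => hD h.1)
        rw [hc0''] at this
        exact this
      have hsw : SW (N - 1) D x0 (r + 1) c0 = zr (D r) (SW (N - 1) D x0 r) (N - 1) k := by
        have := (SW_succ_lt (N - 1) D x0 r c0 (by omega)).2 (fun h => hD h.1)
        rw [hkc] at this
        exact this
      rw [lk_succ_not_mem N _ S hk hmem]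
      refine ⟨i1, fun c hc => i2 c (by omega), ?_, ?_⟩
      · rw [i2 c0 (by omega), hzr]
      · intro c h1 h2
        rcases h1.eq_or_lt with h3 | h3
        · rw [← h3, hsw]
          rw [hc0'] at i3
          exact i3
        · exact i4 c (by omega) h2

theorem row_step {N : ℕ} (hN : 3 ≤ N) [NeZero N] (D : ℕ → ℕ → Prop) (x0 : ℕ → ℕ) (r : ℕ)
    (S : Finset ℕ) (hS : ∀ c, c < N - 1 → (c ∈ S ↔ D r c))
    (heff : ∀ c, c < N - 1 → D r c →
      SW (N - 1) D x0 r c < zr (D r) (SW (N - 1) D x0 r) (N - 1) (N - 1 - (c + 1))) :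
    Asc (xs N D x0 r) (rwd N ((r : ℤ) - 1) S) ∧
      run (xs N D x0 r) (rwd N ((r : ℤ) - 1) S) = xs N D x0 (r + 1) := by
  obtain ⟨h1, _, h3, h4⟩ := row_state hN D x0 r S hS heff (N - 1) le_rfl
  rw [lk_full] at h1 h3 h4
  refine ⟨h1, ?_⟩
  have hsl : Slope N 0 (run (xs N D x0 r) (rwd N ((r : ℤ) - 1) S)) := (xs_slope N D x0 r).run _
  apply eq_of_window hsl (xs_slope N D x0 (r + 1)) ((r + 1 : ℕ) : ℤ)
  intro c hc
  rw [xs_at D x0 (r + 1) hc]
  by_cases hcc : c < N - 1
  · have h5 := h4 c (by omega) hcc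
    have e : ((r + 1 : ℕ) : ℤ) + c = r + (c + 1 : ℕ) := by push_cast; ring
    rw [e]
    exact h5
  · have hc' : c = N - 1 := by omega
    subst hc'
    have e : ((r + 1 : ℕ) : ℤ) + (N - 1 : ℕ) = (r + (N - 1 - (N - 1) : ℕ)) + N := by
      have : N - 1 - (N - 1) = 0 := by omega
      rw [this]
      push_cast
      omega
    rw [e, hsl, h3, add_zero, SW_succ_last]

/-! ### Histories -/

/-- The cells of row `r`. -/
def row (C : ℕ) (D : Finset (ℕ × ℕ)) (r : ℕ) : Finset ℕ := (range C).filter (fun c => (r, c) ∈ D)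

/-- The states of a history. -/
def vsr (N : ℕ) (v0 : ℤ → ℤ) (S : ℕ → Finset ℕ) : ℕ → ℤ → ℤ
  | 0 => v0
  | r + 1 => run (vsr N v0 S r) (rwd N ((r : ℤ) - 1) (S r))

theorem vsr_congr (N : ℕ) (v0 : ℤ → ℤ) (S S' : ℕ → Finset ℕ) (r : ℕ)
    (h : ∀ i < r, S i = S' i) : vsr N v0 S r = vsr N v0 S' r := by
  induction r with
  | zero => rfl
  | succ r ih =>
    show run (vsr N v0 S r) (rwd N ((r : ℤ) - 1) (S r)) =
      run (vsr N v0 S' r) (rwd N ((r : ℤ) - 1) (S' r))
    rw [ih (fun i hi => h i (by omega)), h r (by omega)]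

theorem vsr_slope {N : ℕ} {v0 : ℤ → ℤ} (h : Slope N N v0) (S : ℕ → Finset ℕ) (r : ℕ) :
    Slope N N (vsr N v0 S r) := by
  induction r with
  | zero => exact h
  | succ r ih => exact ih.run _

theorem vsr_injective {N : ℕ} (hN : 3 ≤ N) {v0 : ℤ → ℤ} (h : Function.Injective v0)
    (S : ℕ → Finset ℕ) (r : ℕ) : Function.Injective (vsr N v0 S r) := by
  induction r with
  | zero => exact h
  | succ r ih => exact run_injective hN ih _

/-- A history is allowed. -/
def Ok (N : ℕ) (v0 : ℤ → ℤ) (R : ℕ) (D : Finset (ℕ × ℕ)) : Prop :=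
  ∀ r < R, Asc (vsr N v0 (row (N - 1) D) r) (rwd N ((r : ℤ) - 1) (row (N - 1) D r))

open Classical in
/-- The allowed histories. -/
noncomputable def Hist (N : ℕ) (v0 : ℤ → ℤ) (R : ℕ) : Finset (Finset (ℕ × ℕ)) :=
  (range R ×ˢ range (N - 1)).powerset.filter (Ok N v0 R)

open Classical in
theorem mem_Hist {N : ℕ} {v0 : ℤ → ℤ} {R : ℕ} {D : Finset (ℕ × ℕ)} :
    D ∈ Hist N v0 R ↔ D ⊆ range R ×ˢ range (N - 1) ∧ Ok N v0 R D := by
  unfold Hist
  rw [mem_filter, mem_powerset]

theorem ok_of_allEff {N : ℕ} (hN : 3 ≤ N) [NeZero N] (x0 : ℕ → ℕ) (v0 : ℤ → ℤ)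
    (hv0 : Slope N N v0) (D : Finset (ℕ × ℕ)) (hinv : Inv (xs N (rel D) x0 0) v0)
    (hD : AllEff (N - 1) x0 D) (R : ℕ) : Ok N v0 R D := by
  have hrow : ∀ r, Asc (xs N (rel D) x0 r) (rwd N ((r : ℤ) - 1) (row (N - 1) D r)) ∧
      run (xs N (rel D) x0 r) (rwd N ((r : ℤ) - 1) (row (N - 1) D r)) =
        xs N (rel D) x0 (r + 1) := by
    intro r
    apply row_step hN
    · intro c hc
      unfold row rel
      rw [mem_filter, mem_range]
      exact ⟨fun h => h.2, fun h => ⟨hc, h⟩⟩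
    · intro c hc hm
      exact hD (r, c) hm
  have key : ∀ r, Inv (xs N (rel D) x0 r) (vsr N v0 (row (N - 1) D) r) := by
    intro r
    induction r with
    | zero => exact hinv
    | succ r ih =>
      have h1 := ih.run hN (xs_slope N (rel D) x0 r) (vsr_slope hv0 (row (N - 1) D) r) _
        (hrow r).1
      rw [(hrow r).2] at h1
      exact h1.2
  intro r _
  exact ((key r).run hN (xs_slope N (rel D) x0 r) (vsr_slope hv0 (row (N - 1) D) r) _
    (hrow r).1).1

/-- The total weight of the histories. -/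
noncomputable def TT' (N : ℕ) (v0 : ℤ → ℤ) (f : (ℤ → ℤ) → ℝ) (R : ℕ) : ℝ :=
  ∑ D ∈ Hist N v0 R, f (vsr N v0 (row (N - 1) D) R)

/-- The rows before `R`. -/
def cut (R : ℕ) (D : Finset (ℕ × ℕ)) : Finset (ℕ × ℕ) := D.filter (fun p => p.1 < R)

theorem row_cut (C R : ℕ) (D : Finset (ℕ × ℕ)) {r : ℕ} (hr : r < R) :
    row C (cut R D) r = row C D r := by
  unfold row cut
  apply filter_congr
  intro c _
  rw [mem_filter]
  exact ⟨fun h => h.1, fun h => ⟨h, hr⟩⟩

open Classical in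
theorem TT'_succ {N : ℕ} (hN : 3 ≤ N) (v0 : ℤ → ℤ) (hv0 : Slope N N v0)
    (hi0 : Function.Injective v0) (f : (ℤ → ℤ) → ℝ) (κ : ℝ)
    (hnn : ∀ v : ℤ → ℤ, Slope N N v → Function.Injective v → 0 ≤ f v)
    (hf : ∀ (e : ℤ) (v : ℤ → ℤ), Slope N N v → Function.Injective v →
      ∑ S ∈ (Finset.range (N - 1)).powerset.filter (fun S => Asc v (rwd N e S)),
        f (run v (rwd N e S)) ≤ Real.exp κ * f v) (R : ℕ) :
    TT' N v0 f (R + 1) ≤ Real.exp κ * TT' N v0 f R := by
  let φ : Finset (ℕ × ℕ) → (Σ _ : Finset (ℕ × ℕ), Finset ℕ) :=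
    fun D => ⟨cut R D, row (N - 1) D R⟩
  let G : (Σ _ : Finset (ℕ × ℕ), Finset ℕ) → ℝ :=
    fun p => f (run (vsr N v0 (row (N - 1) p.1) R) (rwd N ((R : ℤ) - 1) p.2))
  let U : Finset (Σ _ : Finset (ℕ × ℕ), Finset ℕ) := (Hist N v0 R).sigma
    (fun D => (range (N - 1)).powerset.filter
      (fun S => Asc (vsr N v0 (row (N - 1) D) R) (rwd N ((R : ℤ) - 1) S)))
  have hst : ∀ D, vsr N v0 (row (N - 1) (cut R D)) R = vsr N v0 (row (N - 1) D) R := fun D =>
    vsr_congr N v0 _ _ R (fun i hi => row_cut (N - 1) R D hi)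
  have hinj : Set.InjOn φ (Hist N v0 (R + 1) : Set (Finset (ℕ × ℕ))) := by
    intro D hD D' hD' h
    rw [mem_coe, mem_Hist] at hD hD'
    have h1 : cut R D = cut R D' := congrArg Sigma.fst h
    have h2 : row (N - 1) D R = row (N - 1) D' R := by
      have := h
      simp only [φ, Sigma.mk.injEq, heq_eq_eq] at this
      exact this.2
    ext ⟨a, b⟩
    have hh : ∀ D, D ⊆ range (R + 1) ×ˢ range (N - 1) → ((a, b) ∈ D ↔
        ((a, b) ∈ cut R D ∨ (a = R ∧ b ∈ row (N - 1) D R))) := by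
      intro D hD
      unfold cut row
      rw [mem_filter, mem_filter, mem_range]
      constructor
      · intro hm
        have h3 := hD hm
        rw [mem_product, mem_range, mem_range] at h3
        rcases Nat.lt_or_ge a R with h4 | h4
        · exact Or.inl ⟨hm, h4⟩
        · have h5 : a = R := by
            have h6 : a < R + 1 := h3.1
            omega
          subst h5
          exact Or.inr ⟨rfl, h3.2, hm⟩
      · rintro (⟨hm, _⟩ | ⟨rfl, _, hm⟩)
        · exact hm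
        · exact hm
    rw [hh D hD.1, hh D' hD'.1, h1, h2]
  have himg : (Hist N v0 (R + 1)).image φ ⊆ U := by
    intro p hp
    rw [mem_image] at hp
    obtain ⟨D, hD, rfl⟩ := hp
    rw [mem_Hist] at hD
    rw [mem_sigma, mem_Hist, mem_filter, mem_powerset]
    refine ⟨⟨?_, ?_⟩, ?_, ?_⟩
    · intro q hq
      have h1 : q ∈ cut R D := hq
      unfold cut at h1
      rw [mem_filter] at h1
      have h2 := hD.1 h1.1
      rw [mem_product, mem_range, mem_range] at h2 ⊢
      exact ⟨h1.2, h2.2⟩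
    · intro r hr
      have h1 := hD.2 r (by omega)
      show Asc (vsr N v0 (row (N - 1) (cut R D)) r) (rwd N ((r : ℤ) - 1) (row (N - 1) (cut R D) r))
      rw [row_cut _ _ _ hr, vsr_congr N v0 (row (N - 1) (cut R D)) (row (N - 1) D) r
        (fun i hi => row_cut (N - 1) R D (by omega))]
      exact h1
    · exact filter_subset _ _
    · show Asc (vsr N v0 (row (N - 1) (cut R D)) R) (rwd N ((R : ℤ) - 1) (row (N - 1) D R))
      rw [hst]
      exact hD.2 R (by omega)
  have hGnn : ∀ p ∈ U, 0 ≤ G p := fun p _ =>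
    hnn _ ((vsr_slope hv0 _ R).run _) (run_injective hN (vsr_injective hN hi0 _ R) _)
  calc TT' N v0 f (R + 1) = ∑ D ∈ Hist N v0 (R + 1), G (φ D) := by
        unfold TT'
        refine sum_congr rfl fun D _ => ?_
        show f (run (vsr N v0 (row (N - 1) D) R) (rwd N ((R : ℤ) - 1) (row (N - 1) D R))) =
          f (run (vsr N v0 (row (N - 1) (cut R D)) R) (rwd N ((R : ℤ) - 1) (row (N - 1) D R)))
        rw [hst]
    _ = ∑ p ∈ (Hist N v0 (R + 1)).image φ, G p := (sum_image hinj).symm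
    _ ≤ ∑ p ∈ U, G p := sum_le_sum_of_subset_of_nonneg himg (fun p hp _ => hGnn p hp)
    _ = ∑ D ∈ Hist N v0 R, ∑ S ∈ (range (N - 1)).powerset.filter
          (fun S => Asc (vsr N v0 (row (N - 1) D) R) (rwd N ((R : ℤ) - 1) S)),
          f (run (vsr N v0 (row (N - 1) D) R) (rwd N ((R : ℤ) - 1) S)) := sum_sigma _ _ _
    _ ≤ ∑ D ∈ Hist N v0 R, Real.exp κ * f (vsr N v0 (row (N - 1) D) R) :=
        sum_le_sum fun D _ => hf _ _ (vsr_slope hv0 _ R) (vsr_injective hN hi0 _ R)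
    _ = Real.exp κ * TT' N v0 f R := by
        unfold TT'
        rw [mul_sum]

open Classical in
/-- The affine theorem bounds the number of histories on the ring. -/
theorem ringCount_of_aff (N : ℕ) (hN : 3 ≤ N) (κ : ℝ) (haff : AffHyp N κ) :
    RingCount (N - 1) κ := by
  have hne : NeZero N := ⟨by omega⟩
  obtain ⟨f, c, hc, hfc, hf⟩ := haff
  intro x0 _
  -- the start state
  let v0 : ℤ → ℤ := fun p => N * (x0 ((p % (N : ℤ)).toNat) : ℤ) + p
  have hv0 : Slope N N v0 := by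
    intro i
    show (N : ℤ) * (x0 (((i + N) % (N : ℤ)).toNat) : ℤ) + (i + N) =
      N * (x0 ((i % (N : ℤ)).toNat) : ℤ) + i + N
    rw [Int.add_emod_right]
    ring
  have hi0 : Function.Injective v0 := by
    intro p q h
    have h1 : (N : ℤ) * (x0 ((p % (N : ℤ)).toNat) : ℤ) + p =
      N * (x0 ((q % (N : ℤ)).toNat) : ℤ) + q := h
    have h2 : p % (N : ℤ) = q % (N : ℤ) := by
      have h3 := congrArg (fun t => t % (N : ℤ)) h1
      simpa [Int.add_emod] using h3
    rw [h2] at h1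
    linarith
  have hinv : ∀ D : Finset (ℕ × ℕ), Inv (xs N (rel D) x0 0) v0 := by
    intro D p q hpq hlt
    have h1 : ∀ p, xs N (rel D) x0 0 p = (x0 ((p % (N : ℤ)).toNat) : ℤ) := by
      intro p
      unfold xs
      have : p - ((0 : ℕ) : ℤ) = p := by simp
      rw [this]
      rfl
    rw [h1, h1] at hlt
    show (N : ℤ) * (x0 ((p % (N : ℤ)).toNat) : ℤ) + p < N * (x0 ((q % (N : ℤ)).toNat) : ℤ) + q
    have h2 : (N : ℤ) * (x0 ((p % (N : ℤ)).toNat) : ℤ) ≤ N * (x0 ((q % (N : ℤ)).toNat) : ℤ) :=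
      mul_le_mul_of_nonneg_left hlt.le (by omega)
    linarith
  have hT : ∀ R, TT' N v0 f R ≤ Real.exp (κ * R) * f v0 := by
    intro R
    induction R with
    | zero =>
      unfold TT'
      have h1 : Hist N v0 0 = {∅} := by
        ext D
        rw [mem_Hist, mem_singleton]
        constructor
        · rintro ⟨h1, _⟩
          have : range 0 ×ˢ range (N - 1) = (∅ : Finset (ℕ × ℕ)) := by simp
          rw [this] at h1
          exact subset_empty.1 h1
        · rintro rfl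
          exact ⟨empty_subset _, fun r hr => absurd hr (by omega)⟩
      rw [h1, sum_singleton]
      simp [vsr]
    | succ R ih =>
      have h1 := TT'_succ hN v0 hv0 hi0 f κ (fun v h1 h2 => hc.le.trans (hfc v h1 h2)) hf R
      have h2 : Real.exp (κ * (R + 1 : ℕ)) = Real.exp κ * Real.exp (κ * R) := by
        rw [← Real.exp_add]
        congr 1
        push_cast
        ring
      rw [h2, mul_assoc]
      exact h1.trans (mul_le_mul_of_nonneg_left ih (Real.exp_pos _).le)
  have hf0 : 0 < f v0 := hc.trans_le (hfc v0 hv0 hi0)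
  refine ⟨f v0 / c, div_pos hf0 hc, fun R => ?_⟩
  have h1 : (((range R ×ˢ range (N - 1)).powerset.filter (AllEff (N - 1) x0)).card : ℝ) ≤
      ((Hist N v0 R).card : ℝ) := by
    norm_cast
    apply card_le_card
    intro D hD
    rw [mem_filter, mem_powerset] at hD
    rw [mem_Hist]
    exact ⟨hD.1, ok_of_allEff hN x0 v0 hv0 D (hinv D) hD.2 R⟩
  have h2 : c * ((Hist N v0 R).card : ℝ) ≤ TT' N v0 f R := by
    unfold TT'
    rw [mul_comm, ← nsmul_eq_mul, ← sum_const]
    exact sum_le_sum fun D _ => hfc _ (vsr_slope hv0 _ R) (vsr_injective hN hi0 _ R)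
  have h3 := hT R
  have h4 : ((Hist N v0 R).card : ℝ) ≤ f v0 / c * Real.exp (κ * R) := by
    rw [div_mul_eq_mul_div, le_div_iff₀ hc]
    linarith
  exact h1.trans h4

end Pool.Agent.Schub.Link
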