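import Mathlib

/-!
Divided differences for the affine symmetric group acting on polynomials in `x_i`, `i` in
`ZMod N`, and one more variable of level one.
-/

set_option autoImplicit false

namespace Pool.Agent.Schub.Aff

open MvPolynomial

/-- The polynomial ring: `X none` is the variable of level one, `X (some i)` is `x_i`. -/
abbrev P (N : ℕ) := MvPolynomial (Option (ZMod N)) ℤ

variable {N : ℕ}

/-- The root `x_k - x_(k+1)`. -/
noncomputable def al (k : ZMod N) : P N := X (some k) - X (some (k + 1))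

/-- The pairing of a variable with the coroot `k`. -/
def pr (k : ZMod N) : Option (ZMod N) → ℤ
  | none => if k = 0 then 1 else 0
  | some i => (if i = k then 1 else 0) - (if i = k + 1 then 1 else 0)

/-- The reflection `k`. -/
noncomputable def sg (k : ZMod N) : P N →ₐ[ℤ] P N :=
  aeval (fun j => X j - (pr k j : P N) * al k)

theorem sg_X (k : ZMod N) (j : Option (ZMod N)) : sg k (X j) = X j - (pr k j : P N) * al k := by
  unfold sg
  rw [aeval_X]

theorem sg_dvd (k : ZMod N) (f : P N) : al k ∣ f - sg k f := by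
  induction f using MvPolynomial.induction_on with
  | C a =>
    have : sg k (C a) = C a := (sg k).commutes a
    rw [this, sub_self]
    exact dvd_zero _
  | add p q hp hq =>
    have e : p + q - sg k (p + q) = (p - sg k p) + (q - sg k q) := by rw [map_add]; ring
    rw [e]
    exact dvd_add hp hq
  | mul_X p j hp =>
    have e : p * X j - sg k (p * X j) = (p - sg k p) * X j + al k * (sg k p * (pr k j : P N)) := by
      rw [map_mul, sg_X]; ring
    rw [e]
    exact dvd_add (Dvd.dvd.mul_right hp _) (Dvd.intro _ rfl)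

/-- The divided difference. -/
noncomputable def A (k : ZMod N) (f : P N) : P N := Classical.choose (sg_dvd k f)

theorem al_mul_A (k : ZMod N) (f : P N) : al k * A k f = f - sg k f :=
  (Classical.choose_spec (sg_dvd k f)).symm


theorem one_ne (hN : 3 ≤ N) : (1 : ZMod N) ≠ 0 := by
  intro h
  have h2 : ((1 : ℕ) : ZMod N) = 0 := by exact_mod_cast h
  rw [ZMod.natCast_eq_zero_iff] at h2
  exact absurd (Nat.le_of_dvd (by norm_num) h2) (by omega)

theorem two_ne (hN : 3 ≤ N) : (2 : ZMod N) ≠ 0 := by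
  intro h
  have h2 : ((2 : ℕ) : ZMod N) = 0 := by exact_mod_cast h
  rw [ZMod.natCast_eq_zero_iff] at h2
  exact absurd (Nat.le_of_dvd (by norm_num) h2) (by omega)

theorem succ_ne (hN : 3 ≤ N) (k : ZMod N) : k + 1 ≠ k := by
  intro h
  exact one_ne hN (by linear_combination h)

theorem succ_succ_ne (hN : 3 ≤ N) (k : ZMod N) : k + 1 + 1 ≠ k := by
  intro h
  exact two_ne hN (by linear_combination h)

theorem al_ne_zero (hN : 3 ≤ N) (k : ZMod N) : (al k : P N) ≠ 0 := by
  unfold al
  intro h
  have h1 : (X (some k) : P N) = X (some (k + 1)) := sub_eq_zero.1 h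
  have h2 := X_injective h1
  exact succ_ne hN k (Option.some.inj h2).symm

theorem sg_al (k j : ZMod N) : sg k (al j : P N) =
    al j - ((pr k (some j) - pr k (some (j + 1)) : ℤ) : P N) * al k := by
  unfold al
  rw [map_sub, sg_X, sg_X]
  unfold al
  push_cast
  ring

theorem sg_al_self (hN : 3 ≤ N) (k : ZMod N) : sg k (al k : P N) = - al k := by
  rw [sg_al]
  have h1 := succ_ne hN k
  simp only [pr, if_neg h1, if_neg h1.symm, if_true]
  push_cast
  ring

theorem sg_al_succ (hN : 3 ≤ N) (k : ZMod N) : sg k (al (k + 1) : P N) = al k + al (k + 1) := by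
  rw [sg_al]
  have h1 := succ_ne hN k
  have h2 := succ_ne hN (k + 1)
  have h3 := succ_succ_ne hN k
  simp only [pr, if_neg h1, if_neg h2, if_neg h3, if_true]
  push_cast
  ring

theorem sg_succ_al (hN : 3 ≤ N) (k : ZMod N) : sg (k + 1) (al k : P N) = al k + al (k + 1) := by
  rw [sg_al]
  have h1 := succ_ne hN k
  have h2 := succ_ne hN (k + 1)
  have h3 := succ_succ_ne hN k
  simp only [pr, if_neg h1.symm, if_neg h2.symm, if_neg h3.symm, if_true]
  push_cast
  ring

theorem sg_al_far {j k : ZMod N} (h1 : j ≠ k) (h2 : j ≠ k + 1) (h3 : k ≠ j + 1) :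
    sg k (al j : P N) = al j := by
  rw [sg_al]
  have h4 : j + 1 ≠ k + 1 := fun h => h1 (by linear_combination h)
  simp only [pr, if_neg h1, if_neg h2, if_neg h3.symm, if_neg h4]
  push_cast
  ring

theorem sg_sg (hN : 3 ≤ N) (k : ZMod N) (f : P N) : sg k (sg k f) = f := by
  have h : (sg k).comp (sg k) = AlgHom.id ℤ (P N) := by
    apply MvPolynomial.algHom_ext
    intro j
    rw [AlgHom.comp_apply, sg_X, map_sub, map_mul, sg_X, map_intCast, sg_al_self hN,
      AlgHom.id_apply]
    ring
  have := congrArg (fun φ => φ f) h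
  simpa using this

theorem A_eq (hN : 3 ≤ N) {k : ZMod N} {f g : P N} (h : al k * g = f - sg k f) : A k f = g := by
  apply mul_left_cancel₀ (al_ne_zero hN k)
  rw [al_mul_A, h]

theorem A_add (hN : 3 ≤ N) (k : ZMod N) (f g : P N) : A k (f + g) = A k f + A k g := by
  apply A_eq hN
  rw [mul_add, al_mul_A, al_mul_A, map_add]
  ring

theorem A_mul (hN : 3 ≤ N) (k : ZMod N) (f g : P N) : A k (f * g) = A k f * g + sg k f * A k g := by
  apply A_eq hN
  have h1 := al_mul_A k f
  have h2 := al_mul_A k g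
  rw [map_mul]
  linear_combination g * h1 + sg k f * h2

theorem A_of_sg (hN : 3 ≤ N) {k : ZMod N} {f : P N} (h : sg k f = f) : A k f = 0 := by
  apply A_eq hN
  rw [h]
  ring

theorem sg_of_A {k : ZMod N} {f : P N} (h : A k f = 0) : sg k f = f := by
  have h1 := al_mul_A k f
  rw [h, mul_zero] at h1
  exact (sub_eq_zero.1 h1.symm).symm

theorem A_inv_mul (hN : 3 ≤ N) {k : ZMod N} {f : P N} (h : sg k f = f) (g : P N) :
    A k (f * g) = f * A k g := by
  rw [A_mul hN, A_of_sg hN h, h]
  ring

theorem A_intCast (hN : 3 ≤ N) (k : ZMod N) (c : ℤ) : A k (c : P N) = 0 :=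
  A_of_sg hN (map_intCast _ _)

theorem A_int_mul (hN : 3 ≤ N) (k : ZMod N) (c : ℤ) (g : P N) :
    A k ((c : P N) * g) = (c : P N) * A k g :=
  A_inv_mul hN (map_intCast _ _) g

theorem A_zero (hN : 3 ≤ N) (k : ZMod N) : A k (0 : P N) = 0 :=
  A_of_sg hN (map_zero _)

theorem A_sub (hN : 3 ≤ N) (k : ZMod N) (f g : P N) : A k (f - g) = A k f - A k g := by
  apply A_eq hN
  rw [mul_sub, al_mul_A, al_mul_A, map_sub]
  ring

theorem sg_A (hN : 3 ≤ N) (k : ZMod N) (f : P N) : sg k (A k f) = A k f := by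
  apply mul_left_cancel₀ (al_ne_zero hN k)
  have h := congrArg (sg k) (al_mul_A k f)
  rw [map_mul, sg_al_self hN, map_sub, sg_sg hN] at h
  rw [al_mul_A]
  linear_combination -h

theorem A_A (hN : 3 ≤ N) (k : ZMod N) (f : P N) : A k (A k f) = 0 := A_of_sg hN (sg_A hN k f)

/-- Letters which are not neighbours commute. -/
def Far (j k : ZMod N) : Prop := j ≠ k ∧ j ≠ k + 1 ∧ k ≠ j + 1

theorem Far.symm {j k : ZMod N} (h : Far j k) : Far k j := ⟨h.1.symm, h.2.2, h.2.1⟩

theorem sg_comm {j k : ZMod N} (h : Far j k) (f : P N) : sg j (sg k f) = sg k (sg j f) := by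
  have h' : (sg j).comp (sg k) = (sg k).comp (sg j) := by
    apply MvPolynomial.algHom_ext
    intro i
    rw [AlgHom.comp_apply, AlgHom.comp_apply, sg_X, sg_X, map_sub, map_mul, map_sub, map_mul, sg_X,
      sg_X, map_intCast, map_intCast, sg_al_far h.1 h.2.1 h.2.2,
      sg_al_far h.symm.1 h.symm.2.1 h.symm.2.2]
    ring
  have := congrArg (fun φ => φ f) h'
  simpa using this

theorem A_comm (hN : 3 ≤ N) {j k : ZMod N} (h : Far j k) (f : P N) : A j (A k f) = A k (A j f) := by
  apply mul_left_cancel₀ (al_ne_zero hN j)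
  apply mul_left_cancel₀ (al_ne_zero hN k)
  have e1 : al k * (al j * A j (A k f)) = (f - sg k f) - sg j (f - sg k f) := by
    rw [al_mul_A, ← al_mul_A k f, map_mul, sg_al_far h.symm.1 h.symm.2.1 h.symm.2.2]
    ring
  have e2 : al j * (al k * A k (A j f)) = (f - sg j f) - sg k (f - sg j f) := by
    rw [al_mul_A, ← al_mul_A j f, map_mul, sg_al_far h.1 h.2.1 h.2.2]
    ring
  have e3 : al k * (al j * A k (A j f)) = al j * (al k * A k (A j f)) := by ring
  rw [e3, e1, e2, map_sub, map_sub, sg_comm h]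
  ring

theorem sg_braid (hN : 3 ≤ N) (k : ZMod N) (f : P N) :
    sg k (sg (k + 1) (sg k f)) = sg (k + 1) (sg k (sg (k + 1) f)) := by
  have h' : (sg k).comp ((sg (k + 1)).comp (sg k)) = (sg (k + 1)).comp ((sg k).comp (sg (k + 1))) := by
    apply MvPolynomial.algHom_ext
    intro i
    simp only [AlgHom.comp_apply, sg_X, map_sub, map_mul, map_intCast, sg_al_self hN,
      sg_al_succ hN, sg_succ_al hN, map_add]
    ring
  have := congrArg (fun φ => φ f) h'
  simpa using this

theorem A_braid (hN : 3 ≤ N) (k : ZMod N) (f : P N) :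
    A k (A (k + 1) (A k f)) = A (k + 1) (A k (A (k + 1) f)) := by
  set a : P N := al k with ha
  set b : P N := al (k + 1) with hb
  have sa : sg k a = - a := sg_al_self hN k
  have sb : sg k b = a + b := sg_al_succ hN k
  have ta : sg (k + 1) a = a + b := sg_succ_al hN k
  have tb : sg (k + 1) b = - b := sg_al_self hN (k + 1)
  have hab : a + b ≠ 0 := by
    rw [← sb]
    intro h
    apply al_ne_zero hN (k + 1)
    have := congrArg (sg k) h
    rw [map_zero, sg_sg hN] at this
    exact this
  apply mul_left_cancel₀ (al_ne_zero hN k)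
  apply mul_left_cancel₀ (al_ne_zero hN (k + 1))
  apply mul_left_cancel₀ hab
  rw [← ha, ← hb]
  -- left side
  have hg := al_mul_A k f
  rw [← ha] at hg
  have hh := al_mul_A (k + 1) (A k f)
  rw [← hb] at hh
  have hl := al_mul_A k (A (k + 1) (A k f))
  rw [← ha] at hl
  have hh2 := congrArg (sg k) hh
  rw [map_mul, sb, map_sub, sg_A hN] at hh2
  have hg2 := congrArg (sg (k + 1)) hg
  rw [map_mul, ta, map_sub] at hg2
  have hg3 := congrArg (sg k) hg2
  rw [map_mul, map_add, sa, sb, map_sub] at hg3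
  have L : (a + b) * (b * (a * A k (A (k + 1) (A k f)))) =
      f - sg k f - sg (k + 1) f + sg (k + 1) (sg k f) + sg k (sg (k + 1) f)
        - sg k (sg (k + 1) (sg k f)) := by
    linear_combination (b * (a + b)) * hl + (a + b) * hh - b * hh2 + hg - hg2 + hg3
  -- right side
  have kg := al_mul_A (k + 1) f
  rw [← hb] at kg
  have kh := al_mul_A k (A (k + 1) f)
  rw [← ha] at kh
  have kl := al_mul_A (k + 1) (A k (A (k + 1) f))
  rw [← hb] at kl
  have kh2 := congrArg (sg (k + 1)) kh
  rw [map_mul, ta, map_sub, sg_A hN] at kh2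
  have kg2 := congrArg (sg k) kg
  rw [map_mul, sb, map_sub] at kg2
  have kg3 := congrArg (sg (k + 1)) kg2
  rw [map_mul, map_add, ta, tb, map_sub] at kg3
  have R : (a + b) * (b * (a * A (k + 1) (A k (A (k + 1) f)))) =
      f - sg (k + 1) f - sg k f + sg k (sg (k + 1) f) + sg (k + 1) (sg k f)
        - sg (k + 1) (sg k (sg (k + 1) f)) := by
    linear_combination (a * (a + b)) * kl + (a + b) * kh - a * kh2 + kg - kg2 + kg3
  rw [L, R, sg_braid hN]
  ring

end Pool.Agent.Schub.Aff
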