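import Pool.Agent.SchubU.Defs

/-!
Exchange of letters, positivity, uniqueness and sorting.
-/

set_option autoImplicit false

namespace Pool.Agent.Schub.Aff

open MvPolynomial

variable {N : ℕ}

theorem gap_at [NeZero N] {c : ℤ} {u : ℤ → ℤ} (h : Slope N c u) {k : ZMod N} {i : ℤ}
    (hi : (i : ZMod N) = k) : gap u k = u (i + 1) - u i := by
  subst hi
  exact gap_eq h i

theorem gap_comp_self (hN : 3 ≤ N) [NeZero N] {c : ℤ} {u : ℤ → ℤ} (h : Slope N c u) (k : ZMod N) :
    gap (fun i => u (aff k i)) k = - gap u k := by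
  rw [gap_at (h.comp k) (rep_cast k), gap_at h (rep_cast k), aff_of (rep_cast k),
    aff_of_succ hN (by push_cast; rw [rep_cast])]
  have e : rep k + 1 - 1 = rep k := by ring
  rw [e]
  ring

theorem gap_comp_far (hN : 3 ≤ N) [NeZero N] {c : ℤ} {u : ℤ → ℤ} (h : Slope N c u) {k m : ZMod N}
    (hf : Far k m) : gap (fun i => u (aff m i)) k = gap u k := by
  obtain ⟨h1, h2, h3⟩ := hf
  have c0 := rep_cast k
  have c1 : ((rep k + 1 : ℤ) : ZMod N) = k + 1 := by push_cast; rw [c0]
  rw [gap_at (h.comp m) c0, gap_at h c0,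
    aff_ne (i := rep k) (by rw [c0]; exact h1) (by rw [c0]; exact h2),
    aff_ne (i := rep k + 1) (by rw [c1]; exact h3.symm)
      (by rw [c1]; exact fun hh => h1 (by linear_combination hh))]

theorem gap_comp_succ (hN : 3 ≤ N) [NeZero N] {c : ℤ} {u : ℤ → ℤ} (h : Slope N c u) (m : ZMod N) :
    gap (fun i => u (aff m i)) (m + 1) = gap u m + gap u (m + 1) := by
  have c0 := rep_cast m
  have c1 : ((rep m + 1 : ℤ) : ZMod N) = m + 1 := by push_cast; rw [c0]
  have c2 : ((rep m + 1 + 1 : ℤ) : ZMod N) = m + 1 + 1 := by push_cast; rw [c0]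
  rw [gap_at (h.comp m) c1, gap_at h c0, gap_at h c1, aff_of_succ hN c1,
    aff_ne (by rw [c2]; exact succ_succ_ne hN m) (by rw [c2]; exact succ_ne hN (m + 1))]
  have e : rep m + 1 - 1 = rep m := by ring
  rw [e]
  ring

theorem gap_comp_pred (hN : 3 ≤ N) [NeZero N] {c : ℤ} {u : ℤ → ℤ} (h : Slope N c u) (k : ZMod N) :
    gap (fun i => u (aff (k + 1) i)) k = gap u k + gap u (k + 1) := by
  have c0 := rep_cast k
  have c1 : ((rep k + 1 : ℤ) : ZMod N) = k + 1 := by push_cast; rw [c0]
  rw [gap_at (h.comp (k + 1)) c0, gap_at h c0, gap_at h c1, aff_of c1,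
    aff_ne (by rw [c0]; exact (succ_ne hN k).symm) (by rw [c0]; exact (succ_succ_ne hN k).symm)]
  ring

theorem aff_comm (hN : 3 ≤ N) {j k : ZMod N} (hf : Far j k) (i : ℤ) :
    aff j (aff k i) = aff k (aff j i) := by
  obtain ⟨h1, h2, h3⟩ := hf
  have h4 : j + 1 ≠ k + 1 := fun hh => h1 (by linear_combination hh)
  by_cases a1 : (i : ZMod N) = j
  · have c1 : ((i + 1 : ℤ) : ZMod N) = j + 1 := by push_cast; rw [a1]
    rw [aff_of a1, aff_ne (k := k) (i := i) (by rw [a1]; exact h1) (by rw [a1]; exact h2),
      aff_of a1, aff_ne (k := k) (i := i + 1) (by rw [c1]; exact h3.symm) (by rw [c1]; exact h4)]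
  by_cases a2 : (i : ZMod N) = j + 1
  · have c : ((i - 1 : ℤ) : ZMod N) = j := by push_cast; rw [a2]; ring
    rw [aff_of_succ hN a2, aff_ne (k := k) (i := i) (by rw [a2]; exact h3.symm)
      (by rw [a2]; exact h4), aff_of_succ hN a2,
      aff_ne (k := k) (i := i - 1) (by rw [c]; exact h1) (by rw [c]; exact h2)]
  by_cases b1 : (i : ZMod N) = k
  · have c1 : ((i + 1 : ℤ) : ZMod N) = k + 1 := by push_cast; rw [b1]
    rw [aff_of b1, aff_ne (k := j) (i := i) a1 a2, aff_of b1,
      aff_ne (k := j) (i := i + 1) (by rw [c1]; exact h2.symm) (by rw [c1]; exact h4.symm)]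
  by_cases b2 : (i : ZMod N) = k + 1
  · have c : ((i - 1 : ℤ) : ZMod N) = k := by push_cast; rw [b2]; ring
    rw [aff_of_succ hN b2, aff_ne (k := j) (i := i) a1 a2,
      aff_of_succ hN b2, aff_ne (k := j) (i := i - 1) (by rw [c]; exact h1.symm)
      (by rw [c]; exact h3)]
  rw [aff_ne (k := k) b1 b2, aff_ne (k := j) a1 a2, aff_ne (k := k) b1 b2]

theorem aff_braid (hN : 3 ≤ N) (k : ZMod N) (i : ℤ) :
    aff (k + 1) (aff k (aff (k + 1) i)) = aff k (aff (k + 1) (aff k i)) := by
  have n1 := succ_ne hN k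
  have n2 := succ_succ_ne hN k
  have n3 := succ_ne hN (k + 1)
  by_cases a1 : (i : ZMod N) = k
  · have c1 : ((i + 1 : ℤ) : ZMod N) = k + 1 := by push_cast; rw [a1]
    have c2 : ((i + 1 + 1 : ℤ) : ZMod N) = k + 1 + 1 := by push_cast; rw [a1]
    rw [aff_ne (k := k + 1) (i := i) (by rw [a1]; exact n1.symm) (by rw [a1]; exact n2.symm),
      aff_of a1, aff_of c1, aff_ne (by rw [c2]; exact n2) (by rw [c2]; exact n3)]
  by_cases a2 : (i : ZMod N) = k + 1
  · have c1 : ((i + 1 : ℤ) : ZMod N) = k + 1 + 1 := by push_cast; rw [a2]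
    have c2 : ((i - 1 : ℤ) : ZMod N) = k := by push_cast; rw [a2]; ring
    rw [aff_of a2, aff_ne (i := i + 1) (by rw [c1]; exact n2) (by rw [c1]; exact n3),
      aff_of_succ hN c1, aff_of_succ hN a2,
      aff_ne (k := k + 1) (by rw [c2]; exact n1.symm) (by rw [c2]; exact n2.symm), aff_of c2]
    ring
  by_cases a3 : (i : ZMod N) = k + 1 + 1
  · have c1 : ((i - 1 : ℤ) : ZMod N) = k + 1 := by push_cast; rw [a3]; ring
    have c2 : ((i - 1 - 1 : ℤ) : ZMod N) = k := by push_cast; rw [a3]; ring
    rw [aff_of_succ hN a3, aff_of_succ hN c1,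
      aff_ne (k := k + 1) (by rw [c2]; exact n1.symm) (by rw [c2]; exact n2.symm),
      aff_ne (k := k) (i := i) (by rw [a3]; exact n2) (by rw [a3]; exact n3),
      aff_of_succ hN a3, aff_of_succ hN c1]
  rw [aff_ne (k := k + 1) a2 a3, aff_ne (k := k) a1 a2, aff_ne (k := k + 1) a2 a3,
    aff_ne (k := k) a1 a2]

theorem peel (hN : 3 ≤ N) [NeZero N] {u : ℤ → ℤ} (hu : Slope N N u) (hm : StrictMono u)
    (n : ℕ) : ∀ (w : List (ZMod N)), w.length = n → Asc u w → ∀ k, gap (run u w) k < 0 →
      ∃ w', Asc u w' ∧ w'.length + 1 = n ∧ run u w' = (fun i => run u w (aff k i)) ∧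
        ∀ f : P N, Aw w f = A k (Aw w' f) := by
  induction n using Nat.strong_induction_on with
  | _ n ih =>
    intro w hl hw k hk
    rcases w with _ | ⟨m, w⟩
    · exfalso
      simp only [run] at hk
      unfold gap at hk
      have := hm (show rep k < rep k + 1 by omega)
      omega
    · simp only [List.length_cons] at hl
      obtain ⟨hw1, hgm⟩ := hw
      simp only [run] at hk
      have hs := hu.run w
      by_cases e1 : k = m
      · subst e1
        refine ⟨w, hw1, hl, ?_, fun f => rfl⟩
        funext i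
        simp only [run, aff_aff hN]
      by_cases e2 : k = m + 1
      · subst e2
        rw [gap_comp_succ hN hs] at hk
        have hk1 : gap (run u w) (m + 1) < 0 := by linarith
        obtain ⟨w2, hw2, hl2, hr2, hA2⟩ := ih w.length (by omega) w rfl hw1 (m + 1) hk1
        have hs2 := hu.run w2
        have hg2 : gap (run u w2) m < 0 := by rw [hr2, gap_comp_pred hN hs]; exact hk
        have hg2' : gap (run u w2) (m + 1) = - gap (run u w) (m + 1) := by
          rw [hr2, gap_comp_self hN hs]
        have hg2'' : gap (run u w2) m = gap (run u w) m + gap (run u w) (m + 1) := by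
          rw [hr2, gap_comp_pred hN hs]
        obtain ⟨w3, hw3, hl3, hr3, hA3⟩ := ih w2.length (by omega) w2 rfl hw2 m hg2
        have hs3 := hu.run w3
        have g31 : gap (run u w3) (m + 1) = gap (run u w) m := by
          rw [hr3, gap_comp_succ hN hs2, hg2', hg2'']; ring
        have g30 : gap (run u w3) m = - gap (run u w2) m := by rw [hr3, gap_comp_self hN hs2]
        refine ⟨m :: (m + 1) :: w3, ⟨⟨hw3, by rw [g31]; exact hgm⟩, ?_⟩, ?_, ?_, ?_⟩
        · simp only [run]
          rw [gap_comp_pred hN hs3, g31, g30, hg2'']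
          linarith
        · simp only [List.length_cons]; omega
        · funext i
          simp only [run, hr3, hr2]
          rw [aff_braid hN, aff_aff hN]
        · intro f
          simp only [Aw]
          rw [hA2, hA3, A_braid hN]
      by_cases e3 : m = k + 1
      · subst e3
        rw [gap_comp_pred hN hs] at hk
        have hk1 : gap (run u w) k < 0 := by linarith
        obtain ⟨w2, hw2, hl2, hr2, hA2⟩ := ih w.length (by omega) w rfl hw1 k hk1
        have hs2 := hu.run w2
        have hg2 : gap (run u w2) (k + 1) < 0 := by rw [hr2, gap_comp_succ hN hs]; exact hk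
        have hg2' : gap (run u w2) k = - gap (run u w) k := by
          rw [hr2, gap_comp_self hN hs]
        have hg2'' : gap (run u w2) (k + 1) = gap (run u w) k + gap (run u w) (k + 1) := by
          rw [hr2, gap_comp_succ hN hs]
        obtain ⟨w3, hw3, hl3, hr3, hA3⟩ := ih w2.length (by omega) w2 rfl hw2 (k + 1) hg2
        have hs3 := hu.run w3
        have g30 : gap (run u w3) k = gap (run u w) (k + 1) := by
          rw [hr3, gap_comp_pred hN hs2, hg2', hg2'']; ring
        have g31 : gap (run u w3) (k + 1) = - gap (run u w2) (k + 1) := by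
          rw [hr3, gap_comp_self hN hs2]
        refine ⟨(k + 1) :: k :: w3, ⟨⟨hw3, by rw [g30]; exact hgm⟩, ?_⟩, ?_, ?_, ?_⟩
        · simp only [run]
          rw [gap_comp_succ hN hs3, g31, g30, hg2'']
          linarith
        · simp only [List.length_cons]; omega
        · funext i
          simp only [run, hr3, hr2]
          rw [← aff_braid hN, aff_aff hN]
        · intro f
          simp only [Aw]
          rw [hA2, hA3, A_braid hN]
      · have hf : Far k m := ⟨e1, e2, e3⟩
        rw [gap_comp_far hN hs hf] at hk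
        obtain ⟨w2, hw2, hl2, hr2, hA2⟩ := ih w.length (by omega) w rfl hw1 k hk
        refine ⟨m :: w2, ⟨hw2, ?_⟩, ?_, ?_, ?_⟩
        · rw [hr2, gap_comp_far hN hs hf.symm]
          exact hgm
        · simp only [List.length_cons]; omega
        · funext i
          simp only [run, hr2]
          rw [aff_comm hN hf]
        · intro f
          simp only [Aw]
          rw [hA2, A_comm hN hf.symm]

theorem run_inj (hN : 3 ≤ N) {u : ℤ → ℤ} (hu : Function.Injective u) (w : List (ZMod N)) :
    Function.Injective (run u w) := by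
  induction w with
  | nil => exact hu
  | cons k w ih =>
    intro i j hij
    have h1 := ih hij
    have h2 := congrArg (aff k) h1
    rwa [aff_aff hN, aff_aff hN] at h2

theorem gap_ne (hN : 3 ≤ N) {u : ℤ → ℤ} (hu : Function.Injective u) (w : List (ZMod N))
    (k : ZMod N) : gap (run u w) k ≠ 0 := by
  intro h
  unfold gap at h
  have := run_inj hN hu w (sub_eq_zero.1 h)
  omega

theorem Aw_zero (hN : 3 ≤ N) (w : List (ZMod N)) : Aw w (0 : P N) = 0 := by
  induction w with
  | nil => rfl
  | cons k w ih => simp only [Aw, ih, A_zero hN]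

theorem Aw_eq_zero (hN : 3 ≤ N) [NeZero N] {u : ℤ → ℤ} (hu : Slope N N u) (hm : StrictMono u)
    (w : List (ZMod N)) (hw : ¬ Asc u w) (f : P N) : Aw w f = 0 := by
  induction w with
  | nil => exact absurd trivial hw
  | cons k w ih =>
    by_cases h1 : Asc u w
    · have h2 : ¬ 0 < gap (run u w) k := fun h => hw ⟨h1, h⟩
      have h3 := gap_ne hN hm.injective w k
      have h4 : gap (run u w) k < 0 := by omega
      obtain ⟨w', -, -, -, hA⟩ := peel hN hu hm w.length w rfl h1 k h4
      simp only [Aw]
      rw [hA, A_A hN]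
    · simp only [Aw, ih h1, A_zero hN]

theorem pq0_add (f g : P N) : q0 (f + g) = q0 f + q0 g := map_add _ _ _

theorem pq0_mul (f g : P N) : q0 (f * g) = q0 f * q0 g := map_mul _ _ _

theorem pq0_int (c : ℤ) : q0 (c : P N) = c := by
  unfold q0
  rw [map_intCast]
  rfl

theorem pq0_list_sum (l : List (P N)) : q0 l.sum = (l.map q0).sum := by
  induction l with
  | nil => simp [q0]
  | cons a l ih => simp only [List.sum_cons, List.map_cons, pq0_add, ih]

theorem pq0_form [NeZero N] (c : ℤ) (u : ℤ → ℤ) : q0 (form c u : P N) = 0 := by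
  unfold q0 form
  simp [map_sub, map_mul, map_sum]

theorem pEE_succ (hN : 3 ≤ N) [NeZero N] {c : ℤ} {u : ℤ → ℤ} (h : Slope N c u)
    (w : List (ZMod N)) (m : ℕ) :
    EE c u w (m + 1) = ((del u w).map (fun p => p.1 * EE c u p.2 m)).sum := by
  unfold EE
  rw [pow_succ', Aw_form_mul hN h, pq0_add, pq0_mul, pq0_form, zero_mul, zero_add, pq0_list_sum,
    List.map_map]
  congr 1
  apply List.map_congr_left
  intro p _
  show q0 ((p.1 : P N) * _) = _
  rw [pq0_mul, pq0_int]

theorem pAw_one (hN : 3 ≤ N) (k : ZMod N) (w : List (ZMod N)) : Aw (k :: w) (1 : P N) = 0 := by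
  induction w generalizing k with
  | nil =>
    simp only [Aw]
    exact A_of_sg hN (map_one _)
  | cons j w ih =>
    have := ih j
    simp only [Aw] at this ⊢
    rw [this, A_zero hN]

theorem EE_zero (hN : 3 ≤ N) [NeZero N] (c : ℤ) (u : ℤ → ℤ) (w : List (ZMod N)) :
    EE c u w 0 = if w = [] then 1 else 0 := by
  unfold EE
  rw [pow_zero]
  rcases w with _ | ⟨k, w⟩
  · simp [Aw, q0]
  · rw [pAw_one hN]
    simp [q0]

theorem run_eq_comp (u : ℤ → ℤ) (w : List (ZMod N)) :
    run u w = fun i => u (run (fun i => i) w i) := by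
  induction w with
  | nil => rfl
  | cons k w ih =>
    funext i
    simp only [run, ih]

theorem gap_run_nonneg (hN : 3 ≤ N) {u : ℤ → ℤ} (hm : Monotone u) (w : List (ZMod N))
    (k : ZMod N) (h : 0 < gap (run (fun i => i) w) k) : 0 ≤ gap (run u w) k := by
  rw [run_eq_comp u w]
  unfold gap at h ⊢
  have := hm (show run (fun i => i) w (rep k) ≤ run (fun i => i) w (rep k + 1) by omega)
  beta_reduce
  omega

theorem del_nonneg (hN : 3 ≤ N) {u : ℤ → ℤ} (hm : Monotone u) (w : List (ZMod N))
    (hw : Asc (fun i => i) w) : ∀ p ∈ del u w, 0 ≤ p.1 := by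
  induction w with
  | nil => simp [del]
  | cons k w ih =>
    intro p hp
    simp only [del, List.mem_cons, List.mem_map] at hp
    rcases hp with rfl | ⟨q, hq, rfl⟩
    · exact gap_run_nonneg hN hm w k hw.2
    · exact ih hw.1 q hq

theorem EE_nonneg (hN : 3 ≤ N) [NeZero N] {c : ℤ} {u : ℤ → ℤ} (hu : Slope N c u) (hm : Monotone u)
    (m : ℕ) (w : List (ZMod N)) : 0 ≤ EE c u w m := by
  induction m generalizing w with
  | zero =>
    rw [EE_zero hN]
    split_ifs <;> norm_num
  | succ m ih =>
    by_cases hw : Asc (fun i => i) w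
    · rw [pEE_succ hN hu]
      apply List.sum_nonneg
      intro x hx
      simp only [List.mem_map] at hx
      obtain ⟨p, hp, rfl⟩ := hx
      exact mul_nonneg (del_nonneg hN hm w hw p hp) (ih p.2)
    · unfold EE
      rw [Aw_eq_zero hN (slope_id) (fun _ _ h => h) w hw]
      simp [q0]

theorem EE_pos (hN : 3 ≤ N) [NeZero N] {u : ℤ → ℤ} (hu : Slope N N u) (hm : StrictMono u)
    (w : List (ZMod N)) (hw : Asc u w) : 1 ≤ EE (N : ℤ) u w w.length := by
  induction w with
  | nil =>
    rw [List.length_nil, EE_zero hN]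
    simp
  | cons k w ih =>
    rw [List.length_cons, pEE_succ hN hu]
    simp only [del, List.map_cons, List.sum_cons, List.map_map]
    have h1 := ih hw.1
    have h2 : 1 ≤ gap (run u w) k := hw.2
    have h3 : 0 ≤ ((del u w).map ((fun p : ℤ × List (ZMod N) => p.1 * EE (N : ℤ) u p.2 w.length) ∘
        fun p : ℤ × List (ZMod N) => (p.1, k :: p.2))).sum := by
      apply List.sum_nonneg
      intro x hx
      simp only [List.mem_map, Function.comp] at hx
      obtain ⟨p, hp, rfl⟩ := hx
      apply mul_nonneg _ (EE_nonneg hN hu hm.monotone _ _)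
      have : Asc (fun i => i) w := by
        clear ih h1 h2 hp
        have h4 := hw.1
        clear hw
        induction w with
        | nil => trivial
        | cons j w ihw =>
          refine ⟨ihw h4.1, ?_⟩
          have h5 := h4.2
          rw [run_eq_comp u w] at h5
          unfold gap at h5 ⊢
          have h6 := hm.lt_iff_lt.1 (show u (run (fun i => i) w (rep j)) <
            u (run (fun i => i) w (rep j + 1)) by beta_reduce at h5; omega)
          omega
      exact del_nonneg hN hm.monotone w this p hp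
    nlinarith

end Pool.Agent.Schub.Aff
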