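import Mathlib

/-!
Positivity of an eigenvector along a path, by connectedness.
-/

set_option autoImplicit false

namespace Pool.Agent.Schub.PosPath43

open Set Filter Topology

/-- A nonnegative solution of `∑ w u v * f v = lam * f u` that is positive somewhere is positive
everywhere, when the positive entries of `w` connect every state to the given one. -/
theorem pos_of_nonneg {T : Type*} [Fintype T] (w : T → T → ℝ) (f : T → ℝ) (lam : ℝ) (v0 : T)
    (hw : ∀ u v, 0 ≤ w u v) (heq : ∀ u, ∑ v, w u v * f v = lam * f u)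
    (hconn : ∀ u, Relation.ReflTransGen (fun a b => 0 < w a b) u v0)
    (hv0 : 0 < f v0) (hf : ∀ v, 0 ≤ f v) : ∀ u, 0 < f u := by
  intro u
  refine lt_of_le_of_ne (hf u) (fun h => ?_)
  have key : ∀ a, Relation.ReflTransGen (fun a b => 0 < w a b) u a → f a = 0 := by
    intro a ha
    induction ha with
    | refl => exact h.symm
    | @tail b c _ hbc ih =>
      have h1 := heq b
      rw [ih, mul_zero] at h1
      have h2 := (Finset.sum_eq_zero_iff_of_nonneg
        (fun v _ => mul_nonneg (hw b v) (hf v))).1 h1 c (Finset.mem_univ c)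
      rcases mul_eq_zero.1 h2 with h3 | h3
      · exact absurd h3 hbc.ne'
      · exact h3
  exact hv0.ne' (key v0 (hconn u))

/-- Positivity is carried along a path of solutions. -/
theorem pos_path {T : Type*} [Fintype T] (w : ℝ → T → T → ℝ) (f : ℝ → T → ℝ) (lam : ℝ → ℝ)
    (v0 : T) (hw : ∀ s ∈ Icc (0 : ℝ) 1, ∀ u v, 0 ≤ w s u v)
    (hf : ∀ v, ContinuousOn (fun s => f s v) (Icc 0 1))
    (heq : ∀ s ∈ Icc (0 : ℝ) 1, ∀ u, ∑ v, w s u v * f s v = lam s * f s u)
    (hconn : ∀ s ∈ Icc (0 : ℝ) 1, ∀ u, Relation.ReflTransGen (fun a b => 0 < w s a b) u v0)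
    (hv0 : ∀ s ∈ Icc (0 : ℝ) 1, 0 < f s v0) (h0 : ∀ v, 0 < f 0 v) :
    ∀ s ∈ Icc (0 : ℝ) 1, ∀ v, 0 < f s v := by
  set S : Set ℝ := {s | ∀ v, 0 < f s v} with hS
  have e1 : S ∩ Icc 0 1 = (⋂ v, Icc (0 : ℝ) 1 ∩ (fun s => f s v) ⁻¹' Ici 0) ∩ Icc 0 1 := by
    ext s
    constructor
    · rintro ⟨h1, h2⟩
      exact ⟨mem_iInter.2 fun v => ⟨h2, (h1 v).le⟩, h2⟩
    · rintro ⟨h1, h2⟩
      refine ⟨?_, h2⟩
      exact pos_of_nonneg (w s) (f s) (lam s) v0 (hw s h2) (heq s h2) (hconn s h2) (hv0 s h2)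
        (fun v => (mem_iInter.1 h1 v).2)
  have hcl : IsClosed (S ∩ Icc 0 1) := by
    rw [e1]
    refine IsClosed.inter (isClosed_iInter fun v => ?_) isClosed_Icc
    exact (hf v).preimage_isClosed_of_isClosed isClosed_Icc isClosed_Ici
  have hsub : Icc (0 : ℝ) 1 ⊆ S := by
    apply hcl.Icc_subset_of_forall_mem_nhdsWithin h0
    rintro x ⟨hx1, hx2⟩
    have h1 : ∀ v, {s | 0 < f s v} ∈ 𝓝[>] x := by
      intro v
      have h2 : Tendsto (fun s => f s v) (𝓝[Icc 0 1] x) (𝓝 (f x v)) :=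
        hf v x (Ico_subset_Icc_self hx2)
      have h3 : {s | 0 < f s v} ∈ 𝓝[Icc 0 1] x := h2 (Ioi_mem_nhds (hx1 v))
      have h4 : 𝓝[>] x ≤ 𝓝[Icc 0 1] x := by
        rw [← nhdsWithin_Ioc_eq_nhdsGT hx2.2]
        apply nhdsWithin_mono
        intro y hy
        exact ⟨hx2.1.trans hy.1.le, hy.2⟩
      exact h4 h3
    have h5 : S = ⋂ v, {s | 0 < f s v} := by
      ext s
      simp [hS]
    rw [h5]
    exact Filter.iInter_mem.2 h1
  intro s hs
  exact hsub hs

end Pool.Agent.Schub.PosPath43
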