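import Mathlib

set_option autoImplicit false

namespace Pool.Agent.Schub.Aff

open Finset

namespace Rect

/-- the weights of the points -/
noncomputable def wt (x : ℕ → ℝ) (s : Finset ℕ) (i : ℕ) : ℝ :=
  ∏ k ∈ s.erase i, (1 - 1 / (x i - x k))

lemma wt_insert (x : ℕ → ℝ) (s : Finset ℕ) (a : ℕ) (ha : a ∉ s) (i : ℕ) (hi : i ∈ s) :
    wt x (insert a s) i = wt x s i * (1 - 1 / (x i - x a)) := by
  have hne : a ≠ i := fun h => ha (h ▸ hi)
  unfold wt
  rw [Finset.erase_insert_of_ne hne, Finset.prod_insert (by simp [ha]), mul_comm]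

lemma wt_insert_self (x : ℕ → ℝ) (s : Finset ℕ) (a : ℕ) (ha : a ∉ s) :
    wt x (insert a s) a = ∏ k ∈ s, (1 - 1 / (x a - x k)) := by
  unfold wt
  rw [Finset.erase_insert ha]

lemma pf (x : ℕ → ℝ) (s : Finset ℕ) : ∀ (_ : ∀ i ∈ s, ∀ k ∈ s, i ≠ k → x i ≠ x k) (y : ℝ)
    (_ : ∀ i ∈ s, y ≠ x i),
    ∏ k ∈ s, (1 - 1 / (y - x k)) = 1 - ∑ i ∈ s, wt x s i / (y - x i) := by
  induction s using Finset.induction_on with
  | empty => intro _ y _; simp
  | insert a s ha ih =>
    intro hinj y hy
    have hinj' : ∀ i ∈ s, ∀ k ∈ s, i ≠ k → x i ≠ x k := fun i hi k hk =>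
      hinj i (Finset.mem_insert_of_mem hi) k (Finset.mem_insert_of_mem hk)
    have hya : y - x a ≠ 0 := sub_ne_zero.2 (hy a (Finset.mem_insert_self a s))
    have hy' : ∀ i ∈ s, y ≠ x i := fun i hi => hy i (Finset.mem_insert_of_mem hi)
    have hxa : ∀ i ∈ s, x a ≠ x i := fun i hi => hinj a (Finset.mem_insert_self a s) i
      (Finset.mem_insert_of_mem hi) (fun h => ha (h ▸ hi))
    rw [Finset.prod_insert ha, Finset.sum_insert ha, wt_insert_self x s a ha, ih hinj' y hy',
      ih hinj' (x a) hxa]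
    have e : ∑ i ∈ s, wt x (insert a s) i / (y - x i) =
        ∑ i ∈ s, wt x s i * (1 - 1 / (x i - x a)) / (y - x i) :=
      Finset.sum_congr rfl fun i hi => by rw [wt_insert x s a ha i hi]
    rw [e]
    have key : ∑ i ∈ s, wt x s i * (1 - 1 / (x i - x a)) / (y - x i) =
        ∑ i ∈ s, wt x s i / (y - x i) - (1 / (y - x a)) * ∑ i ∈ s, wt x s i / (y - x i)
          + (1 / (y - x a)) * ∑ i ∈ s, wt x s i / (x a - x i) := by
      rw [Finset.mul_sum, Finset.mul_sum, ← Finset.sum_sub_distrib, ← Finset.sum_add_distrib]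
      refine Finset.sum_congr rfl fun i hi => ?_
      have h1 : y - x i ≠ 0 := sub_ne_zero.2 (hy' i hi)
      have h2 : x a - x i ≠ 0 := sub_ne_zero.2 (hxa i hi)
      have h3 : x i - x a ≠ 0 := sub_ne_zero.2 (hxa i hi).symm
      field_simp
      ring
    rw [key]
    field_simp
    ring

lemma sum_wt (x : ℕ → ℝ) (s : Finset ℕ) : ∀ (_ : ∀ i ∈ s, ∀ k ∈ s, i ≠ k → x i ≠ x k),
    ∑ i ∈ s, wt x s i = s.card := by
  induction s using Finset.induction_on with
  | empty => intro _; simp
  | insert a s ha ih =>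
    intro hinj
    have hinj' : ∀ i ∈ s, ∀ k ∈ s, i ≠ k → x i ≠ x k := fun i hi k hk =>
      hinj i (Finset.mem_insert_of_mem hi) k (Finset.mem_insert_of_mem hk)
    have hxa : ∀ i ∈ s, x a ≠ x i := fun i hi => hinj a (Finset.mem_insert_self a s) i
      (Finset.mem_insert_of_mem hi) (fun h => ha (h ▸ hi))
    rw [Finset.sum_insert ha, wt_insert_self x s a ha, pf x s hinj' (x a) hxa,
      Finset.card_insert_of_notMem ha]
    have e : ∑ i ∈ s, wt x (insert a s) i =
        ∑ i ∈ s, wt x s i + ∑ i ∈ s, wt x s i / (x a - x i) := by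
      rw [← Finset.sum_add_distrib]
      refine Finset.sum_congr rfl fun i hi => ?_
      rw [wt_insert x s a ha i hi]
      have h2 : x a - x i ≠ 0 := sub_ne_zero.2 (hxa i hi)
      have h3 : x i - x a ≠ 0 := sub_ne_zero.2 (hxa i hi).symm
      field_simp
      ring
    rw [e, ih hinj']
    push_cast
    ring

lemma sum_x_wt (x : ℕ → ℝ) (s : Finset ℕ) : ∀ (_ : ∀ i ∈ s, ∀ k ∈ s, i ≠ k → x i ≠ x k),
    ∑ i ∈ s, x i * wt x s i = ∑ i ∈ s, x i - (s.card : ℝ) * (s.card - 1) / 2 := by
  induction s using Finset.induction_on with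
  | empty => intro _; simp
  | insert a s ha ih =>
    intro hinj
    have hinj' : ∀ i ∈ s, ∀ k ∈ s, i ≠ k → x i ≠ x k := fun i hi k hk =>
      hinj i (Finset.mem_insert_of_mem hi) k (Finset.mem_insert_of_mem hk)
    have hxa : ∀ i ∈ s, x a ≠ x i := fun i hi => hinj a (Finset.mem_insert_self a s) i
      (Finset.mem_insert_of_mem hi) (fun h => ha (h ▸ hi))
    rw [Finset.sum_insert ha, Finset.sum_insert ha, wt_insert_self x s a ha,
      pf x s hinj' (x a) hxa, Finset.card_insert_of_notMem ha]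
    have e : ∑ i ∈ s, x i * wt x (insert a s) i =
        ∑ i ∈ s, x i * wt x s i - ∑ i ∈ s, wt x s i
          + x a * ∑ i ∈ s, wt x s i / (x a - x i) := by
      rw [Finset.mul_sum, ← Finset.sum_sub_distrib, ← Finset.sum_add_distrib]
      refine Finset.sum_congr rfl fun i hi => ?_
      rw [wt_insert x s a ha i hi]
      have h2 : x a - x i ≠ 0 := sub_ne_zero.2 (hxa i hi)
      have h3 : x i - x a ≠ 0 := sub_ne_zero.2 (hxa i hi).symm
      field_simp
      ring
    rw [e, ih hinj', sum_wt x s hinj']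
    push_cast
    ring


/-- product of the differences -/
noncomputable def vd (x : ℕ → ℝ) (r : ℕ) : ℝ :=
  ∏ i ∈ Finset.range r, ∏ k ∈ Finset.Ico (i + 1) r, (x i - x k)

lemma vd_update (x x' : ℕ → ℝ) (r i0 : ℕ) (hi0 : i0 < r) (hx' : ∀ k, k ≠ i0 → x' k = x k)
    (hx0 : x' i0 = x i0 - 1) (hne : ∀ k, k < r → k ≠ i0 → x i0 ≠ x k) :
    vd x' r = vd x r * wt x (Finset.range r) i0 := by
  classical
  set ρ : ℕ → ℝ := fun k => 1 - 1 / (x i0 - x k) with hρ
  have hR : ∀ i ∈ Finset.range r, ∏ k ∈ Finset.Ico (i + 1) r, (x' i - x' k) =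
      (∏ k ∈ Finset.Ico (i + 1) r, (x i - x k)) *
        (if i < i0 then ρ i else if i = i0 then ∏ k ∈ Finset.Ico (i0 + 1) r, ρ k else 1) := by
    intro i hi
    rcases lt_trichotomy i i0 with h | h | h
    · rw [if_pos h]
      have hmem : i0 ∈ Finset.Ico (i + 1) r := Finset.mem_Ico.2 ⟨h, hi0⟩
      rw [← Finset.mul_prod_erase _ _ hmem, ← Finset.mul_prod_erase _ _ hmem]
      have e1 : ∏ k ∈ (Finset.Ico (i + 1) r).erase i0, (x' i - x' k) =
          ∏ k ∈ (Finset.Ico (i + 1) r).erase i0, (x i - x k) := by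
        refine Finset.prod_congr rfl fun k hk => ?_
        rw [hx' i h.ne, hx' k (Finset.ne_of_mem_erase hk)]
      rw [e1, hx' i h.ne, hx0]
      have h1 : x i0 - x i ≠ 0 := sub_ne_zero.2 (hne i (Finset.mem_range.1 hi) h.ne)
      have e2 : x i - (x i0 - 1) = (x i - x i0) * ρ i := by
        simp only [hρ]
        field_simp
        ring
      rw [e2]
      ring
    · subst h
      rw [if_neg (lt_irrefl i), if_pos rfl, ← Finset.prod_mul_distrib]
      refine Finset.prod_congr rfl fun k hk => ?_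
      have hk' := Finset.mem_Ico.1 hk
      have hki : k ≠ i := by omega
      rw [hx0, hx' k hki]
      have h1 : x i - x k ≠ 0 := sub_ne_zero.2 (hne k hk'.2 hki)
      simp only [hρ]
      field_simp
      ring
    · rw [if_neg (by omega), if_neg (by omega), mul_one]
      refine Finset.prod_congr rfl fun k hk => ?_
      have hk' := Finset.mem_Ico.1 hk
      rw [hx' i (by omega), hx' k (by omega)]
  unfold vd
  rw [Finset.prod_congr rfl hR, Finset.prod_mul_distrib]
  congr 1
  unfold wt
  have hsplit : (Finset.range r).erase i0 = Finset.range i0 ∪ Finset.Ico (i0 + 1) r := by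
    ext k
    simp only [Finset.mem_erase, Finset.mem_range, Finset.mem_union, Finset.mem_Ico]
    omega
  have hdisj : Disjoint (Finset.range i0) (Finset.Ico (i0 + 1) r) := by
    rw [Finset.disjoint_left]
    intro k hk hk'
    simp only [Finset.mem_range, Finset.mem_Ico] at hk hk'
    omega
  rw [hsplit, Finset.prod_union hdisj]
  have hsplit2 : Finset.range r = Finset.range i0 ∪ ({i0} ∪ Finset.Ico (i0 + 1) r) := by
    ext k
    simp only [Finset.mem_range, Finset.mem_union, Finset.mem_Ico, Finset.mem_singleton]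
    omega
  rw [hsplit2, Finset.prod_union, Finset.prod_union]
  · have a1 : ∏ k ∈ Finset.range i0,
        (if k < i0 then ρ k else if k = i0 then ∏ k ∈ Finset.Ico (i0 + 1) r, ρ k else 1) =
        ∏ k ∈ Finset.range i0, ρ k :=
      Finset.prod_congr rfl fun k hk => if_pos (Finset.mem_range.1 hk)
    have a2 : ∏ k ∈ Finset.Ico (i0 + 1) r,
        (if k < i0 then ρ k else if k = i0 then ∏ k ∈ Finset.Ico (i0 + 1) r, ρ k else 1) = 1 := by
      refine Finset.prod_eq_one fun k hk => ?_
      have := Finset.mem_Ico.1 hk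
      rw [if_neg (by omega), if_neg (by omega)]
    rw [a1, a2, Finset.prod_singleton, if_neg (lt_irrefl _), if_pos rfl, mul_one]
  · rw [Finset.disjoint_left]
    intro k hk hk'
    simp only [Finset.mem_singleton, Finset.mem_Ico] at hk hk'
    omega
  · rw [Finset.disjoint_left]
    intro k hk hk'
    simp only [Finset.mem_range, Finset.mem_union, Finset.mem_singleton, Finset.mem_Ico] at hk hk'
    omega

/-- the shifted parts, as natural numbers -/
def LL (r : ℕ) (mu : ℕ → ℕ) (i : ℕ) : ℕ := mu i + (r - 1 - i)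

/-- the number of standard tableaux -/
noncomputable def DD (r : ℕ) (mu : ℕ → ℕ) : ℝ :=
  ((∑ i ∈ Finset.range r, mu i).factorial : ℝ) * vd (fun i => (LL r mu i : ℝ)) r /
    ∏ i ∈ Finset.range r, ((LL r mu i).factorial : ℝ)

lemma LL_lt {r : ℕ} {mu : ℕ → ℕ} (hmu : ∀ i j, i ≤ j → mu j ≤ mu i) {i k : ℕ} (hik : i < k)
    (hk : k < r) : LL r mu k < LL r mu i := by
  unfold LL
  have := hmu i k hik.le
  omega

lemma LL_ne {r : ℕ} {mu : ℕ → ℕ} (hmu : ∀ i j, i ≤ j → mu j ≤ mu i) {i k : ℕ} (hi : i < r)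
    (hk : k < r) (hik : i ≠ k) : (LL r mu i : ℝ) ≠ (LL r mu k : ℝ) := by
  rcases lt_or_gt_of_ne hik with h | h
  · exact_mod_cast (LL_lt hmu h hk).ne'
  · exact_mod_cast (LL_lt hmu h hi).ne

/-- removing a box -/
def rem (mu : ℕ → ℕ) (i : ℕ) : ℕ → ℕ := fun k => if k = i then mu k - 1 else mu k

lemma DD_rem {r : ℕ} {mu : ℕ → ℕ} (hmu : ∀ i j, i ≤ j → mu j ≤ mu i) {i : ℕ} (hi : i < r)
    (hc : mu (i + 1) < mu i) :
    DD r (rem mu i) * (∑ k ∈ Finset.range r, mu k : ℕ) =
      DD r mu * ((LL r mu i : ℝ) * wt (fun k => (LL r mu k : ℝ)) (Finset.range r) i) := by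
  have hpos : 1 ≤ mu i := by omega
  have hir : i ∈ Finset.range r := Finset.mem_range.2 hi
  have hLi : LL r (rem mu i) i + 1 = LL r mu i := by
    unfold LL rem
    rw [if_pos rfl]
    omega
  have hLk : ∀ k, k ≠ i → LL r (rem mu i) k = LL r mu k := by
    intro k hk
    unfold LL rem
    rw [if_neg hk]
  have hvd := vd_update (fun k => (LL r mu k : ℝ)) (fun k => (LL r (rem mu i) k : ℝ)) r i hi
    (fun k hk => by simp only [hLk k hk])
    (by
      have : ((LL r (rem mu i) i + 1 : ℕ) : ℝ) = (LL r mu i : ℝ) := by rw [hLi]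
      push_cast at this
      linarith)
    (fun k hk hki => LL_ne hmu hi hk hki.symm)
  have hsum : ∑ k ∈ Finset.range r, rem mu i k + 1 = ∑ k ∈ Finset.range r, mu k := by
    rw [← Finset.add_sum_erase _ _ hir, ← Finset.add_sum_erase _ (fun k => mu k) hir]
    have e1 : ∑ k ∈ (Finset.range r).erase i, rem mu i k =
        ∑ k ∈ (Finset.range r).erase i, mu k :=
      Finset.sum_congr rfl fun k hk => if_neg (Finset.ne_of_mem_erase hk)
    rw [e1]
    have e2 : rem mu i i = mu i - 1 := if_pos rfl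
    rw [e2]
    omega
  have hprod : (∏ k ∈ Finset.range r, ((LL r mu k).factorial : ℝ)) =
      (LL r mu i : ℝ) * ∏ k ∈ Finset.range r, ((LL r (rem mu i) k).factorial : ℝ) := by
    rw [← Finset.mul_prod_erase _ _ hir,
      ← Finset.mul_prod_erase _ (fun k => ((LL r (rem mu i) k).factorial : ℝ)) hir]
    have e1 : ∏ k ∈ (Finset.range r).erase i, ((LL r (rem mu i) k).factorial : ℝ) =
        ∏ k ∈ (Finset.range r).erase i, ((LL r mu k).factorial : ℝ) :=
      Finset.prod_congr rfl fun k hk => by rw [hLk k (Finset.ne_of_mem_erase hk)]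
    rw [e1, ← hLi, Nat.factorial_succ]
    push_cast
    ring
  unfold DD
  rw [hvd, ← hsum, Nat.factorial_succ, hprod]
  have h1 : (∏ k ∈ Finset.range r, ((LL r (rem mu i) k).factorial : ℝ)) ≠ 0 :=
    Finset.prod_ne_zero_iff.2 fun k _ => by positivity
  have h2 : (LL r mu i : ℝ) ≠ 0 := by
    rw [← hLi]
    positivity
  push_cast
  field_simp

lemma DD_nonrem {r : ℕ} {mu : ℕ → ℕ} (hmu : ∀ i j, i ≤ j → mu j ≤ mu i) (hr : mu r = 0) {i : ℕ}
    (hi : i < r) (hc : ¬ mu (i + 1) < mu i) :
    (LL r mu i : ℝ) * wt (fun k => (LL r mu k : ℝ)) (Finset.range r) i = 0 := by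
  have heq : mu (i + 1) = mu i := le_antisymm (hmu i (i + 1) (Nat.le_succ i)) (not_lt.1 hc)
  by_cases h : i + 1 = r
  · rw [h, hr] at heq
    have : LL r mu i = 0 := by
      unfold LL
      omega
    rw [this]
    simp
  · have hlt : i + 1 < r := by omega
    have : wt (fun k => (LL r mu k : ℝ)) (Finset.range r) i = 0 := by
      unfold wt
      refine Finset.prod_eq_zero (i := i + 1)
        (Finset.mem_erase.2 ⟨by omega, Finset.mem_range.2 hlt⟩) ?_
      have hL : LL r mu i = LL r mu (i + 1) + 1 := by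
        unfold LL
        omega
      have e : (LL r mu i : ℝ) - (LL r mu (i + 1) : ℝ) = 1 := by
        rw [hL]
        push_cast
        ring
      show 1 - 1 / ((LL r mu i : ℝ) - (LL r mu (i + 1) : ℝ)) = 0
      rw [e]
      norm_num
    rw [this, mul_zero]

/-- the branching rule -/
lemma DD_branch {r : ℕ} {mu : ℕ → ℕ} (hmu : ∀ i j, i ≤ j → mu j ≤ mu i) (hr : mu r = 0)
    (hpos : 0 < ∑ k ∈ Finset.range r, mu k) :
    ∑ i ∈ (Finset.range r).filter (fun i => mu (i + 1) < mu i), DD r (rem mu i) = DD r mu := by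
  set n : ℕ := ∑ k ∈ Finset.range r, mu k with hn
  have hn0 : (n : ℝ) ≠ 0 := by exact_mod_cast hpos.ne'
  have h1 : ∑ i ∈ (Finset.range r).filter (fun i => mu (i + 1) < mu i),
      DD r (rem mu i) * (n : ℝ) = DD r mu * n := by
    have e1 : ∑ i ∈ (Finset.range r).filter (fun i => mu (i + 1) < mu i),
        DD r (rem mu i) * (n : ℝ) =
        ∑ i ∈ Finset.range r,
          DD r mu * ((LL r mu i : ℝ) * wt (fun k => (LL r mu k : ℝ)) (Finset.range r) i) := by
      rw [Finset.sum_filter]
      refine Finset.sum_congr rfl fun i hi => ?_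
      have hi' := Finset.mem_range.1 hi
      by_cases hc : mu (i + 1) < mu i
      · rw [if_pos hc]
        exact DD_rem hmu hi' hc
      · rw [if_neg hc, DD_nonrem hmu hr hi' hc, mul_zero]
    rw [e1, ← Finset.mul_sum, sum_x_wt]
    · congr 1
      have e2 : ∑ i ∈ Finset.range r, (LL r mu i : ℝ) = (n : ℝ) + (r : ℝ) * (r - 1) / 2 := by
        have e3 : ∑ i ∈ Finset.range r, (LL r mu i : ℝ) =
            ∑ i ∈ Finset.range r, (mu i : ℝ) + ∑ i ∈ Finset.range r, ((r - 1 - i : ℕ) : ℝ) := by
          rw [← Finset.sum_add_distrib]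
          refine Finset.sum_congr rfl fun i _ => ?_
          unfold LL
          push_cast
          ring
        rw [e3, Finset.sum_range_reflect (fun i => ((i : ℕ) : ℝ)) r]
        have e4 : ∑ i ∈ Finset.range r, ((i : ℕ) : ℝ) = (r : ℝ) * (r - 1) / 2 := by
          clear e3 e1 hn0 hpos hn hr hmu
          induction r with
          | zero => simp
          | succ r ih =>
            rw [Finset.sum_range_succ, ih]
            push_cast
            ring
        rw [e4, hn]
        push_cast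
        ring
      rw [e2, Finset.card_range]
      ring
    · intro i hi k hk hik
      exact LL_ne hmu (Finset.mem_range.1 hi) (Finset.mem_range.1 hk) hik
  rw [← Finset.sum_mul] at h1
  exact mul_right_cancel₀ hn0 h1

lemma prod_sub_fact (r : ℕ) : ∏ i ∈ Finset.range r, ∏ k ∈ Finset.Ico (i + 1) r, ((k : ℝ) - i) =
    ∏ i ∈ Finset.range r, ((r - 1 - i).factorial : ℝ) := by
  refine Finset.prod_congr rfl fun i hi => ?_
  have hi' := Finset.mem_range.1 hi
  rw [Finset.prod_Ico_eq_prod_range]
  have e : r - (i + 1) = r - 1 - i := by omega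
  rw [e, ← Finset.prod_range_add_one_eq_factorial]
  push_cast
  refine Finset.prod_congr rfl fun k _ => ?_
  ring

lemma fact_add (n m : ℕ) : (((n + m).factorial : ℕ) : ℝ) =
    (m.factorial : ℝ) * ∏ j ∈ Finset.range n, ((m : ℝ) + j + 1) := by
  induction n with
  | zero => simp
  | succ n ih =>
    have : n + 1 + m = (n + m) + 1 := by ring
    rw [Finset.prod_range_succ, this, Nat.factorial_succ]
    push_cast
    rw [ih]
    ring

lemma DD_congr (r : ℕ) (mu mu' : ℕ → ℕ) (h : ∀ i < r, mu i = mu' i) : DD r mu = DD r mu' := by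
  have hL : ∀ i < r, LL r mu i = LL r mu' i := fun i hi => by
    unfold LL
    rw [h i hi]
  unfold DD vd
  have e1 : ∑ i ∈ Finset.range r, mu i = ∑ i ∈ Finset.range r, mu' i :=
    Finset.sum_congr rfl fun i hi => h i (Finset.mem_range.1 hi)
  have e2 : ∏ i ∈ Finset.range r, ∏ k ∈ Finset.Ico (i + 1) r,
      ((LL r mu i : ℝ) - (LL r mu k : ℝ)) =
      ∏ i ∈ Finset.range r, ∏ k ∈ Finset.Ico (i + 1) r,
        ((LL r mu' i : ℝ) - (LL r mu' k : ℝ)) :=
    Finset.prod_congr rfl fun i hi => Finset.prod_congr rfl fun k hk => by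
      rw [hL i (Finset.mem_range.1 hi), hL k (Finset.mem_Ico.1 hk).2]
  have e3 : ∏ i ∈ Finset.range r, ((LL r mu i).factorial : ℝ) =
      ∏ i ∈ Finset.range r, ((LL r mu' i).factorial : ℝ) :=
    Finset.prod_congr rfl fun i hi => by rw [hL i (Finset.mem_range.1 hi)]
  rw [e1, e2, e3]

lemma DD_rect (r n : ℕ) : DD r (fun _ => n) =
    ((r * n).factorial : ℝ) / ∏ i ∈ Finset.range r, ∏ j ∈ Finset.range n, ((i : ℝ) + j + 1) := by
  unfold DD
  have e1 : ∑ _i ∈ Finset.range r, n = r * n := by simp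
  have e2 : vd (fun i => (LL r (fun _ => n) i : ℝ)) r =
      ∏ i ∈ Finset.range r, ((r - 1 - i).factorial : ℝ) := by
    rw [← prod_sub_fact]
    unfold vd
    refine Finset.prod_congr rfl fun i hi => Finset.prod_congr rfl fun k hk => ?_
    have hi' := Finset.mem_range.1 hi
    have hk' := Finset.mem_Ico.1 hk
    unfold LL
    have h1 : ((r - 1 - i : ℕ) : ℝ) = (r : ℝ) - 1 - i := by
      rw [Nat.cast_sub (by omega), Nat.cast_sub (by omega)]
      simp
    have h2 : ((r - 1 - k : ℕ) : ℝ) = (r : ℝ) - 1 - k := by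
      rw [Nat.cast_sub (by omega), Nat.cast_sub (by omega)]
      simp
    push_cast
    rw [h1, h2]
    ring
  rw [e1, e2, mul_div_assoc, ← Finset.prod_div_distrib]
  rw [div_eq_mul_inv (((r * n).factorial : ℝ)), ← Finset.prod_inv_distrib]
  congr 1
  rw [← Finset.prod_range_reflect (fun i => (∏ j ∈ Finset.range n, ((i : ℝ) + j + 1))⁻¹) r]
  refine Finset.prod_congr rfl fun i hi => ?_
  have hi' := Finset.mem_range.1 hi
  unfold LL
  set m : ℕ := r - 1 - i with hm
  rw [fact_add n m]
  have h4 : (m.factorial : ℝ) ≠ 0 := by positivity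
  have h5 : ∏ j ∈ Finset.range n, ((m : ℝ) + j + 1) ≠ 0 :=
    Finset.prod_ne_zero_iff.2 fun j _ => by positivity
  field_simp

end Rect

/-- a superharmonic function on partitions is at least the number of standard tableaux -/
theorem rect_lower (b : (ℕ → ℕ) → ℝ) (r n : ℕ)
    (hcongr : ∀ mu mu' : ℕ → ℕ, (∀ i < r, mu i = mu' i) → b mu = b mu')
    (h0 : 1 ≤ b (fun _ => 0)) (hnn : ∀ mu, 0 ≤ b mu)
    (hstep : ∀ mu : ℕ → ℕ, (∀ i j, i ≤ j → mu j ≤ mu i) → mu 0 ≤ n → mu r = 0 → mu ≠ (fun _ => 0) →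
      ∑ i ∈ (Finset.range r).filter (fun i => mu (i + 1) < mu i),
        b (fun k => if k = i then mu k - 1 else mu k) ≤ b mu) :
    ((r * n).factorial : ℝ) / ∏ i ∈ Finset.range r, ∏ j ∈ Finset.range n, ((i : ℝ) + j + 1) ≤
      b (fun k => if k < r then n else 0) := by
  have main : ∀ (s : ℕ) (mu : ℕ → ℕ), (∀ i j, i ≤ j → mu j ≤ mu i) → mu 0 ≤ n → mu r = 0 →
      ∑ k ∈ Finset.range r, mu k = s → Rect.DD r mu ≤ b mu := by
    intro s
    induction s with
    | zero =>
      intro mu hmu hn0 hr hs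
      have hz : mu = fun _ => 0 := by
        funext k
        by_cases hk : k < r
        · exact (Finset.sum_eq_zero_iff.1 hs) k (Finset.mem_range.2 hk)
        · exact Nat.le_zero.1 (hr ▸ hmu r k (not_lt.1 hk))
      rw [hz, Rect.DD_rect]
      simpa using h0
    | succ s ih =>
      intro mu hmu hn0 hr hs
      have hne : mu ≠ fun _ => 0 := by
        intro h
        rw [h] at hs
        simp at hs
      refine le_trans ?_ (hstep mu hmu hn0 hr hne)
      rw [← Rect.DD_branch hmu hr (by omega)]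
      refine Finset.sum_le_sum fun i hi => ?_
      have hi1 := Finset.mem_range.1 (Finset.mem_filter.1 hi).1
      have hi2 := (Finset.mem_filter.1 hi).2
      refine ih (Rect.rem mu i) ?_ ?_ ?_ ?_
      · intro a c hac
        unfold Rect.rem
        have hac' := hmu a c hac
        by_cases ha : a = i
        · by_cases hc : c = i
          · rw [if_pos hc, if_pos ha, ha, hc]
          · rw [if_neg hc, if_pos ha]
            have : mu c ≤ mu (i + 1) := hmu (i + 1) c (by omega)
            rw [ha]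
            omega
        · by_cases hc : c = i
          · rw [if_pos hc, if_neg ha]
            omega
          · rw [if_neg hc, if_neg ha]
            exact hac'
      · unfold Rect.rem
        split_ifs <;> omega
      · unfold Rect.rem
        rw [if_neg (by omega)]
        exact hr
      · have hir : i ∈ Finset.range r := Finset.mem_range.2 hi1
        have e1 : ∑ k ∈ (Finset.range r).erase i, Rect.rem mu i k =
            ∑ k ∈ (Finset.range r).erase i, mu k :=
          Finset.sum_congr rfl fun k hk => if_neg (Finset.ne_of_mem_erase hk)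
        have e2 : Rect.rem mu i i = mu i - 1 := if_pos rfl
        rw [← Finset.add_sum_erase _ _ hir, e1, e2]
        rw [← Finset.add_sum_erase _ (fun k => mu k) hir] at hs
        omega
  have hfin := main (∑ k ∈ Finset.range r, (fun k => if k < r then n else 0) k)
    (fun k => if k < r then n else 0) (fun i j hij => by
      by_cases hj : j < r
      · rw [if_pos hj, if_pos (lt_of_le_of_lt hij hj)]
      · rw [if_neg hj]
        exact Nat.zero_le _) (by
      show (if 0 < r then n else 0) ≤ n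
      split_ifs
      · exact le_rfl
      · exact Nat.zero_le _) (if_neg (lt_irrefl r)) rfl
  rw [Rect.DD_congr r (fun k => if k < r then n else 0) (fun _ => n) fun i hi => if_pos hi,
    Rect.DD_rect] at hfin
  exact hfin

end Pool.Agent.Schub.Aff
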