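import Pool.Agent.Helper78.LimIneq

/-!
Definitions for the comparison of a box of a large pipe dream with the ring.
-/

set_option autoImplicit false

namespace Pool.Agent.Schub.Ring

open Finset Pool.Agent.Helper78.Lim

/-- The tile model in the columns `< C`: `Y r c` is the letter on the top edge of the cell
`(r, c)` and `Z r c` the letter on its left edge; two increasing letters are exchanged at the cells
of `D`. -/
structure Tile (C : ℕ) (D : ℕ → ℕ → Prop) (Y Z : ℕ → ℕ → ℕ) : Prop where
  ex : ∀ r c, c < C → D r c → Y r c < Z r (c + 1) → Y (r + 1) c = Y r c ∧ Z r c = Z r (c + 1)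
  el : ∀ r c, c < C → ¬ (D r c ∧ Y r c < Z r (c + 1)) →
    Y (r + 1) c = Z r (c + 1) ∧ Z r c = Y r c

/-- The first `m` letters of a word. -/
def wd (m : ℕ) (x : ℕ → ℕ) : List ℕ := (List.range m).map x

/-- The letters on the top edges in the run of `D` in the staircase of size `n`. -/
def Yd (D : Finset (ℕ × ℕ)) (n r c : ℕ) : ℕ := st D n r (r + c)

/-- The letters on the left edges in the run of `D` in the staircase of size `n`. -/
def Zd (D : Finset (ℕ × ℕ)) (n r c : ℕ) : ℕ := run D (rseg r c (n - 1 - r - c)) (st D n r) (r + c)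

open Classical in
/-- One row of the ring: the letter on the left edge of the column `C - k`. -/
noncomputable def zr (Dr : ℕ → Prop) (w : ℕ → ℕ) (C : ℕ) : ℕ → ℕ
  | 0 => w C
  | k + 1 => if Dr (C - 1 - k) ∧ w (C - 1 - k) < zr Dr w C k then zr Dr w C k else w (C - 1 - k)

open Classical in
/-- The `C + 1` letters of the ring before row `r`. -/
noncomputable def SW (C : ℕ) (D : ℕ → ℕ → Prop) (x0 : ℕ → ℕ) : ℕ → ℕ → ℕ
  | 0 => x0
  | r + 1 => fun c =>
      if c < C then
        (if D r c ∧ SW C D x0 r c < zr (D r) (SW C D x0 r) C (C - (c + 1)) then SW C D x0 r c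
          else zr (D r) (SW C D x0 r) C (C - (c + 1)))
      else zr (D r) (SW C D x0 r) C C

/-- The letters on the left edges on the ring. -/
noncomputable def SZ (C : ℕ) (D : ℕ → ℕ → Prop) (x0 : ℕ → ℕ) (r c : ℕ) : ℕ :=
  zr (D r) (SW C D x0 r) C (C - c)

/-- The cells as a relation. -/
def rel (D : Finset (ℕ × ℕ)) : ℕ → ℕ → Prop := fun r c => (r, c) ∈ D

/-- Every crossing of `D` on the ring with `C + 1` sites exchanges increasing letters. -/
def AllEff (C : ℕ) (x0 : ℕ → ℕ) (D : Finset (ℕ × ℕ)) : Prop :=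
  ∀ p ∈ D, SW C (rel D) x0 p.1 p.2 < SZ C (rel D) x0 p.1 (p.2 + 1)

open Classical in
/-- The effective crossings on the ring. -/
noncomputable def effR (C : ℕ) (x0 : ℕ → ℕ) (D : Finset (ℕ × ℕ)) : Finset (ℕ × ℕ) :=
  D.filter (fun p => SW C (rel D) x0 p.1 p.2 < SZ C (rel D) x0 p.1 (p.2 + 1))

open Classical in
/-- The number of histories with `R` rows on the ring with `C + 1` sites grows at most like
`exp (κ R)`. -/
def RingCount (C : ℕ) (κ : ℝ) : Prop :=
  ∀ x0 : ℕ → ℕ, Set.InjOn x0 (Set.Iio (C + 1)) → ∃ K : ℝ, 0 < K ∧ ∀ R : ℕ,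
    (((range R ×ˢ range C).powerset.filter (AllEff C x0)).card : ℝ) ≤ K * Real.exp (κ * R)

/-- The number of letters `≥ k` on the left edges of the first `R` rows. -/
def EE (Z : ℕ → ℕ → ℕ) (k R : ℕ) : ℕ := ∑ r ∈ range R, if k ≤ Z r 0 then 1 else 0

end Pool.Agent.Schub.Ring
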