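import Pool.Agent.SchubU.Defs

/-!
The row identity: the sum of the rows with `j` crossings lowers a linear form by `c`.
-/

set_option autoImplicit false

namespace Pool.Agent.Schub.Aff

open MvPolynomial

variable {N : ℕ}

/-! ### words -/

theorem Aw_append (w1 w2 : List (ZMod N)) (f : P N) : Aw (w1 ++ w2) f = Aw w1 (Aw w2 f) := by
  induction w1 with
  | nil => rfl
  | cons k w ih => simp only [List.cons_append, Aw, ih]

theorem Aw_A_far (hN : 3 ≤ N) {j : ZMod N} : ∀ (w : List (ZMod N)), (∀ k ∈ w, Far j k) →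
    ∀ f : P N, A j (Aw w f) = Aw w (A j f) := by
  intro w
  induction w with
  | nil => intro _ f; rfl
  | cons k w ih =>
    intro h f
    simp only [Aw]
    rw [A_comm hN (h k (by simp)), ih (fun k' hk' => h k' (by simp [hk']))]

theorem Aw_far (hN : 3 ≤ N) : ∀ (w1 w2 : List (ZMod N)), (∀ j ∈ w1, ∀ k ∈ w2, Far j k) →
    ∀ f : P N, Aw w1 (Aw w2 f) = Aw w2 (Aw w1 f) := by
  intro w1 w2
  induction w1 with
  | nil => intro _ f; rfl
  | cons j w ih =>
    intro h f
    simp only [Aw]
    rw [ih (fun j' hj' => h j' (by simp [hj'])), Aw_A_far hN w2 (h j (by simp))]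

theorem Aw_int_mul (hN : 3 ≤ N) (w : List (ZMod N)) (c : ℤ) (g : P N) :
    Aw w ((c : P N) * g) = (c : P N) * Aw w g := by
  induction w with
  | nil => rfl
  | cons k w ih => simp only [Aw, ih, A_int_mul hN]

theorem Aw_one (hN : 3 ≤ N) : ∀ (w : List (ZMod N)), w ≠ [] → Aw w (1 : P N) = 0 := by
  intro w
  induction w with
  | nil => intro h; exact absurd rfl h
  | cons k w ih =>
    intro _
    simp only [Aw]
    rcases eq_or_ne w [] with rfl | hw
    · simp only [Aw]
      exact A_of_sg hN (map_one _)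
    · rw [ih hw, A_zero hN]

/-! ### segments -/

/-- the letters `a, a+1, …, a+m-1` which are in `I` -/
def lst (a : ZMod N) (m : ℕ) (I : Finset (ZMod N)) : List (ZMod N) :=
  ((List.range m).map (fun c : ℕ => a + (c : ZMod N))).filter (fun k => decide (k ∈ I))

theorem lst_zero (a : ZMod N) (I : Finset (ZMod N)) : lst a 0 I = [] := rfl

theorem lst_succ (a : ZMod N) (m : ℕ) (I : Finset (ZMod N)) :
    lst a (m + 1) I = if a ∈ I then a :: lst (a + 1) m I else lst (a + 1) m I := by
  unfold lst
  rw [List.range_succ_eq_map, List.map_cons, List.map_map]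
  have e : (fun c : ℕ => a + (c : ZMod N)) ∘ Nat.succ = fun c : ℕ => a + 1 + (c : ZMod N) := by
    funext c
    simp only [Function.comp, Nat.succ_eq_add_one]
    push_cast
    ring
  rw [e, Nat.cast_zero, add_zero, List.filter_cons]
  simp

theorem lst_add (a : ZMod N) (m n : ℕ) (I : Finset (ZMod N)) :
    lst a (m + n) I = lst a m I ++ lst (a + (m : ZMod N)) n I := by
  unfold lst
  rw [List.range_add, List.map_append, List.filter_append, List.map_map]
  congr 3
  funext c
  simp only [Function.comp]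
  push_cast
  ring

theorem mem_lst {a : ZMod N} {m : ℕ} {I : Finset (ZMod N)} {k : ZMod N} :
    k ∈ lst a m I ↔ k ∈ I ∧ ∃ t : ℕ, t < m ∧ k = a + t := by
  unfold lst
  simp only [List.mem_filter, List.mem_map, List.mem_range, decide_eq_true_eq]
  constructor
  · rintro ⟨⟨t, ht, rfl⟩, h⟩
    exact ⟨h, t, ht, rfl⟩
  · rintro ⟨h, t, ht, rfl⟩
    exact ⟨⟨t, ht, rfl⟩, h⟩

theorem lst_congr {a : ZMod N} {m : ℕ} {I J : Finset (ZMod N)}
    (h : ∀ t : ℕ, t < m → (a + (t : ZMod N) ∈ I ↔ a + (t : ZMod N) ∈ J)) :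
    lst a m I = lst a m J := by
  unfold lst
  apply List.filter_congr
  intro k hk
  simp only [List.mem_map, List.mem_range] at hk
  obtain ⟨t, ht, rfl⟩ := hk
  simp [h t ht]

theorem nat_ne {t : ℕ} (h1 : 0 < t) (h2 : t < N) : (t : ZMod N) ≠ 0 := by
  intro h
  rw [ZMod.natCast_eq_zero_iff] at h
  exact absurd (Nat.le_of_dvd h1 h) (by omega)

theorem rowW_eq (e : ZMod N) (I : Finset (ZMod N)) : rowW e I = lst (e + 1) N I := rfl

theorem rowW_eq' (hN : 3 ≤ N) {e : ZMod N} {I : Finset (ZMod N)} (he : e ∉ I) :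
    rowW e I = lst (e + 1) (N - 1) I := by
  rw [rowW_eq]
  have h1 : N = (N - 1) + 1 := by omega
  have h2 : lst (e + 1) N I = lst (e + 1) ((N - 1) + 1) I := by rw [← h1]
  rw [h2, lst_add, lst_succ, lst_zero]
  have h3 : e + 1 + ((N - 1 : ℕ) : ZMod N) = e := by
    rw [Nat.cast_sub (by omega)]
    push_cast
    simp
  rw [h3, if_neg he, List.append_nil]

theorem rowW_indep (hN : 3 ≤ N) {e e' : ZMod N} {I : Finset (ZMod N)} (h : e ∉ I) (h' : e' ∉ I)
    (f : P N) : Aw (rowW e I) f = Aw (rowW e' I) f := by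
  have : NeZero N := ⟨by omega⟩
  obtain ⟨d, hd, rfl⟩ : ∃ d : ℕ, d < N ∧ e' = e + (d : ZMod N) := by
    refine ⟨(e' - e).val, ZMod.val_lt _, ?_⟩
    rw [ZMod.natCast_zmod_val]
    ring
  rw [rowW_eq, rowW_eq]
  have h1 : lst (e + 1) N I = lst (e + 1) d I ++ lst (e + 1 + (d : ZMod N)) (N - d) I := by
    rw [← lst_add]
    congr 1
    omega
  have h2 : lst (e + (d : ZMod N) + 1) N I =
      lst (e + 1 + (d : ZMod N)) (N - d) I ++ lst (e + 1) d I := by
    have e1 : e + (d : ZMod N) + 1 = e + 1 + (d : ZMod N) := by ring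
    have e2 : e + 1 + (d : ZMod N) + ((N - d : ℕ) : ZMod N) = e + 1 := by
      rw [Nat.cast_sub (by omega)]
      simp
    have e3 : lst (e + 1 + (d : ZMod N)) N I = lst (e + 1 + (d : ZMod N)) ((N - d) + d) I := by
      congr 1
      omega
    rw [e1, e3, lst_add, e2]
  rw [h1, h2, Aw_append, Aw_append]
  apply Aw_far hN
  intro j hj k hk
  rw [mem_lst] at hj hk
  obtain ⟨hj, s, hs, rfl⟩ := hj
  obtain ⟨hk, t, ht, rfl⟩ := hk
  have hs' : s + 1 < d := by
    rcases Nat.lt_or_ge (s + 1) d with h3 | h3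
    · exact h3
    · exfalso
      apply h'
      have : d = s + 1 := by omega
      rw [this]
      push_cast
      convert hj using 1
      ring
  have ht' : t + 1 < N - d := by
    rcases Nat.lt_or_ge (t + 1) (N - d) with h3 | h3
    · exact h3
    · exfalso
      apply h
      have h4 : N = d + (t + 1) := by omega
      have h5 : ((d + (t + 1) : ℕ) : ZMod N) = 0 := by
        rw [← h4]
        simp
      push_cast at h5
      convert hk using 1
      linear_combination -h5
  refine ⟨fun h3 => ?_, fun h3 => ?_, fun h3 => ?_⟩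
  · apply nat_ne (N := N) (t := d + t - s) (by omega) (by omega)
    rw [Nat.cast_sub (by omega)]
    push_cast
    linear_combination -h3
  · apply nat_ne (N := N) (t := d + t + 1 - s) (by omega) (by omega)
    rw [Nat.cast_sub (by omega)]
    push_cast
    linear_combination -h3
  · apply nat_ne (N := N) (t := d + t - (s + 1)) (by omega) (by omega)
    rw [Nat.cast_sub (by omega)]
    push_cast
    linear_combination h3

/-! ### the function `G` -/

/-- distance to the first place whose class is not in `J` -/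
noncomputable def nx (J : Finset (ZMod N)) (b : ℤ) : ℕ := sInf {k : ℕ | ((b + k : ℤ) : ZMod N) ∉ J}

/-- value of `u` at the first place whose class is not in `J` -/
noncomputable def GG (J : Finset (ZMod N)) (u : ℤ → ℤ) (b : ℤ) : ℤ := u (b + nx J b)

theorem GG_not {J : Finset (ZMod N)} {u : ℤ → ℤ} {b : ℤ} (h : (b : ZMod N) ∉ J) :
    GG J u b = u b := by
  have : nx J b = 0 := by
    unfold nx
    rw [Nat.sInf_eq_zero]
    left
    simpa using h
  unfold GG
  rw [this]
  simp

theorem nx_set_nonempty [NeZero N] {J : Finset (ZMod N)} (hJ : ∃ e, e ∉ J) (b : ℤ) :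
    {k : ℕ | ((b + k : ℤ) : ZMod N) ∉ J}.Nonempty := by
  obtain ⟨e, he⟩ := hJ
  refine ⟨(e - (b : ZMod N)).val, ?_⟩
  simp only [Set.mem_ofPred_eq]
  push_cast
  rw [ZMod.natCast_zmod_val]
  convert he using 1
  ring_nf

theorem GG_mem [NeZero N] {J : Finset (ZMod N)} (hJ : ∃ e, e ∉ J) {u : ℤ → ℤ} {b : ℤ}
    (h : (b : ZMod N) ∈ J) : GG J u b = GG J u (b + 1) := by
  have key : nx J b = nx J (b + 1) + 1 := by
    apply le_antisymm
    · apply Nat.sInf_le
      have h1 := Nat.sInf_mem (nx_set_nonempty hJ (b + 1))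
      simp only [Set.mem_ofPred_eq] at h1 ⊢
      convert h1 using 2
      unfold nx
      push_cast
      ring
    · have h1 := Nat.sInf_mem (nx_set_nonempty hJ b)
      have h2 : nx J b ≠ 0 := by
        intro h3
        have h4 : ((b + (nx J b : ℕ) : ℤ) : ZMod N) ∉ J := h1
        rw [h3] at h4
        simp only [Nat.cast_zero, add_zero] at h4
        exact h4 h
      obtain ⟨n, hn⟩ := Nat.exists_eq_succ_of_ne_zero h2
      rw [hn]
      apply Nat.succ_le_succ
      apply Nat.sInf_le
      have h4 : ((b + (nx J b : ℕ) : ℤ) : ZMod N) ∉ J := h1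
      rw [hn] at h4
      simp only [Set.mem_ofPred_eq]
      convert h4 using 2
      push_cast
      ring
  unfold GG
  rw [key]
  congr 1
  push_cast
  ring

theorem GG_slope {J : Finset (ZMod N)} {c : ℤ} {u : ℤ → ℤ} (h : Slope N c u) :
    Slope N c (GG J u) := by
  intro b
  have key : nx J (b + N) = nx J b := by
    unfold nx
    congr 1
    ext k
    simp only [Set.mem_ofPred_eq]
    have : ((b + (N : ℤ) + (k : ℤ) : ℤ) : ZMod N) = ((b + (k : ℤ) : ℤ) : ZMod N) := by
      push_cast
      simp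
    rw [this]
  unfold GG
  rw [key]
  have e : b + (N : ℤ) + (nx J b : ℤ) = b + (nx J b : ℤ) + N := by ring
  rw [e, h]

theorem sum_gap (hN : 3 ≤ N) [NeZero N] {c : ℤ} {v : ℤ → ℤ} (h : Slope N c v) :
    ∑ x : ZMod N, gap v x = c := by
  have h1 : ∀ x : ZMod N, v (rep x + 1) = v (rep (x + 1)) + (if x = 0 then c else 0) := by
    intro x
    have h2 := rep_succ hN x
    split_ifs at h2 ⊢ with hx
    · have h3 : rep x + 1 = rep (x + 1) + N := by rw [h2]; ring
      rw [h3, h]
    · have h3 : rep x + 1 = rep (x + 1) := by rw [h2]; ring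
      rw [h3, add_zero]
  unfold gap
  rw [Finset.sum_sub_distrib, Finset.sum_congr rfl (fun x _ => h1 x), Finset.sum_add_distrib]
  have h2 : ∑ x : ZMod N, v (rep (x + 1)) = ∑ x : ZMod N, v (rep x) :=
    Equiv.sum_comp (Equiv.addRight (1 : ZMod N)) (fun x => v (rep x))
  rw [h2]
  simp

/-! ### runs along a segment -/

theorem run_fix (u : ℤ → ℤ) {i : ℤ} : ∀ (w : List (ZMod N)),
    (∀ k ∈ w, (i : ZMod N) ≠ k ∧ (i : ZMod N) ≠ k + 1) → run u w i = u i := by
  intro w
  induction w with
  | nil => intro _; rfl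
  | cons k w ih =>
    intro h
    have h1 := h k (by simp)
    simp only [run]
    rw [aff_ne h1.1 h1.2]
    exact ih (fun k' hk' => h k' (by simp [hk']))

theorem run_seg_fix (u : ℤ → ℤ) {a : ℤ} {m : ℕ} (hm : m + 1 < N) (J : Finset (ZMod N)) :
    run u (lst ((a + 1 : ℤ) : ZMod N) m J) a = u a := by
  apply run_fix
  intro k hk
  rw [mem_lst] at hk
  obtain ⟨_, t, ht, rfl⟩ := hk
  constructor
  · intro h
    apply nat_ne (N := N) (t := t + 1) (by omega) (by omega)
    push_cast at h ⊢
    linear_combination -h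
  · intro h
    apply nat_ne (N := N) (t := t + 2) (by omega) (by omega)
    push_cast at h ⊢
    linear_combination -h

theorem run_seg [NeZero N] (u : ℤ → ℤ) (J : Finset (ZMod N)) : ∀ (m : ℕ) (a : ℤ), m < N →
    ((a + m : ℤ) : ZMod N) ∉ J → run u (lst (a : ZMod N) m J) a = GG J u a := by
  intro m
  induction m with
  | zero =>
    intro a _ h
    rw [lst_zero]
    simp only [Nat.cast_zero, add_zero] at h
    rw [GG_not h]
    rfl
  | succ m ih =>
    intro a hm h
    rw [lst_succ]
    have e : (a : ZMod N) + 1 = ((a + 1 : ℤ) : ZMod N) := by push_cast; ring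
    rw [e]
    split_ifs with ha
    · simp only [run]
      rw [aff_self]
      rw [GG_mem ⟨_, h⟩ ha]
      apply ih (a + 1) (by omega)
      convert h using 2
      push_cast
      ring
    · rw [run_seg_fix u hm J, GG_not ha]

theorem del_seg [NeZero N] {c : ℤ} {u : ℤ → ℤ} (h : Slope N c u) (I : Finset (ZMod N)) :
    ∀ (m : ℕ) (a : ℤ), m < N → ((a + m : ℤ) : ZMod N) ∉ I → ∀ F : List (ZMod N) → ℤ,
    ((del u (lst (a : ZMod N) m I)).map (fun p => p.1 * F p.2)).sum =
      ((lst (a : ZMod N) m I).map (fun x => gap (GG (I.erase x) u) x *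
        F (lst (a : ZMod N) m (I.erase x)))).sum := by
  intro m
  induction m with
  | zero =>
    intro a _ _ F
    rw [lst_zero]
    simp [del]
  | succ m ih =>
    intro a hm hI F
    have e : (a : ZMod N) + 1 = ((a + 1 : ℤ) : ZMod N) := by push_cast; ring
    have hI' : ((a + 1 + m : ℤ) : ZMod N) ∉ I := by
      convert hI using 2
      push_cast
      ring
    have hne : ∀ x ∈ lst ((a + 1 : ℤ) : ZMod N) m I, (a : ZMod N) ≠ x := by
      intro x hx h1
      rw [mem_lst] at hx
      obtain ⟨_, t, ht, rfl⟩ := hx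
      apply nat_ne (N := N) (t := t + 1) (by omega) (by omega)
      push_cast at h1 ⊢
      linear_combination -h1
    rw [lst_succ, e]
    split_ifs with ha
    · simp only [del, List.map_cons, List.sum_cons, List.map_map]
      have e1 : ((fun p : ℤ × List (ZMod N) => p.1 * F p.2) ∘
          fun p : ℤ × List (ZMod N) => (p.1, (a : ZMod N) :: p.2)) =
          fun p => p.1 * (fun w => F ((a : ZMod N) :: w)) p.2 := rfl
      rw [e1, ih (a + 1) (by omega) hI' (fun w => F ((a : ZMod N) :: w))]
      have e2 : lst ((a + 1 : ℤ) : ZMod N) m (I.erase (a : ZMod N)) =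
          lst ((a + 1 : ℤ) : ZMod N) m I := by
        apply lst_congr
        intro t ht
        rw [Finset.mem_erase]
        constructor
        · exact fun h2 => h2.2
        · intro h2
          refine ⟨fun h3 => ?_, h2⟩
          apply nat_ne (N := N) (t := t + 1) (by omega) (by omega)
          push_cast at h3 ⊢
          linear_combination h3
      have e3 : gap (run u (lst ((a + 1 : ℤ) : ZMod N) m I)) (a : ZMod N) =
          gap (GG (I.erase (a : ZMod N)) u) (a : ZMod N) := by
        rw [gap_eq (h.run _), gap_eq (GG_slope h), run_seg_fix u hm, ← e2,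
          run_seg u (I.erase (a : ZMod N)) m (a + 1) (by omega)
            (fun h2 => hI' (Finset.mem_of_mem_erase h2)),
          GG_not (b := a) (Finset.notMem_erase _ _)]
      rw [e3]
      congr 1
      · rw [lst_succ, e, if_neg (Finset.notMem_erase _ _), e2]
      · congr 1
        apply List.map_congr_left
        intro x hx
        rw [lst_succ, e, if_pos (Finset.mem_erase.2 ⟨hne x hx, ha⟩)]
    · rw [ih (a + 1) (by omega) hI' F]
      congr 1
      apply List.map_congr_left
      intro x hx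
      rw [lst_succ, e, if_neg (fun h2 => ha (Finset.mem_of_mem_erase h2))]

theorem lst_nodup {a : ZMod N} {m : ℕ} (hm : m ≤ N) (I : Finset (ZMod N)) : (lst a m I).Nodup := by
  unfold lst
  apply List.Nodup.filter
  rw [List.nodup_map_iff_inj_on List.nodup_range]
  intro s hs t ht hst
  rw [List.mem_range] at hs ht
  rcases lt_trichotomy s t with h | h | h
  · exfalso
    apply nat_ne (N := N) (t := t - s) (by omega) (by omega)
    rw [Nat.cast_sub (by omega)]
    linear_combination -hst
  · exact h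
  · exfalso
    apply nat_ne (N := N) (t := s - t) (by omega) (by omega)
    rw [Nat.cast_sub (by omega)]
    linear_combination hst

theorem lst_toFinset [NeZero N] {e : ZMod N} {I : Finset (ZMod N)} (he : e ∉ I) :
    (lst (e + 1) (N - 1) I).toFinset = I := by
  have hN0 : N ≠ 0 := NeZero.ne N
  ext x
  rw [List.mem_toFinset, mem_lst]
  constructor
  · exact fun h => h.1
  · intro hx
    refine ⟨hx, (x - (e + 1)).val, ?_, ?_⟩
    · have h1 := ZMod.val_lt (x - (e + 1))
      rcases Nat.lt_or_ge (x - (e + 1)).val (N - 1) with h2 | h2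
      · exact h2
      · exfalso
        have h3 : (x - (e + 1)).val + 1 = N := by omega
        have h4 : (((x - (e + 1)).val + 1 : ℕ) : ZMod N) = 0 := by rw [h3]; simp
        push_cast at h4
        rw [ZMod.natCast_zmod_val] at h4
        apply he
        have h5 : x = e := by linear_combination h4
        rw [← h5]
        exact hx
    · rw [ZMod.natCast_zmod_val]
      ring

theorem del_row (hN : 3 ≤ N) [NeZero N] {c : ℤ} {u : ℤ → ℤ} (h : Slope N c u) {e : ZMod N}
    {I : Finset (ZMod N)} (he : e ∉ I) (F : List (ZMod N) → ℤ) :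
    ((del u (rowW e I)).map (fun p => p.1 * F p.2)).sum =
      ∑ x ∈ I, gap (GG (I.erase x) u) x * F (rowW e (I.erase x)) := by
  have e1 : e + 1 = ((rep e + 1 : ℤ) : ZMod N) := by
    push_cast
    rw [rep_cast]
  rw [rowW_eq' hN he, e1, del_seg h I (N - 1) (rep e + 1) (by omega), ← e1]
  · conv_rhs => rw [← lst_toFinset he]
    rw [List.sum_toFinset _ (lst_nodup (by omega) I)]
    congr 1
    apply List.map_congr_left
    intro x hx
    have h2 : (lst (e + 1) (N - 1) I).toFinset = I := lst_toFinset he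
    rw [h2, rowW_eq' hN (fun h3 => he (Finset.mem_of_mem_erase h3))]
  · intro h2
    apply he
    convert h2 using 1
    have h3 : ((N - 1 : ℕ) : ℤ) = (N : ℤ) - 1 := by
      rw [Nat.cast_sub (by omega)]
      simp
    rw [h3]
    push_cast
    rw [rep_cast]
    simp

/-! ### the sums over rows -/

/-- all rows with `j` crossings (`rowS I` is any seam outside `I`) -/
noncomputable def rowS (I : Finset (ZMod N)) : ZMod N :=
  open Classical in if h : ∃ e, e ∉ I then h.choose else 0

noncomputable def Phi [NeZero N] (j : ℕ) (g : P N) : ℤ :=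
  ∑ I ∈ (Finset.univ : Finset (ZMod N)).powersetCard j, q0 (Aw (rowW (rowS I) I) g)

theorem rowS_not {I : Finset (ZMod N)} (h : ∃ e, e ∉ I) : rowS I ∉ I := by
  unfold rowS
  rw [dif_pos h]
  exact h.choose_spec

theorem exists_not [NeZero N] {I : Finset (ZMod N)} (h : I.card < N) : ∃ e, e ∉ I := by
  by_contra h1
  push Not at h1
  have h2 : I = Finset.univ := by
    ext x
    simp [h1 x]
  rw [h2, Finset.card_univ, ZMod.card] at h
  exact lt_irrefl _ h

theorem q0_add (f g : P N) : q0 (f + g) = q0 f + q0 g := map_add _ _ _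

theorem q0_mul (f g : P N) : q0 (f * g) = q0 f * q0 g := map_mul _ _ _

theorem q0_int (c : ℤ) : q0 (c : P N) = c := by
  unfold q0
  simp

theorem q0_zero : q0 (0 : P N) = 0 := map_zero _

theorem q0_form [NeZero N] (c : ℤ) (u : ℤ → ℤ) : q0 (form c u : P N) = 0 := by
  unfold q0 form
  simp

theorem q0_list_sum (l : List (ℤ × List (ZMod N))) (g : P N) :
    q0 (l.map (fun p => (p.1 : P N) * Aw p.2 g)).sum =
      (l.map (fun p => p.1 * q0 (Aw p.2 g))).sum := by
  induction l with
  | nil => simp [q0_zero]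
  | cons p l ih => simp only [List.map_cons, List.sum_cons, q0_add, q0_mul, q0_int, ih]

theorem q0_Aw_form_mul (hN : 3 ≤ N) [NeZero N] {c : ℤ} {u : ℤ → ℤ} (h : Slope N c u)
    (w : List (ZMod N)) (g : P N) : q0 (Aw w (form c u * g)) =
      ((del u w).map (fun p => p.1 * q0 (Aw p.2 g))).sum := by
  rw [Aw_form_mul hN h, q0_add, q0_mul, q0_form, zero_mul, zero_add, q0_list_sum]

theorem sum_erase_insert [NeZero N] (j : ℕ) (f : Finset (ZMod N) → ZMod N → ℤ) :
    ∑ I ∈ (Finset.univ : Finset (ZMod N)).powersetCard (j + 1), ∑ x ∈ I, f (I.erase x) x =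
      ∑ J ∈ (Finset.univ : Finset (ZMod N)).powersetCard j, ∑ x ∈ Finset.univ \ J, f J x := by
  rw [Finset.sum_sigma', Finset.sum_sigma']
  refine Finset.sum_bij' (fun p _ => ⟨p.1.erase p.2, p.2⟩) (fun p _ => ⟨insert p.2 p.1, p.2⟩)
    ?_ ?_ ?_ ?_ ?_
  · rintro ⟨I, x⟩ hp
    simp only [Finset.mem_sigma, Finset.mem_powersetCard, Finset.subset_univ, true_and,
      Finset.mem_sdiff, Finset.mem_univ] at hp ⊢
    refine ⟨?_, Finset.notMem_erase _ _⟩
    rw [Finset.card_erase_of_mem hp.2, hp.1]
    rfl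
  · rintro ⟨J, x⟩ hp
    simp only [Finset.mem_sigma, Finset.mem_powersetCard, Finset.subset_univ, true_and,
      Finset.mem_sdiff, Finset.mem_univ] at hp ⊢
    refine ⟨?_, Finset.mem_insert_self _ _⟩
    rw [Finset.card_insert_of_notMem hp.2, hp.1]
  · rintro ⟨I, x⟩ hp
    simp only [Finset.mem_sigma, Finset.mem_powersetCard, Finset.subset_univ, true_and] at hp
    simp only [Finset.insert_erase hp.2]
  · rintro ⟨J, x⟩ hp
    simp only [Finset.mem_sigma, Finset.mem_powersetCard, Finset.subset_univ, true_and,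
      Finset.mem_sdiff, Finset.mem_univ] at hp
    simp only [Finset.erase_insert hp.2]
  · rintro ⟨I, x⟩ hp
    rfl

theorem Phi_form_mul (hN : 3 ≤ N) [NeZero N] {c : ℤ} {u : ℤ → ℤ} (h : Slope N c u) (j : ℕ)
    (hj : j + 1 < N) (g : P N) : Phi (j + 1) (form c u * g) = c * Phi j g := by
  have step : ∀ I ∈ (Finset.univ : Finset (ZMod N)).powersetCard (j + 1),
      q0 (Aw (rowW (rowS I) I) (form c u * g)) =
        ∑ x ∈ I, (fun (J : Finset (ZMod N)) (x : ZMod N) =>
          gap (GG J u) x * q0 (Aw (rowW (rowS J) J) g)) (I.erase x) x := by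
    intro I hI
    rw [Finset.mem_powersetCard] at hI
    have he : rowS I ∉ I := rowS_not (exists_not (by omega))
    rw [q0_Aw_form_mul hN h, del_row hN h he (fun w => q0 (Aw w g))]
    apply Finset.sum_congr rfl
    intro x hx
    have he1 : rowS I ∉ I.erase x := fun h3 => he (Finset.mem_of_mem_erase h3)
    simp only
    rw [rowW_indep hN he1 (rowS_not ⟨_, he1⟩)]
  unfold Phi
  rw [Finset.sum_congr rfl step, sum_erase_insert j (fun (J : Finset (ZMod N)) (x : ZMod N) =>
          gap (GG J u) x * q0 (Aw (rowW (rowS J) J) g)), Finset.mul_sum]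
  apply Finset.sum_congr rfl
  intro J hJ
  rw [Finset.mem_powersetCard] at hJ
  rw [← Finset.sum_mul]
  congr 1
  have hJe : ∃ e, e ∉ J := exists_not (by omega)
  rw [← sum_gap hN (GG_slope (J := J) h)]
  apply Finset.sum_subset (Finset.sdiff_subset)
  intro x _ hx
  simp only [Finset.mem_sdiff, Finset.mem_univ, true_and, not_not] at hx
  unfold gap
  rw [GG_mem (b := rep x) hJe (by rw [rep_cast]; exact hx)]
  ring

theorem Phi_zero_form_mul (hN : 3 ≤ N) [NeZero N] {c : ℤ} {u : ℤ → ℤ} (h : Slope N c u)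
    (g : P N) : Phi 0 (form c u * g) = 0 := by
  unfold Phi
  rw [Finset.powersetCard_zero, Finset.sum_singleton]
  have : rowW (rowS (∅ : Finset (ZMod N))) ∅ = [] := by
    unfold rowW
    simp
  rw [this]
  simp only [Aw]
  rw [q0_mul, q0_form, zero_mul]

theorem Phi_zero [NeZero N] (g : P N) : Phi 0 g = q0 g := by
  unfold Phi
  rw [Finset.powersetCard_zero, Finset.sum_singleton]
  have : rowW (rowS (∅ : Finset (ZMod N))) ∅ = [] := by
    unfold rowW
    simp
  rw [this]
  rfl

theorem Phi_add (hN : 3 ≤ N) [NeZero N] (j : ℕ) (f g : P N) : Phi j (f + g) = Phi j f + Phi j g := by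
  unfold Phi
  rw [← Finset.sum_add_distrib]
  apply Finset.sum_congr rfl
  intro I _
  rw [Aw_add hN, q0_add]

theorem Phi_int_mul (hN : 3 ≤ N) [NeZero N] (j : ℕ) (c : ℤ) (g : P N) :
    Phi j ((c : P N) * g) = c * Phi j g := by
  unfold Phi
  rw [Finset.mul_sum]
  apply Finset.sum_congr rfl
  intro I _
  rw [Aw_int_mul hN, q0_mul, q0_int]

theorem Phi_list_sum (hN : 3 ≤ N) [NeZero N] (j : ℕ) (l : List (ℤ × List (ZMod N))) (g : P N) :
    Phi j (l.map (fun p => (p.1 : P N) * Aw p.2 g)).sum =
      (l.map (fun p => p.1 * Phi j (Aw p.2 g))).sum := by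
  induction l with
  | nil =>
    have h0 := Phi_int_mul hN j 0 (0 : P N)
    simpa using h0
  | cons p l ih => simp only [List.map_cons, List.sum_cons, Phi_add hN, Phi_int_mul hN, ih]

theorem Phi_one (hN : 3 ≤ N) [NeZero N] {j : ℕ} (hj : 0 < j) (hjN : j < N) (w : List (ZMod N)) :
    Phi j (Aw w (1 : P N)) = 0 := by
  rcases eq_or_ne w [] with rfl | hw
  · unfold Phi
    apply Finset.sum_eq_zero
    intro I hI
    rw [Finset.mem_powersetCard] at hI
    simp only [Aw]
    rw [Aw_one hN, q0_zero]
    intro h1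
    have he : rowS I ∉ I := rowS_not (exists_not (by omega))
    rw [rowW_eq' hN he] at h1
    have h2 := lst_toFinset he
    rw [h1] at h2
    simp only [List.toFinset_nil] at h2
    rw [← h2] at hI
    simp only [Finset.card_empty] at hI
    omega
  · rw [Aw_one hN w hw]
    have h0 := Phi_int_mul hN j 0 (0 : P N)
    simpa using h0

/-- the recursion for powers -/
theorem Phi_pow_succ (hN : 3 ≤ N) [NeZero N] {c : ℤ} {u : ℤ → ℤ} (h : Slope N c u) (j : ℕ)
    (hj : j + 1 < N) (w : List (ZMod N)) (s : ℕ) :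
    Phi (j + 1) (Aw w ((form c u : P N) ^ (s + 1))) = c * Phi j (Aw w ((form c u : P N) ^ s)) +
      ((del u w).map (fun p => p.1 * Phi (j + 1) (Aw p.2 ((form c u : P N) ^ s)))).sum := by
  rw [pow_succ', Aw_form_mul hN h, Phi_add hN, Phi_form_mul hN (h.run w) j hj, Phi_list_sum hN]

theorem Phi_vanish (hN : 3 ≤ N) [NeZero N] {c : ℤ} {u : ℤ → ℤ} (h : Slope N c u) : ∀ (s j : ℕ),
    s < j → j < N → ∀ w : List (ZMod N), Phi j (Aw w ((form c u : P N) ^ s)) = 0 := by
  intro s
  induction s with
  | zero =>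
    intro j hj hjN w
    rw [pow_zero]
    exact Phi_one hN hj hjN w
  | succ s ih =>
    intro j hj hjN w
    obtain ⟨j, rfl⟩ : ∃ j', j = j' + 1 := ⟨j - 1, by omega⟩
    rw [Phi_pow_succ hN h j hjN, ih j (by omega) (by omega), mul_zero, zero_add]
    apply List.sum_eq_zero
    intro x hx
    rw [List.mem_map] at hx
    obtain ⟨p, _, rfl⟩ := hx
    rw [ih (j + 1) (by omega) hjN, mul_zero]

theorem EE_succ (hN : 3 ≤ N) [NeZero N] {c : ℤ} {u : ℤ → ℤ} (h : Slope N c u)
    (w : List (ZMod N)) (m : ℕ) :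
    EE c u w (m + 1) = ((del u w).map (fun p => p.1 * EE c u p.2 m)).sum := by
  unfold EE
  rw [pow_succ', q0_Aw_form_mul hN h]

theorem Phi_Aw_pow (hN : 3 ≤ N) [NeZero N] {c : ℤ} {u : ℤ → ℤ} (h : Slope N c u) (j : ℕ)
    (hj : j < N) (w : List (ZMod N)) (m : ℕ) :
    Phi j (Aw w ((form c u : P N) ^ (m + j))) = c ^ j * ((m + j).choose j) * EE c u w m := by
  induction j generalizing w m with
  | zero =>
    rw [Phi_zero]
    simp [EE]
  | succ j ihj =>
    induction m generalizing w with
    | zero =>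
      have e : 0 + (j + 1) = (0 + j) + 1 := by ring
      rw [e, Phi_pow_succ hN h j hj, ihj (by omega) w 0]
      have h0 : ((del u w).map
          (fun p => p.1 * Phi (j + 1) (Aw p.2 ((form c u : P N) ^ (0 + j))))).sum = 0 := by
        apply List.sum_eq_zero
        intro x hx
        rw [List.mem_map] at hx
        obtain ⟨p, _, rfl⟩ := hx
        rw [Phi_vanish hN h (0 + j) (j + 1) (by omega) hj, mul_zero]
      rw [h0]
      simp only [zero_add, Nat.choose_self, Nat.cast_one, mul_one]
      ring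
    | succ m ihm =>
      have e : m + 1 + (j + 1) = (m + (j + 1)) + 1 := by ring
      have e' : m + (j + 1) = (m + 1) + j := by ring
      rw [e, Phi_pow_succ hN h j hj]
      have h1 : Phi j (Aw w ((form c u : P N) ^ (m + (j + 1)))) =
          c ^ j * ((m + 1 + j).choose j) * EE c u w (m + 1) := by
        rw [e']
        exact ihj (by omega) w (m + 1)
      rw [h1]
      have h2 : ((del u w).map
          (fun p => p.1 * Phi (j + 1) (Aw p.2 ((form c u : P N) ^ (m + (j + 1)))))).sum =
          c ^ (j + 1) * ((m + (j + 1)).choose (j + 1)) * EE c u w (m + 1) := by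
        rw [EE_succ hN h, ← List.sum_map_mul_left]
        congr 1
        apply List.map_congr_left
        intro p _
        rw [ihm p.2]
        ring
      rw [h2]
      have h3 : (m + (j + 1) + 1).choose (j + 1) = (m + 1 + j).choose j + (m + (j + 1)).choose (j + 1) := by
        rw [Nat.choose_succ_succ, e']
      rw [h3]
      push_cast
      ring

end Pool.Agent.Schub.Aff
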