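import Pool.Agent.SchubU.Pos
import Pool.Agent.Helper78.SchubFam

/-!
Uniqueness of the value of a reduced word, potentials, and sorting.
-/

set_option autoImplicit false

namespace Pool.Agent.Schub.Aff

open MvPolynomial

variable {N : ℕ}

theorem gap_pos_of_strictMono {u : ℤ → ℤ} (hm : StrictMono u) (k : ZMod N) : 0 < gap u k := by
  unfold gap
  have := hm (show rep k < rep k + 1 by omega)
  omega

theorem uniq (hN : 3 ≤ N) [NeZero N] {u u' : ℤ → ℤ} (hu : Slope N N u) (hm : StrictMono u)
    (hu' : Slope N N u') (hm' : StrictMono u') :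
    ∀ (w w' : List (ZMod N)), Asc u w → Asc u' w' → run u w = run u' w' →
      w.length = w'.length ∧ u = u' ∧ ∀ f : P N, Aw w f = Aw w' f := by
  intro w
  induction w with
  | nil =>
    intro w' _ hw' hr
    rcases w' with _ | ⟨k, w'⟩
    · exact ⟨rfl, hr, fun _ => rfl⟩
    · exfalso
      have h1 := gap_pos_of_strictMono hm k
      simp only [run] at hr
      rw [hr, gap_comp_self hN (hu'.run w')] at h1
      have := hw'.2
      omega
  | cons k w ih =>
    intro w' hw hw' hr
    have h1 : gap (run u' w') k < 0 := by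
      rw [← hr]
      simp only [run]
      rw [gap_comp_self hN (hu.run w)]
      have := hw.2
      omega
    obtain ⟨w1, hw1, hl1, hr1, hA1⟩ := peel hN hu' hm' w'.length w' rfl hw' k h1
    have h2 : run u w = run u' w1 := by
      rw [hr1, ← hr]
      funext i
      simp only [run, aff_aff hN]
    obtain ⟨h3, h4, h5⟩ := ih w1 hw.1 hw1 h2
    refine ⟨by rw [List.length_cons, h3, hl1], h4, ?_⟩
    intro f
    rw [hA1]
    simp only [Aw, h5]

/-- A quadratic potential. -/
def pot [NeZero N] (s : ℤ) (v : ℤ → ℤ) : ℤ := ∑ j : ZMod N, (v (rep j) - rep j - s) ^ 2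

theorem pot_nonneg [NeZero N] (s : ℤ) (v : ℤ → ℤ) : 0 ≤ pot (N := N) s v :=
  Finset.sum_nonneg (fun _ _ => sq_nonneg _)

theorem pot_comp (hN : 3 ≤ N) [NeZero N] {v : ℤ → ℤ} (h : Slope N N v) (s : ℤ) (k : ZMod N) :
    pot (N := N) s (fun i => v (aff k i)) = pot (N := N) s v + 2 * gap v k := by
  have hk := rep_cast k
  have hk1 := rep_cast (k + 1)
  have hne := succ_ne hN k
  have hp : v (rep (k + 1) - 1) - rep (k + 1) = v (rep k) - (rep k + 1) ∧
      v (rep (k + 1)) - rep (k + 1) = v (rep k + 1) - (rep k + 1) := by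
    rw [rep_succ hN]
    split_ifs with h0
    · have e1 := h (rep k - N)
      have e2 := h (rep k + 1 - N)
      have a1 : rep k - (N : ℤ) + N = rep k := by ring
      have a2 : rep k + 1 - (N : ℤ) + N = rep k + 1 := by ring
      have a3 : rep k + 1 - (N : ℤ) - 1 = rep k - N := by ring
      rw [a1] at e1
      rw [a2] at e2
      rw [a3]
      constructor <;> linarith
    · have a3 : rep k + 1 - 0 - 1 = rep k := by ring
      rw [a3, sub_zero]
      constructor <;> ring
  have key : ∀ j : ZMod N, (v (aff k (rep j)) - rep j - s) ^ 2 =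
      (v (rep j) - rep j - s) ^ 2 +
        ((if j = k then (v (rep k + 1) - rep k - s) ^ 2 - (v (rep k) - rep k - s) ^ 2 else 0) +
        (if j = k + 1 then (v (rep k) - (rep k + 1) - s) ^ 2
          - (v (rep k + 1) - (rep k + 1) - s) ^ 2 else 0)) := by
    intro j
    by_cases h1 : j = k
    · subst h1
      rw [aff_of hk, if_pos rfl, if_neg hne.symm]
      ring
    by_cases h2 : j = k + 1
    · subst h2
      rw [aff_of_succ hN hk1, if_neg hne, if_pos rfl]
      have e1 : v (rep (k + 1) - 1) - rep (k + 1) - s = v (rep k) - (rep k + 1) - s := by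
        rw [hp.1]
      have e2 : v (rep (k + 1)) - rep (k + 1) - s = v (rep k + 1) - (rep k + 1) - s := by
        rw [hp.2]
      rw [e1, e2]
      ring
    · rw [aff_ne (by rw [rep_cast]; exact h1) (by rw [rep_cast]; exact h2), if_neg h1, if_neg h2]
      ring
  unfold pot
  rw [Finset.sum_congr rfl (fun j _ => key j), Finset.sum_add_distrib, Finset.sum_add_distrib,
    Finset.sum_ite_eq', Finset.sum_ite_eq']
  simp only [Finset.mem_univ, if_true]
  unfold gap
  ring

theorem length_le_pot (hN : 3 ≤ N) [NeZero N] {u : ℤ → ℤ} (hu : Slope N N u) (s : ℤ)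
    (w : List (ZMod N)) (hw : Asc u w) : 2 * (w.length : ℤ) ≤ pot (N := N) s (run u w) := by
  induction w with
  | nil => simpa [run] using pot_nonneg (N := N) s u
  | cons k w ih =>
    simp only [run, List.length_cons]
    rw [pot_comp hN (hu.run w)]
    have h1 := ih hw.1
    have h2 := hw.2
    push_cast
    omega

theorem strictMono_of_gap [NeZero N] {c : ℤ} {v : ℤ → ℤ} (h : Slope N c v)
    (hg : ∀ k : ZMod N, 0 < gap v k) : StrictMono v := by
  apply strictMono_int_of_lt_succ
  intro i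
  have := hg (i : ZMod N)
  rw [gap_eq h] at this
  omega

theorem exists_sort (hN : 3 ≤ N) [NeZero N] (n : ℕ) : ∀ (v : ℤ → ℤ), Slope N N v →
    Function.Injective v → (pot (N := N) 0 v).toNat = n →
      ∃ (u : ℤ → ℤ) (w : List (ZMod N)), Slope N N u ∧ StrictMono u ∧ Asc u w ∧ run u w = v := by
  induction n using Nat.strong_induction_on with
  | _ n ih =>
    intro v hv hi hn
    by_cases hg : ∀ k : ZMod N, 0 < gap v k
    · exact ⟨v, [], hv, strictMono_of_gap hv hg, trivial, rfl⟩
    · push Not at hg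
      obtain ⟨k, hk⟩ := hg
      have hk0 := gap_ne hN hi [] k
      simp only [run] at hk0
      have hk1 : gap v k < 0 := by omega
      have hp := pot_comp hN hv 0 k
      have hp1 := pot_nonneg (N := N) 0 (fun i => v (aff k i))
      have hp2 := pot_nonneg (N := N) 0 v
      have hi' : Function.Injective (fun i => v (aff k i)) := run_inj hN hi [k]
      obtain ⟨u, w, h1, h2, h3, h4⟩ := ih (pot (N := N) 0 (fun i => v (aff k i))).toNat
        (by omega) (fun i => v (aff k i)) (hv.comp k) hi' rfl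
      refine ⟨u, k :: w, h1, h2, ⟨h3, ?_⟩, ?_⟩
      · rw [h4, gap_comp_self hN hv]
        omega
      · funext i
        simp only [run, h4, aff_aff hN]

/-- Windows with small gaps have bounded potential. -/
theorem pot_le (hN : 3 ≤ N) [NeZero N] {v : ℤ → ℤ} (h : Slope N N v) (o : ℤ) (hd : Dec N o v)
    (hg : ∀ i : ℕ, 1 ≤ i → i < N → v (o + i) - v (o + i + 1) ≤ N) :
    pot (N := N) (v (o + 1) - (o + 1)) v ≤ (N : ℤ) ^ 5 := by
  have hNpos : (0 : ℤ) < N := by omega
  have h1 : ∀ i : ℕ, i < N → v (o + 1 + i) ≤ v (o + 1) ∧ v (o + 1) ≤ v (o + 1 + i) + i * N := by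
    intro i
    induction i with
    | zero => intro _; simp
    | succ i ih =>
      intro hi
      obtain ⟨a1, a2⟩ := ih (by omega)
      have b1 := hd (i + 1) (by omega) (by omega)
      have b2 := hg (i + 1) (by omega) (by omega)
      push_cast at b1 b2 ⊢
      have e1 : o + ((i : ℤ) + 1) = o + 1 + i := by ring
      have e2 : o + ((i : ℤ) + 1) + 1 = o + 1 + (i + 1) := by ring
      rw [e1] at b1 b2
      have e3 : o + 1 + (i : ℤ) + 1 = o + 1 + (i + 1) := by ring
      rw [e3] at b1 b2
      constructor <;> nlinarith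
  have h2 : ∀ j : ZMod N, (v (rep j) - rep j - (v (o + 1) - (o + 1))) ^ 2 ≤ (N : ℤ) ^ 4 := by
    intro j
    -- the representative in the window
    set t : ℤ := (rep j - (o + 1)) % N with ht
    have t0 : 0 ≤ t := Int.emod_nonneg _ hNpos.ne'
    have t1 : t < N := Int.emod_lt_of_pos _ hNpos
    obtain ⟨i, hi⟩ : ∃ i : ℕ, (i : ℤ) = t := ⟨t.toNat, Int.toNat_of_nonneg t0⟩
    have hiN : i < N := by omega
    have hq := Int.emod_add_mul_ediv (rep j - (o + 1)) N
    have e1 : rep j = (o + 1 + i) + N * ((rep j - (o + 1)) / N) := by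
      rw [hi, ht]; linarith
    have e2 : v (rep j) - rep j = v (o + 1 + i) - (o + 1 + i) := by
      rw [e1, h.mul]; ring
    obtain ⟨a1, a2⟩ := h1 i hiN
    rw [e2]
    have hi' : (i : ℤ) ≤ N - 1 := by omega
    have hi0 : (0 : ℤ) ≤ i := by omega
    have hN3 : (3 : ℤ) ≤ N := by exact_mod_cast hN
    have c1 : v (o + 1 + i) - (o + 1 + i) - (v (o + 1) - (o + 1)) ≤ 0 := by linarith
    have c2 : -(N : ℤ) ^ 2 ≤ v (o + 1 + i) - (o + 1 + i) - (v (o + 1) - (o + 1)) := by nlinarith
    have e4 : (N : ℤ) ^ 4 = ((N : ℤ) ^ 2) ^ 2 := by ring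
    rw [e4]
    exact sq_le_sq' c2 (by nlinarith)
  unfold pot
  calc ∑ j : ZMod N, (v (rep j) - rep j - (v (o + 1) - (o + 1))) ^ 2
      ≤ ∑ _j : ZMod N, (N : ℤ) ^ 4 := Finset.sum_le_sum (fun j _ => h2 j)
    _ = (N : ℤ) ^ 5 := by
      rw [Finset.sum_const, Finset.card_univ, ZMod.card, nsmul_eq_mul]
      ring

/-! ### sorting a window -/

open Pool.Agent.Helper78.Schub in
/-- number of increasing pairs of the window -/
def ncnt (N : ℕ) (o : ℤ) (v : ℤ → ℤ) : ℕ :=
  (Finset.univ.filter (fun p : Fin N × Fin N => p.1 < p.2 ∧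
    v (o + 1 + ((p.1 : ℕ) : ℤ)) < v (o + 1 + ((p.2 : ℕ) : ℤ)))).card

theorem ncnt_le (N : ℕ) (o : ℤ) (v : ℤ → ℤ) : ncnt N o v ≤ N * N := by
  unfold ncnt
  calc _ ≤ (Finset.univ : Finset (Fin N × Fin N)).card := Finset.card_filter_le _ _
    _ = N * N := by simp

open Pool.Agent.Helper78.Schub in
theorem aff_window (hN : 3 ≤ N) [NeZero N] (o : ℤ) (i : ℕ) (hi : i + 1 < N) (p : Fin N) :
    aff ((o + 1 + i : ℤ) : ZMod N) (o + 1 + ((p : ℕ) : ℤ)) =
      o + 1 + ((adj i hi p : ℕ) : ℤ) := by
  have hc : ∀ a b : ℕ, a < N → b < N → (((o + 1 + a : ℤ)) : ZMod N) = ((o + 1 + b : ℤ) : ZMod N) →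
      a = b := by
    intro a b ha hb hab
    rw [ZMod.intCast_eq_intCast_iff_dvd_sub] at hab
    obtain ⟨m, hm⟩ := hab
    have hNpos : (0 : ℤ) < N := by omega
    have h1 : (b : ℤ) - a = N * m := by linarith
    have h2 : m = 0 := by
      by_contra hm0
      rcases lt_or_gt_of_ne hm0 with h | h
      · have : (N : ℤ) * m ≤ -N := by nlinarith
        omega
      · have : (N : ℤ) ≤ N * m := by nlinarith
        omega
    rw [h2, mul_zero] at h1
    omega
  by_cases h1 : (p : ℕ) = i
  · have hp : p = ⟨i, Nat.lt_of_succ_lt hi⟩ := Fin.ext h1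
    rw [hp, adj_left, aff_of rfl]
    push_cast
    ring
  by_cases h2 : (p : ℕ) = i + 1
  · have hp : p = ⟨i + 1, hi⟩ := Fin.ext h2
    rw [hp, adj_right, aff_of_succ hN (by push_cast; ring)]
    push_cast
    ring
  rw [adj_ne i hi p h1 h2, aff_ne]
  · intro h
    exact h1 (hc _ _ p.2 (by omega) h)
  · intro h
    apply h2
    apply hc _ _ p.2 hi
    rw [h]
    push_cast
    ring

open Pool.Agent.Helper78.Schub in
theorem ncnt_step (hN : 3 ≤ N) [NeZero N] (o : ℤ) (v : ℤ → ℤ) (i : ℕ) (hi : i + 1 < N)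
    (hlt : v (o + 1 + i) < v (o + 1 + i + 1)) :
    ncnt N o (fun x => v (aff ((o + 1 + i : ℤ) : ZMod N) x)) < ncnt N o v := by
  unfold ncnt
  set s := adj i hi with hs
  set B := Finset.univ.filter (fun p : Fin N × Fin N => p.1 < p.2 ∧
    v (o + 1 + ((p.1 : ℕ) : ℤ)) < v (o + 1 + ((p.2 : ℕ) : ℤ))) with hB
  have hmem : ((⟨i, Nat.lt_of_succ_lt hi⟩, ⟨i + 1, hi⟩) : Fin N × Fin N) ∈ B := by
    rw [hB, Finset.mem_filter]
    refine ⟨Finset.mem_univ _, ?_, ?_⟩
    · show i < i + 1; omega
    · show v (o + 1 + ((i : ℕ) : ℤ)) < v (o + 1 + ((i + 1 : ℕ) : ℤ))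
      push_cast
      have e : o + 1 + ((i : ℤ) + 1) = o + 1 + i + 1 := by ring
      rw [e]
      exact hlt
  calc _ ≤ (B.erase (⟨i, Nat.lt_of_succ_lt hi⟩, ⟨i + 1, hi⟩)).card := ?_
    _ < B.card := Finset.card_erase_lt_of_mem hmem
  apply Finset.card_le_card_of_injOn (fun p => (s p.1, s p.2))
  · rintro ⟨p, q⟩ hpq
    rw [Finset.mem_coe, Finset.mem_filter] at hpq
    have hpq : p < q ∧ v (aff ((o + 1 + i : ℤ) : ZMod N) (o + 1 + ((p : ℕ) : ℤ))) <
        v (aff ((o + 1 + i : ℤ) : ZMod N) (o + 1 + ((q : ℕ) : ℤ))) := hpq.2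
    rw [aff_window hN o i hi, aff_window hN o i hi] at hpq
    obtain ⟨h1, h2⟩ := hpq
    have hne : ¬ ((p : ℕ) = i ∧ (q : ℕ) = i + 1) := by
      rintro ⟨a1, a2⟩
      have hp : p = ⟨i, Nat.lt_of_succ_lt hi⟩ := Fin.ext a1
      have hq : q = ⟨i + 1, hi⟩ := Fin.ext a2
      rw [hp, hq, adj_left, adj_right] at h2
      have e : o + 1 + ((i : ℤ) + 1) = o + 1 + i + 1 := by ring
      have h3 : v (o + 1 + i + 1) < v (o + 1 + i) := by
        rw [← e]
        exact_mod_cast h2
      omega
    have h3 := adj_lt i hi p q h1 hne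
    rw [Finset.mem_coe, Finset.mem_erase]
    refine ⟨?_, ?_⟩
    · intro heq
      simp only [Prod.mk.injEq] at heq
      obtain ⟨b1, b2⟩ := heq
      have hp := congrArg s b1
      have hq := congrArg s b2
      rw [hs, adj_adj, adj_left] at hp
      rw [hs, adj_adj, adj_right] at hq
      rw [hp, hq] at h1
      have : i + 1 < i := h1
      omega
    · rw [hB, Finset.mem_filter]
      exact ⟨Finset.mem_univ _, h3, h2⟩
  · rintro ⟨a, b⟩ _ ⟨c, d⟩ _ hh
    simp only [Prod.mk.injEq] at hh
    rw [s.injective hh.1, s.injective hh.2]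

theorem exists_window_sort (hN : 3 ≤ N) [NeZero N] (o : ℤ) (n : ℕ) : ∀ (v : ℤ → ℤ), Slope N N v →
    Function.Injective v → ncnt N o v = n →
      ∃ x : List (ZMod N), x.length ≤ n ∧ Asc v x ∧ Dec N o (run v x) := by
  induction n using Nat.strong_induction_on with
  | _ n ih =>
    intro v hv hi hn
    by_cases hd : Dec N o v
    · exact ⟨[], Nat.zero_le _, trivial, hd⟩
    · unfold Dec at hd
      push Not at hd
      obtain ⟨i, h1, h2, h3⟩ := hd
      obtain ⟨i, rfl⟩ : ∃ i', i = i' + 1 := ⟨i - 1, by omega⟩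
      push_cast at h3
      have e1 : o + ((i : ℤ) + 1) = o + 1 + i := by ring
      rw [e1] at h3
      have h4 : v (o + 1 + i) ≠ v (o + 1 + i + 1) := by
        intro h
        have := hi h
        omega
      have h5 : v (o + 1 + i) < v (o + 1 + i + 1) := lt_of_le_of_ne h3 h4
      have h6 := ncnt_step hN o v i h2 h5
      set k : ZMod N := ((o + 1 + i : ℤ) : ZMod N) with hk
      have hi' : Function.Injective (fun x => v (aff k x)) := run_inj hN hi [k]
      obtain ⟨x, hx1, hx2, hx3⟩ := ih _ (by omega) (fun x => v (aff k x)) (hv.comp k) hi' rfl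
      have ha : ∀ (y : List (ZMod N)), run v (y ++ [k]) = run (fun x => v (aff k x)) y := by
        intro y
        induction y with
        | nil => rfl
        | cons j y ihy => funext z; simp only [List.cons_append, run, ihy]
      have hb : ∀ (y : List (ZMod N)), Asc (fun x => v (aff k x)) y → Asc v (y ++ [k]) := by
        intro y
        induction y with
        | nil =>
          intro _
          refine ⟨trivial, ?_⟩
          simp only [run]
          rw [hk, gap_eq hv]
          omega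
        | cons j y ihy =>
          intro hy
          refine ⟨ihy hy.1, ?_⟩
          have h7 := hy.2
          rw [← ha y] at h7
          exact h7
      refine ⟨x ++ [k], ?_, hb x hx2, ?_⟩
      · rw [List.length_append, List.length_singleton]
        omega
      · rw [ha]
        exact hx3

end Pool.Agent.Schub.Aff
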