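import Pool.Agent.SchubU.Defs

/-!
Symmetric polynomials pass through the divided differences: the factor lemma.
-/

set_option autoImplicit false

namespace Pool.Agent.Schub.Aff

open MvPolynomial

variable {N : ℕ}

/-! ### Restriction to the variable of level one -/

/-- All `x_i` are set to zero. -/
noncomputable def sy_chi : P N →ₐ[ℤ] Polynomial ℤ :=
  aeval (fun j : Option (ZMod N) => j.elim Polynomial.X (fun _ => 0))

theorem sy_chi_none : sy_chi (X none : P N) = Polynomial.X := by simp [sy_chi]

theorem sy_chi_some (i : ZMod N) : sy_chi (X (some i) : P N) = 0 := by simp [sy_chi]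

theorem sy_chi_coeff (f : P N) (s : ℕ) : (sy_chi f).coeff s = coeff (Finsupp.single none s) f := by
  induction f using MvPolynomial.induction_on generalizing s with
  | C a =>
    have h1 : sy_chi (C a : P N) = Polynomial.C a := (sy_chi (N := N)).commutes a
    rw [h1, Polynomial.coeff_C, coeff_C]
    by_cases hs : s = 0
    · subst hs
      simp
    · rw [if_neg hs, if_neg]
      intro h
      have := DFunLike.congr_fun h none
      simp at this
      exact hs this.symm
  | add p q hp hq => rw [map_add, Polynomial.coeff_add, coeff_add, hp, hq]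
  | mul_X p j hp =>
    rw [map_mul, coeff_mul_X']
    cases j with
    | none =>
      rw [sy_chi_none]
      cases s with
      | zero => simp
      | succ s =>
        rw [Polynomial.coeff_mul_X, hp, if_pos (by simp)]
        congr 1
        rw [← Finsupp.single_tsub, Nat.add_sub_cancel]
    | some i =>
      rw [sy_chi_some, mul_zero, if_neg]
      · simp
      · intro h
        simp [Finsupp.mem_support_iff] at h

theorem sy_chi_coeff_zero (f : P N) : (sy_chi f).coeff 0 = q0 f := by
  rw [sy_chi_coeff, Finsupp.single_zero]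
  rfl

theorem sy_chi_form [NeZero N] (c : ℤ) (u : ℤ → ℤ) :
    sy_chi (form c u : P N) = Polynomial.C c * Polynomial.X := by
  unfold form
  rw [map_sub, map_mul, map_sum, sy_chi_none, map_intCast]
  have : ∑ j : ZMod N, sy_chi ((u (rep j) : P N) * X (some j)) = 0 :=
    Finset.sum_eq_zero fun j _ => by rw [map_mul, sy_chi_some, mul_zero]
  rw [this, sub_zero]
  simp

theorem sy_q0_add (f g : P N) : q0 (f + g) = q0 f + q0 g := map_add _ _ _

theorem sy_q0_mul (f g : P N) : q0 (f * g) = q0 f * q0 g := map_mul _ _ _

theorem sy_q0_form [NeZero N] (c : ℤ) (u : ℤ → ℤ) : q0 (form c u : P N) = 0 := by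
  rw [← sy_chi_coeff_zero, sy_chi_form]
  simp

theorem sy_q0_intCast (c : ℤ) : q0 (c : P N) = c := by
  unfold q0
  rw [map_intCast]
  simp

/-! ### Powers of a form -/

theorem sy_A_one (hN : 3 ≤ N) (k : ZMod N) : A k (1 : P N) = 0 := A_of_sg hN (map_one _)

theorem sy_Aw_one (hN : 3 ≤ N) (w : List (ZMod N)) (hw : w ≠ []) : Aw w (1 : P N) = 0 := by
  induction w with
  | nil => exact absurd rfl hw
  | cons k w ih =>
    by_cases h : w = []
    · subst h
      exact sy_A_one hN k
    · show A k (Aw w 1) = 0
      rw [ih h, A_zero hN]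

theorem sy_chi_Aw_form_mul (hN : 3 ≤ N) [NeZero N] {c : ℤ} {u : ℤ → ℤ} (h : Slope N c u)
    (w : List (ZMod N)) (g : P N) :
    sy_chi (Aw w (form c u * g)) = Polynomial.C c * Polynomial.X * sy_chi (Aw w g)
      + ((del u w).map (fun p => Polynomial.C p.1 * sy_chi (Aw p.2 g))).sum := by
  rw [Aw_form_mul hN h, map_add, map_mul, sy_chi_form, map_list_sum, List.map_map]
  congr 2
  apply List.map_congr_left
  intro p _
  simp

theorem sy_coeff_list_sum (l : List (ℤ × List (ZMod N))) (F : List (ZMod N) → Polynomial ℤ)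
    (s : ℕ) :
    ((l.map (fun p : ℤ × List (ZMod N) => Polynomial.C p.1 * F p.2)).sum).coeff s =
      (l.map (fun p : ℤ × List (ZMod N) => p.1 * (F p.2).coeff s)).sum := by
  induction l with
  | nil => simp
  | cons p l ih => simp only [List.map_cons, List.sum_cons, Polynomial.coeff_add, ih,
      Polynomial.coeff_C_mul]

theorem sy_cf_succ (hN : 3 ≤ N) [NeZero N] {c : ℤ} {u : ℤ → ℤ} (h : Slope N c u)
    (w : List (ZMod N)) (m s : ℕ) :
    (sy_chi (Aw w ((form c u : P N) ^ (m + 1)))).coeff (s + 1) =
      c * (sy_chi (Aw w ((form c u : P N) ^ m))).coeff s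
      + ((del u w).map (fun p => p.1 *
        (sy_chi (Aw p.2 ((form c u : P N) ^ m))).coeff (s + 1))).sum := by
  rw [pow_succ', sy_chi_Aw_form_mul hN h, Polynomial.coeff_add, mul_assoc, Polynomial.coeff_C_mul,
    Polynomial.coeff_X_mul, sy_coeff_list_sum _ (fun w => sy_chi (Aw w ((form c u : P N) ^ m)))]

theorem sy_cf_zero (hN : 3 ≤ N) [NeZero N] {c : ℤ} {u : ℤ → ℤ} (h : Slope N c u)
    (w : List (ZMod N)) (m : ℕ) :
    (sy_chi (Aw w ((form c u : P N) ^ (m + 1)))).coeff 0 =
      ((del u w).map (fun p => p.1 *
        (sy_chi (Aw p.2 ((form c u : P N) ^ m))).coeff 0)).sum := by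
  rw [pow_succ', sy_chi_Aw_form_mul hN h, Polynomial.coeff_add,
    sy_coeff_list_sum _ (fun w => sy_chi (Aw w ((form c u : P N) ^ m)))]
  simp

theorem sy_cf_big (hN : 3 ≤ N) [NeZero N] {c : ℤ} {u : ℤ → ℤ} (h : Slope N c u) (m : ℕ) :
    ∀ (w : List (ZMod N)) (s : ℕ), m < s →
      (sy_chi (Aw w ((form c u : P N) ^ m))).coeff s = 0 := by
  induction m with
  | zero =>
    intro w s hs
    rw [pow_zero]
    by_cases hw : w = []
    · subst hw
      show (sy_chi (1 : P N)).coeff s = 0
      rw [map_one, Polynomial.coeff_one, if_neg (by omega)]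
    · rw [sy_Aw_one hN w hw, map_zero, Polynomial.coeff_zero]
  | succ m ih =>
    intro w s hs
    obtain ⟨s, rfl⟩ : ∃ t, s = t + 1 := ⟨s - 1, by omega⟩
    rw [sy_cf_succ hN h, ih w s (by omega), mul_zero, zero_add]
    apply List.sum_eq_zero
    intro x hx
    rw [List.mem_map] at hx
    obtain ⟨p, _, rfl⟩ := hx
    rw [ih p.2 (s + 1) (by omega), mul_zero]

theorem sy_cf_pow (hN : 3 ≤ N) [NeZero N] {c : ℤ} {u : ℤ → ℤ} (h : Slope N c u) (n : ℕ) :
    ∀ (w : List (ZMod N)) (m s : ℕ), m + s = n →
      (sy_chi (Aw w ((form c u : P N) ^ (m + s)))).coeff s =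
        c ^ s * ((m + s).choose s) * (sy_chi (Aw w ((form c u : P N) ^ m))).coeff 0 := by
  induction n with
  | zero =>
    intro w m s hms
    obtain ⟨rfl, rfl⟩ : m = 0 ∧ s = 0 := by omega
    simp
  | succ n ih =>
    intro w m s hms
    cases s with
    | zero => simp
    | succ s =>
      cases m with
      | zero =>
        have e : 0 + (s + 1) = s + 1 := by omega
        rw [e, sy_cf_succ hN h]
        have h1 := ih w 0 s (by omega)
        have e2 : 0 + s = s := by omega
        rw [e2] at h1
        rw [h1]
        have h2 : ((del u w).map (fun p => p.1 *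
            (sy_chi (Aw p.2 ((form c u : P N) ^ s))).coeff (s + 1))).sum = 0 := by
          apply List.sum_eq_zero
          intro x hx
          rw [List.mem_map] at hx
          obtain ⟨p, _, rfl⟩ := hx
          rw [sy_cf_big hN h s p.2 (s + 1) (by omega), mul_zero]
        rw [h2, Nat.choose_self, Nat.choose_self, pow_succ]
        ring
      | succ m =>
        have e : m + 1 + (s + 1) = (m + 1 + s) + 1 := by omega
        rw [e, sy_cf_succ hN h, ih w (m + 1) s (by omega), sy_cf_zero hN h]
        have h2 : ∀ p ∈ del u w,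
            p.1 * (sy_chi (Aw p.2 ((form c u : P N) ^ (m + 1 + s)))).coeff (s + 1) =
            (c ^ (s + 1) * ((m + 1 + s).choose (s + 1))) *
              (p.1 * (sy_chi (Aw p.2 ((form c u : P N) ^ m))).coeff 0) := by
          intro p _
          have e3 : m + 1 + s = m + (s + 1) := by omega
          rw [e3, ih p.2 m (s + 1) (by omega)]
          ring
        rw [List.map_congr_left h2, List.sum_map_mul_left, Nat.choose_succ_succ]
        push_cast
        rw [pow_succ]
        ring

theorem coeff_Aw_pow (hN : 3 ≤ N) [NeZero N] {c : ℤ} {u : ℤ → ℤ} (h : Slope N c u)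
    (w : List (ZMod N)) (m s : ℕ) :
    coeff (Finsupp.single none s) (Aw w ((form c u : P N) ^ (m + s))) =
      c ^ s * ((m + s).choose s) * EE c u w m := by
  unfold EE
  rw [← sy_chi_coeff, ← sy_chi_coeff_zero, sy_cf_pow hN h (m + s) w m s rfl]

theorem sy_EE_ne_length (hN : 3 ≤ N) [NeZero N] {c : ℤ} {u : ℤ → ℤ} (h : Slope N c u) (m : ℕ) :
    ∀ w : List (ZMod N), w.length ≠ m → EE c u w m = 0 := by
  induction m with
  | zero =>
    intro w hw
    unfold EE
    rw [pow_zero, sy_Aw_one hN w (by rintro rfl; exact hw rfl)]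
    exact map_zero _
  | succ m ih =>
    intro w hw
    unfold EE
    rw [← sy_chi_coeff_zero, sy_cf_zero hN h]
    apply List.sum_eq_zero
    intro x hx
    rw [List.mem_map] at hx
    obtain ⟨p, hp, rfl⟩ := hx
    have h1 := length_del u w p hp
    have h2 := ih p.2 (by omega)
    unfold EE at h2
    rw [sy_chi_coeff_zero, h2, mul_zero]

/-! ### The level one function -/

theorem sy_u0_rep [NeZero N] (j : ZMod N) : u0 N (rep j) = 0 := by
  have hN : 0 < N := Nat.pos_of_ne_zero (NeZero.ne N)
  unfold u0
  apply Int.ediv_eq_zero_of_lt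
  · unfold rep
    split_ifs with h
    · omega
    · have : j.val ≠ 0 := by
        intro h2
        exact h ((ZMod.val_eq_zero j).1 h2)
      omega
  · unfold rep
    split_ifs with h
    · omega
    · have := ZMod.val_lt j
      omega

theorem form_u0 [NeZero N] : (form 1 (u0 N) : P N) = X none := by
  unfold form
  have : ∑ j : ZMod N, ((u0 N (rep j) : ℤ) : P N) * X (some j) = 0 :=
    Finset.sum_eq_zero fun j _ => by rw [sy_u0_rep]; simp
  rw [this]
  simp

theorem sy_slope_u0 [NeZero N] : Slope N 1 (u0 N) := by
  intro i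
  have hN : (N : ℤ) ≠ 0 := by exact_mod_cast NeZero.ne N
  unfold u0
  have e : i + (N : ℤ) - 1 = (i - 1) + 1 * N := by ring
  rw [e, Int.add_mul_ediv_right _ _ hN]

/-! ### Words -/

theorem sy_blk_map (o p : ZMod N) (n : ℕ) : (blk p n).map (· + o) = blk (p + o) n := by
  unfold blk
  rw [List.map_map]
  apply List.map_congr_left
  intro t _
  show p - (n : ZMod N) + (t : ZMod N) + o = p + o - (n : ZMod N) + (t : ZMod N)
  ring

theorem TT_map (o : ZMod N) (mu : ℕ → ℕ) (r : ℕ) : (TT 0 mu r).map (· + o) = TT o mu r := by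
  induction r with
  | zero => rfl
  | succ r ih =>
    show (blk (0 + (r : ZMod N) + 1) (mu r) ++ TT 0 mu r).map (· + o) =
      blk (o + (r : ZMod N) + 1) (mu r) ++ TT o mu r
    rw [List.map_append, ih, sy_blk_map]
    congr 2
    ring

/-! ### The rotation -/

/-- The rotation. -/
noncomputable def sy_rot : P N →ₐ[ℤ] P N :=
  aeval (fun j : Option (ZMod N) => j.elim (X none + X (some 1)) (fun i => X (some (i + 1))))

/-- The inverse rotation. -/
noncomputable def sy_rotI : P N →ₐ[ℤ] P N :=
  aeval (fun j : Option (ZMod N) => j.elim (X none - X (some 0)) (fun i => X (some (i - 1))))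

theorem sy_rot_none : sy_rot (X none : P N) = X none + X (some 1) := by simp [sy_rot]

theorem sy_rot_some (i : ZMod N) : sy_rot (X (some i) : P N) = X (some (i + 1)) := by simp [sy_rot]

theorem sy_rotI_none : sy_rotI (X none : P N) = X none - X (some 0) := by simp [sy_rotI]

theorem sy_rotI_some (i : ZMod N) : sy_rotI (X (some i) : P N) = X (some (i - 1)) := by
  simp [sy_rotI]

theorem sy_rot_rotI (f : P N) : sy_rot (sy_rotI f) = f := by
  have h : (sy_rot (N := N)).comp sy_rotI = AlgHom.id ℤ (P N) := by
    apply MvPolynomial.algHom_ext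
    intro j
    cases j with
    | none =>
      rw [AlgHom.comp_apply, sy_rotI_none, map_sub, sy_rot_none, sy_rot_some, AlgHom.id_apply,
        zero_add]
      ring
    | some i =>
      rw [AlgHom.comp_apply, sy_rotI_some, sy_rot_some, AlgHom.id_apply, sub_add_cancel]
  have := congrArg (fun φ => φ f) h
  simpa using this

theorem sy_rotI_rot (f : P N) : sy_rotI (sy_rot f) = f := by
  have h : (sy_rotI (N := N)).comp sy_rot = AlgHom.id ℤ (P N) := by
    apply MvPolynomial.algHom_ext
    intro j
    cases j with
    | none =>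
      rw [AlgHom.comp_apply, sy_rot_none, map_add, sy_rotI_none, sy_rotI_some, AlgHom.id_apply,
        sub_self]
      ring
    | some i =>
      rw [AlgHom.comp_apply, sy_rot_some, sy_rotI_some, AlgHom.id_apply, add_sub_cancel_right]
  have := congrArg (fun φ => φ f) h
  simpa using this

theorem sy_rot_al (k : ZMod N) : sy_rot (al k : P N) = al (k + 1) := by
  unfold al
  rw [map_sub, sy_rot_some, sy_rot_some]

theorem sy_rot_sg (k : ZMod N) (f : P N) : sy_rot (sg k f) = sg (k + 1) (sy_rot f) := by
  have h : (sy_rot (N := N)).comp (sg k) = (sg (k + 1)).comp sy_rot := by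
    apply MvPolynomial.algHom_ext
    intro j
    rw [AlgHom.comp_apply, AlgHom.comp_apply, sg_X, map_sub, map_mul, map_intCast, sy_rot_al]
    cases j with
    | none =>
      rw [sy_rot_none, map_add, sg_X, sg_X]
      have e : pr k none = pr (k + 1) none + pr (k + 1) (some (1 : ZMod N)) := by
        unfold pr
        have h1 : ((1 : ZMod N) = k + 1) ↔ k = 0 := by
          constructor
          · intro h
            linear_combination -h
          · intro h
            rw [h, zero_add]
        have h2 : ((1 : ZMod N) = k + 1 + 1) ↔ k + 1 = 0 := by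
          constructor
          · intro h
            linear_combination -h
          · intro h
            rw [h, zero_add]
        simp only [h1, h2]
        ring
      rw [e]
      push_cast
      ring
    | some i =>
      rw [sy_rot_some, sg_X]
      have e : pr k (some i) = pr (k + 1) (some (i + 1)) := by
        unfold pr
        simp only [add_left_inj]
      rw [e]
  have := congrArg (fun φ => φ f) h
  simpa using this

theorem sy_rot_A (hN : 3 ≤ N) (k : ZMod N) (f : P N) : A (k + 1) (sy_rot f) = sy_rot (A k f) := by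
  apply A_eq hN
  rw [← sy_rot_al, ← map_mul, al_mul_A, map_sub, sy_rot_sg]

theorem sy_rot_Aw (hN : 3 ≤ N) (w : List (ZMod N)) (f : P N) :
    Aw (w.map (· + 1)) (sy_rot f) = sy_rot (Aw w f) := by
  induction w with
  | nil => rfl
  | cons k w ih =>
    show A (k + 1) (Aw (w.map (· + 1)) (sy_rot f)) = sy_rot (A k (Aw w f))
    rw [ih, sy_rot_A hN]

theorem sy_chi_rot (f : P N) : sy_chi (sy_rot f) = sy_chi f := by
  have h : (sy_chi (N := N)).comp sy_rot = sy_chi := by
    apply MvPolynomial.algHom_ext
    intro j
    cases j with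
    | none => rw [AlgHom.comp_apply, sy_rot_none, map_add, sy_chi_some, add_zero]
    | some i => rw [AlgHom.comp_apply, sy_rot_some, sy_chi_some, sy_chi_some]
  have := congrArg (fun φ => φ f) h
  simpa using this

/-! ### Polynomials in the `x_i` -/

/-- A polynomial as a polynomial in the variable of level one. -/
noncomputable def sy_toP : P N →ₐ[ℤ] Polynomial (MvPolynomial (ZMod N) ℤ) :=
  aeval (fun j : Option (ZMod N) => j.elim Polynomial.X (fun i => Polynomial.C (X i)))

theorem sy_toP_none : sy_toP (X none : P N) = Polynomial.X := by simp [sy_toP]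

theorem sy_toP_some (i : ZMod N) : sy_toP (X (some i) : P N) = Polynomial.C (X i) := by
  simp [sy_toP]

/-- Back. -/
noncomputable def sy_ofP (p : Polynomial (MvPolynomial (ZMod N) ℤ)) : P N :=
  p.eval₂ (rename some : MvPolynomial (ZMod N) ℤ →ₐ[ℤ] P N).toRingHom (X none)

theorem sy_ofP_toP (f : P N) : sy_ofP (sy_toP f) = f := by
  unfold sy_ofP
  induction f using MvPolynomial.induction_on with
  | C a =>
    have h1 : sy_toP (C a : P N) = Polynomial.C (C a) := (sy_toP (N := N)).commutes a
    rw [h1, Polynomial.eval₂_C]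
    simp
  | add p q hp hq => rw [map_add, Polynomial.eval₂_add, hp, hq]
  | mul_X p j hp =>
    rw [map_mul, Polynomial.eval₂_mul, hp]
    congr 1
    cases j with
    | none => rw [sy_toP_none, Polynomial.eval₂_X]
    | some i =>
      rw [sy_toP_some, Polynomial.eval₂_C]
      simp

theorem sy_eq_sum (f : P N) : f = ∑ i ∈ Finset.range ((sy_toP f).natDegree + 1),
    (rename some ((sy_toP f).coeff i) : P N) * X none ^ i := by
  conv_lhs => rw [← sy_ofP_toP f]
  unfold sy_ofP
  rw [Polynomial.eval₂_eq_sum_range]
  rfl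

theorem sy_pr_some (k i : ZMod N) :
    pr k (some i) = (if i = k then 1 else 0) - (if i = k + 1 then 1 else 0) := rfl

theorem sy_sg_some (hN : 3 ≤ N) (k i : ZMod N) :
    sg k (X (some i) : P N) = X (some (Equiv.swap k (k + 1) i)) := by
  rw [sg_X, sy_pr_some]
  unfold al
  by_cases h1 : i = k
  · subst h1
    rw [Equiv.swap_apply_left, if_pos rfl, if_neg (succ_ne hN i).symm]
    push_cast
    ring
  · by_cases h2 : i = k + 1
    · subst h2
      rw [Equiv.swap_apply_right, if_pos rfl, if_neg (succ_ne hN k)]
      push_cast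
      ring
    · rw [Equiv.swap_apply_of_ne_of_ne h1 h2, if_neg h1, if_neg h2]
      push_cast
      ring

theorem sy_sg_rename (hN : 3 ≤ N) (k : ZMod N) (g : MvPolynomial (ZMod N) ℤ) :
    sg k (rename some g : P N) = rename some (rename (Equiv.swap k (k + 1)) g) := by
  have h : (sg k).comp (rename some : MvPolynomial (ZMod N) ℤ →ₐ[ℤ] P N) =
      (rename some : MvPolynomial (ZMod N) ℤ →ₐ[ℤ] P N).comp
        (rename (Equiv.swap k (k + 1))) := by
    apply MvPolynomial.algHom_ext
    intro i
    rw [AlgHom.comp_apply, AlgHom.comp_apply, rename_X, rename_X, rename_X, sy_sg_some hN]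
  have := congrArg (fun φ => φ g) h
  simpa using this

theorem sy_toP_C (a : ℤ) : sy_toP (C a : P N) = Polynomial.C (C a) := (sy_toP (N := N)).commutes a

theorem sy_sg_C (k : ZMod N) (a : ℤ) : sg k (C a) = C a := (sg k).commutes a

/-- The exchange as a ring homomorphism. -/
noncomputable def sy_swp (k : ZMod N) : MvPolynomial (ZMod N) ℤ →+* MvPolynomial (ZMod N) ℤ :=
  ((rename (Equiv.swap k (k + 1)) :
    MvPolynomial (ZMod N) ℤ →ₐ[ℤ] MvPolynomial (ZMod N) ℤ) : _ →+* _)

theorem sy_swp_apply (k : ZMod N) (g : MvPolynomial (ZMod N) ℤ) :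
    sy_swp k g = rename (Equiv.swap k (k + 1)) g := rfl

theorem sy_toP_sg (hN : 3 ≤ N) {k : ZMod N} (hk : k ≠ 0) (f : P N) :
    sy_toP (sg k f) = (sy_toP f).map (sy_swp k) := by
  have h : (sy_toP (N := N) : P N →+* Polynomial (MvPolynomial (ZMod N) ℤ)).comp
      (sg k : P N →+* P N) = (Polynomial.mapRingHom (sy_swp k)).comp
        (sy_toP (N := N) : P N →+* Polynomial (MvPolynomial (ZMod N) ℤ)) := by
    apply MvPolynomial.ringHom_ext
    · intro a
      show sy_toP (sg k (C a)) = (sy_toP (C a)).map (sy_swp k)
      rw [sy_sg_C, sy_toP_C, Polynomial.map_C, sy_swp_apply, rename_C]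
    · intro j
      show sy_toP (sg k (X j)) = (sy_toP (X j)).map (sy_swp k)
      cases j with
      | none =>
        have e : sg k (X none : P N) = X none := by
          rw [sg_X]
          unfold pr
          rw [if_neg hk]
          simp
        rw [e, sy_toP_none, Polynomial.map_X]
      | some i =>
        rw [sy_sg_some hN, sy_toP_some, sy_toP_some, Polynomial.map_C, sy_swp_apply, rename_X]
  exact congrArg (fun φ : P N →+* Polynomial (MvPolynomial (ZMod N) ℤ) => φ f) h

theorem sy_rename_swap_zero_one (hN : 3 ≤ N) (g : MvPolynomial (ZMod N) ℤ)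
    (hg : ∀ k : ZMod N, k ≠ 0 → rename (Equiv.swap k (k + 1)) g = g) :
    rename (Equiv.swap (0 : ZMod N) (0 + 1)) g = g := by
  have key : ∀ m : ℕ, 1 ≤ m → m + 1 ≤ N →
      rename (Equiv.swap (1 : ZMod N) ((m : ZMod N) + 1)) g = g := by
    intro m hm
    induction m, hm using Nat.le_induction with
    | base =>
      intro _
      have h1 := hg 1 (one_ne hN)
      simpa using h1
    | succ m hm ih =>
      intro hm2
      have h1 := ih (by omega)
      have hne : ((m : ZMod N) + 1) ≠ 0 := by
        intro h
        have h2 : ((m + 1 : ℕ) : ZMod N) = 0 := by push_cast; exact h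
        rw [ZMod.natCast_eq_zero_iff] at h2
        have := Nat.le_of_dvd (by omega) h2
        omega
      have h3 := hg ((m : ZMod N) + 1) hne
      have hx : (1 : ZMod N) ≠ (m : ZMod N) + 1 := by
        intro h
        have h2 : ((m : ℕ) : ZMod N) = 0 := by linear_combination -h
        rw [ZMod.natCast_eq_zero_iff] at h2
        have := Nat.le_of_dvd (by omega) h2
        omega
      have hy : (1 : ZMod N) ≠ (m : ZMod N) + 1 + 1 := by
        intro h
        apply hne
        linear_combination -h
      have h4 := Equiv.swap_mul_swap_mul_swap hx hy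
      have h5 : Equiv.swap (1 : ZMod N) ((m + 1 : ℕ) + 1) =
          Equiv.swap ((m : ZMod N) + 1) ((m : ZMod N) + 1 + 1) *
            Equiv.swap (1 : ZMod N) ((m : ZMod N) + 1) *
              Equiv.swap ((m : ZMod N) + 1) ((m : ZMod N) + 1 + 1) := by
        rw [h4, Equiv.swap_comm]
        push_cast
        rfl
      rw [h5]
      have h6 : ∀ (a b : Equiv.Perm (ZMod N)), rename (a * b) g = rename a (rename b g) := by
        intro a b
        rw [rename_rename]
        rfl
      have h7 : ∀ (a b c : Equiv.Perm (ZMod N)), rename (a * b * c) g =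
          rename a (rename b (rename c g)) := by
        intro a b c
        rw [rename_rename, rename_rename]
        rfl
      rw [h7, h3, h1, h3]
  have h1 := key (N - 1) (by omega) (by omega)
  have h2 : ((N - 1 : ℕ) : ZMod N) + 1 = 0 := by
    have : ((N - 1 + 1 : ℕ) : ZMod N) = 0 := by
      rw [Nat.sub_add_cancel (by omega)]
      simp
    push_cast at this
    exact this
  rw [h2, Equiv.swap_comm] at h1
  rw [zero_add]
  exact h1

theorem sy_Aw_inv_mul (hN : 3 ≤ N) {f : P N} (h : ∀ k, sg k f = f) (w : List (ZMod N)) (g : P N) :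
    Aw w (f * g) = f * Aw w g := by
  induction w with
  | nil => rfl
  | cons k w ih =>
    show A k (Aw w (f * g)) = f * A k (Aw w g)
    rw [ih, A_inv_mul hN (h k)]

theorem sy_Aw_zero (hN : 3 ≤ N) (w : List (ZMod N)) : Aw w (0 : P N) = 0 := by
  induction w with
  | nil => rfl
  | cons k w ih =>
    show A k (Aw w 0) = 0
    rw [ih, A_zero hN]

theorem sy_Aw_sum (hN : 3 ≤ N) (w : List (ZMod N)) {ι : Type*} (s : Finset ι) (f : ι → P N) :
    Aw w (∑ i ∈ s, f i) = ∑ i ∈ s, Aw w (f i) := by
  classical
  induction s using Finset.induction_on with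
  | empty => simpa using sy_Aw_zero hN w
  | insert a s ha ih => rw [Finset.sum_insert ha, Finset.sum_insert ha, Aw_add hN, ih]

theorem sy_q0_Aw_sym_zero (hN : 3 ≤ N) [NeZero N] (T : List (ZMod N)) (H : P N)
    (hH : ∀ k, k ≠ 0 → sg k H = H) :
    q0 (Aw T H) =
      coeff (Finsupp.single none T.length) H * q0 (Aw T ((X none : P N) ^ T.length)) := by
  set d := (sy_toP H).natDegree with hd
  set g : ℕ → MvPolynomial (ZMod N) ℤ := fun i => (sy_toP H).coeff i with hg
  have hsym : ∀ i k, k ≠ 0 → rename (Equiv.swap k (k + 1)) (g i) = g i := by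
    intro i k hk
    have h1 := sy_toP_sg hN hk H
    rw [hH k hk] at h1
    have h2 := congrArg (fun p => Polynomial.coeff p i) h1
    simp only [Polynomial.coeff_map] at h2
    exact h2.symm
  have hinv : ∀ i k, sg k (rename some (g i) : P N) = rename some (g i) := by
    intro i k
    rw [sy_sg_rename hN]
    by_cases hk : k = 0
    · subst hk
      rw [sy_rename_swap_zero_one hN (g i) (hsym i)]
    · rw [hsym i k hk]
  have hsum : H = ∑ i ∈ Finset.range (d + 1), (rename some (g i) : P N) * X none ^ i := sy_eq_sum H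
  have hL : ∀ i, q0 (Aw T ((X none : P N) ^ i)) =
      if i = T.length then q0 (Aw T ((X none : P N) ^ T.length)) else 0 := by
    intro i
    by_cases h : i = T.length
    · rw [if_pos h, h]
    · rw [if_neg h]
      have h2 := sy_EE_ne_length hN sy_slope_u0 i T (fun h3 => h h3.symm)
      unfold EE at h2
      rw [form_u0] at h2
      exact h2
  have h1 : q0 (Aw T H) = ∑ i ∈ Finset.range (d + 1),
      constantCoeff (g i) *
        (if i = T.length then q0 (Aw T ((X none : P N) ^ T.length)) else 0) := by
    conv_lhs => rw [hsum]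
    rw [sy_Aw_sum hN]
    unfold q0
    rw [map_sum]
    refine Finset.sum_congr rfl fun i _ => ?_
    rw [sy_Aw_inv_mul hN (hinv i), map_mul, constantCoeff_rename]
    congr 1
    exact hL i
  have hchi : ∀ i, sy_chi (rename some (g i) : P N) = Polynomial.C (constantCoeff (g i)) := by
    intro i
    have h : (sy_chi (N := N)).comp (rename some) =
        ((Polynomial.CAlgHom (R := ℤ) (A := ℤ)).comp
          (aeval (fun _ => 0) : MvPolynomial (ZMod N) ℤ →ₐ[ℤ] ℤ)) := by
      apply MvPolynomial.algHom_ext
      intro j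
      simp [sy_chi_some]
    have h2 := congrArg (fun φ => φ (g i)) h
    simpa [constantCoeff_eq, aeval_zero'] using h2
  have h2 : coeff (Finsupp.single none T.length) H = ∑ i ∈ Finset.range (d + 1),
      constantCoeff (g i) * (if i = T.length then 1 else 0) := by
    rw [← sy_chi_coeff]
    conv_lhs => rw [hsum]
    rw [map_sum, Polynomial.finsetSum_coeff]
    refine Finset.sum_congr rfl fun i _ => ?_
    rw [map_mul, map_pow, sy_chi_none, hchi, Polynomial.coeff_C_mul, Polynomial.coeff_X_pow]
    congr 1
    simp only [eq_comm]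
  rw [h1, h2, Finset.sum_mul]
  refine Finset.sum_congr rfl fun i _ => ?_
  split_ifs <;> ring

/-- symmetric polynomials pass through: the factor lemma -/
theorem q0_Aw_sym (hN : 3 ≤ N) [NeZero N] (o : ZMod N) (T : List (ZMod N)) (H : P N)
    (hH : ∀ k, k ≠ o → sg k H = H) :
    q0 (Aw (T.map (· + o)) H) =
      coeff (Finsupp.single none T.length) H * q0 (Aw T ((X none : P N) ^ T.length)) := by
  have key : ∀ (n : ℕ) (H : P N), (∀ k, k ≠ (n : ZMod N) → sg k H = H) →
      q0 (Aw (T.map (· + (n : ZMod N))) H) =
        coeff (Finsupp.single none T.length) H * q0 (Aw T ((X none : P N) ^ T.length)) := by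
    intro n
    induction n with
    | zero =>
      intro H hH
      have e : T.map (· + ((0 : ℕ) : ZMod N)) = T := by simp
      rw [e]
      exact sy_q0_Aw_sym_zero hN T H (fun k hk => hH k (by simpa using hk))
    | succ n ih =>
      intro H hH
      have h1 : ∀ k, k ≠ (n : ZMod N) → sg k (sy_rotI H) = sy_rotI H := by
        intro k hk
        have h2 : sg (k + 1) H = H := hH (k + 1) (by
          intro h
          apply hk
          push_cast at h
          exact add_right_cancel h)
        have h3 := sy_rot_sg k (sy_rotI H)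
        rw [sy_rot_rotI, h2] at h3
        have h4 := congrArg sy_rotI h3
        rwa [sy_rotI_rot] at h4
      have h5 := ih (sy_rotI H) h1
      have e : T.map (· + ((n + 1 : ℕ) : ZMod N)) = (T.map (· + (n : ZMod N))).map (· + 1) := by
        rw [List.map_map]
        apply List.map_congr_left
        intro t _
        simp [add_assoc]
      have h6 : Aw (T.map (· + ((n + 1 : ℕ) : ZMod N))) H =
          sy_rot (Aw (T.map (· + (n : ZMod N))) (sy_rotI H)) := by
        rw [e, ← sy_rot_Aw hN, sy_rot_rotI]
      rw [h6, ← sy_chi_coeff_zero, sy_chi_rot, sy_chi_coeff_zero, h5, ← sy_chi_coeff,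
        ← sy_chi_coeff,
        ← sy_chi_rot (sy_rotI H), sy_rot_rotI]
  have h := key o.val H (by simpa using hH)
  simpa using h

end Pool.Agent.Schub.Aff
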