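import Pool.Agent.SchubU.RingDefs

/-!
The run of a set of crossings in the staircase is a tile model.
-/

set_option autoImplicit false

namespace Pool.Agent.Schub.Ring

open Finset Pool.Agent.Helper78.Lim

theorem stp_ne (c : Prop) [Decidable c] (a : ℕ) (x : ℕ → ℕ) (p : ℕ) (h1 : p ≠ a)
    (h2 : p ≠ a + 1) : stp c a x p = x p := by
  unfold stp
  split_ifs with h
  · beta_reduce
    rw [Equiv.swap_apply_of_ne_of_ne h1 h2]
  · rfl

/-- positions outside `r + j, …, r + j + m` are not touched -/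
theorem run_rseg_ne (D : Finset (ℕ × ℕ)) (r m : ℕ) (x : ℕ → ℕ) (p : ℕ) : ∀ j,
    (p < r + j ∨ r + j + m < p) → run D (rseg r j m) x p = x p := by
  induction m with
  | zero => intro j _; rfl
  | succ m ih =>
    intro j h
    simp only [rseg, run]
    rw [stp_ne _ _ _ _ (by omega) (by omega), ih (j + 1) (by omega)]

/-- the same for one row, without the last position in case the row is empty -/
theorem run_row_ge (D : Finset (ℕ × ℕ)) (n r : ℕ) (x : ℕ → ℕ) (p : ℕ) (h : n ≤ p) :
    run D (rseg r 0 (n - 1 - r)) x p = x p := by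
  rcases Nat.eq_zero_or_pos (n - 1 - r) with h0 | h0
  · rw [h0]; rfl
  · exact run_rseg_ne D r _ x p 0 (Or.inr (by omega))

theorem st_ge (D : Finset (ℕ × ℕ)) (n r p : ℕ) (h : n ≤ p) : st D n r p = p := by
  induction r with
  | zero => rfl
  | succ r ih => rw [st_succ, run_row_ge D n r _ p h, ih]

theorem run_row_split (D : Finset (ℕ × ℕ)) (n r c : ℕ) (x : ℕ → ℕ) (hc : c ≤ n - 1 - r) :
    run D (rseg r 0 (n - 1 - r)) x
      = run D (rseg r 0 c) (run D (rseg r c (n - 1 - r - c)) x) := by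
  obtain ⟨m, hm⟩ := Nat.exists_eq_add_of_le hc
  have e : n - 1 - r - c = m := by omega
  rw [e, hm, rseg_append, run_append, zero_add]

theorem Zd_out (D : Finset (ℕ × ℕ)) (n r c : ℕ) (h : n ≤ r + c + 1) :
    Zd D n r c = st D n r (r + c) := by
  unfold Zd
  have : n - 1 - r - c = 0 := by omega
  rw [this]
  rfl

theorem Yd_succ (D : Finset (ℕ × ℕ)) (n r c : ℕ) (hc : c ≤ n - 1 - r) :
    Yd D n (r + 1) c = run D (rseg r c (n - 1 - r - c)) (st D n r) (r + c + 1) := by
  unfold Yd
  have e : r + 1 + c = r + c + 1 := by ring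
  rw [st_succ, run_row_split D n r c _ hc, e, run_rseg_ne D r c _ _ 0 (Or.inr (by omega))]

theorem run_cons_cell (D : Finset (ℕ × ℕ)) (n r c : ℕ) (x : ℕ → ℕ) (h : r + c + 2 ≤ n) :
    run D (rseg r c (n - 1 - r - c)) x
      = stp ((r, c) ∈ D) (r + c) (run D (rseg r (c + 1) (n - 1 - r - (c + 1))) x) := by
  have e : n - 1 - r - c = (n - 1 - r - (c + 1)) + 1 := by omega
  rw [e]
  rfl

theorem tile_run (D : Finset (ℕ × ℕ)) (n : ℕ) (hD : ∀ p ∈ D, p.1 + p.2 + 2 ≤ n) (C : ℕ) :
    Tile C (rel D) (Yd D n) (Zd D n) := by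
  have key : ∀ r c, r + c + 2 ≤ n →
      run D (rseg r (c + 1) (n - 1 - r - (c + 1))) (st D n r) (r + c) = Yd D n r c ∧
      run D (rseg r (c + 1) (n - 1 - r - (c + 1))) (st D n r) (r + c + 1) = Zd D n r (c + 1) := by
    intro r c _
    constructor
    · rw [run_rseg_ne D r _ _ _ (c + 1) (Or.inl (by omega))]
      rfl
    · rfl
  constructor
  · intro r c _ hd hlt
    have hn : r + c + 2 ≤ n := hD _ hd
    obtain ⟨k1, k2⟩ := key r c hn
    have e1 := run_cons_cell D n r c (st D n r) hn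
    have hc : (r, c) ∈ D ∧ run D (rseg r (c + 1) (n - 1 - r - (c + 1))) (st D n r) (r + c)
        < run D (rseg r (c + 1) (n - 1 - r - (c + 1))) (st D n r) (r + c + 1) := by
      rw [k1, k2]
      exact ⟨hd, hlt⟩
    constructor
    · rw [Yd_succ D n r c (by omega), e1]
      unfold stp
      rw [if_pos hc, Equiv.swap_apply_right, k1]
    · unfold Zd
      rw [e1]
      unfold stp
      rw [if_pos hc, Equiv.swap_apply_left]
      exact k2
  · intro r c _ hd
    by_cases hn : r + c + 2 ≤ n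
    · obtain ⟨k1, k2⟩ := key r c hn
      have e1 := run_cons_cell D n r c (st D n r) hn
      have hc : ¬ ((r, c) ∈ D ∧ run D (rseg r (c + 1) (n - 1 - r - (c + 1))) (st D n r) (r + c)
          < run D (rseg r (c + 1) (n - 1 - r - (c + 1))) (st D n r) (r + c + 1)) := by
        rw [k1, k2]
        exact hd
      constructor
      · rw [Yd_succ D n r c (by omega), e1]
        unfold stp
        rw [if_neg hc, k2]
      · unfold Zd
        rw [e1]
        unfold stp
        rw [if_neg hc]
        exact k1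
    · constructor
      · rw [Zd_out D n r (c + 1) (by omega)]
        unfold Yd
        have e : r + 1 + c = r + (c + 1) := by ring
        rw [st_succ, e, run_row_ge D n r _ _ (by omega)]
      · rw [Zd_out D n r c (by omega)]
        rfl

theorem hf_right (D : Finset (ℕ × ℕ)) (n i r c : ℕ) :
    hf D n i r (c + 1) = hf D n i r c + if i ≤ Yd D n r c then 1 else 0 := by
  unfold hf Yd
  rw [← add_assoc, H_succ]
  push_cast
  rfl

theorem hf_down (D : Finset (ℕ × ℕ)) (n i r c : ℕ) :
    hf D n i (r + 1) c = hf D n i r c + if i ≤ Zd D n r c then 1 else 0 := by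
  unfold hf
  have e : r + 1 + c = r + c + 1 := by ring
  rw [e]
  by_cases hc : c ≤ n - 1 - r
  · rw [st_succ, run_row_split D n r c _ hc, H_run_seg D i r c _ _ 0 (Or.inr (by omega)),
      H_succ, H_run_seg D i r _ _ _ c (Or.inl le_rfl)]
    push_cast
    rfl
  · rw [H_row_out D n r i _ (Or.inl (by omega)), H_succ, Zd_out D n r c (by omega)]
    push_cast
    rfl

theorem run_lt (D : Finset (ℕ × ℕ)) (n : ℕ) (L : List (ℕ × ℕ)) (x : ℕ → ℕ)
    (hx : ∀ p < n, x p < n) (hL : ∀ p ∈ L, p.1 + p.2 + 1 < n) : ∀ p < n, run D L x p < n := by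
  induction L with
  | nil => exact hx
  | cons q L ih =>
    have ih := ih (fun p hp => hL p (List.mem_cons_of_mem _ hp))
    have hq := hL q List.mem_cons_self
    intro p hp
    simp only [run, stp]
    split_ifs with h
    · apply ih
      rw [Equiv.swap_apply_def]
      split_ifs <;> omega
    · exact ih p hp

theorem st_lt (D : Finset (ℕ × ℕ)) (n r : ℕ) : ∀ p < n, st D n r p < n := by
  apply run_lt
  · intro p hp; exact hp
  · intro p hp
    rw [mem_rows] at hp
    omega

theorem Yd_lt (D : Finset (ℕ × ℕ)) (n r c : ℕ) (h : r + c < n) : Yd D n r c < n :=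
  st_lt D n r _ h

theorem Zd_lt (D : Finset (ℕ × ℕ)) (n r c : ℕ) (h : r + c < n) : Zd D n r c < n := by
  unfold Zd
  apply run_lt D n _ _ (st_lt D n r) _ _ h
  intro p hp
  rw [mem_rseg] at hp
  omega

theorem Rd_cell (D : Finset (ℕ × ℕ)) (n r c : ℕ) (h : r + c + 2 ≤ n) :
    ∀ k, r + 1 ≤ k → Rd D id (rows n k) → (r, c) ∈ D → Yd D n r c < Zd D n r (c + 1) := by
  intro k hk
  obtain ⟨d, rfl⟩ := Nat.exists_eq_add_of_le hk
  clear hk
  induction d with
  | zero =>
    intro hR hcD
    rw [add_zero, rows, Rd_append] at hR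
    obtain ⟨m, hm⟩ : ∃ m, n - 1 - r = c + (m + 1) := ⟨n - 1 - r - (c + 1), by omega⟩
    rw [hm, rseg_append, Rd_append] at hR
    have h1 := hR.2.1
    rw [zero_add] at h1
    have h2 : run D (rseg r (c + 1) m) (run D (rows n r) id) (r + c)
        < run D (rseg r (c + 1) m) (run D (rows n r) id) (r + c + 1) := h1.2 hcD
    rw [run_rseg_ne D r _ _ _ (c + 1) (Or.inl (by omega))] at h2
    unfold Yd Zd
    have e : n - 1 - r - (c + 1) = m := by omega
    rw [e]
    exact h2
  | succ d ih =>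
    intro hR hcD
    have e : r + 1 + (d + 1) = (r + 1 + d) + 1 := by ring
    rw [e, rows, Rd_append] at hR
    exact ih hR.1 hcD

theorem red_lt (D : Finset (ℕ × ℕ)) (n : ℕ) (hD : D ∈ Red n) (r c : ℕ) (h : (r, c) ∈ D) :
    Yd D n r c < Zd D n r (c + 1) := by
  rw [mem_Red] at hD
  have hn : r + c + 2 ≤ n := hD.1 _ h
  exact Rd_cell D n r c hn n (by omega) hD.2 h

end Pool.Agent.Schub.Ring
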