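import Pool.Agent.SchubU.Pos

/-!
Moves of decreasing windows.
-/

set_option autoImplicit false

namespace Pool.Agent.Schub.Aff

open MvPolynomial

variable {N : ℕ}

theorem run_append (u : ℤ → ℤ) (w1 w2 : List (ZMod N)) :
    run u (w1 ++ w2) = run (run u w2) w1 := by
  induction w1 with
  | nil => rfl
  | cons k w1 ih => funext i; simp only [List.cons_append, run, ih]

theorem Asc_append (u : ℤ → ℤ) (w1 w2 : List (ZMod N)) :
    Asc u (w1 ++ w2) ↔ Asc u w2 ∧ Asc (run u w2) w1 := by
  induction w1 with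
  | nil => simp [Asc]
  | cons k w1 ih =>
    simp only [List.cons_append, Asc, ih, run_append]
    tauto

theorem run_reverse (hN : 3 ≤ N) (w : List (ZMod N)) : ∀ (v : ℤ → ℤ),
    run (run v w.reverse) w = v := by
  induction w with
  | nil => intro v; rfl
  | cons k w ih =>
    intro v
    rw [List.reverse_cons, run_append]
    funext i
    simp only [run]
    rw [ih]
    simp only [aff_aff hN]

theorem blk_succ (p : ZMod N) (n : ℕ) : blk p (n + 1) = (p - (n + 1 : ℕ)) :: blk p n := by
  unfold blk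
  rw [List.range_succ_eq_map, List.map_cons, List.map_map]
  congr 1
  · push_cast; ring
  · apply List.map_congr_left
    intro t _
    simp only [Function.comp]
    push_cast
    ring

theorem aff_int_ne {a i : ℤ} (h1 : a + 1 < i) (h2 : i < a + N) : aff ((a : ℤ) : ZMod N) i = i := by
  have key : ∀ b : ℤ, 0 < i - b → i - b < N → ((i : ℤ) : ZMod N) ≠ ((b : ℤ) : ZMod N) := by
    intro b hb1 hb2 h
    have h' : ((b : ℤ) : ZMod N) = ((i : ℤ) : ZMod N) := h.symm
    rw [ZMod.intCast_eq_intCast_iff_dvd_sub] at h'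
    exact absurd (Int.le_of_dvd hb1 h') (by omega)
  apply aff_ne
  · exact key a (by omega) (by omega)
  · have := key (a + 1) (by omega) (by omega)
    push_cast at this
    exact this

theorem run_blk (hN : 3 ≤ N) {c : ℤ} {v : ℤ → ℤ} (h : Slope N c v) (p : ℤ) (n : ℕ) (hn : n < N) :
    run v (blk ((p : ℤ) : ZMod N) n) (p - n) = v p ∧
    (∀ q, p - n < q → q ≤ p → run v (blk ((p : ℤ) : ZMod N) n) q = v (q - 1)) ∧
    (∀ q, p < q → q < p - n + N → run v (blk ((p : ℤ) : ZMod N) n) q = v q) := by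
  induction n with
  | zero =>
    refine ⟨by simp [blk, run], ?_, ?_⟩
    · intro q h1 h2
      push_cast at h1
      omega
    · intro q _ _
      simp [blk, run]
  | succ n ih =>
    obtain ⟨i1, i2, i3⟩ := ih (by omega)
    have hk : (((p : ℤ) : ZMod N) - ((n + 1 : ℕ) : ZMod N)) = ((p - n - 1 : ℤ) : ZMod N) := by
      push_cast; ring
    rw [blk_succ, hk]
    simp only [run]
    have hs := h.run (blk ((p : ℤ) : ZMod N) n)
    refine ⟨?_, ?_, ?_⟩
    · have e : p - ((n + 1 : ℕ) : ℤ) = p - n - 1 := by push_cast; ring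
      rw [e, aff_self]
      have e2 : p - (n : ℤ) - 1 + 1 = p - n := by ring
      rw [e2, i1]
    · intro q h1 h2
      push_cast at h1
      rcases eq_or_lt_of_le (show p - n ≤ q by omega) with h3 | h3
      · subst h3
        rw [aff_of_succ hN (by push_cast; ring)]
        have h4 := i3 (p - n - 1 + N) (by omega) (by omega)
        rw [hs (p - n - 1), h (p - n - 1)] at h4
        linarith
      · rw [aff_int_ne (by omega) (by omega)]
        exact i2 q h3 h2
    · intro q h1 h2
      push_cast at h2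
      rw [aff_int_ne (by omega) (by omega)]
      exact i3 q h1 (by omega)

theorem Asc_blk (hN : 3 ≤ N) [NeZero N] {c : ℤ} {v : ℤ → ℤ} (h : Slope N c v) (p : ℤ) (n : ℕ)
    (hn : n < N) (hlt : ∀ t : ℕ, t < n → v (p - 1 - t) < v p) :
    Asc v (blk ((p : ℤ) : ZMod N) n) := by
  induction n with
  | zero => exact trivial
  | succ n ih =>
    have hk : (((p : ℤ) : ZMod N) - ((n + 1 : ℕ) : ZMod N)) = ((p - n - 1 : ℤ) : ZMod N) := by
      push_cast; ring
    rw [blk_succ, hk]
    refine ⟨ih (by omega) (fun t ht => hlt t (by omega)), ?_⟩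
    have hs := h.run (blk ((p : ℤ) : ZMod N) n)
    obtain ⟨i1, i2, i3⟩ := run_blk hN h p n (by omega)
    rw [gap_eq hs]
    have e2 : p - (n : ℤ) - 1 + 1 = p - n := by ring
    have h4 := i3 (p - n - 1 + N) (by omega) (by omega)
    rw [hs (p - n - 1), h (p - n - 1)] at h4
    rw [e2, i1]
    have h5 := hlt n (by omega)
    have e3 : p - 1 - (n : ℤ) = p - n - 1 := by ring
    rw [e3] at h5
    linarith

/-- The states along `TT`. -/
theorem run_TT (hN : 3 ≤ N) {c : ℤ} {v : ℤ → ℤ} (h : Slope N c v) (o : ℤ) (r : ℕ)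
    (mu : ℕ → ℕ) (hmu : ∀ i j, i ≤ j → mu j ≤ mu i) (hr : r + mu 0 ≤ N) (_h0 : mu 0 < N) :
    (∀ n : ℕ, (∀ i < r, n ≤ mu i) → ∀ q, o + r - n < q → q ≤ o + r →
      run v (TT ((o : ℤ) : ZMod N) mu r) q = v (q - r)) ∧
    (∀ q, o + r < q → q ≤ o + N - mu 0 → run v (TT ((o : ℤ) : ZMod N) mu r) q = v q) := by
  induction r with
  | zero =>
    refine ⟨?_, ?_⟩
    · intro n _ q _ _
      simp [TT, run]
    · intro q _ _
      simp [TT, run]
  | succ r ih =>
    obtain ⟨i1, i2⟩ := ih (by omega)
    have hk : (((o : ℤ) : ZMod N) + (r : ZMod N) + 1) = ((o + r + 1 : ℤ) : ZMod N) := by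
      push_cast; ring
    have hs := h.run (TT ((o : ℤ) : ZMod N) mu r)
    have hr0 := hmu 0 r (Nat.zero_le r)
    obtain ⟨b1, b2, b3⟩ := run_blk hN hs (o + r + 1) (mu r) (by omega)
    refine ⟨?_, ?_⟩
    · intro n hn q h1 h2
      simp only [TT]
      rw [run_append, hk]
      push_cast at h1 h2
      have hn1 := hn r (by omega)
      rw [b2 q (by omega) (by omega), i1 n (fun i hi => hn i (by omega)) (q - 1) (by omega)
        (by omega)]
      congr 1
      push_cast
      ring
    · intro q h1 h2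
      simp only [TT]
      rw [run_append, hk]
      push_cast at h1
      rw [b3 q (by omega) (by omega), i2 q (by omega) h2]

theorem Asc_TT (hN : 3 ≤ N) [NeZero N] {c : ℤ} {v : ℤ → ℤ} (h : Slope N c v) (o : ℤ) (r : ℕ)
    (mu : ℕ → ℕ) (hmu : ∀ i j, i ≤ j → mu j ≤ mu i) (hr : r + mu 0 ≤ N)
    (hpass : ∀ i t : ℕ, i < r → t < mu 0 → v (o - t) < v (o + i + 1)) :
    Asc v (TT ((o : ℤ) : ZMod N) mu r) := by
  induction r with
  | zero => exact trivial
  | succ r ih =>
    have hk : (((o : ℤ) : ZMod N) + (r : ZMod N) + 1) = ((o + r + 1 : ℤ) : ZMod N) := by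
      push_cast; ring
    have hs := h.run (TT ((o : ℤ) : ZMod N) mu r)
    have hr0 := hmu 0 r (Nat.zero_le r)
    obtain ⟨i1, i2⟩ := run_TT hN h o r mu hmu (by omega) (by omega)
    simp only [TT]
    rw [Asc_append, hk]
    refine ⟨ih (by omega) (fun i t hi ht => hpass i t (by omega) ht), ?_⟩
    apply Asc_blk hN hs
    · omega
    · intro t ht
      rw [i2 (o + r + 1) (by omega) (by omega),
        i1 (mu r) (fun i hi => hmu i r (by omega)) (o + r + 1 - 1 - t) (by omega) (by omega)]
      have := hpass r t (by omega) (by omega)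
      have e : o + (r : ℤ) + 1 - 1 - t - r = o - t := by ring
      rw [e]
      exact this

theorem blk_split (p : ZMod N) (n : ℕ) : ∀ (w1 w2 : List (ZMod N)) (k : ZMod N),
    blk p n = w1 ++ k :: w2 → ∃ t < n, w2 = blk p t ∧ k = p - ((t + 1 : ℕ) : ZMod N) := by
  induction n with
  | zero =>
    intro w1 w2 k h
    simp [blk] at h
  | succ n ih =>
    intro w1 w2 k h
    rw [blk_succ] at h
    rcases w1 with _ | ⟨a, w1⟩
    · simp only [List.nil_append, List.cons.injEq] at h
      exact ⟨n, by omega, h.2.symm, h.1.symm⟩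
    · simp only [List.cons_append, List.cons.injEq] at h
      obtain ⟨t, h1, h2, h3⟩ := ih w1 w2 k h.2
      exact ⟨t, by omega, h2, h3⟩

theorem slope_u0 (hN : 3 ≤ N) : Slope N 1 (u0 N) := by
  intro i
  unfold u0
  have e : i + (N : ℤ) - 1 = (i - 1) + N * 1 := by ring
  rw [e, Int.add_mul_ediv_left _ _ (by omega)]

theorem gap_TT (hN : 3 ≤ N) [NeZero N] (r : ℕ) (mu : ℕ → ℕ) (hmu : ∀ i j, i ≤ j → mu j ≤ mu i)
    (hr : r + mu 0 ≤ N) (w1 w2 : List (ZMod N)) (k : ZMod N)
    (hw : TT (0 : ZMod N) mu r = w1 ++ k :: w2) : gap (run (u0 N) w2) k = 1 := by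
  induction r generalizing w1 w2 with
  | zero => simp [TT] at hw
  | succ r ih =>
    simp only [TT] at hw
    rw [List.append_eq_append_iff] at hw
    rcases hw with ⟨a, ha1, ha2⟩ | ⟨a, ha1, ha2⟩
    · exact ih (by omega) a w2 ha2
    · rcases a with _ | ⟨b, a⟩
      · rw [List.nil_append] at ha2
        exact ih (by omega) [] w2 ha2.symm
      · simp only [List.cons_append, List.cons.injEq] at ha2
        obtain ⟨hb, ha2⟩ := ha2
        subst hb
        obtain ⟨t, h1, h2, h3⟩ := blk_split _ _ _ _ _ ha1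
        have hk : ((0 : ZMod N) + (r : ZMod N) + 1) = ((r + 1 : ℤ) : ZMod N) := by
          push_cast; ring
        have h0 : (0 : ZMod N) = ((0 : ℤ) : ZMod N) := by simp
        have hv := slope_u0 (N := N) hN
        have hs := hv.run (TT (0 : ZMod N) mu r)
        have hr0 := hmu 0 r (Nat.zero_le r)
        have hi := run_TT hN hv 0 r mu hmu (by omega) (by omega)
        rw [← h0] at hi
        obtain ⟨i1, i2⟩ := hi
        obtain ⟨b1, b2, b3⟩ := run_blk hN hs (r + 1) t (by omega)
        rw [ha2, h2, hk, run_append, h3, hk]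
        have hk2 : (((r + 1 : ℤ) : ZMod N) - ((t + 1 : ℕ) : ZMod N)) =
            (((r : ℤ) - t : ℤ) : ZMod N) := by
          push_cast; ring
        rw [hk2, gap_eq (hs.run _)]
        have e1 : (r : ℤ) - t + 1 = (r + 1 : ℤ) - t := by ring
        rw [e1, b1, i2 (r + 1) (by omega) (by omega)]
        have h4 := b3 ((r : ℤ) - t + N) (by omega) (by omega)
        rw [(hs.run _) ((r : ℤ) - t), hs ((r : ℤ) - t)] at h4
        have h5 := i1 (mu r) (fun i hi => hmu i r (by omega)) ((r : ℤ) - t) (by omega) (by omega)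
        have h6 : run (run (u0 N) (TT (0 : ZMod N) mu r)) (blk ((r + 1 : ℤ) : ZMod N) t) ((r : ℤ) - t) =
            u0 N ((r : ℤ) - t - r) := by
          rw [← h5]; linarith
        rw [h6]
        have e2 : (r : ℤ) - t - r = - t := by ring
        rw [e2]
        unfold u0
        have e3 : ((r : ℤ) + 1 - 1) / (N : ℤ) = 0 := by
          apply Int.ediv_eq_zero_of_lt <;> omega
        have e4 : (-(t : ℤ) - 1) / (N : ℤ) = -1 := by
          have e5 : -(t : ℤ) - 1 = (N - t - 1 : ℤ) + N * (-1) := by ring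
          rw [e5, Int.add_mul_ediv_left _ _ (by omega)]
          rw [Int.ediv_eq_zero_of_lt (by omega) (by omega)]
          ring
        rw [e3, e4]
        ring

theorem run_TT_left (hN : 3 ≤ N) {c : ℤ} {v : ℤ → ℤ} (h : Slope N c v) (o : ℤ) (r n : ℕ)
    (hr : r + n ≤ N) (hn : n < N) :
    ∀ i : ℕ, 1 ≤ i → i ≤ r →
      run v (TT ((o : ℤ) : ZMod N) (fun _ => n) r) (o + i - n) = v (o + i) := by
  induction r with
  | zero => intro i h1 h2; omega
  | succ r ih =>
    intro i h1 h2
    have hk : (((o : ℤ) : ZMod N) + (r : ZMod N) + 1) = ((o + r + 1 : ℤ) : ZMod N) := by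
      push_cast; ring
    have hs := h.run (TT ((o : ℤ) : ZMod N) (fun _ => n) r)
    obtain ⟨b1, b2, b3⟩ := run_blk hN hs (o + r + 1) n (by omega)
    obtain ⟨i1, i2⟩ := run_TT hN h o r (fun _ => n) (fun _ _ _ => le_rfl) (by omega) (by omega)
    simp only [TT]
    rw [run_append, hk]
    rcases Nat.lt_or_ge i (r + 1) with h3 | h3
    · have h4 := b3 (o + i - n + N) (by omega) (by omega)
      rw [(hs.run _) (o + i - n), hs (o + i - n)] at h4
      have h5 := ih (by omega) i h1 (by omega)
      linarith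
    · have h4 : i = r + 1 := by omega
      subst h4
      have e : o + ((r + 1 : ℕ) : ℤ) = o + r + 1 := by push_cast; ring
      rw [e, b1, i2 (o + r + 1) (by omega) (by omega)]

theorem run_TT_rect (hN : 3 ≤ N) [NeZero N] {c : ℤ} {v : ℤ → ℤ} (h : Slope N c v) (o : ℤ) (r : ℕ)
    (hr : r < N) :
    (∀ i : ℕ, 1 ≤ i → i ≤ r →
      run v (TT ((o : ℤ) : ZMod N) (fun _ => N - r) r) (o + r - N + i) = v (o + i)) ∧
    (∀ i : ℕ, 1 ≤ i → i ≤ N - r →
      run v (TT ((o : ℤ) : ZMod N) (fun _ => N - r) r) (o + r - N + r + i) = v (o + r + i) - c) := by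
  rcases Nat.eq_zero_or_pos r with h0 | h0
  · subst h0
    refine ⟨fun i h1 h2 => by omega, ?_⟩
    intro i h1 h2
    simp only [TT, run]
    push_cast
    have := h (o + 0 - N + 0 + i)
    have e : o + 0 - (N : ℤ) + 0 + i + N = o + 0 + i := by ring
    rw [e] at this
    linarith
  · have hc : ((N - r : ℕ) : ℤ) = N - r := by push_cast [Nat.cast_sub hr.le]; ring
    refine ⟨?_, ?_⟩
    · intro i h1 h2
      have := run_TT_left hN h o r (N - r) (by omega) (by omega) i h1 h2
      rw [hc] at this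
      have e : o + (i : ℤ) - (N - r) = o + r - N + i := by ring
      rw [e] at this
      exact this
    · intro i h1 h2
      obtain ⟨i1, -⟩ := run_TT hN h o r (fun _ => N - r) (fun _ _ _ => le_rfl) (by omega) (by omega)
      have := i1 (N - r) (fun _ _ => le_rfl) (o + r - N + r + i) (by omega) (by omega)
      rw [this]
      have h3 := h (o + r - N + r + i - r)
      have e : o + (r : ℤ) - N + r + i - r + N = o + r + i := by ring
      rw [e] at h3
      linarith

theorem Dec.lt {o : ℤ} {v : ℤ → ℤ} (hd : Dec N o v) (i : ℕ) (hi : 1 ≤ i) :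
    ∀ j : ℕ, i < j → j ≤ N → v (o + j) < v (o + i) := by
  intro j
  induction j with
  | zero => intro h; omega
  | succ j ih =>
    intro h1 h2
    have h3 := hd j (by omega) (by omega)
    have e : o + ((j + 1 : ℕ) : ℤ) = o + j + 1 := by push_cast; ring
    rw [e]
    rcases Nat.lt_or_ge i j with h4 | h4
    · exact lt_trans h3 (ih h4 (by omega))
    · have : i = j := by omega
      rw [this]
      exact h3

theorem exists_TT_pred (hN : 3 ≤ N) [NeZero N] {v : ℤ → ℤ} (h : Slope N N v) (o : ℤ) (r : ℕ)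
    (hr1 : 1 ≤ r) (hr : r < N) (hd : Dec N (o + r - N) v)
    (hg : v (o + r - N + r + 1) + N < v (o + r - N + r)) :
    ∃ v' : ℤ → ℤ, Slope N N v' ∧ Dec N o v' ∧
      Asc v' (TT ((o : ℤ) : ZMod N) (fun _ => N - r) r) ∧
      run v' (TT ((o : ℤ) : ZMod N) (fun _ => N - r) r) = v := by
  set T := TT ((o : ℤ) : ZMod N) (fun _ => N - r) r with hT
  have hrun := run_reverse hN T v
  have hs := h.run T.reverse
  obtain ⟨a1, a2⟩ := run_TT_rect hN hs o r hr
  rw [← hT, hrun] at a1 a2
  have hdec : Dec N o (run v T.reverse) := by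
    intro i h1 h2
    rcases Nat.lt_trichotomy i r with h3 | h3 | h3
    · rw [← a1 i h1 h3.le]
      have := a1 (i + 1) (by omega) (by omega)
      have e : o + ((i + 1 : ℕ) : ℤ) = o + i + 1 := by push_cast; ring
      rw [e] at this
      rw [← this]
      have h4 := hd i h1 h2
      have e2 : o + (r : ℤ) - N + ((i + 1 : ℕ) : ℤ) = o + r - N + i + 1 := by push_cast; ring
      rw [e2]
      exact h4
    · subst h3
      rw [← a1 i h1 le_rfl]
      have h4 := a2 1 le_rfl (by omega)
      push_cast at h4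
      linarith
    · obtain ⟨j, rfl⟩ : ∃ j, i = r + j := ⟨i - r, by omega⟩
      have h4 := a2 j (by omega) (by omega)
      have h5 := a2 (j + 1) (by omega) (by omega)
      have h6 := hd (r + j) (by omega) h2
      have e1 : o + ((r + j : ℕ) : ℤ) = o + r + j := by push_cast; ring
      have e2 : o + (r : ℤ) - N + ((r + j : ℕ) : ℤ) = o + r - N + r + j := by push_cast; ring
      have e3 : o + (r : ℤ) + ((j + 1 : ℕ) : ℤ) = o + r + j + 1 := by push_cast; ring
      have e4 : o + (r : ℤ) - N + r + ((j + 1 : ℕ) : ℤ) = o + r - N + r + j + 1 := by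
        push_cast; ring
      rw [e3, e4] at h5
      rw [e2] at h6
      rw [e1]
      linarith
  refine ⟨run v T.reverse, hs, hdec, ?_, hrun⟩
  apply Asc_TT hN hs o r _ (fun _ _ _ => le_rfl) (by omega)
  intro i t hi ht
  have h1 := hdec.lt (i + 1) (by omega) (N - t) (by omega) (by omega)
  have h2 := hs (o - t)
  have e1 : o + ((N - t : ℕ) : ℤ) = o - t + N := by
    push_cast [Nat.cast_sub (show t ≤ N by omega)]; ring
  have e2 : o + ((i + 1 : ℕ) : ℤ) = o + i + 1 := by push_cast; ring
  rw [e1, e2] at h1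
  have hNpos : (0 : ℤ) < N := by omega
  linarith

end Pool.Agent.Schub.Aff
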