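import Pool.Agent.SchubU.Sort
import Pool.Agent.SchubU.Trans
import Pool.Agent.SchubU.RowId
import Pool.Agent.SchubU.Sym
import Pool.Agent.SchubU.Rect

/-!
The value of a reduced word and the translations.
-/

set_option autoImplicit false

namespace Pool.Agent.Schub.Aff

open MvPolynomial

variable {N : ℕ}

/-- The value of a reduced word. -/
noncomputable def val [NeZero N] (kap : ℝ) (u : ℤ → ℤ) (w : List (ZMod N)) : ℝ :=
  (kap / N) ^ w.length * (EE (N : ℤ) u w w.length : ℝ) / (w.length.factorial : ℝ)

/-! ### the rectangle -/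

/-- Value of the word `TT 0 mu r` on the level one variable. -/
noncomputable def bb [NeZero N] (r : ℕ) (mu : ℕ → ℕ) : ℝ :=
  (EE 1 (u0 N) (TT (0 : ZMod N) mu r) (∑ i ∈ Finset.range r, mu i) : ℝ)

theorem TT_congr (o : ZMod N) (mu mu' : ℕ → ℕ) (r : ℕ) (h : ∀ i < r, mu i = mu' i) :
    TT o mu r = TT o mu' r := by
  induction r with
  | zero => rfl
  | succ r ih =>
    simp only [TT]
    rw [h r (by omega), ih (fun i hi => h i (by omega))]

theorem length_blk (p : ZMod N) (n : ℕ) : (blk p n).length = n := by simp [blk]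

theorem length_TT (o : ZMod N) (mu : ℕ → ℕ) (r : ℕ) :
    (TT o mu r).length = ∑ i ∈ Finset.range r, mu i := by
  induction r with
  | zero => rfl
  | succ r ih =>
    simp only [TT]
    rw [List.length_append, length_blk, ih, Finset.sum_range_succ]
    ring

theorem del_append (u : ℤ → ℤ) (w1 w2 : List (ZMod N)) :
    del u (w1 ++ w2) = (del (run u w2) w1).map (fun p => (p.1, p.2 ++ w2)) ++
      (del u w2).map (fun p => (p.1, w1 ++ p.2)) := by
  induction w1 with
  | nil => simp [del]
  | cons k w1 ih =>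
    simp only [List.cons_append, del, ih, List.map_cons, List.map_append, List.map_map,
      run_append]
    rfl

theorem monotone_u0 (hN : 3 ≤ N) : Monotone (u0 N) := by
  intro i j hij
  unfold u0
  exact Int.ediv_le_ediv (by omega) (by omega)

theorem del_TT_ge (u : ℤ → ℤ) (o : ZMod N) (mu : ℕ → ℕ) (r : ℕ)
    (hnn : ∀ p ∈ del u (TT o mu r), 0 ≤ p.1)
    (hgap : ∀ (w1 w2 : List (ZMod N)) (k : ZMod N), TT o mu r = w1 ++ k :: w2 →
      gap (run u w2) k = 1)
    (g : List (ZMod N) → ℤ) (hg : ∀ w, 0 ≤ g w) (pre : List (ZMod N)) :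
    ∑ i ∈ (Finset.range r).filter (fun i => 0 < mu i),
        g (pre ++ TT o (fun k => if k = i then mu k - 1 else mu k) r) ≤
      ((del u (TT o mu r)).map (fun p => p.1 * g (pre ++ p.2))).sum := by
  induction r generalizing pre with
  | zero => simp [TT, del]
  | succ r ih =>
    simp only [TT] at hnn hgap ⊢
    rw [del_append] at hnn ⊢
    rw [Finset.range_add_one, Finset.filter_insert]
    have h1 : ∀ p ∈ del u (TT o mu r), 0 ≤ p.1 := by
      intro p hp
      have := hnn (p.1, blk (o + (r : ZMod N) + 1) (mu r) ++ p.2)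
        (List.mem_append_right _ (List.mem_map_of_mem hp))
      exact this
    have h2 : ∀ (w1 w2 : List (ZMod N)) (k : ZMod N), TT o mu r = w1 ++ k :: w2 →
        gap (run u w2) k = 1 := by
      intro w1 w2 k hw
      apply hgap (blk (o + (r : ZMod N) + 1) (mu r) ++ w1) w2 k
      rw [hw, List.append_assoc]
    have h3 := ih h1 h2 (pre ++ blk (o + (r : ZMod N) + 1) (mu r))
    have e1 : ∑ i ∈ (Finset.range r).filter (fun i => 0 < mu i),
        g (pre ++ blk (o + (r : ZMod N) + 1) (mu r) ++
          TT o (fun k => if k = i then mu k - 1 else mu k) r) =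
        ∑ i ∈ (Finset.range r).filter (fun i => 0 < mu i),
        g (pre ++ (blk (o + (r : ZMod N) + 1) (if r = i then mu r - 1 else mu r) ++
          TT o (fun k => if k = i then mu k - 1 else mu k) r)) := by
      apply Finset.sum_congr rfl
      intro i hi
      have hi' : i < r := by
        have := (Finset.mem_filter.1 hi).1
        exact Finset.mem_range.1 this
      rw [if_neg (by omega), List.append_assoc]
    rw [e1] at h3
    rw [List.map_append, List.sum_append]
    have e2 : ((List.map (fun p => (p.1, blk (o + (r : ZMod N) + 1) (mu r) ++ p.2))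
        (del u (TT o mu r))).map (fun p => p.1 * g (pre ++ p.2))).sum =
        ((del u (TT o mu r)).map (fun p => p.1 *
          g (pre ++ blk (o + (r : ZMod N) + 1) (mu r) ++ p.2))).sum := by
      rw [List.map_map]
      congr 1
      apply List.map_congr_left
      intro p _
      simp only [Function.comp, List.append_assoc]
    rw [e2]
    have h4 : ∀ p ∈ del (run u (TT o mu r)) (blk (o + (r : ZMod N) + 1) (mu r)), 0 ≤ p.1 := by
      intro p hp
      exact hnn (p.1, p.2 ++ TT o mu r) (List.mem_append_left _ (List.mem_map_of_mem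
        (f := fun p : ℤ × List (ZMod N) => (p.1, p.2 ++ TT o mu r)) hp))
    have h5 : 0 ≤ ((List.map (fun p => (p.1, p.2 ++ TT o mu r))
        (del (run u (TT o mu r)) (blk (o + (r : ZMod N) + 1) (mu r)))).map
          (fun p => p.1 * g (pre ++ p.2))).sum := by
      apply List.sum_nonneg
      intro x hx
      simp only [List.mem_map] at hx
      obtain ⟨p, ⟨q, hq, rfl⟩, rfl⟩ := hx
      exact mul_nonneg (h4 q hq) (hg _)
    by_cases hr : 0 < mu r
    · rw [if_pos hr, Finset.sum_insert (by simp)]
      obtain ⟨m, hm⟩ : ∃ m, mu r = m + 1 := ⟨mu r - 1, by omega⟩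
      have h6 : g (pre ++ (blk (o + (r : ZMod N) + 1) (if r = r then mu r - 1 else mu r) ++
          TT o (fun k => if k = r then mu k - 1 else mu k) r)) ≤
          ((List.map (fun p => (p.1, p.2 ++ TT o mu r))
          (del (run u (TT o mu r)) (blk (o + (r : ZMod N) + 1) (mu r)))).map
          (fun p => p.1 * g (pre ++ p.2))).sum := by
        rw [if_pos rfl, hm, blk_succ]
        simp only [del, List.map_cons, List.sum_cons, List.map_map]
        have h7 := hgap [] (blk (o + (r : ZMod N) + 1) m ++ TT o mu r)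
          (o + (r : ZMod N) + 1 - (m + 1 : ℕ)) (by rw [hm, blk_succ]; rfl)
        rw [run_append] at h7
        rw [h7]
        have e3 : TT o (fun k => if k = r then mu k - 1 else mu k) r = TT o mu r := by
          apply TT_congr
          intro i hi
          rw [if_neg (by omega)]
        rw [e3]
        have h8 : 0 ≤ (List.map ((fun p => p.1 * g (pre ++ p.2)) ∘ (fun p => (p.1, p.2 ++ TT o mu r)) ∘
            fun p => (p.1, (o + (r : ZMod N) + 1 - ((m + 1 : ℕ) : ZMod N)) :: p.2))
            (del (run u (TT o mu r)) (blk (o + (r : ZMod N) + 1) m))).sum := by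
          apply List.sum_nonneg
          intro x hx
          simp only [List.mem_map, Function.comp] at hx
          obtain ⟨q, hq, rfl⟩ := hx
          apply mul_nonneg _ (hg _)
          rw [hm, blk_succ] at h4
          simp only [del] at h4
          exact h4 (q.1, _ :: q.2) (List.mem_cons_of_mem _ (List.mem_map_of_mem
            (f := fun p : ℤ × List (ZMod N) =>
              (p.1, (o + (r : ZMod N) + 1 - ((m + 1 : ℕ) : ZMod N)) :: p.2)) hq))
        have e4 : m + 1 - 1 = m := by omega
        rw [e4]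
        linarith
      linarith
    · rw [if_neg hr]
      linarith

theorem Asc_TT_id (hN : 3 ≤ N) [NeZero N] (r : ℕ) (mu : ℕ → ℕ) (hmu : ∀ i j, i ≤ j → mu j ≤ mu i)
    (hr : r + mu 0 ≤ N) : Asc (fun i => i) (TT (0 : ZMod N) mu r) := by
  have h := Asc_TT hN (slope_id (N := N)) 0 r mu hmu hr (fun i t _ _ => by omega)
  have h0 : (0 : ZMod N) = ((0 : ℤ) : ZMod N) := by simp
  rw [h0]
  exact h

theorem bb_step (hN : 3 ≤ N) [NeZero N] (r : ℕ) (hr : r ≤ N) (mu : ℕ → ℕ)
    (hmu : ∀ i j, i ≤ j → mu j ≤ mu i) (h0 : mu 0 ≤ N - r) (hmr : mu r = 0)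
    (hne : mu ≠ (fun _ => 0)) :
    ∑ i ∈ (Finset.range r).filter (fun i => mu (i + 1) < mu i),
      bb (N := N) r (fun k => if k = i then mu k - 1 else mu k) ≤ bb (N := N) r mu := by
  have hsum : 1 ≤ ∑ i ∈ Finset.range r, mu i := by
    by_contra hcon
    push Not at hcon
    have h1 : ∑ i ∈ Finset.range r, mu i = 0 := by omega
    rw [Finset.sum_eq_zero_iff] at h1
    apply hne
    funext i
    rcases Nat.lt_or_ge i r with h2 | h2
    · exact h1 i (Finset.mem_range.2 h2)
    · have := hmu r i h2
      omega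
  obtain ⟨M, hM⟩ : ∃ M, ∑ i ∈ Finset.range r, mu i = M + 1 := ⟨_, (Nat.sub_add_cancel hsum).symm⟩
  have hmono := monotone_u0 hN
  have hslope := slope_u0 (N := N) hN
  have key := del_TT_ge (u0 N) (0 : ZMod N) mu r
    (del_nonneg hN hmono _ (Asc_TT_id hN r mu hmu (by omega)))
    (fun w1 w2 k hw => gap_TT hN r mu hmu (by omega) w1 w2 k hw)
    (fun w => EE 1 (u0 N) w M) (fun w => EE_nonneg hN hslope hmono M w) []
  simp only [List.nil_append] at key
  rw [← pEE_succ hN hslope, ← hM] at key
  have hle : ∑ i ∈ (Finset.range r).filter (fun i => mu (i + 1) < mu i),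
      EE 1 (u0 N) (TT (0 : ZMod N) (fun k => if k = i then mu k - 1 else mu k) r) M ≤
      ∑ i ∈ (Finset.range r).filter (fun i => 0 < mu i),
      EE 1 (u0 N) (TT (0 : ZMod N) (fun k => if k = i then mu k - 1 else mu k) r) M := by
    apply Finset.sum_le_sum_of_subset_of_nonneg
    · intro i hi
      rw [Finset.mem_filter] at hi ⊢
      exact ⟨hi.1, by omega⟩
    · intro i _ _
      exact EE_nonneg hN hslope hmono M _
  have hfin := le_trans hle key
  have hcong : ∀ i ∈ (Finset.range r).filter (fun i => mu (i + 1) < mu i),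
      bb (N := N) r (fun k => if k = i then mu k - 1 else mu k) =
        (EE 1 (u0 N) (TT (0 : ZMod N) (fun k => if k = i then mu k - 1 else mu k) r) M : ℝ) := by
    intro i hi
    rw [Finset.mem_filter, Finset.mem_range] at hi
    have h1 : ∑ k ∈ Finset.range r, (if k = i then mu k - 1 else mu k) = M := by
      have h2 : ∑ k ∈ Finset.range r, (if k = i then mu k - 1 else mu k) + 1 = M + 1 := by
        rw [← hM, ← Finset.add_sum_erase _ _ (Finset.mem_range.2 hi.1),
          ← Finset.add_sum_erase (Finset.range r) mu (Finset.mem_range.2 hi.1), if_pos rfl]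
        have h3 : ∑ x ∈ (Finset.range r).erase i, (if x = i then mu x - 1 else mu x) =
            ∑ x ∈ (Finset.range r).erase i, mu x := by
          apply Finset.sum_congr rfl
          intro x hx
          rw [if_neg (Finset.ne_of_mem_erase hx)]
        rw [h3]
        have := hi.2
        omega
      omega
    unfold bb
    rw [h1]
  rw [Finset.sum_congr rfl hcong]
  unfold bb
  exact_mod_cast hfin

theorem bb_rect (hN : 3 ≤ N) [NeZero N] (r : ℕ) (hr : r ≤ N) :
    ((r * (N - r)).factorial : ℝ) /
        ∏ i ∈ Finset.range r, ∏ j ∈ Finset.range (N - r), ((i : ℝ) + j + 1) ≤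
      bb (N := N) r (fun _ => N - r) := by
  have h := rect_lower (bb (N := N) r) r (N - r) ?_ ?_ ?_ ?_
  · have e : bb (N := N) r (fun k => if k < r then N - r else 0) = bb (N := N) r (fun _ => N - r) := by
      unfold bb
      rw [TT_congr (0 : ZMod N) (fun k => if k < r then N - r else 0) (fun _ => N - r) r
        (fun i hi => if_pos hi)]
      rw [Finset.sum_congr rfl (fun i hi => if_pos (Finset.mem_range.1 hi))]
    rw [e] at h
    exact h
  · intro mu mu' hh
    unfold bb
    rw [TT_congr (0 : ZMod N) mu mu' r hh,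
      Finset.sum_congr rfl (fun i hi => hh i (Finset.mem_range.1 hi))]
  · unfold bb
    have e : ∀ r, TT (0 : ZMod N) (fun _ => 0) r = [] := by
      intro r
      induction r with
      | zero => rfl
      | succ r ih =>
        simp only [TT, ih]
        simp [blk]
    rw [e, Finset.sum_const_zero, EE_zero hN]
    simp
  · intro mu
    unfold bb
    exact_mod_cast EE_nonneg hN (slope_u0 hN) (monotone_u0 hN) _ _
  · intro mu h1 h2 h3 h4
    exact bb_step hN r hr mu h1 h2 h3 h4

/-- The value of a translation step. -/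
theorem EE_TT (hN : 3 ≤ N) [NeZero N] {u : ℤ → ℤ} (hu : Slope N N u) (hm : StrictMono u)
    (w : List (ZMod N)) (hw : Asc u w) (o : ℤ) (hd : Dec N o (run u w)) (r : ℕ) :
    (EE (N : ℤ) u (TT ((o : ℤ) : ZMod N) (fun _ => N - r) r ++ w) (w.length + r * (N - r)) : ℝ) =
      (N : ℝ) ^ (r * (N - r)) * ((w.length + r * (N - r)).choose (r * (N - r)) : ℝ) *
        (EE (N : ℤ) u w w.length : ℝ) * bb (N := N) r (fun _ => N - r) := by
  set s := r * (N - r) with hs
  have hlen : (TT (0 : ZMod N) (fun _ => N - r) r).length = s := by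
    rw [length_TT, Finset.sum_const, Finset.card_range, smul_eq_mul]
  have h1 : ∀ k : ZMod N, k ≠ ((o : ℤ) : ZMod N) →
      sg k (Aw w ((form N u : P N) ^ (w.length + s))) =
        Aw w ((form N u : P N) ^ (w.length + s)) := by
    intro k hk
    -- position of `k` in the window
    have hNpos : (0 : ℤ) < N := by omega
    set t : ℤ := (rep k - o) % N with ht
    have t0 : 0 ≤ t := Int.emod_nonneg _ hNpos.ne'
    have t1 : t < N := Int.emod_lt_of_pos _ hNpos
    obtain ⟨i, hi⟩ : ∃ i : ℕ, (i : ℤ) = t := ⟨t.toNat, Int.toNat_of_nonneg t0⟩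
    have hq := Int.emod_add_mul_ediv (rep k - o) N
    have hc : (((o + i : ℤ)) : ZMod N) = k := by
      have e1 : o + (i : ℤ) = rep k - N * ((rep k - o) / N) := by rw [hi, ht]; linarith
      rw [e1]
      push_cast
      rw [rep_cast]
      simp
    have hi0 : i ≠ 0 := by
      rintro rfl
      apply hk
      rw [← hc]
      simp
    have h2 := hd i (by omega) (by omega)
    have h3 : gap (run u w) k < 0 := by
      rw [gap_at (hu.run w) hc]
      omega
    obtain ⟨w', -, -, -, hA⟩ := peel hN hu hm w.length w rfl hw k h3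
    rw [hA, sg_A hN]
  have h2 := q0_Aw_sym hN ((o : ℤ) : ZMod N) (TT (0 : ZMod N) (fun _ => N - r) r)
    (Aw w ((form N u : P N) ^ (w.length + s))) h1
  rw [TT_map, hlen, coeff_Aw_pow hN hu w w.length s] at h2
  have h3 : EE (N : ℤ) u (TT ((o : ℤ) : ZMod N) (fun _ => N - r) r ++ w) (w.length + s) =
      q0 (Aw (TT ((o : ℤ) : ZMod N) (fun _ => N - r) r)
        (Aw w ((form N u : P N) ^ (w.length + s)))) := by
    unfold EE
    rw [Aw_append]
  rw [h3, h2]
  have h4 : bb (N := N) r (fun _ => N - r) =
      (q0 (Aw (TT (0 : ZMod N) (fun _ => N - r) r) ((X none : P N) ^ s)) : ℝ) := by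
    unfold bb EE
    rw [form_u0, Finset.sum_const, Finset.card_range, smul_eq_mul]
  rw [h4]
  push_cast
  ring

theorem val_TT (hN : 3 ≤ N) [NeZero N] {kap : ℝ} (hk : 0 < kap)
    (hD : ∀ r : ℕ, 1 ≤ r → r < N →
      ∏ i ∈ Finset.range r, ∏ j ∈ Finset.range (N - r), ((i : ℝ) + j + 1) ≤ kap ^ (r * (N - r)))
    {u : ℤ → ℤ} (hu : Slope N N u) (hm : StrictMono u)
    (w : List (ZMod N)) (hw : Asc u w) (o : ℤ) (hd : Dec N o (run u w)) (r : ℕ) (hr1 : 1 ≤ r)
    (hr : r < N) :
    val kap u w ≤ val kap u (TT ((o : ℤ) : ZMod N) (fun _ => N - r) r ++ w) := by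
  set s := r * (N - r) with hs
  have hlen : (TT ((o : ℤ) : ZMod N) (fun _ => N - r) r ++ w).length = w.length + s := by
    rw [List.length_append, length_TT, Finset.sum_const, Finset.card_range, smul_eq_mul]
    ring
  have hNpos : (0 : ℝ) < N := by
    have : 0 < N := by omega
    exact_mod_cast this
  have h1 := EE_TT hN hu hm w hw o hd r
  rw [← hs] at h1
  unfold val
  rw [hlen, h1]
  set l := w.length with hl
  have hE : (0 : ℝ) ≤ (EE (N : ℤ) u w l : ℝ) := by
    have := EE_pos hN hu hm w hw
    have h2 : (1 : ℤ) ≤ EE (N : ℤ) u w l := this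
    have : (0 : ℤ) ≤ EE (N : ℤ) u w l := by omega
    exact_mod_cast this
  have hb := bb_rect hN r hr.le
  rw [← hs] at hb
  have hprod : 0 < ∏ i ∈ Finset.range r, ∏ j ∈ Finset.range (N - r), ((i : ℝ) + j + 1) := by
    apply Finset.prod_pos
    intro i _
    apply Finset.prod_pos
    intro j _
    positivity
  have hb2 : (s.factorial : ℝ) ≤ kap ^ s * bb (N := N) r (fun _ => N - r) := by
    have h3 := hD r hr1 hr
    rw [← hs] at h3
    rw [div_le_iff₀ hprod] at hb
    have hbn : 0 ≤ bb (N := N) r (fun _ => N - r) := by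
      have h5 := bb_rect hN r hr.le
      exact le_trans (by positivity) h5
    nlinarith [mul_le_mul_of_nonneg_left h3 hbn]
  have hch : ((l + s).choose s : ℝ) * (l.factorial : ℝ) * (s.factorial : ℝ) =
      ((l + s).factorial : ℝ) := by
    have := Nat.choose_mul_factorial_mul_factorial (show s ≤ l + s by omega)
    rw [Nat.add_sub_cancel] at this
    have h4 : (((l + s).choose s * s.factorial * l.factorial : ℕ) : ℝ) =
      (((l + s).factorial : ℕ) : ℝ) := by rw [this]
    push_cast at h4
    linarith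
  have hl0 : (0 : ℝ) < (l.factorial : ℝ) := by exact_mod_cast Nat.factorial_pos l
  have hls0 : (0 : ℝ) < ((l + s).factorial : ℝ) := by exact_mod_cast Nat.factorial_pos _
  rw [div_le_div_iff₀ hl0 hls0, ← hch, div_pow, div_pow, pow_add, pow_add]
  have e1 : kap ^ l * kap ^ s / ((N : ℝ) ^ l * (N : ℝ) ^ s) * ((N : ℝ) ^ s * ((l + s).choose s : ℝ) *
      (EE (N : ℤ) u w l : ℝ) * bb (N := N) r (fun _ => N - r)) * (l.factorial : ℝ) =
      (kap ^ l / (N : ℝ) ^ l * (EE (N : ℤ) u w l : ℝ) * ((l + s).choose s : ℝ) * (l.factorial : ℝ)) *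
        (kap ^ s * bb (N := N) r (fun _ => N - r)) := by
    field_simp
  rw [e1]
  have e2 : kap ^ l / (N : ℝ) ^ l * (EE (N : ℤ) u w l : ℝ) *
      (((l + s).choose s : ℝ) * (l.factorial : ℝ) * (s.factorial : ℝ)) =
      (kap ^ l / (N : ℝ) ^ l * (EE (N : ℤ) u w l : ℝ) * ((l + s).choose s : ℝ) * (l.factorial : ℝ)) *
        (s.factorial : ℝ) := by ring
  rw [e2]
  apply mul_le_mul_of_nonneg_left hb2
  positivity

end Pool.Agent.Schub.Aff
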