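import Pool.Agent.SchubU.Ops

/-!
Words in the letters `ZMod N`, states, and the deletion formula.
-/

set_option autoImplicit false

namespace Pool.Agent.Schub.Aff

open MvPolynomial

variable {N : ℕ}

/-- The representative of a letter in `1, …, N`. -/
def rep (k : ZMod N) : ℤ := if k = 0 then (N : ℤ) else (k.val : ℤ)

theorem rep_cast [NeZero N] (k : ZMod N) : ((rep k : ℤ) : ZMod N) = k := by
  unfold rep
  split_ifs with h
  · rw [h]; simp
  · simp

theorem rep_succ (hN : 3 ≤ N) (k : ZMod N) :
    rep (k + 1) = rep k + 1 - (if k = 0 then (N : ℤ) else 0) := by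
  have : NeZero N := ⟨by omega⟩
  unfold rep
  by_cases hk : k = 0
  · subst hk
    have h1 : (0 : ZMod N) + 1 ≠ 0 := by rw [zero_add]; exact one_ne hN
    rw [if_neg h1, if_pos rfl, if_pos rfl, zero_add]
    have : (1 : ZMod N).val = 1 := by
      have := ZMod.val_natCast_of_lt (n := N) (a := 1) (by omega)
      simpa using this
    rw [this]
    push_cast
    ring
  · rw [if_neg hk, if_neg hk]
    by_cases h2 : k + 1 = 0
    · rw [if_pos h2]
      have h3 : (k.val + 1 : ℕ) = N := by
        have h4 : ((k.val + 1 : ℕ) : ZMod N) = 0 := by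
          push_cast
          rw [ZMod.natCast_zmod_val]
          exact h2
        rw [ZMod.natCast_eq_zero_iff] at h4
        have h5 := ZMod.val_lt k
        have h6 := Nat.le_of_dvd (by omega) h4
        omega
      have : (k.val : ℤ) + 1 = N := by exact_mod_cast h3
      rw [← this]
      ring
    · rw [if_neg h2]
      have h3 : (k + 1).val = k.val + 1 := by
        have h5 := ZMod.val_lt k
        have h6 : k.val + 1 < N := by
          rcases Nat.lt_or_ge (k.val + 1) N with h | h
          · exact h
          · exfalso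
            apply h2
            have h7 : k.val + 1 = N := by omega
            have h8 : ((k.val + 1 : ℕ) : ZMod N) = 0 := by rw [h7]; simp
            push_cast at h8
            rw [ZMod.natCast_zmod_val] at h8
            exact h8
        have h7 : ((k.val + 1 : ℕ) : ZMod N) = k + 1 := by
          push_cast
          rw [ZMod.natCast_zmod_val]
        rw [← h7, ZMod.val_natCast_of_lt h6]
      rw [h3]
      push_cast
      ring

/-- A function which grows by `c` over a period. -/
def Slope (N : ℕ) (c : ℤ) (u : ℤ → ℤ) : Prop := ∀ i, u (i + N) = u i + c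

theorem Slope.mul {c : ℤ} {u : ℤ → ℤ} (h : Slope N c u) (i m : ℤ) : u (i + N * m) = u i + c * m := by
  induction m using Int.induction_on with
  | zero => simp
  | succ m ih =>
    have e : i + N * ((m : ℤ) + 1) = (i + N * m) + N := by ring
    rw [e, h, ih]
    ring
  | pred m ih =>
    have e : i + N * (-(m : ℤ)) = (i + N * (-(m : ℤ) - 1)) + N := by ring
    rw [e, h] at ih
    linarith

theorem Slope.eq_of_cast {c : ℤ} {u : ℤ → ℤ} (h : Slope N c u) {i j : ℤ}
    (hij : (i : ZMod N) = (j : ZMod N)) (d e : ℤ) : u (i + d) - u (i + e) = u (j + d) - u (j + e) := by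
  rw [ZMod.intCast_eq_intCast_iff_dvd_sub] at hij
  obtain ⟨m, hm⟩ := hij
  have e1 : j = i + N * m := by linarith
  have e2 : j + d = (i + d) + N * m := by rw [e1]; ring
  have e3 : j + e = (i + e) + N * m := by rw [e1]; ring
  rw [e2, e3, h.mul, h.mul]
  ring

/-- The increment of a function at a letter. -/
def gap (u : ℤ → ℤ) (k : ZMod N) : ℤ := u (rep k + 1) - u (rep k)

theorem gap_eq [NeZero N] {c : ℤ} {u : ℤ → ℤ} (h : Slope N c u) (i : ℤ) :
    gap u (i : ZMod N) = u (i + 1) - u i := by
  have := h.eq_of_cast (i := rep (i : ZMod N)) (j := i) (rep_cast _) 1 0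
  simpa [gap] using this

/-- The exchange of the positions `k` and `k + 1`. -/
def aff (k : ZMod N) (i : ℤ) : ℤ :=
  if (i : ZMod N) = k then i + 1 else if (i : ZMod N) = k + 1 then i - 1 else i

theorem aff_self (i : ℤ) : aff (i : ZMod N) i = i + 1 := by simp [aff]

theorem aff_of {k : ZMod N} {i : ℤ} (h : (i : ZMod N) = k) : aff k i = i + 1 := by simp [aff, h]

theorem aff_of_succ (hN : 3 ≤ N) {k : ZMod N} {i : ℤ} (h : (i : ZMod N) = k + 1) :
    aff k i = i - 1 := by
  unfold aff
  rw [if_neg (by rw [h]; exact succ_ne hN k), if_pos h]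

theorem aff_ne {k : ZMod N} {i : ℤ} (h1 : (i : ZMod N) ≠ k) (h2 : (i : ZMod N) ≠ k + 1) :
    aff k i = i := by
  unfold aff
  rw [if_neg h1, if_neg h2]

theorem aff_add (k : ZMod N) (i : ℤ) : aff k (i + N) = aff k i + N := by
  unfold aff
  have : ((i + N : ℤ) : ZMod N) = (i : ZMod N) := by push_cast; simp
  rw [this]
  split_ifs <;> ring

theorem aff_aff (hN : 3 ≤ N) (k : ZMod N) (i : ℤ) : aff k (aff k i) = i := by
  by_cases h1 : (i : ZMod N) = k
  · rw [aff_of h1, aff_of_succ hN (by push_cast; rw [h1])]
    ring
  · by_cases h2 : (i : ZMod N) = k + 1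
    · rw [aff_of_succ hN h2, aff_of (by push_cast; rw [h2]; ring)]
      ring
    · rw [aff_ne h1 h2, aff_ne h1 h2]

theorem Slope.comp {c : ℤ} {u : ℤ → ℤ} (h : Slope N c u) (k : ZMod N) :
    Slope N c (fun i => u (aff k i)) := by
  intro i
  show u (aff k (i + N)) = u (aff k i) + c
  rw [aff_add, h]

theorem slope_id : Slope N N (fun i => i) := fun _ => rfl

/-- The linear form of a function of slope `c`. -/
noncomputable def form [NeZero N] (c : ℤ) (u : ℤ → ℤ) : P N :=
  (c : P N) * X none - ∑ j : ZMod N, (u (rep j) : P N) * X (some j)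

theorem sg_form (hN : 3 ≤ N) [NeZero N] {c : ℤ} {u : ℤ → ℤ} (h : Slope N c u) (k : ZMod N) :
    sg k (form c u : P N) = form c u - (gap u k : P N) * al k := by
  have e0 : gap u k = c * pr k none - ∑ j : ZMod N, u (rep j) * pr k (some j) := by
    have h1 : ∑ j : ZMod N, u (rep j) * pr k (some j) = u (rep k) - u (rep (k + 1)) := by
      simp only [pr, mul_sub, mul_ite, mul_one, mul_zero, Finset.sum_sub_distrib,
        Finset.sum_ite_eq', Finset.mem_univ, if_true]
    rw [h1, rep_succ hN]
    unfold gap pr
    split_ifs with hk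
    · have h2 := h.mul (rep k + 1 - N) 1
      have e : rep k + 1 - (N : ℤ) + N * 1 = rep k + 1 := by ring
      rw [e] at h2
      rw [h2]
      ring
    · rw [sub_zero]
      ring
  rw [e0]
  unfold form
  rw [map_sub, map_mul, map_sum, sg_X, map_intCast]
  have e1 : ∀ j : ZMod N, sg k ((u (rep j) : P N) * X (some j)) =
      (u (rep j) : P N) * X (some j) - ((u (rep j) * pr k (some j) : ℤ) : P N) * al k := by
    intro j
    rw [map_mul, map_intCast, sg_X]
    push_cast
    ring
  rw [Finset.sum_congr rfl (fun j _ => e1 j), Finset.sum_sub_distrib, ← Finset.sum_mul]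
  push_cast
  ring

theorem form_comp (hN : 3 ≤ N) [NeZero N] {c : ℤ} {u : ℤ → ℤ} (h : Slope N c u) (k : ZMod N) :
    (form c (fun i => u (aff k i)) : P N) = form c u - (gap u k : P N) * al k := by
  have key : ∀ j : ZMod N, u (aff k (rep j)) =
      u (rep j) + gap u k * ((if j = k then 1 else 0) - (if j = k + 1 then 1 else 0)) := by
    intro j
    by_cases h1 : j = k
    · subst h1
      rw [aff_of (rep_cast j), if_pos rfl, if_neg (succ_ne hN j).symm]
      unfold gap
      ring
    · by_cases h2 : j = k + 1
      · have h3 : ((rep j : ℤ) : ZMod N) = k + 1 := by rw [rep_cast, h2]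
        rw [aff_of_succ hN h3, if_neg h1, if_pos h2]
        have h4 := h.eq_of_cast (i := rep j) (j := rep k + 1) (by push_cast; rw [h3, rep_cast]) 0
          (-1)
        have e1 : rep k + 1 + -1 = rep k := by ring
        rw [e1, add_zero, add_zero] at h4
        have e2 : rep j - 1 = rep j + -1 := by ring
        rw [e2]
        unfold gap
        linarith
      · rw [aff_ne (by rw [rep_cast]; exact h1) (by rw [rep_cast]; exact h2), if_neg h1, if_neg h2]
        ring
  unfold form
  have e1 : ∑ j : ZMod N, ((u (aff k (rep j)) : ℤ) : P N) * X (some j) =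
      ∑ j : ZMod N, (u (rep j) : P N) * X (some j) + (gap u k : P N) * al k := by
    have e2 : ∀ j : ZMod N, ((u (aff k (rep j)) : ℤ) : P N) * X (some j) =
        (u (rep j) : P N) * X (some j) +
          ((if j = k then (gap u k : P N) * X (some j) else 0)
            - (if j = k + 1 then (gap u k : P N) * X (some j) else 0)) := by
      intro j
      rw [key j]
      push_cast
      split_ifs <;> ring
    rw [Finset.sum_congr rfl (fun j _ => e2 j), Finset.sum_add_distrib, Finset.sum_sub_distrib,
      Finset.sum_ite_eq', Finset.sum_ite_eq']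
    simp only [Finset.mem_univ, if_true]
    unfold al
    ring
  rw [e1]
  ring

theorem A_form (hN : 3 ≤ N) [NeZero N] {c : ℤ} {u : ℤ → ℤ} (h : Slope N c u) (k : ZMod N) :
    A k (form c u : P N) = (gap u k : P N) := by
  apply A_eq hN
  rw [sg_form hN h]
  ring

theorem sg_form' (hN : 3 ≤ N) [NeZero N] {c : ℤ} {u : ℤ → ℤ} (h : Slope N c u) (k : ZMod N) :
    sg k (form c u : P N) = form c (fun i => u (aff k i)) := by
  rw [sg_form hN h, form_comp hN h]

/-! ### words -/

/-- The function after the word (the head of the list acts last). -/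
def run (u : ℤ → ℤ) : List (ZMod N) → ℤ → ℤ
  | [] => u
  | k :: w => fun i => run u w (aff k i)

theorem Slope.run {c : ℤ} {u : ℤ → ℤ} (h : Slope N c u) (w : List (ZMod N)) :
    Slope N c (run u w) := by
  induction w with
  | nil => exact h
  | cons k w ih => exact ih.comp k

/-- The product of the divided differences. -/
noncomputable def Aw : List (ZMod N) → P N → P N
  | [], f => f
  | k :: w, f => A k (Aw w f)

/-- The list of the deletions of one letter, with coefficients. -/
def del (u : ℤ → ℤ) : List (ZMod N) → List (ℤ × List (ZMod N))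
  | [] => []
  | k :: w => (gap (run u w) k, w) :: (del u w).map (fun p => (p.1, k :: p.2))

theorem Aw_add (hN : 3 ≤ N) (w : List (ZMod N)) (f g : P N) : Aw w (f + g) = Aw w f + Aw w g := by
  induction w with
  | nil => rfl
  | cons k w ih => simp only [Aw, ih, A_add hN]

theorem A_list_sum (hN : 3 ≤ N) (k : ZMod N) (l : List (ℤ × List (ZMod N))) (g : P N) :
    A k (l.map (fun p => (p.1 : P N) * Aw p.2 g)).sum =
      (l.map (fun p => (p.1 : P N) * A k (Aw p.2 g))).sum := by
  induction l with
  | nil => simpa using A_zero hN k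
  | cons p l ih => simp only [List.map_cons, List.sum_cons, A_add hN, ih, A_int_mul hN]

theorem Aw_form_mul (hN : 3 ≤ N) [NeZero N] {c : ℤ} {u : ℤ → ℤ} (h : Slope N c u)
    (w : List (ZMod N)) (g : P N) :
    Aw w (form c u * g) = form c (run u w) * Aw w g
      + ((del u w).map (fun p => (p.1 : P N) * Aw p.2 g)).sum := by
  induction w with
  | nil => simp [Aw, run, del]
  | cons k w ih =>
    simp only [Aw, ih, A_add hN, del, List.map_cons, List.sum_cons, List.map_map, run]
    rw [A_mul hN, A_form hN (h.run w), sg_form' hN (h.run w), A_list_sum hN]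
    have e : ((fun p : ℤ × List (ZMod N) => (p.1 : P N) * Aw p.2 g) ∘
        fun p : ℤ × List (ZMod N) => (p.1, k :: p.2)) =
        fun p => (p.1 : P N) * A k (Aw p.2 g) := rfl
    rw [e]
    ring

theorem length_del (u : ℤ → ℤ) (w : List (ZMod N)) :
    ∀ p ∈ del u w, p.2.length + 1 = w.length := by
  induction w with
  | nil => simp [del]
  | cons k w ih =>
    intro p hp
    simp only [del, List.mem_cons, List.mem_map] at hp
    rcases hp with rfl | ⟨q, hq, rfl⟩
    · rfl
    · have := ih q hq
      simp only [List.length_cons]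
      omega

end Pool.Agent.Schub.Aff
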